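import Pool.Agent.H30.PD.Defs

/-!
# JOB PD-BIN. Binomial estimates (the lower bound is in BinLow.lean)

Proofs.
* `central`: `C(2h,h)/4^h ≤ 1/√(3h+1)` by induction (`Nat.succ_mul_centralBinom_succ`).
* `bin_le`: `C(n,k) ≤ C(n,n/2)` (`Nat.choose_le_middle`); `n = 2h`: `central`; `n = 2h+1`:
  `C(2h+1,h) = C(2h+2,h+1)/2`.
* `bin_tail` (Hoeffding): `∑ k, bin n k exp(s(2k-n)) = cosh(s)^n ≤ exp(s²n/2)` (`Real.cosh_le_exp_half_sq`), Markov with
  `s = x/n` and both signs.
* `bin_add`: Vandermonde (`Nat.add_choose_eq`).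
-/

set_option autoImplicit false

namespace Pool.Agent.H30.PD

open Finset

theorem bin_nonneg (n k : ℕ) : 0 ≤ bin n k := by
  unfold bin
  positivity

theorem bin_eq_zero {n k : ℕ} (h : n < k) : bin n k = 0 := by
  unfold bin
  rw [Nat.choose_eq_zero_of_lt h]
  simp

theorem sum_bin (n : ℕ) : ∑ k ∈ range (n + 1), bin n k = 1 := by
  unfold bin
  rw [← Finset.sum_div]
  have h : ∑ k ∈ range (n + 1), (n.choose k : ℝ) = 2 ^ n := by
    exact_mod_cast Nat.sum_range_choose n
  rw [h]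
  exact div_self (by positivity)

/-- also over longer ranges -/
theorem sum_bin_le (n m : ℕ) : ∑ k ∈ range m, bin n k ≤ 1 := by
  rw [← sum_bin n]
  have h1 : ∑ k ∈ range m, bin n k ≤ ∑ k ∈ range (max m (n + 1)), bin n k :=
    Finset.sum_le_sum_of_subset_of_nonneg (Finset.range_mono (le_max_left _ _))
      (fun i _ _ => bin_nonneg n i)
  have h2 : ∑ k ∈ range (n + 1), bin n k = ∑ k ∈ range (max m (n + 1)), bin n k := by
    apply Finset.sum_subset (Finset.range_mono (le_max_right _ _))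
    intro i _ hi
    rw [Finset.mem_range, not_lt] at hi
    exact bin_eq_zero (by omega)
  rw [h2]
  exact h1

theorem bin_le_one (n k : ℕ) : bin n k ≤ 1 := by
  have h := sum_bin_le n (k + 1)
  rw [Finset.sum_range_succ] at h
  have h0 : 0 ≤ ∑ i ∈ range k, bin n i := Finset.sum_nonneg (fun i _ => bin_nonneg n i)
  linarith

theorem bin_central (h : ℕ) : (h.centralBinom : ℝ) ^ 2 * (3 * h + 1) ≤ (4 ^ h) ^ 2 := by
  induction h with
  | zero => simp
  | succ h ih =>
    have e : ((h + 1 : ℕ) : ℝ) * ((h + 1).centralBinom : ℝ) =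
        2 * (2 * h + 1) * (h.centralBinom : ℝ) := by
      exact_mod_cast Nat.succ_mul_centralBinom_succ h
    set c : ℝ := (h.centralBinom : ℝ)
    set d : ℝ := ((h + 1).centralBinom : ℝ)
    set x : ℝ := (h : ℝ) with hx
    have hx0 : 0 ≤ x := Nat.cast_nonneg h
    push_cast at e ⊢
    rw [← hx] at e ⊢
    have hpos : 0 < (x + 1) ^ 2 := by positivity
    have h2 : (x + 1) ^ 2 * (d ^ 2 * (3 * (x + 1) + 1)) =
        (2 * (2 * x + 1)) ^ 2 * c ^ 2 * (3 * x + 4) := by
      have : (x + 1) ^ 2 * d ^ 2 = (2 * (2 * x + 1)) ^ 2 * c ^ 2 := by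
        rw [← mul_pow, e, mul_pow]
      calc (x + 1) ^ 2 * (d ^ 2 * (3 * (x + 1) + 1)) = ((x + 1) ^ 2 * d ^ 2) * (3 * x + 4) := by
            ring
        _ = _ := by rw [this]
    have h3 : (2 * (2 * x + 1)) ^ 2 * c ^ 2 * (3 * x + 4) ≤ (x + 1) ^ 2 * (4 ^ (h + 1)) ^ 2 := by
      have h4 : (2 * (2 * x + 1)) ^ 2 * (3 * x + 4) ≤ 16 * (x + 1) ^ 2 * (3 * x + 1) := by
        nlinarith [mul_nonneg hx0 hx0]
      have h5 : ((4 : ℝ) ^ (h + 1)) ^ 2 = 16 * (4 ^ h) ^ 2 := by ring
      rw [h5]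
      have hc : 0 ≤ c ^ 2 := sq_nonneg _
      calc (2 * (2 * x + 1)) ^ 2 * c ^ 2 * (3 * x + 4)
          = c ^ 2 * ((2 * (2 * x + 1)) ^ 2 * (3 * x + 4)) := by ring
        _ ≤ c ^ 2 * (16 * (x + 1) ^ 2 * (3 * x + 1)) := mul_le_mul_of_nonneg_left h4 hc
        _ = 16 * (x + 1) ^ 2 * (c ^ 2 * (3 * x + 1)) := by ring
        _ ≤ 16 * (x + 1) ^ 2 * (4 ^ h) ^ 2 := mul_le_mul_of_nonneg_left ih (by positivity)
        _ = _ := by ring
    rw [← h2] at h3
    exact le_of_mul_le_mul_left h3 hpos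

theorem bin_middle_even {h : ℕ} (hh : 1 ≤ h) : bin (2 * h) h ≤ 1 / Real.sqrt (2 * h + 1 : ℝ) := by
  have hx : (1 : ℝ) ≤ h := by exact_mod_cast hh
  have h1 := bin_central h
  rw [Nat.centralBinom_eq_two_mul_choose] at h1
  unfold bin
  have h4 : (2 : ℝ) ^ (2 * h) = 4 ^ h := by
    rw [pow_mul]; norm_num
  rw [h4]
  set c : ℝ := ((2 * h).choose h : ℝ)
  have hc : 0 ≤ c := Nat.cast_nonneg _
  have h4p : (0 : ℝ) < 4 ^ h := by positivity
  rw [div_le_div_iff₀ h4p (Real.sqrt_pos.2 (by linarith)), one_mul]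
  apply le_of_sq_le_sq _ h4p.le
  rw [mul_pow, Real.sq_sqrt (by linarith)]
  nlinarith [sq_nonneg c]

theorem bin_le {n : ℕ} (hn : 1 ≤ n) (k : ℕ) : bin n k ≤ 1 / Real.sqrt n := by
  have hmid : bin n k ≤ bin n (n / 2) := by
    unfold bin
    apply div_le_div_of_nonneg_right _ (by positivity)
    exact_mod_cast Nat.choose_le_middle k n
  refine hmid.trans ?_
  have hn0 : (0 : ℝ) < n := by exact_mod_cast hn
  rcases Nat.even_or_odd' n with ⟨h, rfl | rfl⟩
  · rw [Nat.mul_div_cancel_left h (by norm_num)]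
    refine (bin_middle_even (by omega)).trans ?_
    apply one_div_le_one_div_of_le (Real.sqrt_pos.2 hn0)
    apply Real.sqrt_le_sqrt
    push_cast
    linarith
  · have e : (2 * h + 1) / 2 = h := by omega
    rw [e]
    have h1 : bin (2 * h + 1) h = bin (2 * (h + 1)) (h + 1) := by
      unfold bin
      have h2 : (2 * (h + 1)).choose (h + 1) = 2 * (2 * h + 1).choose h := by
        have h3 : 2 * (h + 1) = (2 * h + 1) + 1 := by ring
        rw [h3, Nat.choose_succ_succ']
        have h4 : (2 * h + 1).choose (h + 1) = (2 * h + 1).choose h := by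
          rw [← Nat.choose_symm_of_eq_add]
          ring
        omega
      rw [h2]
      have h5 : 2 * (h + 1) = (2 * h + 1) + 1 := by ring
      rw [h5, pow_succ _ (2 * h + 1)]
      push_cast
      have h6 : (2 : ℝ) ^ (2 * h + 1) ≠ 0 := by positivity
      field_simp
    rw [h1]
    refine (bin_middle_even (by omega)).trans ?_
    apply one_div_le_one_div_of_le (Real.sqrt_pos.2 hn0)
    apply Real.sqrt_le_sqrt
    push_cast
    linarith

theorem bin_add (a b k : ℕ) : bin (a + b) k = ∑ i ∈ range (k + 1), bin a i * bin b (k - i) := by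
  unfold bin
  have h := Nat.add_choose_eq a b k
  rw [Finset.Nat.sum_antidiagonal_eq_sum_range_succ_mk] at h
  rw [h]
  push_cast
  rw [Finset.sum_div]
  apply Finset.sum_congr rfl
  intro i _
  rw [pow_add]
  field_simp

theorem sum_bin_three (n : ℕ) : ∑ k ∈ range (n + 1), bin n k * 3 ^ k = 2 ^ n := by
  have h := add_pow (3 : ℝ) 1 n
  simp only [one_pow, mul_one] at h
  unfold bin
  have h2 : ∑ k ∈ range (n + 1), (n.choose k : ℝ) / 2 ^ n * 3 ^ k =
      (∑ k ∈ range (n + 1), (3 : ℝ) ^ k * (n.choose k : ℝ)) / 2 ^ n := by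
    rw [Finset.sum_div]
    apply Finset.sum_congr rfl
    intro i _
    ring
  rw [h2, ← h]
  have h3 : (3 + 1 : ℝ) = 2 * 2 := by norm_num
  rw [h3, mul_pow]
  field_simp

theorem bin_mgf (n : ℕ) (s : ℝ) :
    ∑ k ∈ range (n + 1), bin n k * Real.exp (s * (2 * (k : ℝ) - n)) = Real.cosh s ^ n := by
  rw [Real.cosh_eq, div_pow, add_pow, Finset.sum_div]
  apply Finset.sum_congr rfl
  intro k hk
  rw [Finset.mem_range] at hk
  unfold bin
  rw [← Real.exp_nat_mul, ← Real.exp_nat_mul, ← Real.exp_add]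
  have e : s * (2 * (k : ℝ) - n) = (k : ℝ) * s + ((n - k : ℕ) : ℝ) * -s := by
    rw [Nat.cast_sub (by omega)]
    ring
  rw [e]
  ring

open Classical in
theorem bin_tail {n : ℕ} (hn : 1 ≤ n) {x : ℝ} (hx : 0 ≤ x) :
    ∑ k ∈ (range (n + 1)).filter (fun k : ℕ => x ≤ |2 * (k : ℝ) - n|), bin n k ≤
      2 * Real.exp (-(x ^ 2) / (2 * n)) := by
  have hn0 : (0 : ℝ) < n := by exact_mod_cast hn
  set s : ℝ := x / n with hs
  have hs0 : 0 ≤ s := by positivity
  have hcosh : Real.cosh s ^ n ≤ Real.exp (x ^ 2 / (2 * n)) := by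
    calc Real.cosh s ^ n ≤ (Real.exp (s ^ 2 / 2)) ^ n :=
          pow_le_pow_left₀ (Real.cosh_pos s).le (Real.cosh_le_exp_half_sq s) n
      _ = Real.exp (n * (s ^ 2 / 2)) := by rw [← Real.exp_nat_mul]
      _ = Real.exp (x ^ 2 / (2 * n)) := by
          congr 1
          rw [hs]
          field_simp
  have hcosh' : Real.cosh (-s) ^ n ≤ Real.exp (x ^ 2 / (2 * n)) := by
    rw [Real.cosh_neg]; exact hcosh
  have hpt : ∀ k : ℕ, x ≤ |2 * (k : ℝ) - n| → bin n k ≤ Real.exp (-(s * x)) *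
      (bin n k * Real.exp (s * (2 * (k : ℝ) - n)) + bin n k * Real.exp (-s * (2 * (k : ℝ) - n))) := by
    intro k hk
    have hb := bin_nonneg n k
    have h1 : Real.exp (s * x) ≤ Real.exp (s * (2 * (k : ℝ) - n)) +
        Real.exp (-s * (2 * (k : ℝ) - n)) := by
      rcases abs_cases (2 * (k : ℝ) - n) with ⟨h, _⟩ | ⟨h, _⟩
      · rw [h] at hk
        have : Real.exp (s * x) ≤ Real.exp (s * (2 * (k : ℝ) - n)) :=
          Real.exp_le_exp.2 (mul_le_mul_of_nonneg_left hk hs0)
        have := Real.exp_pos (-s * (2 * (k : ℝ) - n))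
        linarith
      · rw [h] at hk
        have : Real.exp (s * x) ≤ Real.exp (-s * (2 * (k : ℝ) - n)) := by
          apply Real.exp_le_exp.2
          have := mul_le_mul_of_nonneg_left hk hs0
          linarith
        have := Real.exp_pos (s * (2 * (k : ℝ) - n))
        linarith
    have h2 : Real.exp (-(s * x)) * Real.exp (s * x) = 1 := by
      rw [← Real.exp_add]; simp
    calc bin n k = bin n k * (Real.exp (-(s * x)) * Real.exp (s * x)) := by rw [h2, mul_one]
      _ ≤ bin n k * (Real.exp (-(s * x)) * (Real.exp (s * (2 * (k : ℝ) - n)) +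
        Real.exp (-s * (2 * (k : ℝ) - n)))) := by
          apply mul_le_mul_of_nonneg_left _ hb
          exact mul_le_mul_of_nonneg_left h1 (Real.exp_pos _).le
      _ = _ := by ring
  calc ∑ k ∈ (range (n + 1)).filter (fun k : ℕ => x ≤ |2 * (k : ℝ) - n|), bin n k
      ≤ ∑ k ∈ (range (n + 1)).filter (fun k : ℕ => x ≤ |2 * (k : ℝ) - n|),
        Real.exp (-(s * x)) * (bin n k * Real.exp (s * (2 * (k : ℝ) - n)) +
          bin n k * Real.exp (-s * (2 * (k : ℝ) - n))) := by
        apply Finset.sum_le_sum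
        intro k hk
        exact hpt k (Finset.mem_filter.1 hk).2
    _ ≤ ∑ k ∈ range (n + 1), Real.exp (-(s * x)) *
        (bin n k * Real.exp (s * (2 * (k : ℝ) - n)) +
          bin n k * Real.exp (-s * (2 * (k : ℝ) - n))) := by
        apply Finset.sum_le_sum_of_subset_of_nonneg (Finset.filter_subset _ _)
        intro i _ _
        have := bin_nonneg n i
        positivity
    _ = Real.exp (-(s * x)) * (Real.cosh s ^ n + Real.cosh (-s) ^ n) := by
        rw [← Finset.mul_sum, Finset.sum_add_distrib, bin_mgf, bin_mgf]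
    _ ≤ Real.exp (-(s * x)) * (Real.exp (x ^ 2 / (2 * n)) + Real.exp (x ^ 2 / (2 * n))) := by
        apply mul_le_mul_of_nonneg_left _ (Real.exp_pos _).le
        linarith
    _ = 2 * (Real.exp (-(s * x)) * Real.exp (x ^ 2 / (2 * n))) := by ring
    _ = 2 * Real.exp (-(x ^ 2) / (2 * n)) := by
        rw [← Real.exp_add]
        congr 2
        rw [hs]
        field_simp
        ring

end Pool.Agent.H30.PD
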