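import Pool.Agent.H30.PD.Parseval

/-!
# JOB PD-MIXA. Algebra of `gg`, `ggS`; the trivial bound

* `gg_eq_ggS`: `sum_D_add` for the indicator function (cards as sums of indicators).
* `ggS_union`: additivity in `S` (disjoint).
* `ggS_periodic`: period `3^q` (as `r ≤ q`).
* `mean_ggS_le`: for each word the function `3^q 1[3^q ∣ u - c]` has sum `3^q` over `u ∈ range (3^q)`, and
  `3^r 1[3^r ∣ u - c]` has sum `3^r 3^(q-r) = 3^q`; there are `|S| 2^b` words at most.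
* `fourier_ggS`: `∑_{u < 3^q} 3^q 1[3^q ∣ u - c] ee(-ξu/3^q) = 3^q ee(-ξc/3^q)`; with `3^r`: `3^r ∑_{v < 3^(q-r)} ee(-ξ(c + 3^r v)/3^q)`
  which is `3^q ee(-ξc/3^q)` if `3^(q-r) ∣ ξ` and `0` otherwise (`orth` with `N = 3^(q-r)`).
-/

set_option autoImplicit false

namespace Pool.Agent.H30.PD

open Finset

/-- `3^q` times the indicator function of `3^q ∣ u - c` -/
noncomputable def MixA_ind (q : ℕ) (c : ℕ) (u : ℤ) : ℝ := if (3 : ℤ) ^ q ∣ u - c then 3 ^ q else 0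

theorem MixA_ind_nonneg (q c : ℕ) (u : ℤ) : 0 ≤ MixA_ind q c u := by
  unfold MixA_ind
  split_ifs <;> positivity

theorem MixA_ind_periodic {r q : ℕ} (hr : r ≤ q) (c : ℕ) (u : ℤ) :
    MixA_ind r c (u + (3 : ℤ) ^ q) = MixA_ind r c u := by
  unfold MixA_ind
  have h1 : (3 : ℤ) ^ r ∣ 3 ^ q := pow_dvd_pow 3 hr
  have h2 : ((3 : ℤ) ^ r ∣ u + 3 ^ q - c) ↔ ((3 : ℤ) ^ r ∣ u - c) := by
    have : u + 3 ^ q - c = (u - c) + 3 ^ q := by ring
    rw [this]
    exact dvd_add_left h1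
  simp only [h2]

theorem MixA_ggS_sum (a b q r : ℕ) (S : Finset (ℕ × ℕ)) (u : ℤ) :
    ggS a b q r S u = (∑ x ∈ (S ×ˢ D b).filter (fun x => x.1.1 + x.2.1 = q),
      (MixA_ind q (comp b x.1 x.2).2 u - MixA_ind r (comp b x.1 x.2).2 u)) / 2 ^ (a + b) := by
  unfold ggS
  congr 1
  rw [Finset.sum_sub_distrib]
  congr 1
  · rw [← Finset.filter_filter, Finset.card_filter, Nat.cast_sum, Finset.mul_sum]
    refine Finset.sum_congr rfl fun x _ => ?_
    unfold MixA_ind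
    split_ifs <;> simp
  · rw [← Finset.filter_filter, Finset.card_filter, Nat.cast_sum, Finset.mul_sum]
    refine Finset.sum_congr rfl fun x _ => ?_
    unfold MixA_ind
    split_ifs <;> simp

theorem MixA_gg_sum (L q r : ℕ) (u : ℤ) :
    gg L q r u = (∑ p ∈ D L, if p.1 = q then (MixA_ind q p.2 u - MixA_ind r p.2 u) else 0) / 2 ^ L := by
  unfold gg
  congr 1
  rw [← Finset.sum_filter, Finset.sum_sub_distrib]
  congr 1
  · rw [← Finset.filter_filter, Finset.card_filter, Nat.cast_sum, Finset.mul_sum]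
    refine Finset.sum_congr rfl fun x _ => ?_
    unfold MixA_ind
    split_ifs <;> simp
  · rw [← Finset.filter_filter, Finset.card_filter, Nat.cast_sum, Finset.mul_sum]
    refine Finset.sum_congr rfl fun x _ => ?_
    unfold MixA_ind
    split_ifs <;> simp

theorem gg_eq_ggS (a b q r : ℕ) (u : ℤ) : gg (a + b) q r u = ggS a b q r (D a) u := by
  rw [MixA_gg_sum, MixA_ggS_sum, sum_D_add, Finset.sum_filter, Finset.sum_product]
  rfl

theorem ggS_union (a b q r : ℕ) (S S' : Finset (ℕ × ℕ)) (h : Disjoint S S') (u : ℤ) :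
    ggS a b q r (S ∪ S') u = ggS a b q r S u + ggS a b q r S' u := by
  rw [MixA_ggS_sum, MixA_ggS_sum, MixA_ggS_sum, ← add_div]
  congr 1
  rw [Finset.sum_filter, Finset.sum_filter, Finset.sum_filter, Finset.sum_product, Finset.sum_product,
    Finset.sum_product, Finset.sum_union h]

theorem ggS_periodic {a b q r : ℕ} (hr : r ≤ q) (S : Finset (ℕ × ℕ)) (u : ℤ) :
    ggS a b q r S (u + (3 : ℤ) ^ q) = ggS a b q r S u := by
  rw [MixA_ggS_sum, MixA_ggS_sum]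
  congr 1
  refine Finset.sum_congr rfl fun x _ => ?_
  rw [MixA_ind_periodic le_rfl, MixA_ind_periodic hr]

theorem gg_periodic {L q r : ℕ} (hr : r ≤ q) (u : ℤ) : gg L q r (u + (3 : ℤ) ^ q) = gg L q r u := by
  rw [MixA_gg_sum, MixA_gg_sum]
  congr 1
  refine Finset.sum_congr rfl fun x _ => ?_
  rw [MixA_ind_periodic le_rfl, MixA_ind_periodic hr]

/-- the Fourier coefficients of the indicator function of a residue class mod `3^r` -/
theorem MixA_four {q r : ℕ} (hr : r ≤ q) (c ξ : ℕ) :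
    ∑ u ∈ range (3 ^ q), (MixA_ind r c u : ℂ) * ee (-((ξ : ℝ) * u / 3 ^ q)) =
      if 3 ^ (q - r) ∣ ξ then (3 : ℂ) ^ q * ee (-((ξ : ℝ) * c / 3 ^ q)) else 0 := by
  obtain ⟨s, rfl⟩ := Nat.exists_eq_add_of_le hr
  rw [Nat.add_sub_cancel_left]
  have hpos : 0 < 3 ^ r := by positivity
  have h1 : ∑ u ∈ range (3 ^ (r + s)), (MixA_ind r c u : ℂ) * ee (-((ξ : ℝ) * u / 3 ^ (r + s))) =
      ∑ u ∈ (range (3 ^ (r + s))).filter (fun u => u % 3 ^ r = c % 3 ^ r),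
        (3 : ℂ) ^ r * ee (-((ξ : ℝ) * u / 3 ^ (r + s))) := by
    rw [Finset.sum_filter]
    refine Finset.sum_congr rfl fun u _ => ?_
    have h2 : ((3 : ℤ) ^ r ∣ (u : ℤ) - c) ↔ u % 3 ^ r = c % 3 ^ r := by
      have h3 : ((3 : ℤ) ^ r ∣ (u : ℤ) - c) ↔ (((3 ^ r : ℕ) : ℤ) ∣ (u : ℤ) - c) := by push_cast; rfl
      rw [h3, ← Nat.modEq_iff_dvd]
      exact ⟨fun h => h.symm, fun h => Eq.symm h⟩
    unfold MixA_ind
    by_cases h : u % 3 ^ r = c % 3 ^ r
    · rw [if_pos (h2.2 h), if_pos h]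
      push_cast
      rfl
    · rw [if_neg (fun h' => h (h2.1 h')), if_neg h]
      simp
  have h2 : ∑ u ∈ (range (3 ^ (r + s))).filter (fun u => u % 3 ^ r = c % 3 ^ r),
        (3 : ℂ) ^ r * ee (-((ξ : ℝ) * u / 3 ^ (r + s))) =
      ∑ v ∈ range (3 ^ s), (3 : ℂ) ^ r * ee (-((ξ : ℝ) * (c % 3 ^ r + 3 ^ r * v : ℕ) / 3 ^ (r + s))) := by
    symm
    refine Finset.sum_nbij' (fun v => c % 3 ^ r + 3 ^ r * v) (fun u => u / 3 ^ r) ?_ ?_ ?_ ?_ ?_
    · intro v hv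
      rw [Finset.mem_range] at hv
      rw [Finset.mem_filter, Finset.mem_range]
      constructor
      · calc c % 3 ^ r + 3 ^ r * v < 3 ^ r + 3 ^ r * v := by
              have := Nat.mod_lt c hpos
              omega
          _ = 3 ^ r * (v + 1) := by ring
          _ ≤ 3 ^ r * 3 ^ s := Nat.mul_le_mul_left _ hv
          _ = 3 ^ (r + s) := by rw [pow_add]
      · rw [Nat.add_mul_mod_self_left, Nat.mod_mod]
    · intro u hu
      rw [Finset.mem_filter, Finset.mem_range] at hu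
      rw [Finset.mem_range]
      refine Nat.div_lt_of_lt_mul ?_
      rw [← pow_add]
      exact hu.1
    · intro v _
      show (c % 3 ^ r + 3 ^ r * v) / 3 ^ r = v
      rw [Nat.add_mul_div_left _ _ hpos, Nat.div_eq_of_lt (Nat.mod_lt c hpos), zero_add]
    · intro u hu
      rw [Finset.mem_filter] at hu
      show c % 3 ^ r + 3 ^ r * (u / 3 ^ r) = u
      rw [← hu.2, Nat.mod_add_div]
    · intro v _
      rfl
  have h3 : ∀ v ∈ range (3 ^ s),
      (3 : ℂ) ^ r * ee (-((ξ : ℝ) * (c % 3 ^ r + 3 ^ r * v : ℕ) / 3 ^ (r + s))) =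
        ((3 : ℂ) ^ r * ee (-((ξ : ℝ) * (c % 3 ^ r : ℕ) / 3 ^ (r + s)))) *
          ee ((v : ℝ) * ((-(ξ : ℤ) : ℤ) : ℝ) / ((3 ^ s : ℕ) : ℝ)) := by
    intro v _
    rw [mul_assoc, ← ee_add]
    congr 2
    have e1 : (3 : ℝ) ^ r ≠ 0 := by positivity
    have e2 : (3 : ℝ) ^ s ≠ 0 := by positivity
    push_cast
    rw [pow_add]
    field_simp
    ring
  have h4 := orth (N := 3 ^ s) (by positivity) (-(ξ : ℤ))
  rw [h1, h2, Finset.sum_congr rfl h3, ← Finset.mul_sum, h4]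
  have h5 : (((3 ^ s : ℕ) : ℤ) ∣ -(ξ : ℤ)) ↔ 3 ^ s ∣ ξ := by
    rw [dvd_neg]
    exact Int.natCast_dvd_natCast
  by_cases h : 3 ^ s ∣ ξ
  · rw [if_pos (h5.2 h), if_pos h]
    have h6 : ee (-((ξ : ℝ) * c / 3 ^ (r + s))) = ee (-((ξ : ℝ) * (c % 3 ^ r : ℕ) / 3 ^ (r + s))) := by
      obtain ⟨k, hk⟩ := h
      obtain ⟨M, hM⟩ : ∃ M : ℕ, M = c / 3 ^ r := ⟨_, rfl⟩
      obtain ⟨c0, hc0⟩ : ∃ c0 : ℕ, c0 = c % 3 ^ r := ⟨_, rfl⟩
      have e0 : ((c : ℕ) : ℝ) = (c0 : ℝ) + 3 ^ r * (M : ℝ) := by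
        have := Nat.mod_add_div c (3 ^ r)
        rw [← hM, ← hc0] at this
        exact_mod_cast this.symm
      rw [← hc0]
      have e1 : -((ξ : ℝ) * c / 3 ^ (r + s)) = -((ξ : ℝ) * (c0 : ℝ) / 3 ^ (r + s)) +
          ((-(k * M : ℕ) : ℤ) : ℝ) := by
        rw [e0, hk]
        have e1 : (3 : ℝ) ^ r ≠ 0 := by positivity
        have e2 : (3 : ℝ) ^ s ≠ 0 := by positivity
        push_cast
        rw [pow_add]
        field_simp
        ring
      rw [e1, ee_add, ee_int, mul_one]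
    rw [h6, pow_add]
    push_cast
    ring
  · rw [if_neg (fun h' => h (h5.1 h')), if_neg h, mul_zero]

theorem MixA_sum_ind {q r : ℕ} (hr : r ≤ q) (c : ℕ) :
    ∑ u ∈ range (3 ^ q), MixA_ind r c u = 3 ^ q := by
  have h := MixA_four hr c 0
  have h0 : ∀ x : ℝ, x = 0 → ee x = 1 := by
    intro x hx
    have := ee_int 0
    rw [hx]
    simpa using this
  have h1 : ∑ u ∈ range (3 ^ q), (MixA_ind r c u : ℂ) * ee (-(((0 : ℕ) : ℝ) * u / 3 ^ q)) =
      ∑ u ∈ range (3 ^ q), (MixA_ind r c u : ℂ) := by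
    refine Finset.sum_congr rfl fun u _ => ?_
    rw [h0 _ (by simp), mul_one]
  rw [h1, if_pos (dvd_zero _), h0 _ (by simp), mul_one] at h
  have h2 : ((∑ u ∈ range (3 ^ q), MixA_ind r c u : ℝ) : ℂ) = ((3 ^ q : ℝ) : ℂ) := by
    push_cast
    exact h
  exact_mod_cast h2

theorem mean_ggS_le {a b q r : ℕ} (hr : r ≤ q) (S : Finset (ℕ × ℕ)) :
    (∑ u ∈ range (3 ^ q), |ggS a b q r S u|) / 3 ^ q ≤ 2 * (S.card : ℝ) / 2 ^ a := by
  have h1 : ∀ u ∈ range (3 ^ q), |ggS a b q r S u| ≤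
      (∑ x ∈ (S ×ˢ D b).filter (fun x => x.1.1 + x.2.1 = q),
        (MixA_ind q (comp b x.1 x.2).2 u + MixA_ind r (comp b x.1 x.2).2 u)) / 2 ^ (a + b) := by
    intro u _
    rw [MixA_ggS_sum, abs_div, abs_of_pos (by positivity : (0 : ℝ) < 2 ^ (a + b))]
    refine div_le_div_of_nonneg_right ?_ (by positivity)
    refine (Finset.abs_sum_le_sum_abs _ _).trans (Finset.sum_le_sum fun x _ => ?_)
    have e1 := MixA_ind_nonneg q (comp b x.1 x.2).2 u
    have e2 := MixA_ind_nonneg r (comp b x.1 x.2).2 u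
    rw [abs_le]
    constructor <;> linarith
  have h2 : ∑ u ∈ range (3 ^ q), |ggS a b q r S u| ≤
      ((((S ×ˢ D b).filter (fun x => x.1.1 + x.2.1 = q)).card : ℝ) * (2 * 3 ^ q)) / 2 ^ (a + b) := by
    refine (Finset.sum_le_sum h1).trans_eq ?_
    rw [← Finset.sum_div, Finset.sum_comm]
    congr 1
    rw [← nsmul_eq_mul, ← Finset.sum_const]
    refine Finset.sum_congr rfl fun x _ => ?_
    rw [Finset.sum_add_distrib, MixA_sum_ind le_rfl, MixA_sum_ind hr]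
    ring
  have h3 : ((((S ×ˢ D b).filter (fun x => x.1.1 + x.2.1 = q)).card : ℕ) : ℝ) ≤ S.card * 2 ^ b := by
    have h4 := Finset.card_filter_le (S ×ˢ D b) (fun x => x.1.1 + x.2.1 = q)
    rw [Finset.card_product, card_D] at h4
    exact_mod_cast h4
  rw [div_le_iff₀ (by positivity)]
  refine h2.trans ?_
  rw [div_mul_eq_mul_div, div_le_div_iff₀ (by positivity) (by positivity)]
  calc _ ≤ ((S.card : ℝ) * 2 ^ b) * (2 * 3 ^ q) * 2 ^ a := by
        refine mul_le_mul_of_nonneg_right ?_ (by positivity)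
        exact mul_le_mul_of_nonneg_right h3 (by positivity)
    _ = _ := by rw [pow_add]; ring

theorem fourier_ggS {a b q r : ℕ} (hr : r ≤ q) (S : Finset (ℕ × ℕ)) (ξ : ℕ) :
    ∑ u ∈ range (3 ^ q), (ggS a b q r S u : ℂ) * ee (-((ξ : ℝ) * u / 3 ^ q)) =
      if 3 ^ (q - r) ∣ ξ then 0 else
        3 ^ q / 2 ^ (a + b) * ∑ x ∈ (S ×ˢ D b).filter (fun x => x.1.1 + x.2.1 = q),
          ee (-((ξ : ℝ) * (comp b x.1 x.2).2 / 3 ^ q)) := by
  have h1 : ∀ u ∈ range (3 ^ q), (ggS a b q r S u : ℂ) * ee (-((ξ : ℝ) * u / 3 ^ q)) =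
      (1 / 2 ^ (a + b) : ℂ) * ∑ x ∈ (S ×ˢ D b).filter (fun x => x.1.1 + x.2.1 = q),
        ((MixA_ind q (comp b x.1 x.2).2 u : ℂ) * ee (-((ξ : ℝ) * u / 3 ^ q)) -
          (MixA_ind r (comp b x.1 x.2).2 u : ℂ) * ee (-((ξ : ℝ) * u / 3 ^ q))) := by
    intro u _
    rw [MixA_ggS_sum]
    push_cast
    rw [div_mul_eq_mul_div, Finset.sum_mul, one_div, div_eq_inv_mul]
    congr 1
    refine Finset.sum_congr rfl fun x _ => ?_
    ring
  rw [Finset.sum_congr rfl h1, ← Finset.mul_sum, Finset.sum_comm]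
  have h2 : ∀ x ∈ (S ×ˢ D b).filter (fun x => x.1.1 + x.2.1 = q),
      ∑ u ∈ range (3 ^ q), ((MixA_ind q (comp b x.1 x.2).2 u : ℂ) * ee (-((ξ : ℝ) * u / 3 ^ q)) -
          (MixA_ind r (comp b x.1 x.2).2 u : ℂ) * ee (-((ξ : ℝ) * u / 3 ^ q))) =
        (if 3 ^ (q - r) ∣ ξ then 0 else 3 ^ q * ee (-((ξ : ℝ) * (comp b x.1 x.2).2 / 3 ^ q))) := by
    intro x _
    rw [Finset.sum_sub_distrib, MixA_four le_rfl, MixA_four hr]
    rw [if_pos (by simp)]
    split_ifs <;> simp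
  rw [Finset.sum_congr rfl h2]
  by_cases h : 3 ^ (q - r) ∣ ξ
  · simp only [if_pos h]
    simp
  · simp only [if_neg h]
    rw [← Finset.mul_sum]
    ring

end Pool.Agent.H30.PD
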