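import Pool.Agent.H30.PD.NodeSum
import Pool.Agent.H30.PD.MixA
import Pool.Agent.H30.PD.Bin

/-!
# JOB PD-ADVA. Comparison (A1) and total mass (A4)

* `A1`: by `Z_eq` for `(k, k)` and `(k, r)` the difference is `∑_p 3^(p.1)/2^j * gg L (k-p.1) (r-p.1) (2^L m_p)`. `A0` with
  `G i u = |gg L (k-i) (r-i) (2^L u)|` if some `p ∈ S` has `p.1 = i` (then `i ≤ r`), and `0` otherwise; periodic by `gg_periodic`;
  `∑_{u < 3^(k-i)} G i u = ∑_u |gg L (k-i) (r-i) u|` (`sum_mul_unit`).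
* `A4`: `Z_eq` and `A0` with `G i u = 3^(k-i)/2^L * #{q ∈ D L : q.1 = k-i, 3^(k-i) ∣ 2^L u - q.2}` for `i ≤ k` (else `0`); its mean over `u` mod
  `3^(k-i)` is `bin L (k-i)` (each `q` counts for one class `u`; `card_filter_fst`); `∑_{k ∈ K, k ≥ i} bin L (k-i) ≤ 1`.
-/

set_option autoImplicit false

namespace Pool.Agent.H30.PD

open Finset

theorem AdvA_coprime (L n : ℕ) : IsCoprime ((2 : ℤ) ^ L) (((3 ^ n : ℕ) : ℤ)) := by
  push_cast
  exact IsCoprime.pow (by norm_num)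

theorem AdvA_gg_periodic {L q r : ℕ} (hr : r ≤ q) (u : ℤ) (n : ℕ) :
    gg L q r (u + n * (3 : ℤ) ^ q) = gg L q r u := by
  have h : Function.Periodic (gg L q r) ((3 : ℤ) ^ q) := fun u => gg_periodic hr u
  have h2 := h.nat_mul n
  exact_mod_cast h2 u

theorem A1 {j L k r : ℕ} {Λ ε : ℝ} (hΛ : 0 ≤ Λ) (hε : 0 ≤ ε) (S : Finset (ℕ × ℕ)) (hSD : S ⊆ D j)
    (hc : ∀ p ∈ S, (p.2 : ℝ) ≤ Λ * 2 ^ j) (hk : 3 ^ k ≤ 2 ^ j) (hrk : r ≤ k)
    (hSr : ∀ p ∈ S, p.1 ≤ r) (y : ℤ)
    (hg : ∀ p ∈ S, (∑ u ∈ range (3 ^ (k - p.1)), |gg L (k - p.1) (r - p.1) u|) / 3 ^ (k - p.1) ≤ ε) :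
    |Z S j L k k y - Z S j L k r y| ≤ (Λ + 2) * (j + 1) * ε := by
  classical
  have hSk : ∀ p ∈ S, p.1 ≤ k := fun p hp => (hSr p hp).trans hrk
  set G : ℕ → ℤ → ℝ := fun i u => if ∃ p ∈ S, p.1 = i then |gg L (k - i) (r - i) (2 ^ L * u)| else 0
    with hG
  have hG0 : ∀ i u, 0 ≤ G i u := by
    intro i u
    simp only [hG]
    split_ifs
    · exact abs_nonneg _
    · exact le_refl _
  have hGp : ∀ i ≤ k, ∀ u, G i (u + (3 : ℤ) ^ (k - i)) = G i u := by
    intro i hi u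
    simp only [hG]
    split_ifs
    · have h1 := AdvA_gg_periodic (L := L) (q := k - i) (r := r - i) (by omega) (2 ^ L * u) (2 ^ L)
      have h2 : (2 : ℤ) ^ L * (u + (3 : ℤ) ^ (k - i)) = 2 ^ L * u + ((2 ^ L : ℕ) : ℤ) * (3 : ℤ) ^ (k - i) := by
        push_cast
        ring
      rw [h2, h1]
    · rfl
  have hA0 := A0 hΛ S hSD hc hk hSk y G hG0 hGp
  have hle : |Z S j L k k y - Z S j L k r y| ≤
      ∑ p ∈ S.filter (fun p => (3 : ℤ) ^ p.1 ∣ 2 ^ j * y - p.2),
        (3 : ℝ) ^ p.1 / 2 ^ j * G p.1 ((2 ^ j * y - p.2) / 3 ^ p.1) := by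
    rw [Z_eq S j L k k hSk hSk y, Z_eq S j L k r hSr hSk y, ← Finset.sum_sub_distrib]
    refine (Finset.abs_sum_le_sum_abs _ _).trans (Finset.sum_le_sum ?_)
    intro p hp
    have hpS := (Finset.mem_filter.1 hp).1
    simp only [hG]
    rw [if_pos ⟨p, hpS, rfl⟩, ← mul_sub, abs_mul, abs_of_nonneg (by positivity : (0 : ℝ) ≤ 3 ^ p.1 / 2 ^ j)]
    refine mul_le_mul_of_nonneg_left (le_of_eq ?_) (by positivity)
    congr 1
    unfold gg
    ring
  refine hle.trans (hA0.trans ?_)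
  rw [mul_assoc]
  refine mul_le_mul_of_nonneg_left ?_ (by linarith)
  have hone : ∀ i ∈ range (j + 1), (∑ u ∈ range (3 ^ (k - i)), G i u) / 3 ^ (k - i) ≤ ε := by
    intro i _
    by_cases hex : ∃ p ∈ S, p.1 = i
    · obtain ⟨p, hp, rfl⟩ := hex
      have h1 : ∑ u ∈ range (3 ^ (k - p.1)), G p.1 u =
          ∑ u ∈ range (3 ^ (k - p.1)), |gg L (k - p.1) (r - p.1) u| := by
        simp only [hG]
        have h3 := sum_mul_unit (N := 3 ^ (k - p.1)) (by positivity)
          (fun u => |gg L (k - p.1) (r - p.1) u|) (by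
            intro u
            have h4 := AdvA_gg_periodic (L := L) (q := k - p.1) (r := r - p.1) (by omega) u 1
            push_cast at h4 ⊢
            rw [one_mul] at h4
            rw [h4]) (AdvA_coprime L (k - p.1))
        rw [← h3]
        refine Finset.sum_congr rfl ?_
        intro u _
        rw [if_pos ⟨p, hp, rfl⟩]
      rw [h1]
      exact hg p hp
    · have h1 : ∑ u ∈ range (3 ^ (k - i)), G i u = 0 := by
        refine Finset.sum_eq_zero ?_
        intro u _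
        simp only [hG]
        rw [if_neg hex]
      rw [h1, zero_div]
      exact hε
  calc _ ≤ ∑ _i ∈ range (j + 1), ε := Finset.sum_le_sum hone
    _ = _ := by
      rw [Finset.sum_const, Finset.card_range, nsmul_eq_mul]
      push_cast
      ring

theorem AdvA_count (L n c : ℕ) :
    ∑ u ∈ range (3 ^ n), (if (3 : ℤ) ^ n ∣ 2 ^ L * (u : ℤ) - c then (1 : ℝ) else 0) = 1 := by
  have h3 := sum_mul_unit (N := 3 ^ n) (by positivity)
    (fun u => if (3 : ℤ) ^ n ∣ u - c then (1 : ℝ) else 0) (by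
      intro u
      have h : ((3 : ℤ) ^ n ∣ u + ((3 ^ n : ℕ) : ℤ) - c) ↔ ((3 : ℤ) ^ n ∣ u - c) := by
        have e : u + ((3 ^ n : ℕ) : ℤ) - c = (u - c) + (3 : ℤ) ^ n := by
          push_cast
          ring
        rw [e]
        exact dvd_add_self_right
      simp only [h]) (AdvA_coprime L n)
  rw [h3, Finset.sum_ite, Finset.sum_const_zero, add_zero, Finset.sum_const]
  have hf : (range (3 ^ n)).filter (fun u : ℕ => (3 : ℤ) ^ n ∣ (u : ℤ) - c) = {c % 3 ^ n} := by
    ext u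
    rw [Finset.mem_filter, Finset.mem_range, Finset.mem_singleton]
    have hpos : 0 < 3 ^ n := by positivity
    constructor
    · rintro ⟨h1, h2⟩
      have h4 : (u : ℤ) ≡ c [ZMOD ((3 ^ n : ℕ) : ℤ)] := by
        refine (Int.modEq_iff_dvd.2 ?_).symm
        push_cast
        exact h2
      have h5 : u ≡ c [MOD 3 ^ n] := (Int.natCast_modEq_iff).1 h4
      have h6 : u % 3 ^ n = c % 3 ^ n := h5
      rw [Nat.mod_eq_of_lt h1] at h6
      exact h6
    · rintro rfl
      refine ⟨Nat.mod_lt _ hpos, ?_⟩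
      have h5 : c % 3 ^ n ≡ c [MOD 3 ^ n] := Nat.mod_modEq _ _
      have h4 := (Int.natCast_modEq_iff).2 h5
      have h6 := Int.modEq_iff_dvd.1 h4.symm
      have h7 : (((3 ^ n : ℕ) : ℤ)) = (3 : ℤ) ^ n := by push_cast; ring
      rw [h7] at h6
      exact h6
  rw [hf, Finset.card_singleton]
  norm_num

theorem A4 {j L : ℕ} {Λ : ℝ} (hΛ : 0 ≤ Λ) (S : Finset (ℕ × ℕ)) (hSD : S ⊆ D j)
    (hc : ∀ p ∈ S, (p.2 : ℝ) ≤ Λ * 2 ^ j) (y : ℤ) (K : Finset ℕ)
    (hK : ∀ k ∈ K, 3 ^ k ≤ 2 ^ j ∧ ∀ p ∈ S, p.1 ≤ k) :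
    ∑ k ∈ K, Z S j L k k y ≤ (Λ + 2) * (j + 1) := by
  classical
  have hone : ∀ k ∈ K, Z S j L k k y ≤
      (Λ + 2) * ∑ i ∈ range (j + 1), (if i ≤ k then bin L (k - i) else 0) := by
    intro k hkK
    obtain ⟨hk, hSk⟩ := hK k hkK
    set G : ℕ → ℤ → ℝ := fun i u => if i ≤ k then 3 ^ (k - i) / 2 ^ L *
        (((D L).filter fun q => q.1 = k - i ∧ (3 : ℤ) ^ (k - i) ∣ 2 ^ L * u - q.2).card : ℝ) else 0
      with hG
    have hG0 : ∀ i u, 0 ≤ G i u := by
      intro i u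
      simp only [hG]
      split_ifs
      · positivity
      · exact le_refl _
    have hGp : ∀ i ≤ k, ∀ u, G i (u + (3 : ℤ) ^ (k - i)) = G i u := by
      intro i hi u
      simp only [hG]
      rw [if_pos hi, if_pos hi]
      have h : ∀ q : ℕ × ℕ, ((3 : ℤ) ^ (k - i) ∣ 2 ^ L * (u + (3 : ℤ) ^ (k - i)) - q.2) ↔
          ((3 : ℤ) ^ (k - i) ∣ 2 ^ L * u - q.2) := by
        intro q
        have e : (2 : ℤ) ^ L * (u + (3 : ℤ) ^ (k - i)) - q.2 =
            (2 ^ L * u - q.2) + 2 ^ L * (3 : ℤ) ^ (k - i) := by ring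
        rw [e]
        exact (dvd_add_left (Dvd.intro_left _ rfl))
      simp only [h]
    have hA0 := A0 hΛ S hSD hc hk hSk y G hG0 hGp
    have hle : Z S j L k k y =
        ∑ p ∈ S.filter (fun p => (3 : ℤ) ^ p.1 ∣ 2 ^ j * y - p.2),
          (3 : ℝ) ^ p.1 / 2 ^ j * G p.1 ((2 ^ j * y - p.2) / 3 ^ p.1) := by
      rw [Z_eq S j L k k hSk hSk y]
      refine Finset.sum_congr rfl ?_
      intro p hp
      have hpS := (Finset.mem_filter.1 hp).1
      simp only [hG]
      rw [if_pos (hSk p hpS)]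
    rw [hle]
    refine hA0.trans (mul_le_mul_of_nonneg_left (Finset.sum_le_sum ?_) (by linarith))
    intro i _
    by_cases hi : i ≤ k
    · rw [if_pos hi]
      simp only [hG]
      simp only [if_pos hi]
      rw [← Finset.mul_sum]
      have h1 : ∑ u ∈ range (3 ^ (k - i)), (((D L).filter fun q => q.1 = k - i ∧
          (3 : ℤ) ^ (k - i) ∣ 2 ^ L * (u : ℤ) - q.2).card : ℝ) = (L.choose (k - i) : ℝ) := by
        have h2 : ∀ u : ℕ, (((D L).filter fun q => q.1 = k - i ∧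
            (3 : ℤ) ^ (k - i) ∣ 2 ^ L * (u : ℤ) - q.2).card : ℝ) =
            ∑ q ∈ (D L).filter (fun q => q.1 = k - i),
              (if (3 : ℤ) ^ (k - i) ∣ 2 ^ L * (u : ℤ) - q.2 then (1 : ℝ) else 0) := by
          intro u
          rw [← Finset.filter_filter, Finset.card_filter]
          push_cast
          rfl
        simp only [h2]
        rw [Finset.sum_comm]
        have h3 : ∀ q ∈ (D L).filter (fun q => q.1 = k - i),
            ∑ u ∈ range (3 ^ (k - i)),
              (if (3 : ℤ) ^ (k - i) ∣ 2 ^ L * (u : ℤ) - q.2 then (1 : ℝ) else 0) = 1 :=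
          fun q _ => AdvA_count L (k - i) q.2
        rw [Finset.sum_congr rfl h3, Finset.sum_const, nsmul_eq_mul, mul_one, card_filter_fst]
      rw [h1]
      unfold bin
      apply le_of_eq
      have h5 : (3 : ℝ) ^ (k - i) ≠ 0 := by positivity
      field_simp
    · rw [if_neg hi]
      simp only [hG]
      simp only [if_neg hi]
      simp
  calc ∑ k ∈ K, Z S j L k k y ≤
      ∑ k ∈ K, (Λ + 2) * ∑ i ∈ range (j + 1), (if i ≤ k then bin L (k - i) else 0) :=
        Finset.sum_le_sum hone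
    _ = (Λ + 2) * ∑ i ∈ range (j + 1), ∑ k ∈ K, (if i ≤ k then bin L (k - i) else 0) := by
        rw [← Finset.mul_sum, Finset.sum_comm]
    _ ≤ (Λ + 2) * ∑ _i ∈ range (j + 1), (1 : ℝ) := by
        refine mul_le_mul_of_nonneg_left (Finset.sum_le_sum ?_) (by linarith)
        intro i _
        rw [← Finset.sum_filter]
        have h1 : ∑ k ∈ K.filter (fun k => i ≤ k), bin L (k - i) =
            ∑ t ∈ (K.filter (fun k => i ≤ k)).image (fun k => k - i), bin L t := by
          rw [Finset.sum_image]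
          intro a ha b hb hab
          have ha' := (Finset.mem_filter.1 ha).2
          have hb' := (Finset.mem_filter.1 hb).2
          simp only at hab
          omega
        rw [h1]
        have hsub : (K.filter (fun k => i ≤ k)).image (fun k => k - i) ⊆ range (K.sup id + 1) := by
          intro t ht
          obtain ⟨k, hk, rfl⟩ := Finset.mem_image.1 ht
          have h2 : k ≤ K.sup id := Finset.le_sup (f := id) (Finset.mem_filter.1 hk).1
          rw [Finset.mem_range]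
          omega
        exact (Finset.sum_le_sum_of_subset_of_nonneg hsub (fun t _ _ => bin_nonneg L t)).trans
          (sum_bin_le L _)
    _ = (Λ + 2) * (j + 1) := by
        rw [Finset.sum_const, Finset.card_range, nsmul_eq_mul, mul_one]
        push_cast
        ring

end Pool.Agent.H30.PD
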