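import Pool.Agent.H30.PD.NodeSum

/-!
# PD-ADVB. Composition (A2) and change of the cut (A3)

* `A2`: for `p ∈ S`, `q ∈ D a`, `q' ∈ D b` with `p.1 + q.1 = k' ≥ r`: the constant of the composition is `2^b c + 3^(k') q'.2` with `c` the
  constant of `comp a p q`; so `3^r ∣ 2^(j+a+b) y - (2^b c + 3^(k') q'.2)` iff `3^r ∣ 2^b (2^(j+a) y - c)` iff
  `3^r ∣ 2^(j+a) y - c`. The number of `q' ∈ D b` with `q'.1 = k - k'` is `binom(b, k-k')`. (`sum_D_add`, `comp_assoc`; drop the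
  terms with `k' < r`.)
* `A3`: `D (a+b) = {comp b q q'}`. The pairs `(p, comp b q q')` with `q ∉ Bd` correspond injectively to pairs
  `(comp a p q, q') ∈ S' × D b` with the same composition (`comp_assoc`, `comp_inj`). The pairs with `q ∈ Bd`: as in `Z_eq` and `A0` with
  `G i u = 3^(k-i)/2^(a+b) * #{(q,q') ∈ Bd × D b : i + q.1 + q'.1 = k, 3^(k-i) ∣ 2^(a+b) u - (comp b q q').2}` (for `i ≤ k`), whose mean over `u` mod
  `3^(k-i)` is `#{(q,q') ∈ Bd × D b : i + q.1 + q'.1 = k}/2^(a+b)`. Put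
  `ls k = (Λ+2) ∑_{i ≤ j} #{(q,q') ∈ Bd × D b : i + q.1 + q'.1 = k}/2^(a+b)`; its sum over `k` is at most
  `(Λ+2) (j+1) |Bd| 2^b/2^(a+b)`.
-/

set_option autoImplicit false

namespace Pool.Agent.H30.PD

open Finset

/-- `Z` as a sum of indicators -/
theorem advB_Z0 (S : Finset (ℕ × ℕ)) (j L k r : ℕ) (y : ℤ) :
    Z S j L k r y = 3 ^ r / 2 ^ (j + L) * ∑ x ∈ S ×ˢ D L,
      if (x.1.1 + x.2.1 = k ∧ (3 : ℤ) ^ r ∣ 2 ^ (j + L) * y - (comp L x.1 x.2).2) then (1 : ℝ)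
      else 0 := by
  unfold Z
  rw [Finset.card_filter, Nat.cast_sum]
  congr 1
  refine Finset.sum_congr rfl fun x _ => ?_
  split_ifs <;> simp

/-- `Z` for a composed length as a sum of indicators -/
theorem advB_Z1 (S : Finset (ℕ × ℕ)) (j a b k r : ℕ) (y : ℤ) :
    Z S j (a + b) k r y = 3 ^ r / 2 ^ (j + a + b) * ∑ x ∈ S ×ˢ D a, ∑ q ∈ D b,
      if (x.1.1 + x.2.1 + q.1 = k ∧
        (3 : ℤ) ^ r ∣ 2 ^ (j + a + b) * y - (comp b (comp a x.1 x.2) q).2) then (1 : ℝ)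
      else 0 := by
  rw [advB_Z0, ← add_assoc, Finset.sum_product, Finset.sum_product]
  congr 1
  refine Finset.sum_congr rfl fun p _ => ?_
  rw [sum_D_add]
  refine Finset.sum_congr rfl fun q _ => ?_
  refine Finset.sum_congr rfl fun q' _ => ?_
  simp only
  rw [comp_assoc]
  have : p.1 + (comp b q q').1 = p.1 + q.1 + q'.1 := by simp [comp, add_assoc]
  rw [this]

theorem advB_isCoprime (r b : ℕ) : IsCoprime ((3 : ℤ) ^ r) (2 ^ b) := by
  have : IsCoprime (3 : ℤ) 2 := ⟨1, -1, by norm_num⟩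
  exact this.pow

theorem A2 (S : Finset (ℕ × ℕ)) (j a b k r : ℕ) (y : ℤ) :
    ∑ k' ∈ (range (k + 1)).filter (fun k' => r ≤ k'), Z S j a k' r y * bin b (k - k') ≤
      Z S j (a + b) k r y := by
  have h1 : ∑ k' ∈ (range (k + 1)).filter (fun k' => r ≤ k'), Z S j a k' r y * bin b (k - k') =
      3 ^ r / 2 ^ (j + a + b) * ∑ x ∈ S ×ˢ D a, ∑ k' ∈ (range (k + 1)).filter (fun k' => r ≤ k'),
        (if (x.1.1 + x.2.1 = k' ∧ (3 : ℤ) ^ r ∣ 2 ^ (j + a) * y - (comp a x.1 x.2).2) then (1 : ℝ)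
          else 0) * (b.choose (k - k') : ℝ) := by
    rw [Finset.sum_comm, Finset.mul_sum]
    refine Finset.sum_congr rfl fun k' _ => ?_
    rw [advB_Z0, bin, ← Finset.sum_mul]
    rw [pow_add 2 (j + a) b]
    field_simp
  rw [h1, advB_Z1]
  refine mul_le_mul_of_nonneg_left ?_ (by positivity)
  refine Finset.sum_le_sum fun x _ => ?_
  by_cases hx : x.1.1 + x.2.1 ∈ (range (k + 1)).filter (fun k' => r ≤ k') ∧
      (3 : ℤ) ^ r ∣ 2 ^ (j + a) * y - (comp a x.1 x.2).2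
  · obtain ⟨hx1, hx2⟩ := hx
    have h2 : ∑ k' ∈ (range (k + 1)).filter (fun k' => r ≤ k'),
        (if (x.1.1 + x.2.1 = k' ∧ (3 : ℤ) ^ r ∣ 2 ^ (j + a) * y - (comp a x.1 x.2).2) then (1 : ℝ)
          else 0) * (b.choose (k - k') : ℝ) = (b.choose (k - (x.1.1 + x.2.1)) : ℝ) := by
      rw [Finset.sum_eq_single_of_mem _ hx1]
      · rw [if_pos ⟨rfl, hx2⟩, one_mul]
      · intro k' _ hk'
        rw [if_neg (fun h => hk' h.1.symm), zero_mul]
    rw [h2]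
    obtain ⟨hx3, hx4⟩ := Finset.mem_filter.1 hx1
    have hx5 : x.1.1 + x.2.1 ≤ k := Nat.lt_succ_iff.1 (Finset.mem_range.1 hx3)
    have h3 : ∀ q ∈ D b, (if (x.1.1 + x.2.1 + q.1 = k ∧
        (3 : ℤ) ^ r ∣ 2 ^ (j + a + b) * y - (comp b (comp a x.1 x.2) q).2) then (1 : ℝ) else 0) =
        if q.1 = k - (x.1.1 + x.2.1) then 1 else 0 := by
      intro q _
      have hdiv : (3 : ℤ) ^ r ∣ 2 ^ (j + a + b) * y - (comp b (comp a x.1 x.2) q).2 := by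
        have e1 : (2 : ℤ) ^ (j + a + b) * y - ((comp b (comp a x.1 x.2) q).2 : ℕ) =
            2 ^ b * (2 ^ (j + a) * y - ((comp a x.1 x.2).2 : ℕ)) -
              3 ^ r * (3 ^ (x.1.1 + x.2.1 - r) * (q.2 : ℤ)) := by
          have e2 : (3 : ℤ) ^ (x.1.1 + x.2.1) = 3 ^ r * 3 ^ (x.1.1 + x.2.1 - r) := by
            rw [← pow_add]; congr 1; omega
          simp only [comp]
          push_cast
          rw [e2]
          ring
        rw [e1]
        exact dvd_sub (Dvd.dvd.mul_left hx2 _) (dvd_mul_right _ _)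
      by_cases hq : q.1 = k - (x.1.1 + x.2.1)
      · rw [if_pos hq, if_pos ⟨by omega, hdiv⟩]
      · rw [if_neg hq, if_neg (fun h => hq (by omega))]
    rw [Finset.sum_congr rfl h3, Finset.sum_boole, card_filter_fst]
  · have h2 : ∑ k' ∈ (range (k + 1)).filter (fun k' => r ≤ k'),
        (if (x.1.1 + x.2.1 = k' ∧ (3 : ℤ) ^ r ∣ 2 ^ (j + a) * y - (comp a x.1 x.2).2) then (1 : ℝ)
          else 0) * (b.choose (k - k') : ℝ) = 0 := by
      refine Finset.sum_eq_zero fun k' hk' => ?_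
      rw [if_neg, zero_mul]
      rintro ⟨h3, h4⟩
      exact hx ⟨by rw [h3]; exact hk', h4⟩
    rw [h2]
    refine Finset.sum_nonneg fun q _ => ?_
    split_ifs <;> norm_num

/-- the counting function of the bad part -/
noncomputable def advG (a b k : ℕ) (Bd : Finset (ℕ × ℕ)) (i : ℕ) (u : ℤ) : ℝ :=
  3 ^ (k - i) / 2 ^ (a + b) * ∑ x ∈ Bd ×ˢ D b,
    if (i + x.1.1 + x.2.1 = k ∧ (3 : ℤ) ^ (k - i) ∣ 2 ^ (a + b) * u - (comp b x.1 x.2).2)
    then (1 : ℝ) else 0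

theorem advG_nonneg (a b k : ℕ) (Bd : Finset (ℕ × ℕ)) (i : ℕ) (u : ℤ) :
    0 ≤ advG a b k Bd i u := by
  refine mul_nonneg (by positivity) (Finset.sum_nonneg fun x _ => ?_)
  split_ifs <;> norm_num

theorem advG_periodic (a b k : ℕ) (Bd : Finset (ℕ × ℕ)) (i : ℕ) (u : ℤ) :
    advG a b k Bd i (u + 3 ^ (k - i)) = advG a b k Bd i u := by
  unfold advG
  congr 1
  refine Finset.sum_congr rfl fun x _ => ?_
  have h1 : (2 : ℤ) ^ (a + b) * (u + 3 ^ (k - i)) - ((comp b x.1 x.2).2 : ℕ) =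
      (2 ^ (a + b) * u - ((comp b x.1 x.2).2 : ℕ)) + 3 ^ (k - i) * 2 ^ (a + b) := by ring
  have h2 : ((3 : ℤ) ^ (k - i) ∣ 2 ^ (a + b) * (u + 3 ^ (k - i)) - ((comp b x.1 x.2).2 : ℕ)) ↔
      ((3 : ℤ) ^ (k - i) ∣ 2 ^ (a + b) * u - ((comp b x.1 x.2).2 : ℕ)) := by
    rw [h1]
    exact dvd_add_left (dvd_mul_right _ _)
  simp only [h2]

/-- one class `u` for every word -/
theorem advB_one (n b : ℕ) (c : ℤ) :
    ∑ u ∈ range (3 ^ n), (if (3 : ℤ) ^ n ∣ 2 ^ b * (u : ℤ) - c then (1 : ℝ) else 0) ≤ 1 := by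
  rw [Finset.sum_boole]
  have : ((range (3 ^ n)).filter (fun u : ℕ => (3 : ℤ) ^ n ∣ 2 ^ b * (u : ℤ) - c)).card ≤ 1 := by
    rw [Finset.card_le_one]
    intro u hu v hv
    obtain ⟨hu1, hu2⟩ := Finset.mem_filter.1 hu
    obtain ⟨hv1, hv2⟩ := Finset.mem_filter.1 hv
    have h1 : (3 : ℤ) ^ n ∣ 2 ^ b * ((u : ℤ) - v) := by
      have := dvd_sub hu2 hv2
      have e : (2 : ℤ) ^ b * (u : ℤ) - c - (2 ^ b * (v : ℤ) - c) = 2 ^ b * ((u : ℤ) - v) := by ring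
      rwa [e] at this
    have h2 : (3 : ℤ) ^ n ∣ (u : ℤ) - v := (advB_isCoprime n b).dvd_of_dvd_mul_left h1
    have hu3 : (u : ℤ) < 3 ^ n := by exact_mod_cast Finset.mem_range.1 hu1
    have hv3 : (v : ℤ) < 3 ^ n := by exact_mod_cast Finset.mem_range.1 hv1
    have h3 : (u : ℤ) - v = 0 := Int.eq_zero_of_abs_lt_dvd h2 (by rw [abs_lt]; constructor <;> omega)
    omega
  exact_mod_cast this

theorem advG_mean (a b k : ℕ) (Bd : Finset (ℕ × ℕ)) (i : ℕ) :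
    (∑ u ∈ range (3 ^ (k - i)), advG a b k Bd i u) / 3 ^ (k - i) ≤
      (∑ x ∈ Bd ×ˢ D b, if (i + x.1.1 + x.2.1 = k) then (1 : ℝ) else 0) / 2 ^ (a + b) := by
  unfold advG
  rw [← Finset.mul_sum, Finset.sum_comm]
  have h1 : ∀ x ∈ Bd ×ˢ D b, ∑ u ∈ range (3 ^ (k - i)),
      (if (i + x.1.1 + x.2.1 = k ∧ (3 : ℤ) ^ (k - i) ∣ 2 ^ (a + b) * (u : ℤ) - (comp b x.1 x.2).2)
        then (1 : ℝ) else 0) ≤ if (i + x.1.1 + x.2.1 = k) then (1 : ℝ) else 0 := by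
    intro x _
    by_cases hx : i + x.1.1 + x.2.1 = k
    · simp only [hx, true_and, if_true]
      exact advB_one _ _ _
    · simp [hx]
  have h2 := Finset.sum_le_sum h1
  have h3 : (0 : ℝ) < 3 ^ (k - i) := by positivity
  have h4 : (0 : ℝ) < 2 ^ (a + b) := by positivity
  rw [div_le_div_iff₀ h3 h4]
  calc _ = 3 ^ (k - i) * (∑ x ∈ Bd ×ˢ D b, ∑ u ∈ range (3 ^ (k - i)),
      (if (i + x.1.1 + x.2.1 = k ∧ (3 : ℤ) ^ (k - i) ∣ 2 ^ (a + b) * (u : ℤ) - (comp b x.1 x.2).2)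
        then (1 : ℝ) else 0)) := by field_simp
    _ ≤ 3 ^ (k - i) * (∑ x ∈ Bd ×ˢ D b, if (i + x.1.1 + x.2.1 = k) then (1 : ℝ) else 0) := by
        gcongr
    _ = _ := by ring

/-- the bad part as a sum over the nodes -/
theorem advB_bad {j a b k : ℕ} (S Bd : Finset (ℕ × ℕ)) (hSk : ∀ p ∈ S, p.1 ≤ k) (y : ℤ) :
    (3 : ℝ) ^ k / 2 ^ (j + a + b) * ∑ p ∈ S, ∑ x ∈ Bd ×ˢ D b,
      (if (p.1 + x.1.1 + x.2.1 = k ∧
        (3 : ℤ) ^ k ∣ 2 ^ (j + a + b) * y - (comp b (comp a p x.1) x.2).2) then (1 : ℝ) else 0) ≤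
    ∑ p ∈ S.filter (fun p => (3 : ℤ) ^ p.1 ∣ 2 ^ j * y - p.2),
        (3 : ℝ) ^ p.1 / 2 ^ j * advG a b k Bd p.1 ((2 ^ j * y - p.2) / 3 ^ p.1) := by
  rw [Finset.mul_sum, Finset.sum_filter]
  refine Finset.sum_le_sum fun p hp => ?_
  have hpk := hSk p hp
  have key : ∀ x : (ℕ × ℕ) × (ℕ × ℕ),
      (2 : ℤ) ^ (j + a + b) * y - ((comp b (comp a p x.1) x.2).2 : ℕ) =
      2 ^ (a + b) * (2 ^ j * y - p.2) - 3 ^ p.1 * ((comp b x.1 x.2).2 : ℕ) := by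
    intro x
    simp only [comp]
    push_cast
    ring
  by_cases hdiv : (3 : ℤ) ^ p.1 ∣ 2 ^ j * y - p.2
  · rw [if_pos hdiv]
    obtain ⟨m, hm⟩ := hdiv
    have hm' : (2 ^ j * y - (p.2 : ℤ)) / 3 ^ p.1 = m := by
      rw [hm, Int.mul_ediv_cancel_left _ (by positivity)]
    rw [hm', advG]
    have e1 : (3 : ℝ) ^ k = 3 ^ p.1 * 3 ^ (k - p.1) := by rw [← pow_add]; congr 1; omega
    have e3 : (3 : ℤ) ^ k = 3 ^ p.1 * 3 ^ (k - p.1) := by rw [← pow_add]; congr 1; omega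
    have e2 : ∀ x ∈ Bd ×ˢ D b, (if (p.1 + x.1.1 + x.2.1 = k ∧
        (3 : ℤ) ^ k ∣ 2 ^ (j + a + b) * y - (comp b (comp a p x.1) x.2).2) then (1 : ℝ) else 0) =
        if (p.1 + x.1.1 + x.2.1 = k ∧ (3 : ℤ) ^ (k - p.1) ∣ 2 ^ (a + b) * m - (comp b x.1 x.2).2)
          then (1 : ℝ) else 0 := by
      intro x _
      have : ((3 : ℤ) ^ k ∣ 2 ^ (j + a + b) * y - ((comp b (comp a p x.1) x.2).2 : ℕ)) ↔
          (3 : ℤ) ^ (k - p.1) ∣ 2 ^ (a + b) * m - ((comp b x.1 x.2).2 : ℕ) := by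
        rw [key x, hm, e3]
        have e4 : (2 : ℤ) ^ (a + b) * (3 ^ p.1 * m) - 3 ^ p.1 * ((comp b x.1 x.2).2 : ℕ) =
            3 ^ p.1 * (2 ^ (a + b) * m - ((comp b x.1 x.2).2 : ℕ)) := by ring
        rw [e4]
        exact mul_dvd_mul_iff_left (by positivity)
      simp only [this]
    rw [Finset.sum_congr rfl e2, e1, show j + a + b = j + (a + b) by ring, pow_add 2 j (a + b)]
    apply le_of_eq
    field_simp
  · rw [if_neg hdiv]
    have : ∑ x ∈ Bd ×ˢ D b, (if (p.1 + x.1.1 + x.2.1 = k ∧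
        (3 : ℤ) ^ k ∣ 2 ^ (j + a + b) * y - (comp b (comp a p x.1) x.2).2) then (1 : ℝ) else 0) =
        0 := by
      refine Finset.sum_eq_zero fun x _ => ?_
      rw [if_neg]
      rintro ⟨_, h2⟩
      apply hdiv
      rw [key x] at h2
      have h3 : (3 : ℤ) ^ p.1 ∣ 2 ^ (a + b) * (2 ^ j * y - p.2) -
          3 ^ p.1 * ((comp b x.1 x.2).2 : ℕ) := dvd_trans (pow_dvd_pow 3 hpk) h2
      have h4 : (3 : ℤ) ^ p.1 ∣ 2 ^ (a + b) * (2 ^ j * y - p.2) :=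
        (dvd_sub_left (dvd_mul_right _ _)).1 h3
      exact (advB_isCoprime p.1 (a + b)).dvd_of_dvd_mul_left h4
    rw [this, mul_zero]

theorem A3 {j a b : ℕ} {Λ : ℝ} (hΛ : 0 ≤ Λ) (S S' Bd : Finset (ℕ × ℕ)) (hSD : S ⊆ D j)
    (hc : ∀ p ∈ S, (p.2 : ℝ) ≤ Λ * 2 ^ j) (hBd : Bd ⊆ D a) (hS' : S' ⊆ D (j + a))
    (hSS : ∀ p ∈ S, ∀ q ∈ D a, q ∉ Bd → comp a p q ∈ S') (y : ℤ) :
    ∃ ls : ℕ → ℝ, (∀ k, 0 ≤ ls k) ∧
      (∀ k, 3 ^ k ≤ 2 ^ j → (∀ p ∈ S, p.1 ≤ k) →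
        Z S j (a + b) k k y ≤ Z S' (j + a) b k k y + ls k) ∧
      ∀ m, ∑ k ∈ range m, ls k ≤ (Λ + 2) * (j + 1) * (Bd.card / 2 ^ a) := by
  classical
  refine ⟨fun k => (Λ + 2) * ∑ i ∈ range (j + 1),
    (∑ x ∈ Bd ×ˢ D b, if (i + x.1.1 + x.2.1 = k) then (1 : ℝ) else 0) / 2 ^ (a + b), ?_, ?_, ?_⟩
  · intro k
    refine mul_nonneg (by linarith) (Finset.sum_nonneg fun i _ => div_nonneg ?_ (by positivity))
    refine Finset.sum_nonneg fun x _ => ?_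
    split_ifs <;> norm_num
  · intro k hk hSk
    have hbad := advB_bad (a := a) (b := b) S Bd hSk (j := j) y
    have hA0 := A0 hΛ S hSD hc hk hSk y (advG a b k Bd) (advG_nonneg a b k Bd)
      (fun i _ u => advG_periodic a b k Bd i u)
    have hmean : (Λ + 2) * ∑ i ∈ range (j + 1),
        (∑ u ∈ range (3 ^ (k - i)), advG a b k Bd i u) / 3 ^ (k - i) ≤
        (Λ + 2) * ∑ i ∈ range (j + 1),
          (∑ x ∈ Bd ×ˢ D b, if (i + x.1.1 + x.2.1 = k) then (1 : ℝ) else 0) / 2 ^ (a + b) := by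
      refine mul_le_mul_of_nonneg_left (Finset.sum_le_sum fun i _ => advG_mean a b k Bd i)
        (by linarith)
    refine le_trans ?_ (add_le_add_right (le_trans hbad (le_trans hA0 hmean)) _)
    rw [advB_Z1, advB_Z0, ← mul_add]
    refine mul_le_mul_of_nonneg_left ?_ (by positivity)
    -- the counting inequality
    set P : (ℕ × ℕ) → (ℕ × ℕ) → Prop := fun s q => s.1 + q.1 = k ∧
      (3 : ℤ) ^ k ∣ 2 ^ (j + a + b) * y - (comp b s q).2 with hP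
    have e1 : ∑ x ∈ S ×ˢ D a, ∑ q ∈ D b,
        (if (x.1.1 + x.2.1 + q.1 = k ∧
          (3 : ℤ) ^ k ∣ 2 ^ (j + a + b) * y - (comp b (comp a x.1 x.2) q).2) then (1 : ℝ) else 0) =
        ∑ x ∈ S ×ˢ D a, ∑ q ∈ D b, (if P (comp a x.1 x.2) q then (1 : ℝ) else 0) := by
      refine Finset.sum_congr rfl fun x _ => Finset.sum_congr rfl fun q _ => ?_
      rfl
    have e2 : ∑ p ∈ S, ∑ x ∈ Bd ×ˢ D b,
        (if (p.1 + x.1.1 + x.2.1 = k ∧
        (3 : ℤ) ^ k ∣ 2 ^ (j + a + b) * y - (comp b (comp a p x.1) x.2).2) then (1 : ℝ) else 0) =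
        ∑ x ∈ S ×ˢ Bd, ∑ q ∈ D b, (if P (comp a x.1 x.2) q then (1 : ℝ) else 0) := by
      rw [Finset.sum_product]
      refine Finset.sum_congr rfl fun p _ => ?_
      rw [Finset.sum_product]
      refine Finset.sum_congr rfl fun x _ => Finset.sum_congr rfl fun q _ => ?_
      rfl
    have e3 : ∑ x ∈ S' ×ˢ D b, (if (x.1.1 + x.2.1 = k ∧
          (3 : ℤ) ^ k ∣ 2 ^ (j + a + b) * y - (comp b x.1 x.2).2) then (1 : ℝ) else 0) =
        ∑ s ∈ S', ∑ q ∈ D b, (if P s q then (1 : ℝ) else 0) := by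
      rw [Finset.sum_product]
    rw [e1, e2, e3]
    have hsplit : S ×ˢ D a = S ×ˢ (D a \ Bd) ∪ S ×ˢ Bd := by
      rw [← Finset.product_union, Finset.sdiff_union_of_subset hBd]
    have hdisj : Disjoint (S ×ˢ (D a \ Bd)) (S ×ˢ Bd) := by
      rw [Finset.disjoint_product]
      exact Or.inr Finset.sdiff_disjoint
    rw [hsplit, Finset.sum_union hdisj]
    refine add_le_add_left ?_ _
    set f : (ℕ × ℕ) → ℝ := fun s => ∑ q ∈ D b, (if P s q then (1 : ℝ) else 0) with hf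
    have hf0 : ∀ s, 0 ≤ f s := fun s => Finset.sum_nonneg fun q _ => by split_ifs <;> norm_num
    have hinj : Set.InjOn (fun x : (ℕ × ℕ) × (ℕ × ℕ) => comp a x.1 x.2)
        (S ×ˢ (D a \ Bd) : Finset _) := by
      intro x hx x' hx' h
      have hx1 := Finset.mem_product.1 (Finset.mem_coe.1 hx)
      have hx2 := Finset.mem_product.1 (Finset.mem_coe.1 hx')
      have := comp_inj (hSD hx1.1) (Finset.mem_sdiff.1 hx1.2).1 (hSD hx2.1)
        (Finset.mem_sdiff.1 hx2.2).1 h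
      exact Prod.ext this.1 this.2
    have himg : (S ×ˢ (D a \ Bd)).image (fun x => comp a x.1 x.2) ⊆ S' := by
      intro s hs
      obtain ⟨x, hx, rfl⟩ := Finset.mem_image.1 hs
      have hx1 := Finset.mem_product.1 hx
      have hx2 := Finset.mem_sdiff.1 hx1.2
      exact hSS _ hx1.1 _ hx2.1 hx2.2
    calc ∑ x ∈ S ×ˢ (D a \ Bd), f (comp a x.1 x.2)
        = ∑ s ∈ (S ×ˢ (D a \ Bd)).image (fun x => comp a x.1 x.2), f s := by
          rw [Finset.sum_image hinj]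
      _ ≤ ∑ s ∈ S', f s := Finset.sum_le_sum_of_subset_of_nonneg himg fun s _ _ => hf0 s
  · intro m
    rw [← Finset.mul_sum, Finset.sum_comm, mul_assoc]
    refine mul_le_mul_of_nonneg_left ?_ (by linarith)
    have h1 : ∀ i ∈ range (j + 1), ∑ k ∈ range m,
        (∑ x ∈ Bd ×ˢ D b, if (i + x.1.1 + x.2.1 = k) then (1 : ℝ) else 0) / 2 ^ (a + b) ≤
        (Bd.card : ℝ) / 2 ^ a := by
      intro i _
      rw [← Finset.sum_div, Finset.sum_comm]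
      have h2 : ∑ x ∈ Bd ×ˢ D b, ∑ k ∈ range m, (if (i + x.1.1 + x.2.1 = k) then (1 : ℝ) else 0) ≤
          ∑ x ∈ Bd ×ˢ D b, 1 := by
        refine Finset.sum_le_sum fun x _ => ?_
        rw [Finset.sum_ite_eq]
        split_ifs <;> norm_num
      have h3 : ∑ x ∈ Bd ×ˢ D b, (1 : ℝ) = Bd.card * 2 ^ b := by
        rw [Finset.sum_const, Finset.card_product, card_D]
        simp
      rw [h3] at h2
      calc _ ≤ (Bd.card * 2 ^ b : ℝ) / 2 ^ (a + b) := by gcongr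
        _ = _ := by rw [pow_add]; field_simp
    calc _ ≤ ∑ i ∈ range (j + 1), (Bd.card : ℝ) / 2 ^ a := Finset.sum_le_sum h1
      _ = _ := by rw [Finset.sum_const, Finset.card_range]; simp

end Pool.Agent.H30.PD
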