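import Pool.Agent.H30.PD.Cols
import Pool.Agent.H30.PD.Bin

/-!
# JOB PD-BADW. The weight of the bad columns after a long crossing

Choose `H i`, `W i` recursively: given `Ls H i` (it depends only on `H 0, …, H (i-1)`) choose `W i` with
`(2 Ls H i + 1)^2 (2 om + 1)/(W i + 1) ≤ x/(2 (J+1))` and `H i` with `2 * 9^(Ls H i) * (3^(W i) + 1) < 4^(H i)`. (In Lean: it is easiest to
define the sequence of pairs `(Ls, H)` by recursion with `Classical.choose`, or to prove by induction on `J` the existence of `H`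
satisfying the condition for `i < J`, modifying `H` only at `J` (`Ls H i` depends on `H` below `i` only).)
The number of `k` with `|k - h| ≤ om √h` is `≤ 2 om √h + 1`. For fixed `i < J` and `k' ≤ 2 Ls H i` the numbers `n - k - k'` of
such `k` lie in an interval of length `m ≤ 2 om √h + 1` and `k ↦ n - k - k'` is injective (as `k + k' ≤ n` by the
hypothesis `hn`), so by `col_count` at most `(m/(W i + 1) + 1) (2 Ls H i + 1)` of them are columns. So there are at most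
`∑_{i<J} (2 Ls H i + 1)^2 (m/(W i + 1) + 1)` bad `k`, each of weight `≤ 1/√h` (`bin_le`), total weight
`≤ ∑_{i<J} (2 Ls H i + 1)^2 ((2 om + 1)/(W i + 1) + 1/√h) ≤ x/2 + x/2` for `h ≥ h0`.
-/

set_option autoImplicit false

namespace Pool.Agent.H30.PD

open Finset

theorem badW_seq (f : ℕ → ℕ) : ∃ H : ℕ → ℕ, ∀ i, H i = f (Ls H i) := by
  let p : ℕ → ℕ := fun i => Nat.rec 0 (fun _ q => q + f q + 1) i
  refine ⟨fun i => f (p i), fun i => ?_⟩
  have key : ∀ i, Ls (fun i => f (p i)) i = p i := by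
    intro i
    induction i with
    | zero => rfl
    | succ i ih =>
      show Ls (fun i => f (p i)) i + f (p i) + 1 = p i + f (p i) + 1
      rw [ih]
  rw [key]

theorem badW_par (L : ℕ) {c d : ℝ} (hd : 0 < d) :
    ∃ W H : ℕ, c / ((W : ℝ) + 1) ≤ d ∧ 2 * 9 ^ L * (3 ^ W + 1) < 4 ^ H := by
  obtain ⟨W, hW⟩ := exists_nat_ge (c / d)
  obtain ⟨H, hH⟩ := pow_unbounded_of_one_lt (2 * 9 ^ L * (3 ^ W + 1)) (by norm_num : (1:ℕ) < 4)
  refine ⟨W, H, ?_, hH⟩
  rw [div_le_iff₀ (by positivity)]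
  rw [div_le_iff₀ hd] at hW
  nlinarith

open Classical in
theorem badW_card {K : ℤ} {L H W : ℕ} (hH : 2 * 9 ^ L * (3 ^ W + 1) < 4 ^ H) {om : ℝ}
    (hom : 0 < om) {h n k' : ℕ} (hn : (h : ℝ) + om * Real.sqrt h + k' ≤ n) :
    (((range (2 * h + 1)).filter (fun k : ℕ => |(k : ℝ) - h| ≤ om * Real.sqrt h ∧
      Col K L H (n - k - k'))).card : ℝ) ≤
      ((2 * (om * Real.sqrt h) + 1) / ((W : ℝ) + 1) + 1) * (2 * L + 1) := by
  set R : ℝ := om * Real.sqrt h with hR
  have hR0 : 0 ≤ R := by positivity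
  set b : ℕ := ⌊(h : ℝ) + R⌋₊ with hb
  set a : ℕ := ⌈(h : ℝ) - R⌉₊ with ha
  set A : Finset ℕ := (range (2 * h + 1)).filter (fun k : ℕ => |(k : ℝ) - h| ≤ R ∧
      Col K L H (n - k - k')) with hA
  have hbR : (b : ℝ) ≤ h + R := Nat.floor_le (by positivity)
  have hbn : b + k' ≤ n := by
    have : ((b + k' : ℕ) : ℝ) ≤ n := by push_cast; linarith
    exact_mod_cast this
  have haR : (h : ℝ) - R ≤ a := Nat.le_ceil _
  have hah : a ≤ h := by
    rw [ha, Nat.ceil_le]; linarith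
  have hhb : h ≤ b := by
    rw [hb]; exact Nat.le_floor (by linarith)
  have hmem : ∀ k ∈ A, a ≤ k ∧ k ≤ b ∧ Col K L H (n - k - k') := by
    intro k hk
    rw [hA, Finset.mem_filter] at hk
    obtain ⟨-, hk1, hk2⟩ := hk
    rw [abs_le] at hk1
    refine ⟨?_, ?_, hk2⟩
    · rw [ha, Nat.ceil_le]; linarith [hk1.1]
    · rw [hb]; exact Nat.le_floor (by linarith [hk1.2])
  have hinj : Set.InjOn (fun k : ℕ => n - k - k') (A : Set ℕ) := by
    intro k hk l hl hkl
    have h1 := hmem k hk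
    have h2 := hmem l hl
    simp only at hkl
    omega
  have hcard := col_count hH (n - k' - b) (b - a + 1) (A.image (fun k : ℕ => n - k - k')) (by
    intro ν hν
    rw [Finset.mem_image] at hν
    obtain ⟨k, hk, rfl⟩ := hν
    have h1 := hmem k hk
    refine ⟨h1.2.2, ?_, ?_⟩ <;> omega)
  rw [Finset.card_image_of_injOn hinj] at hcard
  have h3 : (A.card : ℝ) ≤ (((b - a + 1) / (W + 1) + 1) * (2 * L + 1) : ℕ) := by
    exact_mod_cast hcard
  refine h3.trans ?_
  push_cast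
  gcongr
  refine Nat.cast_div_le.trans ?_
  push_cast [Nat.cast_sub (hah.trans hhb)]
  gcongr
  linarith

open Classical in
theorem bad_weight (J : ℕ) {x om : ℝ} (hx : 0 < x) (hom : 0 < om) :
    ∃ (H : ℕ → ℕ) (h0 : ℕ), ∀ h ≥ h0, ∀ (K : ℤ) (n : ℕ),
      (h : ℝ) + om * Real.sqrt h + 2 * Ls H J ≤ n →
      ∑ k ∈ (range (2 * h + 1)).filter (fun k : ℕ => |(k : ℝ) - h| ≤ om * Real.sqrt h ∧
        ∃ i < J, ∃ k' ≤ 2 * Ls H i, Col K (Ls H i) (H i) (n - k - k')), bin (2 * h) k ≤ x := by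
  have hpar : ∀ L : ℕ, ∃ W H : ℕ, ((2 * (L : ℝ) + 1) ^ 2 * (2 * om + 1)) / ((W : ℝ) + 1) ≤
      x / (2 * (J + 1)) ∧ 2 * 9 ^ L * (3 ^ W + 1) < 4 ^ H := fun L =>
    badW_par L (by positivity)
  choose Wf Hf hWf hHf using hpar
  obtain ⟨H, hH⟩ := badW_seq Hf
  have hmono : ∀ i j, i ≤ j → Ls H i ≤ Ls H j := by
    intro i j hij
    induction hij with
    | refl => exact le_rfl
    | step _ ih => exact ih.trans (by simp only [Ls]; omega)
  set Q : ℝ := ∑ i ∈ range J, (2 * (Ls H i : ℝ) + 1) ^ 2 with hQ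
  have hQ0 : 0 ≤ Q := Finset.sum_nonneg fun i _ => by positivity
  obtain ⟨h0, hh0⟩ := exists_nat_ge ((2 * Q / x) ^ 2 + 1)
  refine ⟨H, h0, ?_⟩
  intro h hh K n hn
  have hh1 : (2 * Q / x) ^ 2 + 1 ≤ (h : ℝ) := hh0.trans (by exact_mod_cast hh)
  have hpos : (1 : ℝ) ≤ h := by nlinarith [sq_nonneg (2 * Q / x)]
  have hsq : 1 ≤ Real.sqrt h := by
    rw [Real.one_le_sqrt]; exact hpos
  have hsq2 : 2 * Q / x ≤ Real.sqrt h := by
    apply Real.le_sqrt_of_sq_le; linarith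
  have hsq0 : 0 < Real.sqrt h := by linarith
  set B := (range (2 * h + 1)).filter (fun k : ℕ => |(k : ℝ) - h| ≤ om * Real.sqrt h ∧
        ∃ i < J, ∃ k' ≤ 2 * Ls H i, Col K (Ls H i) (H i) (n - k - k')) with hB
  have hbin : ∀ k ∈ B, bin (2 * h) k ≤ 1 / Real.sqrt h := by
    intro k _
    refine (bin_le (n := 2 * h) (by
      have : 1 ≤ h := by exact_mod_cast hpos
      omega) k).trans ?_
    apply one_div_le_one_div_of_le hsq0
    apply Real.sqrt_le_sqrt
    push_cast; linarith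
  have hsum : ∑ k ∈ B, bin (2 * h) k ≤ B.card * (1 / Real.sqrt h) := by
    refine (Finset.sum_le_card_nsmul B _ _ hbin).trans ?_
    rw [nsmul_eq_mul]
  have hsub : B ⊆ (range J).biUnion fun i => (range (2 * Ls H i + 1)).biUnion fun k' =>
      (range (2 * h + 1)).filter (fun k : ℕ => |(k : ℝ) - h| ≤ om * Real.sqrt h ∧
      Col K (Ls H i) (H i) (n - k - k')) := by
    intro k hk
    rw [hB, Finset.mem_filter] at hk
    obtain ⟨hk1, hk2, i, hi, k', hk', hc⟩ := hk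
    simp only [Finset.mem_biUnion, Finset.mem_filter, Finset.mem_range]
    exact ⟨i, hi, k', by omega, by simpa using hk1, hk2, hc⟩
  have hcard : (B.card : ℝ) ≤ ∑ i ∈ range J, ∑ k' ∈ range (2 * Ls H i + 1),
      ((2 * (om * Real.sqrt h) + 1) / ((Wf (Ls H i) : ℝ) + 1) + 1) * (2 * (Ls H i : ℝ) + 1) := by
    have h1 : B.card ≤ ∑ i ∈ range J, ∑ k' ∈ range (2 * Ls H i + 1),
      ((range (2 * h + 1)).filter (fun k : ℕ => |(k : ℝ) - h| ≤ om * Real.sqrt h ∧
      Col K (Ls H i) (H i) (n - k - k'))).card :=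
      (Finset.card_le_card hsub).trans (Finset.card_biUnion_le.trans
        (Finset.sum_le_sum fun i _ => Finset.card_biUnion_le))
    have h2 : (B.card : ℝ) ≤ ∑ i ∈ range J, ∑ k' ∈ range (2 * Ls H i + 1),
      (((range (2 * h + 1)).filter (fun k : ℕ => |(k : ℝ) - h| ≤ om * Real.sqrt h ∧
      Col K (Ls H i) (H i) (n - k - k'))).card : ℝ) := by exact_mod_cast h1
    refine h2.trans (Finset.sum_le_sum fun i hi => Finset.sum_le_sum fun k' hk' => ?_)
    apply badW_card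
    · have := hHf (Ls H i)
      rw [← hH i] at this
      exact this
    · exact hom
    · have hk2 : k' ≤ 2 * Ls H i := by
        have := Finset.mem_range.mp hk'; omega
      have hk3 : Ls H i ≤ Ls H J := hmono i J (Finset.mem_range.mp hi).le
      have hk4 : (k' : ℝ) ≤ 2 * Ls H J := by
        have : k' ≤ 2 * Ls H J := by omega
        exact_mod_cast this
      linarith
  have hterm : ∀ i ∈ range J, (∑ k' ∈ range (2 * Ls H i + 1),
      ((2 * (om * Real.sqrt h) + 1) / ((Wf (Ls H i) : ℝ) + 1) + 1) * (2 * (Ls H i : ℝ) + 1)) *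
        (1 / Real.sqrt h) ≤ x / (2 * (J + 1)) + (2 * (Ls H i : ℝ) + 1) ^ 2 * (1 / Real.sqrt h) := by
    intro i _
    rw [Finset.sum_const, Finset.card_range, nsmul_eq_mul]
    push_cast
    have h1 := hWf (Ls H i)
    have h2 : (2 * (om * Real.sqrt h) + 1) * (1 / Real.sqrt h) ≤ 2 * om + 1 := by
      rw [mul_one_div, div_le_iff₀ hsq0]
      nlinarith
    have h3 : (2 * (Ls H i : ℝ) + 1) ^ 2 / ((Wf (Ls H i) : ℝ) + 1) *
        ((2 * (om * Real.sqrt h) + 1) * (1 / Real.sqrt h)) ≤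
        (2 * (Ls H i : ℝ) + 1) ^ 2 / ((Wf (Ls H i) : ℝ) + 1) * (2 * om + 1) := by gcongr
    have h4 : (2 * (Ls H i : ℝ) + 1) ^ 2 / ((Wf (Ls H i) : ℝ) + 1) * (2 * om + 1) ≤
        x / (2 * (J + 1)) := by
      refine le_trans (le_of_eq ?_) h1
      ring
    calc _ = (2 * (Ls H i : ℝ) + 1) ^ 2 / ((Wf (Ls H i) : ℝ) + 1) *
        ((2 * (om * Real.sqrt h) + 1) * (1 / Real.sqrt h)) +
        (2 * (Ls H i : ℝ) + 1) ^ 2 * (1 / Real.sqrt h) := by ring
      _ ≤ _ := by linarith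
  have hfin : ∑ k ∈ B, bin (2 * h) k ≤
      ∑ i ∈ range J, (x / (2 * (J + 1)) + (2 * (Ls H i : ℝ) + 1) ^ 2 * (1 / Real.sqrt h)) := by
    refine hsum.trans ?_
    refine (mul_le_mul_of_nonneg_right hcard (by positivity)).trans ?_
    rw [Finset.sum_mul]
    exact Finset.sum_le_sum hterm
  refine hfin.trans ?_
  rw [Finset.sum_add_distrib, ← Finset.sum_mul, ← hQ, Finset.sum_const, Finset.card_range,
    nsmul_eq_mul]
  have e1 : (J : ℝ) * (x / (2 * (J + 1))) ≤ x / 2 := by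
    rw [mul_div_assoc', div_le_div_iff₀ (by positivity) (by norm_num)]
    nlinarith
  have e2 : Q * (1 / Real.sqrt h) ≤ x / 2 := by
    rw [mul_one_div, div_le_iff₀ hsq0]
    rw [div_le_iff₀ hx] at hsq2
    linarith
  linarith

end Pool.Agent.H30.PD
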