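import Pool.Agent.H30.PD.Parseval

/-!
# JOB PD-NODE. Sums over nodes, and the key inequality (A0)

* `T_node`: if `p ∈ D l` and `3^(p.1) m = 2^l y - p.2` then `T^[l] m = y`. Induction on `l` for all `m` (`mem_D_succ`):
  `(k, 2c)`: `3^k m = 2(2^l y - c)` so `m` is even, `T m = m/2`; `(k+1, 2c+3^k)`: `3^k (3m+1) = 2(2^l y - c)` so `m` is odd,
  `T m = (3m+1)/2`; `T^[l+1] m = T^[l] (T m)`.
* `Z_eq`: for `(p, q) ∈ S × D L` with `p.1 + q.1 = k`, `p.1 ≤ r`: `2^(j+L) y - (2^L p.2 + 3^(p.1) q.2) = 2^L (2^j y - p.2) - 3^(p.1) q.2`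
  is divisible by `3^r` iff `3^(p.1) ∣ 2^j y - p.2` (`2^L` is a unit mod `3^(p.1)`) and, with `m = (2^j y - p.2)/3^(p.1)`,
  `3^(r - p.1) ∣ 2^L m - q.2`. Sum over `p`.
* `Z_nonneg`, `Z_mono` in `S`, `Z_periodic` (depends on `y` mod `3^r`).
* `A0`: group the `p` by `i = p.1 ≤ k`, `i ≤ j`. For fixed `i` the integers `m_p = (2^j y - p.2)/3^i` are distinct (`p.2 = 2^j y - 3^i m`) and
  lie in an interval of length `Λ 2^j/3^i`. `sum_interval_le` with `N = 3^(k-i)`: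
  `∑ G i (m_p) ≤ ((Λ 2^j/3^i + 1)/3^(k-i) + 1) ∑_u G i u`; times `3^i/2^j` this is at most
  `(Λ + 3^i/2^j + 3^k/2^j) * mean ≤ (Λ + 2) * mean`.
-/

set_option autoImplicit false

namespace Pool.Agent.H30.PD

open Finset

theorem NodeSum_even_of_pow_mul {a : ℕ} {m z : ℤ} (h : (3 : ℤ) ^ a * m = 2 * z) : (2 : ℤ) ∣ m := by
  have h1 : (2 : ℤ) ∣ 3 ^ a * m := ⟨z, h⟩
  have h2 : IsCoprime (2 : ℤ) (3 ^ a) := by
    apply IsCoprime.pow_right
    norm_num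
  exact h2.dvd_of_dvd_mul_left h1

theorem T_node {l : ℕ} {p : ℕ × ℕ} (hp : p ∈ D l) {y m : ℤ}
    (h : (3 : ℤ) ^ p.1 * m = 2 ^ l * y - p.2) : T^[l] m = y := by
  induction l generalizing p m with
  | zero =>
    have hp' : p = (0, 0) := by simpa [D] using hp
    subst hp'
    simpa using h
  | succ l ih =>
    obtain ⟨q, hq, hq' | hq'⟩ := (mem_D_succ l p).1 hp
    · subst hq'
      simp only at h
      push_cast at h
      have h2 : (3 : ℤ) ^ q.1 * m = 2 * (2 ^ l * y - q.2) := by rw [h]; ring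
      obtain ⟨m', rfl⟩ := NodeSum_even_of_pow_mul h2
      have hT : T (2 * m') = m' := by
        unfold T
        rw [if_pos (by omega)]
        omega
      rw [Function.iterate_succ_apply, hT]
      apply ih hq
      have h3 : 2 * ((3 : ℤ) ^ q.1 * m') = 2 * (2 ^ l * y - q.2) := by rw [← h2]; ring
      linarith
    · subst hq'
      simp only at h
      push_cast at h
      have h2 : (3 : ℤ) ^ q.1 * (3 * m + 1) = 2 * (2 ^ l * y - q.2) := by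
        have : (3 : ℤ) ^ (q.1 + 1) = 3 ^ q.1 * 3 := pow_succ _ _
        rw [this] at h
        linear_combination h
      obtain ⟨m', hm'⟩ := NodeSum_even_of_pow_mul h2
      have hT : T m = m' := by
        unfold T
        rw [if_neg (by omega)]
        omega
      rw [Function.iterate_succ_apply, hT]
      apply ih hq
      rw [hm'] at h2
      have h3 : 2 * ((3 : ℤ) ^ q.1 * m') = 2 * (2 ^ l * y - q.2) := by rw [← h2]; ring
      linarith

theorem Z_nonneg (S : Finset (ℕ × ℕ)) (j L k r : ℕ) (y : ℤ) : 0 ≤ Z S j L k r y := by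
  unfold Z
  positivity

theorem Z_periodic (S : Finset (ℕ × ℕ)) (j L k : ℕ) {r : ℕ} {y y' : ℤ} (h : (3 : ℤ) ^ r ∣ y - y') :
    Z S j L k r y = Z S j L k r y' := by
  unfold Z
  congr 3
  apply filter_congr
  intro x _
  have h1 : (3 : ℤ) ^ r ∣ 2 ^ (j + L) * y - (comp L x.1 x.2).2 ↔
      (3 : ℤ) ^ r ∣ 2 ^ (j + L) * y' - (comp L x.1 x.2).2 := by
    have h2 : (2 : ℤ) ^ (j + L) * y - (comp L x.1 x.2).2 =
        (2 ^ (j + L) * y' - (comp L x.1 x.2).2) + 2 ^ (j + L) * (y - y') := by ring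
    rw [h2]
    exact dvd_add_left (Dvd.dvd.mul_left h _)
  rw [h1]

theorem NodeSum_dvd_iff {j L r : ℕ} {p q : ℕ × ℕ} (hr : p.1 ≤ r) (y : ℤ)
    (hd : (3 : ℤ) ^ p.1 ∣ 2 ^ j * y - p.2) :
    (3 : ℤ) ^ r ∣ 2 ^ (j + L) * y - (comp L p q).2 ↔
      (3 : ℤ) ^ (r - p.1) ∣ 2 ^ L * ((2 ^ j * y - p.2) / 3 ^ p.1) - q.2 := by
  obtain ⟨m, hm⟩ := hd
  have h3 : (3 : ℤ) ^ p.1 ≠ 0 := by positivity
  have hdiv : (2 ^ j * y - (p.2 : ℤ)) / 3 ^ p.1 = m := by
    rw [hm]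
    exact Int.mul_ediv_cancel_left _ h3
  rw [hdiv]
  have h1 : (2 : ℤ) ^ (j + L) * y - (comp L p q).2 = 3 ^ p.1 * (2 ^ L * m - q.2) := by
    unfold comp
    push_cast
    have : (2 : ℤ) ^ (j + L) * y - (2 ^ L * p.2 + 3 ^ p.1 * q.2) =
        2 ^ L * (2 ^ j * y - p.2) - 3 ^ p.1 * q.2 := by
      rw [pow_add]; ring
    rw [this, hm]
    ring
  have h2 : (3 : ℤ) ^ r = 3 ^ p.1 * 3 ^ (r - p.1) := by
    rw [← pow_add, Nat.add_sub_cancel' hr]
  rw [h1, h2]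
  exact mul_dvd_mul_iff_left h3

theorem NodeSum_dvd_of {j L r : ℕ} {p q : ℕ × ℕ} (hr : p.1 ≤ r) (y : ℤ)
    (h : (3 : ℤ) ^ r ∣ 2 ^ (j + L) * y - (comp L p q).2) :
    (3 : ℤ) ^ p.1 ∣ 2 ^ j * y - p.2 := by
  have h1 : (3 : ℤ) ^ p.1 ∣ 2 ^ (j + L) * y - (comp L p q).2 := (pow_dvd_pow 3 hr).trans h
  have h2 : (2 : ℤ) ^ (j + L) * y - (comp L p q).2 =
      2 ^ L * (2 ^ j * y - p.2) - 3 ^ p.1 * q.2 := by
    unfold comp
    push_cast
    rw [pow_add]; ring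
  rw [h2] at h1
  have h3 : (3 : ℤ) ^ p.1 ∣ 2 ^ L * (2 ^ j * y - p.2) := by
    have := dvd_add h1 (Dvd.intro (q.2 : ℤ) rfl : (3 : ℤ) ^ p.1 ∣ 3 ^ p.1 * q.2)
    simpa using this
  have h4 : IsCoprime ((3 : ℤ) ^ p.1) (2 ^ L) := by
    apply IsCoprime.pow
    norm_num
  exact h4.dvd_of_dvd_mul_left h3

theorem Z_eq (S : Finset (ℕ × ℕ)) (j L k r : ℕ) (hr : ∀ p ∈ S, p.1 ≤ r) (hk : ∀ p ∈ S, p.1 ≤ k)
    (y : ℤ) :
    Z S j L k r y = ∑ p ∈ S.filter (fun p => (3 : ℤ) ^ p.1 ∣ 2 ^ j * y - p.2),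
      (3 : ℝ) ^ p.1 / 2 ^ j * (3 ^ (r - p.1) / 2 ^ L *
        (((D L).filter fun q => q.1 = k - p.1 ∧
          (3 : ℤ) ^ (r - p.1) ∣ 2 ^ L * ((2 ^ j * y - p.2) / 3 ^ p.1) - q.2).card : ℝ)) := by
  unfold Z
  have hcard : (((S ×ˢ D L).filter fun x => x.1.1 + x.2.1 = k ∧
      (3 : ℤ) ^ r ∣ 2 ^ (j + L) * y - (comp L x.1 x.2).2).card : ℝ) =
      ∑ p ∈ S, (((D L).filter fun q => p.1 + q.1 = k ∧
        (3 : ℤ) ^ r ∣ 2 ^ (j + L) * y - (comp L p q).2).card : ℝ) := by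
    rw [card_filter]
    push_cast
    rw [sum_product]
    apply sum_congr rfl
    intro p _
    rw [card_filter]
    push_cast
    rfl
  rw [hcard, mul_sum, sum_filter]
  apply sum_congr rfl
  intro p hp
  split_ifs with hd
  · have h1 : ((D L).filter fun q => p.1 + q.1 = k ∧
        (3 : ℤ) ^ r ∣ 2 ^ (j + L) * y - (comp L p q).2) =
        ((D L).filter fun q => q.1 = k - p.1 ∧
          (3 : ℤ) ^ (r - p.1) ∣ 2 ^ L * ((2 ^ j * y - p.2) / 3 ^ p.1) - q.2) := by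
      apply filter_congr
      intro q _
      have hkp := hk p hp
      rw [NodeSum_dvd_iff (hr p hp) y hd]
      constructor
      · rintro ⟨h1, h2⟩
        exact ⟨by omega, h2⟩
      · rintro ⟨h1, h2⟩
        exact ⟨by omega, h2⟩
    rw [h1]
    have h2 : (3 : ℝ) ^ r = 3 ^ p.1 * 3 ^ (r - p.1) := by
      rw [← pow_add, Nat.add_sub_cancel' (hr p hp)]
    rw [h2, pow_add]
    field_simp
  · have h1 : ((D L).filter fun q => p.1 + q.1 = k ∧
        (3 : ℤ) ^ r ∣ 2 ^ (j + L) * y - (comp L p q).2) = ∅ := by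
      apply filter_eq_empty_iff.2
      intro q _ hq
      exact hd (NodeSum_dvd_of (hr p hp) y hq.2)
    rw [h1]
    simp

theorem A0 {j k : ℕ} {Λ : ℝ} (hΛ : 0 ≤ Λ) (S : Finset (ℕ × ℕ)) (hSD : S ⊆ D j)
    (hc : ∀ p ∈ S, (p.2 : ℝ) ≤ Λ * 2 ^ j) (hk : 3 ^ k ≤ 2 ^ j) (hSk : ∀ p ∈ S, p.1 ≤ k) (y : ℤ)
    (G : ℕ → ℤ → ℝ) (hG0 : ∀ i u, 0 ≤ G i u)
    (hGp : ∀ i ≤ k, ∀ u, G i (u + (3 : ℤ) ^ (k - i)) = G i u) :
    ∑ p ∈ S.filter (fun p => (3 : ℤ) ^ p.1 ∣ 2 ^ j * y - p.2),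
        (3 : ℝ) ^ p.1 / 2 ^ j * G p.1 ((2 ^ j * y - p.2) / 3 ^ p.1) ≤
      (Λ + 2) * ∑ i ∈ range (j + 1), (∑ u ∈ range (3 ^ (k - i)), G i u) / 3 ^ (k - i) := by
  set S' := S.filter (fun p => (3 : ℤ) ^ p.1 ∣ 2 ^ j * y - p.2) with hS'
  have hmaps : ∀ p ∈ S', p.1 ∈ range (j + 1) := by
    intro p hp
    have := D_le (hSD (mem_filter.1 hp).1)
    simp only [mem_range]
    omega
  rw [← sum_fiberwise_of_maps_to hmaps, mul_sum]
  apply sum_le_sum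
  intro i _
  have hsum0 : 0 ≤ ∑ u ∈ range (3 ^ (k - i)), G i u := sum_nonneg fun u _ => hG0 i u
  by_cases hik : i ≤ k
  swap
  · have hempty : S'.filter (fun p => p.1 = i) = ∅ := by
      apply filter_eq_empty_iff.2
      intro p hp hpi
      have := hSk p (mem_filter.1 hp).1
      omega
    rw [hempty, sum_empty]
    positivity
  -- the fibre
  set F := S'.filter (fun p => p.1 = i) with hF
  set mm : ℕ × ℕ → ℤ := fun p => (2 ^ j * y - p.2) / 3 ^ i with hmm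
  have h3i : (3 : ℤ) ^ i ≠ 0 := by positivity
  have hspec : ∀ p ∈ F, (3 : ℤ) ^ i * mm p = 2 ^ j * y - p.2 := by
    intro p hp
    obtain ⟨hp1, hp2⟩ := mem_filter.1 hp
    have hd := (mem_filter.1 hp1).2
    rw [hp2] at hd
    exact Int.mul_ediv_cancel' hd
  have hinj : Set.InjOn mm F := by
    intro p hp p' hp' heq
    have h1 := hspec p hp
    have h2 := hspec p' hp'
    rw [heq, h2] at h1
    have h3 : p.2 = p'.2 := by
      have : (p.2 : ℤ) = p'.2 := by linarith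
      exact_mod_cast this
    have h4 : p.1 = p'.1 := by
      rw [(mem_filter.1 hp).2, (mem_filter.1 hp').2]
    exact Prod.ext h4 h3
  have hsum : ∑ p ∈ F, (3 : ℝ) ^ p.1 / 2 ^ j * G p.1 ((2 ^ j * y - p.2) / 3 ^ p.1) =
      (3 : ℝ) ^ i / 2 ^ j * ∑ m ∈ F.image mm, G i m := by
    rw [sum_image hinj, mul_sum]
    apply sum_congr rfl
    intro p hp
    rw [(mem_filter.1 hp).2]
  rw [hsum]
  have h3r : (0 : ℝ) < 3 ^ i := by positivity
  have h2j : (0 : ℝ) < 2 ^ j := by positivity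
  have hN : 0 < 3 ^ (k - i) := by positivity
  have hint := sum_interval_le hN (G i) (by
      intro u
      have := hGp i hik u
      push_cast
      exact this) (hG0 i) (F.image mm)
    (x := (2 ^ j * (y : ℝ) - Λ * 2 ^ j) / 3 ^ i) (y := 2 ^ j * (y : ℝ) / 3 ^ i)
    (by
      apply div_le_div_of_nonneg_right _ h3r.le
      have : 0 ≤ Λ * 2 ^ j := by positivity
      linarith)
    (by
      intro m hm
      obtain ⟨p, hp, rfl⟩ := mem_image.1 hm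
      have h1 : (3 : ℝ) ^ i * (mm p : ℝ) = 2 ^ j * y - p.2 := by
        have := hspec p hp
        exact_mod_cast this
      have h2 : (p.2 : ℝ) ≤ Λ * 2 ^ j := hc p (mem_filter.1 (mem_filter.1 hp).1).1
      have h3 : (0 : ℝ) ≤ p.2 := by positivity
      constructor
      · rw [div_le_iff₀ h3r]
        nlinarith
      · rw [le_div_iff₀ h3r]
        nlinarith)
  have hlen : 2 ^ j * (y : ℝ) / 3 ^ i - (2 ^ j * (y : ℝ) - Λ * 2 ^ j) / 3 ^ i =
      Λ * 2 ^ j / 3 ^ i := by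
    field_simp
    ring
  rw [hlen] at hint
  calc (3 : ℝ) ^ i / 2 ^ j * ∑ m ∈ F.image mm, G i m
      ≤ (3 : ℝ) ^ i / 2 ^ j * (((Λ * 2 ^ j / 3 ^ i + 1) / ((3 ^ (k - i) : ℕ) : ℝ) + 1) *
          ∑ u ∈ range (3 ^ (k - i)), G i u) := by
        apply mul_le_mul_of_nonneg_left hint
        positivity
    _ = ((Λ + 3 ^ i / 2 ^ j + 3 ^ k / 2 ^ j) / 3 ^ (k - i)) *
          ∑ u ∈ range (3 ^ (k - i)), G i u := by
        have h3k : (3 : ℝ) ^ k = 3 ^ i * 3 ^ (k - i) := by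
          rw [← pow_add, Nat.add_sub_cancel' hik]
        rw [h3k]
        push_cast
        have : (0 : ℝ) < 3 ^ (k - i) := by positivity
        field_simp
    _ ≤ ((Λ + 2) / 3 ^ (k - i)) * ∑ u ∈ range (3 ^ (k - i)), G i u := by
        apply mul_le_mul_of_nonneg_right _ hsum0
        apply div_le_div_of_nonneg_right _ (by positivity)
        have hk' : (3 : ℝ) ^ k ≤ 2 ^ j := by exact_mod_cast hk
        have h1 : (3 : ℝ) ^ k / 2 ^ j ≤ 1 := by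
          rw [div_le_one h2j]; exact hk'
        have h2 : (3 : ℝ) ^ i / 2 ^ j ≤ 1 := by
          rw [div_le_one h2j]
          exact (pow_le_pow_right₀ (by norm_num) hik).trans hk'
        linarith
    _ = (Λ + 2) * ((∑ u ∈ range (3 ^ (k - i)), G i u) / 3 ^ (k - i)) := by ring

end Pool.Agent.H30.PD
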