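import Pool.Agent.H30.PD.ParamsA
import Pool.Agent.H30.PD.Bin
import Pool.Agent.H30.PD.NodeSum

/-!
# JOB PD-BASE. A class with large mass

Let `Λ = 2l+2`, `j = cut l`, `S = SG Λ j`. For each pair `(p, q) ∈ S × D (l-j)` with `k = p.1 + q.1` the mean over `y` mod `3^l` of
`3^k/2^l 1[3^k ∣ 2^l y - c]` is `1/2^l` (`k ≤ l`; `2^l` is a unit mod `3^k`, `sum_mul_unit`). So the mean over `y ∈ range (3^l)` of
`∑_{k ≤ l} AA Λ y l k` is `#{(p,q) ∈ S × D (l-j) : Cone l (p.1+q.1)}/2^l ≥ 1 - P(p ∉ S) - P(¬ Cone l)`, where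
`P(p ∉ S) ≤ 2 exp(-j/500000) + j/(4 (Λ - 1/j)) ≤ 2 exp(-j/500000) + 1/7` (`bin_tail`, `card_large_c`), `P(¬ Cone l k) ≤ 2 exp(-l/500000)` (the
words `comp` are all words of `D l`: `sum_D_add`, `card_filter_fst`, `bin_tail`). So the mean is `≥ 1/2` for large `l` and some `y = r`
has value `≥ 1/2`; `Z_periodic`.
-/

set_option autoImplicit false

namespace Pool.Agent.H30.PD

open Finset

theorem base_cone {n : ℕ} (hn : 1 ≤ n) :
    (((D n).filter fun p => ¬ Cone n p.1).card : ℝ) ≤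
      2 ^ n * (2 * Real.exp (-((n : ℝ) / 500000))) := by
  classical
  have h1 : (((D n).filter fun p => ¬ Cone n p.1).card : ℝ) =
      ∑ p ∈ D n, (if ¬ Cone n p.1 then (1 : ℝ) else 0) := by
    rw [Finset.card_filter]
    push_cast
    rfl
  have h2 : ∑ p ∈ D n, (if ¬ Cone n p.1 then (1 : ℝ) else 0) = ∑ k ∈ range (n + 1),
      ∑ p ∈ (D n).filter (fun p => p.1 = k), (if ¬ Cone n p.1 then (1 : ℝ) else 0) := by
    symm
    apply Finset.sum_fiberwise_of_maps_to
    intro p hp
    have := D_le hp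
    rw [Finset.mem_range]; omega
  have h3 : ∀ k ∈ range (n + 1),
      ∑ p ∈ (D n).filter (fun p => p.1 = k), (if ¬ Cone n p.1 then (1 : ℝ) else 0) =
      if ¬ Cone n k then (n.choose k : ℝ) else 0 := by
    intro k _
    have h4 : ∑ p ∈ (D n).filter (fun p => p.1 = k), (if ¬ Cone n p.1 then (1 : ℝ) else 0) =
        ∑ p ∈ (D n).filter (fun p => p.1 = k), (if ¬ Cone n k then (1 : ℝ) else 0) := by
      apply Finset.sum_congr rfl
      intro p hp
      rw [(Finset.mem_filter.mp hp).2]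
    rw [h4, Finset.sum_const, card_filter_fst, nsmul_eq_mul]
    split_ifs <;> simp
  rw [h1, h2, Finset.sum_congr rfl h3, ← Finset.sum_filter]
  have h5 : ∑ k ∈ (range (n + 1)).filter (fun k => ¬ Cone n k), (n.choose k : ℝ) =
      2 ^ n * ∑ k ∈ (range (n + 1)).filter (fun k => ¬ Cone n k), bin n k := by
    rw [Finset.mul_sum]
    apply Finset.sum_congr rfl
    intro k _
    unfold bin
    field_simp
  rw [h5]
  apply mul_le_mul_of_nonneg_left _ (by positivity)
  have hn0 : (0 : ℝ) < n := by exact_mod_cast hn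
  have h6 := bin_tail hn (x := (n : ℝ) / 500) (by positivity)
  have e : -(((n : ℝ) / 500) ^ 2) / (2 * n) = -((n : ℝ) / 500000) := by
    field_simp
    norm_num
  rw [e] at h6
  refine le_trans (Finset.sum_le_sum_of_subset_of_nonneg ?_ (fun k _ _ => bin_nonneg n k)) h6
  intro k hk
  rw [Finset.mem_filter] at hk ⊢
  refine ⟨hk.1, ?_⟩
  have h7 := hk.2
  unfold Cone at h7
  push Not at h7
  have h8 : ((n : ℤ) : ℝ) < ((500 * |2 * (k : ℤ) - n| : ℤ) : ℝ) := by exact_mod_cast h7
  push_cast at h8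
  rw [div_le_iff₀ (by norm_num)]
  linarith

theorem base_exp {x : ℝ} (hx : 31 ≤ x) : 2 * Real.exp (-x) ≤ 1 / 16 := by
  have h1 : 1 + x ≤ Real.exp x := by have := Real.add_one_le_exp x; linarith
  have h2 : Real.exp (-x) ≤ 1 / 32 := by
    rw [Real.exp_neg, inv_eq_one_div]
    exact one_div_le_one_div_of_le (by norm_num) (by linarith)
  linarith

theorem base_good {l : ℕ} (hl : 20000000 ≤ l) :
    3 / 4 * 2 ^ l ≤ ((((SG (2 * l + 2) (cut l)) ×ˢ D (l - cut l)).filter
      (fun x => Cone l (x.1.1 + x.2.1))).card : ℝ) := by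
  classical
  have hj1 : cut l ≤ l := by unfold cut; omega
  have hj2 : 15500000 ≤ cut l := by unfold cut; omega
  set j := cut l with hj
  set L := l - j with hL
  have hjL : j + L = l := by omega
  set S := SG (2 * l + 2) j with hS
  have hj0 : (0 : ℝ) < j := by
    have : 0 < j := by omega
    exact_mod_cast this
  have hjl : (j : ℝ) ≤ l := by exact_mod_cast hj1
  -- the three bad sets
  have b1 : (((D j).filter fun p => ¬ Cone j p.1).card : ℝ) ≤ 1 / 16 * 2 ^ j := by
    refine (base_cone (by omega)).trans ?_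
    have h1 : 2 * Real.exp (-((j : ℝ) / 500000)) ≤ 1 / 16 := by
      apply base_exp
      rw [le_div_iff₀ (by norm_num)]
      have : ((15500000 : ℕ) : ℝ) ≤ j := by exact_mod_cast hj2
      push_cast at this
      linarith
    have h2 : (0 : ℝ) < 2 ^ j := by positivity
    nlinarith
  have b2 : (((D j).filter fun p => ((2 * (l : ℝ) + 2) - 1 / j) * 2 ^ j < (p.2 : ℝ)).card : ℝ) ≤
      1 / 8 * 2 ^ j := by
    have hlam : 2 * (l : ℝ) ≤ (2 * (l : ℝ) + 2) - 1 / j := by
      have : 1 / (j : ℝ) ≤ 1 := by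
        rw [div_le_one hj0]
        have : 1 ≤ j := by omega
        exact_mod_cast this
      linarith
    have hl0 : (0 : ℝ) < l := hj0.trans_le hjl
    have h3 := card_large_c j ((2 * (l : ℝ) + 2) - 1 / j) (by linarith)
    refine h3.trans ?_
    apply mul_le_mul_of_nonneg_right _ (by positivity)
    rw [div_le_iff₀ (by linarith)]
    linarith
  have b3 : ((((D j) ×ˢ (D L)).filter fun x => ¬ Cone l (x.1.1 + x.2.1)).card : ℝ) ≤
      1 / 16 * 2 ^ l := by
    have h1 : ((((D j) ×ˢ (D L)).filter fun x => ¬ Cone l (x.1.1 + x.2.1)).card : ℝ) =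
        (((D l).filter fun p => ¬ Cone l p.1).card : ℝ) := by
      rw [Finset.card_filter, Finset.card_filter]
      congr 1
      rw [Finset.sum_product]
      have h2 := sum_D_add j L (fun p => if ¬ Cone l p.1 then 1 else 0)
      rw [hjL] at h2
      exact h2.symm
    rw [h1]
    refine (base_cone (by omega)).trans ?_
    have h1 : 2 * Real.exp (-((l : ℝ) / 500000)) ≤ 1 / 16 := by
      apply base_exp
      rw [le_div_iff₀ (by norm_num)]
      have : ((20000000 : ℕ) : ℝ) ≤ l := by exact_mod_cast hl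
      push_cast at this
      linarith
    have h2 : (0 : ℝ) < 2 ^ l := by positivity
    nlinarith
  have hcover : (D j) ×ˢ (D L) ⊆
      ((S ×ˢ D L).filter (fun x => Cone l (x.1.1 + x.2.1))) ∪
      ((((D j).filter fun p => ¬ Cone j p.1) ×ˢ D L) ∪
      ((((D j).filter fun p => ((2 * (l : ℝ) + 2) - 1 / j) * 2 ^ j < (p.2 : ℝ)) ×ˢ D L) ∪
      (((D j) ×ˢ (D L)).filter fun x => ¬ Cone l (x.1.1 + x.2.1)))) := by
    intro x hx
    have hx' := Finset.mem_product.mp hx
    by_cases c1 : Cone j x.1.1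
    · by_cases c2 : ((2 * (l : ℝ) + 2) - 1 / j) * 2 ^ j < (x.1.2 : ℝ)
      · apply Finset.mem_union_right
        apply Finset.mem_union_right
        apply Finset.mem_union_left
        exact Finset.mem_product.mpr ⟨Finset.mem_filter.mpr ⟨hx'.1, c2⟩, hx'.2⟩
      · by_cases c3 : Cone l (x.1.1 + x.2.1)
        · apply Finset.mem_union_left
          refine Finset.mem_filter.mpr ⟨Finset.mem_product.mpr ⟨?_, hx'.2⟩, c3⟩
          rw [hS]
          unfold SG
          exact Finset.mem_filter.mpr ⟨hx'.1, c1, not_lt.mp c2⟩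
        · apply Finset.mem_union_right
          apply Finset.mem_union_right
          apply Finset.mem_union_right
          exact Finset.mem_filter.mpr ⟨hx, c3⟩
    · apply Finset.mem_union_right
      apply Finset.mem_union_left
      exact Finset.mem_product.mpr ⟨Finset.mem_filter.mpr ⟨hx'.1, c1⟩, hx'.2⟩
  have hcard := (Finset.card_le_card hcover).trans ((Finset.card_union_le _ _).trans
    (Nat.add_le_add_left ((Finset.card_union_le _ _).trans
      (Nat.add_le_add_left (Finset.card_union_le _ _) _)) _))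
  rw [Finset.card_product, Finset.card_product, Finset.card_product, card_D, card_D] at hcard
  have hcard' : (2 : ℝ) ^ j * 2 ^ L ≤
      (((S ×ˢ D L).filter (fun x => Cone l (x.1.1 + x.2.1))).card : ℝ) +
      ((((D j).filter fun p => ¬ Cone j p.1).card : ℝ) * 2 ^ L +
      ((((D j).filter fun p => ((2 * (l : ℝ) + 2) - 1 / j) * 2 ^ j < (p.2 : ℝ)).card : ℝ) * 2 ^ L +
      ((((D j) ×ˢ (D L)).filter fun x => ¬ Cone l (x.1.1 + x.2.1)).card : ℝ))) := by
    exact_mod_cast hcard
  have e : (2 : ℝ) ^ j * 2 ^ L = 2 ^ l := by rw [← pow_add, hjL]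
  have c1 := mul_le_mul_of_nonneg_right b1 (show (0 : ℝ) ≤ 2 ^ L by positivity)
  have c2 := mul_le_mul_of_nonneg_right b2 (show (0 : ℝ) ≤ 2 ^ L by positivity)
  have e1 : 1 / 16 * (2 : ℝ) ^ j * 2 ^ L = 1 / 16 * 2 ^ l := by rw [mul_assoc, e]
  have e2 : 1 / 8 * (2 : ℝ) ^ j * 2 ^ L = 1 / 8 * 2 ^ l := by rw [mul_assoc, e]
  rw [e1] at c1
  rw [e2] at c2
  rw [e] at hcard'
  linarith

theorem base_period (N : ℕ) (f : ℕ → ℝ) (hf : ∀ u, f (u + N) = f u) (M : ℕ) :
    ∑ y ∈ range (M * N), f y = M * ∑ y ∈ range N, f y := by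
  have h1 : ∀ m u, f (m * N + u) = f u := by
    intro m
    induction m with
    | zero => intro u; simp
    | succ m ih =>
      intro u
      rw [show (m + 1) * N + u = (m * N + u) + N by ring, hf, ih]
  induction M with
  | zero => simp
  | succ M ih =>
    rw [show (M + 1) * N = M * N + N by ring, Finset.sum_range_add, ih,
      Finset.sum_congr rfl (fun u _ => h1 M u)]
    push_cast
    ring

theorem base_count {l k : ℕ} (hk : k ≤ l) (c : ℤ) :
    ∑ y ∈ range (3 ^ l), (if (3 : ℤ) ^ k ∣ 2 ^ l * ((y : ℕ) : ℤ) - c then (1 : ℝ) else 0) =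
      3 ^ (l - k) := by
  set N : ℕ := 3 ^ k with hN
  have hN0 : 0 < N := by positivity
  have hNz : (N : ℤ) = (3 : ℤ) ^ k := by rw [hN]; push_cast; rfl
  set g : ℤ → ℝ := fun u => if (N : ℤ) ∣ u - c then 1 else 0 with hg
  have hgp : ∀ u, g (u + N) = g u := by
    intro u
    simp only [hg]
    have : (N : ℤ) ∣ u + N - c ↔ (N : ℤ) ∣ u - c := by
      rw [show u + (N : ℤ) - c = (u - c) + N by ring]
      exact dvd_add_self_right
    simp only [this]
  have hcop : IsCoprime ((2 : ℤ) ^ l) (N : ℤ) := by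
    rw [hNz]
    apply IsCoprime.pow
    exact ⟨-1, 1, by norm_num⟩
  have e3 : (3 : ℕ) ^ l = 3 ^ (l - k) * N := by
    rw [hN, ← pow_add]; congr 1; omega
  have hsum : ∑ y ∈ range (3 ^ l), (if (3 : ℤ) ^ k ∣ 2 ^ l * ((y : ℕ) : ℤ) - c then (1 : ℝ) else 0)
      = ∑ y ∈ range (3 ^ (l - k) * N), g (2 ^ l * ((y : ℕ) : ℤ)) := by
    rw [← e3]
    apply Finset.sum_congr rfl
    intro y _
    simp only [hg, hNz]
  rw [hsum, base_period N (fun y => g (2 ^ l * ((y : ℕ) : ℤ)))]
  · rw [sum_mul_unit hN0 g hgp hcop]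
    have h1 : ∑ u ∈ range N, g u = 1 := by
      have hNz0 : (N : ℤ) ≠ 0 := by exact_mod_cast hN0.ne'
      have hm0 := Int.emod_nonneg c hNz0
      have hm1 := Int.emod_lt_of_pos c (show (0 : ℤ) < N by exact_mod_cast hN0)
      rw [Finset.sum_eq_single (c % N).toNat]
      · simp only [hg]
        rw [Int.toNat_of_nonneg hm0, if_pos]
        exact ⟨-(c / N), by have := Int.emod_add_mul_ediv c N; linarith⟩
      · intro u hu hne
        simp only [hg]
        rw [if_neg]
        intro hdvd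
        apply hne
        rw [Finset.mem_range] at hu
        have h2 : (u : ℤ) % N = c % N := (Int.modEq_iff_dvd.mpr hdvd).symm
        rw [Int.emod_eq_of_lt (by positivity) (by exact_mod_cast hu)] at h2
        omega
      · intro hnot
        exfalso
        apply hnot
        rw [Finset.mem_range]
        omega
    rw [h1, mul_one]
    push_cast
    rfl
  · intro u
    show g (2 ^ l * (((u + N : ℕ)) : ℤ)) = g (2 ^ l * (u : ℤ))
    simp only [hg]
    have : (N : ℤ) ∣ 2 ^ l * (((u + N : ℕ)) : ℤ) - c ↔ (N : ℤ) ∣ 2 ^ l * (u : ℤ) - c := by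
      have e : 2 ^ l * (((u + N : ℕ)) : ℤ) - c = (2 ^ l * (u : ℤ) - c) + 2 ^ l * N := by
        push_cast; ring
      rw [e]
      exact dvd_add_left (Dvd.intro_left _ rfl)
    simp only [this]

/-- the mean value -/
theorem base_mean {l : ℕ} (hl : 20000000 ≤ l) :
    ∑ y ∈ range (3 ^ l), (1 / 2 : ℝ) ≤
      ∑ y ∈ range (3 ^ l), ∑ k ∈ range (l + 1), AA (2 * l + 2) ((y : ℕ) : ℤ) l k := by
  classical
  have hj1 : cut l ≤ l := by unfold cut; omega
  have hjL : cut l + (l - cut l) = l := by omega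
  set S := SG (2 * l + 2) (cut l) with hS
  set L := l - cut l with hL
  have hSD : ∀ p ∈ S, p.1 ≤ cut l := fun p hp => D_le (SG_subset _ _ hp)
  -- one k
  have h1 : ∀ k ∈ range (l + 1), ∑ y ∈ range (3 ^ l), AA (2 * l + 2) ((y : ℕ) : ℤ) l k =
      3 ^ l / 2 ^ l * ∑ x ∈ S ×ˢ D L, (if x.1.1 + x.2.1 = k ∧ Cone l k then (1 : ℝ) else 0) := by
    intro k hk
    rw [Finset.mem_range] at hk
    by_cases hc : Cone l k
    · have h2 : ∀ y ∈ range (3 ^ l), AA (2 * l + 2) ((y : ℕ) : ℤ) l k =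
          3 ^ k / 2 ^ l * ∑ x ∈ S ×ˢ D L, (if x.1.1 + x.2.1 = k ∧
            (3 : ℤ) ^ k ∣ 2 ^ l * ((y : ℕ) : ℤ) - (comp L x.1 x.2).2 then (1 : ℝ) else 0) := by
        intro y _
        unfold AA
        rw [if_pos hc]
        unfold Z
        rw [hjL, Finset.card_filter]
        push_cast
        rfl
      rw [Finset.sum_congr rfl h2, ← Finset.mul_sum, Finset.sum_comm, Finset.mul_sum,
        Finset.mul_sum]
      apply Finset.sum_congr rfl
      intro x _
      by_cases hx : x.1.1 + x.2.1 = k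
      · have h3 : ∑ y ∈ range (3 ^ l), (if x.1.1 + x.2.1 = k ∧
            (3 : ℤ) ^ k ∣ 2 ^ l * ((y : ℕ) : ℤ) - (comp L x.1 x.2).2 then (1 : ℝ) else 0) =
            3 ^ (l - k) := by
          rw [← base_count (show k ≤ l by omega) ((comp L x.1 x.2).2 : ℤ)]
          apply Finset.sum_congr rfl
          intro y _
          simp only [hx, true_and]
        rw [h3, if_pos ⟨hx, hc⟩, mul_one, div_mul_eq_mul_div, ← pow_add]
        congr 2
        omega
      · rw [if_neg (fun h => hx h.1), mul_zero]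
        have h3 : ∑ y ∈ range (3 ^ l), (if x.1.1 + x.2.1 = k ∧
            (3 : ℤ) ^ k ∣ 2 ^ l * ((y : ℕ) : ℤ) - (comp L x.1 x.2).2 then (1 : ℝ) else 0) = 0 := by
          apply Finset.sum_eq_zero
          intro y _
          rw [if_neg (fun h => hx h.1)]
        rw [h3, mul_zero]
    · have h2 : ∀ y ∈ range (3 ^ l), AA (2 * l + 2) ((y : ℕ) : ℤ) l k = 0 := by
        intro y _
        unfold AA
        rw [if_neg hc]
      rw [Finset.sum_eq_zero h2]
      have h3 : ∑ x ∈ S ×ˢ D L, (if x.1.1 + x.2.1 = k ∧ Cone l k then (1 : ℝ) else 0) = 0 := by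
        apply Finset.sum_eq_zero
        intro x _
        rw [if_neg (fun h => hc h.2)]
      rw [h3, mul_zero]
  rw [Finset.sum_comm, Finset.sum_congr rfl h1, ← Finset.mul_sum, Finset.sum_comm]
  have h4 : ∀ x ∈ S ×ˢ D L, ∑ k ∈ range (l + 1),
      (if x.1.1 + x.2.1 = k ∧ Cone l k then (1 : ℝ) else 0) =
      if Cone l (x.1.1 + x.2.1) then (1 : ℝ) else 0 := by
    intro x hx
    have hx' := Finset.mem_product.mp hx
    have a1 := hSD x.1 hx'.1
    have a2 := D_le hx'.2
    rw [Finset.sum_eq_single (x.1.1 + x.2.1)]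
    · simp only [true_and]
    · intro k _ hk
      rw [if_neg (fun h => hk h.1.symm)]
    · intro hnot
      exfalso
      apply hnot
      rw [Finset.mem_range]
      omega
  rw [Finset.sum_congr rfl h4, Finset.sum_const, Finset.card_range, nsmul_eq_mul]
  have h5 : ∑ x ∈ S ×ˢ D L, (if Cone l (x.1.1 + x.2.1) then (1 : ℝ) else 0) =
      (((S ×ˢ D L).filter (fun x => Cone l (x.1.1 + x.2.1))).card : ℝ) := by
    rw [Finset.card_filter]
    push_cast
    rfl
  rw [h5]
  have h6 := base_good hl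
  have h7 : (3 : ℝ) ^ l / 2 ^ l * (3 / 4 * 2 ^ l) ≤ (3 : ℝ) ^ l / 2 ^ l *
      (((S ×ˢ D L).filter (fun x => Cone l (x.1.1 + x.2.1))).card : ℝ) :=
    mul_le_mul_of_nonneg_left h6 (by positivity)
  refine le_trans ?_ h7
  have e : (3 : ℝ) ^ l / 2 ^ l * (3 / 4 * 2 ^ l) = 3 / 4 * 3 ^ l := by field_simp
  rw [e]
  push_cast
  have : (0 : ℝ) < 3 ^ l := by positivity
  linarith

theorem base : ∃ L0 : ℕ, ∀ l ≥ L0, ∃ r : ℤ, ∀ y : ℤ, (3 : ℤ) ^ l ∣ y - r →
    1 / 2 ≤ ∑ k ∈ range (l + 1), AA (2 * l + 2) y l k := by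
  refine ⟨20000000, fun l hl => ?_⟩
  obtain ⟨r, _, hr⟩ := Finset.exists_le_of_sum_le
    (Finset.nonempty_range_iff.mpr (by positivity : (3 : ℕ) ^ l ≠ 0)) (base_mean hl)
  refine ⟨r, fun y hy => hr.trans (le_of_eq ?_)⟩
  apply Finset.sum_congr rfl
  intro k hk
  rw [Finset.mem_range] at hk
  unfold AA
  split_ifs
  · apply Z_periodic
    have h1 : (3 : ℤ) ^ k ∣ y - r := (pow_dvd_pow _ (by omega)).trans hy
    rw [show (r : ℤ) - y = -(y - r) by ring]
    exact (dvd_neg).mpr h1
  · rfl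

end Pool.Agent.H30.PD
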