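import Pool.Agent.H30.PD.Bin

/-!
# JOB PD-BINLOW. Lower bound for the binomial distribution near the middle

`bin n k ≥ c/√n` for `|2k - n| ≤ 4√n`.
Proof. Let `h = n/2`. `C(n, n/2)/2^n ≥ 1/(2√n)`-type bound (`Nat.four_pow_le_two_mul_self_mul_centralBinom` is too weak; use the
induction `C(2h,h) ≥ 4^h/(2√h)`, `h ≥ 1`). For `k = h + j`, `0 ≤ j ≤ 3√n + 1 ≤ h/2`:
`C(n,h+j)/C(n,h) = ∏_{i<j} (n-h-i)/(h+1+i) ≥ ((n-h-j)/(h+j))^j ≥ (1 - 4j/h)^j ≥ exp(-8j²/h) ≥ c` for large `n`.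
Negative `j` by symmetry `C(n,k) = C(n,n-k)`.
-/

set_option autoImplicit false

namespace Pool.Agent.H30.PD

open Finset

theorem binLow_central (h : ℕ) :
    1 / (4 * ((h : ℝ) + 1)) ≤ ((Nat.centralBinom (h + 1) : ℝ) / 4 ^ (h + 1)) ^ 2 := by
  induction h with
  | zero => norm_num [Nat.centralBinom, Nat.choose]
  | succ h ih =>
    have h1 := Nat.succ_mul_centralBinom_succ (h + 1)
    have h2 : ((h : ℝ) + 1 + 1) * (Nat.centralBinom (h + 1 + 1) : ℝ) =
        2 * (2 * ((h : ℝ) + 1) + 1) * (Nat.centralBinom (h + 1) : ℝ) := by exact_mod_cast h1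
    have h3 : (Nat.centralBinom (h + 1 + 1) : ℝ) / 4 ^ (h + 1 + 1) =
        ((Nat.centralBinom (h + 1) : ℝ) / 4 ^ (h + 1)) * ((2 * (h : ℝ) + 3) / (2 * h + 4)) := by
      have h4 : (Nat.centralBinom (h + 1 + 1) : ℝ) =
          2 * (2 * ((h : ℝ) + 1) + 1) * (Nat.centralBinom (h + 1) : ℝ) / ((h : ℝ) + 1 + 1) := by
        rw [eq_div_iff (by positivity), ← h2]; ring
      rw [h4, pow_succ (4 : ℝ) (h + 1)]
      field_simp
      ring
    rw [h3, mul_pow]
    have h5 : 1 / (4 * ((h : ℝ) + 1)) * ((2 * (h : ℝ) + 3) / (2 * h + 4)) ^ 2 ≤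
        ((Nat.centralBinom (h + 1) : ℝ) / 4 ^ (h + 1)) ^ 2 * ((2 * (h : ℝ) + 3) / (2 * h + 4)) ^ 2 :=
      mul_le_mul_of_nonneg_right ih (by positivity)
    refine le_trans ?_ h5
    push_cast
    rw [div_pow, div_mul_div_comm, one_mul, div_le_div_iff₀ (by positivity) (by positivity)]
    nlinarith [(Nat.cast_nonneg h : (0 : ℝ) ≤ h)]

theorem binLow_centralBinom (h : ℕ) :
    1 / (2 * Real.sqrt ((h : ℝ) + 1)) ≤ (Nat.centralBinom (h + 1) : ℝ) / 4 ^ (h + 1) := by
  have h1 := binLow_central h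
  apply le_of_sq_le_sq _ (by positivity)
  rw [div_pow, mul_pow, Real.sq_sqrt (by positivity)]
  norm_num at h1 ⊢
  exact h1

theorem binLow_mid {n : ℕ} (hn : 1 ≤ n) : 1 / (2 * Real.sqrt n) ≤ bin n (n / 2) := by
  unfold bin
  rcases Nat.even_or_odd' n with ⟨m, hm | hm⟩
  · obtain ⟨h, rfl⟩ : ∃ h, m = h + 1 := ⟨m - 1, by omega⟩
    have e1 : n / 2 = h + 1 := by omega
    rw [e1, hm]
    have h2 := binLow_centralBinom h
    rw [Nat.centralBinom_eq_two_mul_choose] at h2
    have e2 : (4 : ℝ) ^ (h + 1) = 2 ^ (2 * (h + 1)) := by rw [pow_mul]; norm_num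
    rw [e2] at h2
    refine le_trans ?_ h2
    apply one_div_le_one_div_of_le (by positivity)
    have : Real.sqrt ((h : ℝ) + 1) ≤ Real.sqrt ((2 * (h + 1) : ℕ) : ℝ) := by
      apply Real.sqrt_le_sqrt
      push_cast; linarith [(Nat.cast_nonneg h : (0 : ℝ) ≤ h)]
    linarith
  · have e1 : n / 2 = m := by omega
    rw [e1, hm]
    have h2 := binLow_centralBinom m
    rw [Nat.centralBinom_eq_two_mul_choose] at h2
    have e3 : (2 * (m + 1)).choose (m + 1) = 2 * (2 * m + 1).choose m := by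
      have h4 : 2 * (m + 1) = 2 * m + 1 + 1 := by ring
      rw [h4, Nat.choose_succ_succ]
      have h5 : (2 * m + 1).choose (m + 1) = (2 * m + 1).choose m :=
        Nat.choose_symm_half m
      rw [h5]; ring
    have e2 : (4 : ℝ) ^ (m + 1) = 2 * 2 ^ (2 * m + 1) := by
      rw [← pow_succ']
      have : (4 : ℝ) = 2 ^ 2 := by norm_num
      rw [this, ← pow_mul]; congr 1
    rw [e2, e3] at h2
    have e4 : ((2 * (2 * m + 1).choose m : ℕ) : ℝ) / (2 * 2 ^ (2 * m + 1)) =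
        ((2 * m + 1).choose m : ℝ) / 2 ^ (2 * m + 1) := by
      push_cast
      rw [mul_div_mul_left _ _ (by norm_num)]
    rw [e4] at h2
    refine le_trans ?_ h2
    apply one_div_le_one_div_of_le (by positivity)
    have : Real.sqrt ((m : ℝ) + 1) ≤ Real.sqrt ((2 * m + 1 : ℕ) : ℝ) := by
      apply Real.sqrt_le_sqrt
      push_cast; linarith [(Nat.cast_nonneg m : (0 : ℝ) ≤ m)]
    linarith

theorem binLow_step {n k : ℕ} {s : ℝ} (hsn : s ^ 2 = n) (hs : 20 ≤ s)
    (hk : 2 * (k : ℝ) + 2 ≤ n + 4 * s) :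
    Real.exp (-(20 / s)) * bin n k ≤ bin n (k + 1) := by
  have hs0 : 0 < s := by linarith
  have hx0 : 0 < 20 / s := by positivity
  have hx1 : 20 / s ≤ 1 := by rw [div_le_one hs0]; exact hs
  have hexp : Real.exp (-(20 / s)) ≤ 1 - 10 / s := by
    have h1 : 1 + 20 / s ≤ Real.exp (20 / s) := by
      have := Real.add_one_le_exp (20 / s); linarith
    rw [Real.exp_neg]
    have h2 : (Real.exp (20 / s))⁻¹ ≤ (1 + 20 / s)⁻¹ := inv_anti₀ (by positivity) h1
    refine h2.trans ?_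
    rw [inv_eq_one_div, div_le_iff₀ (by positivity)]
    have h3 : 10 / s = (20 / s) / 2 := by ring
    rw [h3]
    nlinarith
  have hkn : (k : ℝ) ≤ n := by nlinarith
  have hkn' : k ≤ n := by exact_mod_cast hkn
  have hchoose := Nat.choose_succ_right_eq n k
  have hc : (n.choose (k + 1) : ℝ) * ((k : ℝ) + 1) = (n.choose k : ℝ) * ((n : ℝ) - k) := by
    have : ((n.choose (k + 1) * (k + 1) : ℕ) : ℝ) = ((n.choose k * (n - k) : ℕ) : ℝ) := by
      exact_mod_cast hchoose
    push_cast [Nat.cast_sub hkn'] at this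
    exact this
  have hk1 : (0 : ℝ) < (k : ℝ) + 1 := by positivity
  have hmain : (1 - 10 / s) * ((k : ℝ) + 1) ≤ (n : ℝ) - k := by
    rcases le_or_gt (2 * (k : ℝ) + 1) n with h | h
    · have : 0 < 10 / s := by positivity
      nlinarith
    · have h4 : 5 * s ≤ 10 / s * ((k : ℝ) + 1) := by
        rw [div_mul_eq_mul_div, le_div_iff₀ hs0]
        nlinarith
      nlinarith
  have hfin : Real.exp (-(20 / s)) * ((k : ℝ) + 1) ≤ (n : ℝ) - k :=
    (mul_le_mul_of_nonneg_right hexp hk1.le).trans hmain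
  unfold bin
  rw [← mul_div_assoc]
  apply div_le_div_of_nonneg_right _ (by positivity)
  have h6 : (n.choose (k + 1) : ℝ) = (n.choose k : ℝ) * ((n : ℝ) - k) / ((k : ℝ) + 1) := by
    rw [eq_div_iff hk1.ne', hc]
  rw [h6, le_div_iff₀ hk1]
  have h7 : (0 : ℝ) ≤ n.choose k := Nat.cast_nonneg _
  nlinarith [mul_le_mul_of_nonneg_left hfin h7]

theorem binLow_iter {n h : ℕ} {s : ℝ} (hsn : s ^ 2 = n) (hs : 20 ≤ s) (j : ℕ) :
    2 * ((h : ℝ) + j) ≤ n + 4 * s → Real.exp (-(20 / s) * j) * bin n h ≤ bin n (h + j) := by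
  induction j with
  | zero => intro _; simp
  | succ j ih =>
    intro hj
    push_cast at hj
    have h1 := ih (by linarith)
    have h2 := binLow_step (k := h + j) hsn hs (by push_cast; linarith)
    have h3 : Real.exp (-(20 / s) * ((j + 1 : ℕ) : ℝ)) =
        Real.exp (-(20 / s)) * Real.exp (-(20 / s) * j) := by
      rw [← Real.exp_add]; congr 1; push_cast; ring
    rw [h3, mul_assoc, ← add_assoc]
    exact (mul_le_mul_of_nonneg_left h1 (Real.exp_pos _).le).trans h2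

theorem bin_ge : ∃ c : ℝ, 0 < c ∧ ∃ n0 : ℕ, ∀ n k : ℕ, n0 ≤ n →
    |2 * (k : ℝ) - n| ≤ 4 * Real.sqrt n → c / Real.sqrt n ≤ bin n k := by
  refine ⟨Real.exp (-60) / 2, by positivity, 400, ?_⟩
  -- the case `k ≥ n/2`
  have key : ∀ n k : ℕ, 400 ≤ n → n / 2 ≤ k → 2 * (k : ℝ) - n ≤ 4 * Real.sqrt n →
      Real.exp (-60) / 2 / Real.sqrt n ≤ bin n k := by
    intro n k hn hk1 hk2
    set s := Real.sqrt n with hs
    have hn' : (400 : ℝ) ≤ n := by exact_mod_cast hn
    have hsn : s ^ 2 = n := Real.sq_sqrt (by positivity)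
    have hs20 : 20 ≤ s := by
      rw [hs]; apply Real.le_sqrt_of_sq_le; linarith
    have hs0 : 0 < s := by linarith
    obtain ⟨j, rfl⟩ : ∃ j, k = n / 2 + j := ⟨k - n / 2, by omega⟩
    push_cast at hk2
    have h1 := binLow_iter (n := n) (h := n / 2) hsn hs20 j (by push_cast; linarith)
    have h2 := binLow_mid (n := n) (by omega)
    have h3 : (j : ℝ) ≤ 3 * s := by
      have h4 : (n : ℝ) ≤ 2 * ((n / 2 : ℕ) : ℝ) + 1 := by
        have : n ≤ 2 * (n / 2) + 1 := by omega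
        exact_mod_cast this
      linarith
    have h5 : Real.exp (-60) ≤ Real.exp (-(20 / s) * j) := by
      apply Real.exp_le_exp.mpr
      have h6 : 20 / s * j ≤ 20 / s * (3 * s) := mul_le_mul_of_nonneg_left h3 (by positivity)
      have h7 : 20 / s * (3 * s) = 60 := by field_simp; norm_num
      linarith
    calc Real.exp (-60) / 2 / s = Real.exp (-60) * (1 / (2 * s)) := by field_simp
      _ ≤ Real.exp (-(20 / s) * j) * bin n (n / 2) :=
          mul_le_mul h5 h2 (by positivity) (Real.exp_pos _).le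
      _ ≤ _ := h1
  intro n k hn habs
  rw [abs_le] at habs
  rcases le_or_gt (n / 2) k with h | h
  · exact key n k hn h habs.2
  · have hkn : k ≤ n := by omega
    have e : bin n k = bin n (n - k) := by
      unfold bin; rw [Nat.choose_symm hkn]
    rw [e]
    apply key n (n - k) hn (by omega)
    rw [Nat.cast_sub hkn]
    linarith [habs.1]

end Pool.Agent.H30.PD
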