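import Pool.Agent.H30.PD.Defs

/-!
# JOB PD-CHILDA. Children in a given class (2 is a primitive root modulo `3^(M+1)`)

`2` generates the units modulo `3^(M+1)` (order `2 * 3^M`; e.g. by LTE `v_3(4^n - 1) = 1 + v_3(n)`, so the order of `4` mod `3^(M+1)` is `3^M`;
and `2^a ≡ 1` mod `3` forces `a` even). Let `u` be a unit mod `3^(M+1)` with `u y ≡ 3r + 1`. Choose `1 ≤ a ≤ 2 * 3^M` with `2^a ≡ u`. Then
`3^(M+1) ∣ 2^a y - (3r+1)`, so `3 ∣ 2^a y - 1` and `m = (2^a y - 1)/3` satisfies `3^M ∣ m - r`.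
-/

set_option autoImplicit false

namespace Pool.Agent.H30.PD

open Finset

theorem ChildA_two_pow (M : ℕ) : ∃ t : ℤ, (2 : ℤ) ^ (2 * 3 ^ M) = 1 + 3 ^ (M + 1) * t ∧
    ¬ (3 : ℤ) ∣ t := by
  induction M with
  | zero => exact ⟨1, by norm_num, by norm_num⟩
  | succ M ih =>
    obtain ⟨t, ht, h3⟩ := ih
    refine ⟨t + 3 * (3 ^ M * t ^ 2 + 3 ^ (2 * M) * t ^ 3), ?_, ?_⟩
    · have e : 2 * 3 ^ (M + 1) = (2 * 3 ^ M) * 3 := by ring
      rw [e, pow_mul, ht]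
      ring
    · intro h
      apply h3
      have := (Int.dvd_add_left (Dvd.intro _ rfl :
        (3 : ℤ) ∣ 3 * (3 ^ M * t ^ 2 + 3 ^ (2 * M) * t ^ 3))).1 h
      exact this

theorem ChildA_not_dvd_two_pow (a : ℕ) : ¬ (3 : ℤ) ∣ 2 ^ a := by
  intro h
  have := Int.prime_three.dvd_of_dvd_pow h
  norm_num at this

theorem ChildA_exists (r y : ℤ) (hy : ¬ (3 : ℤ) ∣ y) (M : ℕ) : ∃ a : ℕ, 1 ≤ a ∧ a ≤ 2 * 3 ^ M ∧
    (3 : ℤ) ^ (M + 1) ∣ 2 ^ a * y - (3 * r + 1) := by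
  induction M with
  | zero =>
    rcases (by omega : (y - 1) % 3 = 0 ∨ (y - 2) % 3 = 0) with h | h
    · exact ⟨2, by norm_num, by norm_num, by norm_num; omega⟩
    · exact ⟨1, by norm_num, by norm_num, by norm_num; omega⟩
  | succ M ih =>
    obtain ⟨a, ha1, ha2, s, hs⟩ := ih
    obtain ⟨t, ht, h3⟩ := ChildA_two_pow M
    have hv : ¬ (3 : ℤ) ∣ t * (2 ^ a * y) := by
      intro h
      rcases Int.prime_three.dvd_or_dvd h with h | h
      · exact h3 h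
      · rcases Int.prime_three.dvd_or_dvd h with h | h
        · exact ChildA_not_dvd_two_pow a h
        · exact hy h
    have hle : 2 * 3 ^ (M + 1) = 3 * (2 * 3 ^ M) := by ring
    have e1 : (2 : ℤ) ^ (a + 2 * 3 ^ M) * y - (3 * r + 1) =
        3 ^ (M + 1) * (s + t * (2 ^ a * y)) := by
      rw [pow_add, ht]
      linear_combination hs
    have e2 : (2 : ℤ) ^ (a + 2 * (2 * 3 ^ M)) * y - (3 * r + 1) =
        3 ^ (M + 1) * ((s + 2 * (t * (2 ^ a * y))) + 3 * (3 ^ M * t * (t * (2 ^ a * y)))) := by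
      have : (2 : ℤ) ^ (2 * (2 * 3 ^ M)) = (1 + 3 ^ (M + 1) * t) ^ 2 := by
        rw [← ht, ← pow_mul, mul_comm 2 (2 * 3 ^ M)]
      rw [pow_add, this]
      linear_combination hs
    generalize hvv : t * (2 ^ a * y) = v at *
    have key : s % 3 = 0 ∨ (s + v) % 3 = 0 ∨ (s + 2 * v) % 3 = 0 := by
      have h1 : s % 3 = 0 ∨ s % 3 = 1 ∨ s % 3 = 2 := by omega
      have h2 : v % 3 = 1 ∨ v % 3 = 2 := by omega
      rcases h1 with h1 | h1 | h1 <;> rcases h2 with h2 | h2 <;> omega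
    rcases key with h | h | h
    · refine ⟨a, ha1, by omega, ?_⟩
      rw [hs, pow_succ (3 : ℤ) (M + 1)]
      exact mul_dvd_mul_left _ (Int.dvd_of_emod_eq_zero h)
    · refine ⟨a + 2 * 3 ^ M, by omega, by omega, ?_⟩
      rw [e1, pow_succ (3 : ℤ) (M + 1)]
      exact mul_dvd_mul_left _ (Int.dvd_of_emod_eq_zero h)
    · refine ⟨a + 2 * (2 * 3 ^ M), by omega, by omega, ?_⟩
      rw [e2, pow_succ (3 : ℤ) (M + 1)]
      exact mul_dvd_mul_left _ (dvd_add (Int.dvd_of_emod_eq_zero h) (Dvd.intro _ rfl))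

theorem child (M : ℕ) (r y : ℤ) (hy : ¬ (3 : ℤ) ∣ y) : ∃ (a : ℕ) (m : ℤ), 1 ≤ a ∧ a ≤ 2 * 3 ^ M ∧
    3 * m + 1 = 2 ^ a * y ∧ (3 : ℤ) ^ M ∣ m - r := by
  obtain ⟨a, ha1, ha2, w, hw⟩ := ChildA_exists r y hy M
  refine ⟨a, r + 3 ^ M * w, ha1, ha2, ?_, ⟨w, by ring⟩⟩
  linear_combination -hw

end Pool.Agent.H30.PD
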