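import Pool.Agent.H30.PD.Defs

/-!
# JOB PD-CHILDB. Children and periodic points

* `T_child`: `m` is odd (`a ≥ 1`), `T m = (3m+1)/2 = 2^(a-1) y`, then halve `a - 1` times.
* `nonper_child`: `y ≠ 0`, `3 ∤ y`. Let `a0 ∈ {1,2}` with `2^(a0) y ≡ 1` mod 3 and `m_i = (2^(a0+2i) y - 1)/3`, `i = 0,1,2`: `m_{i+1} = 4 m_i + 1 ≡ m_i + 1` mod 3, so
  exactly one of them is divisible by 3. At most one of the `m_i` is periodic: if `m = m_i`, `m' = m_{i'}`, `i < i'`, are both periodic then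
  `x = T^[2(i'-i)] m' = 2^(a0+2i) y` and `m` are both periodic, `T x = T m = 2^(a0+2i-1) y`, so `x = m` (`T` is injective on periodic points:
  if `T x = T m`, `T^[P] x = x`, `T^[P] m = m` for a common period `P ≥ 1`, then `x = T^[P-1] (T x) = T^[P-1] (T m) = m`), but `x` is even
  and `m` is odd. So some `m_i` is neither divisible by 3 nor periodic; `a0 + 2i ≤ 6`, `|m_i| ≤ (64 |y| + 1)/3 ≤ 22 |y|`.
-/

set_option autoImplicit false

namespace Pool.Agent.H30.PD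

open Finset

theorem T_two_mul (z : ℤ) : T (2 * z) = z := by
  unfold T
  rw [if_pos (by omega)]
  omega

theorem T_iter_pow (j : ℕ) (z : ℤ) : T^[j] (2 ^ j * z) = z := by
  induction j generalizing z with
  | zero => simp
  | succ j ih =>
    rw [Function.iterate_succ_apply, pow_succ, show (2 : ℤ) ^ j * 2 * z = 2 * (2 ^ j * z) by ring,
      T_two_mul, ih]

theorem T_child_one {a : ℕ} {m y : ℤ} (h : 3 * m + 1 = 2 ^ (a + 1) * y) : T m = 2 ^ a * y := by
  have h' : 3 * m + 1 = 2 * (2 ^ a * y) := by rw [h, pow_succ]; ring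
  unfold T
  rw [if_neg (by omega), h']
  omega

theorem T_child {a : ℕ} {m y : ℤ} (ha : 1 ≤ a) (h : 3 * m + 1 = 2 ^ a * y) : T^[a] m = y := by
  obtain ⟨b, rfl⟩ : ∃ b, a = b + 1 := ⟨a - 1, by omega⟩
  rw [Function.iterate_succ_apply, T_child_one h, T_iter_pow]

/-- `T` is injective on periodic points. -/
theorem T_inj_per {x m : ℤ} {p q : ℕ} (hp : 1 ≤ p) (hq : 1 ≤ q) (hx : T^[p] x = x)
    (hm : T^[q] m = m) (h : T x = T m) : x = m := by
  have h1 : T^[p * q] x = x := Function.IsPeriodicPt.mul_const (show Function.IsPeriodicPt T p x from hx) q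
  have h2 : T^[p * q] m = m := Function.IsPeriodicPt.const_mul (show Function.IsPeriodicPt T q m from hm) p
  obtain ⟨r, hr⟩ : ∃ r, p * q = r + 1 := ⟨p * q - 1, by have := Nat.mul_pos hp hq; omega⟩
  rw [hr, Function.iterate_succ_apply] at h1 h2
  rw [← h1, ← h2, h]

/-- Two different children are not both periodic. -/
theorem not_both_per {a d : ℕ} {m m' y : ℤ} (hd : 1 ≤ d) (hm : 3 * m + 1 = 2 ^ (a + 1) * y)
    (hm' : 3 * m' + 1 = 2 ^ (a + 1 + d) * y) {p q : ℕ} (hp : 1 ≤ p) (hq : 1 ≤ q)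
    (h1 : T^[p] m = m) (h2 : T^[q] m' = m') : False := by
  have hx : T^[d] m' = 2 ^ (a + 1) * y := by
    obtain ⟨e, rfl⟩ : ∃ e, d = e + 1 := ⟨d - 1, by omega⟩
    rw [Function.iterate_succ_apply, T_child_one (a := a + 1 + e) hm',
      show (2 : ℤ) ^ (a + 1 + e) * y = 2 ^ e * (2 ^ (a + 1) * y) by rw [pow_add _ (a + 1)]; ring,
      T_iter_pow]
  have hper : T^[q] (T^[d] m') = T^[d] m' :=
    Function.IsPeriodicPt.apply_iterate (show Function.IsPeriodicPt T q m' from h2) d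
  rw [hx] at hper
  have hT : T (2 ^ (a + 1) * y) = T m := by
    rw [T_child_one hm, pow_succ, show (2 : ℤ) ^ a * 2 * y = 2 * (2 ^ a * y) by ring, T_two_mul]
  have := T_inj_per hq hp hper h1 hT
  rw [this] at hm
  omega

theorem nonper_child {y : ℤ} (hy : ¬ (3 : ℤ) ∣ y) : ∃ (a : ℕ) (m : ℤ), T^[a] m = y ∧
    ¬ (3 : ℤ) ∣ m ∧ |m| ≤ 22 * |y| ∧ ∀ p ≥ 1, T^[p] m ≠ m := by
  obtain ⟨a, m, ha, hm⟩ : ∃ (a : ℕ) (m : ℤ), a ≤ 1 ∧ 3 * m + 1 = 2 ^ (a + 1) * y := by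
    rcases (by omega : y % 3 = 1 ∨ y % 3 = 2) with h | h
    · exact ⟨1, (4 * y - 1) / 3, le_rfl, by norm_num; omega⟩
    · exact ⟨0, (2 * y - 1) / 3, by omega, by norm_num; omega⟩
  have hy0 : 1 ≤ |y| := Int.one_le_abs (by rintro rfl; exact hy (dvd_zero _))
  have hm1 : 3 * (4 * m + 1) + 1 = 2 ^ (a + 1 + 2) * y := by
    rw [pow_add _ (a + 1)]; linarith
  have hm2 : 3 * (16 * m + 5) + 1 = 2 ^ (a + 1 + 4) * y := by
    rw [pow_add _ (a + 1)]; linarith
  have hsize : ∀ (b : ℕ) (n : ℤ), b ≤ 6 → 3 * n + 1 = 2 ^ b * y → |n| ≤ 22 * |y| := by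
    intro b n hb hn
    have h1 : |3 * n + 1| ≤ 64 * |y| := by
      rw [hn, abs_mul, abs_of_nonneg (by positivity)]
      refine mul_le_mul_of_nonneg_right ?_ (abs_nonneg _)
      calc (2 : ℤ) ^ b ≤ 2 ^ 6 := pow_le_pow_right₀ (by norm_num) hb
        _ = 64 := by norm_num
    rw [abs_le] at h1 ⊢
    constructor <;> omega
  by_contra hcon
  push Not at hcon
  have key : ∀ (b : ℕ) (n : ℤ), 1 ≤ b → b ≤ 6 → 3 * n + 1 = 2 ^ b * y → ¬ (3 : ℤ) ∣ n →
      ∃ p ≥ 1, T^[p] n = n := fun b n hb hb6 hn h3 =>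
    hcon b n (T_child hb hn) h3 (hsize b n hb6 hn)
  rcases (by omega : m % 3 = 0 ∨ m % 3 = 1 ∨ m % 3 = 2) with h | h | h
  · obtain ⟨p, hp, h1⟩ := key (a + 1 + 2) (4 * m + 1) (by omega) (by omega) hm1 (by omega)
    obtain ⟨q, hq, h2⟩ := key (a + 1 + 4) (16 * m + 5) (by omega) (by omega) hm2 (by omega)
    exact not_both_per (a := a + 2) (d := 2) (by norm_num) hm1 hm2 hp hq h1 h2
  · obtain ⟨p, hp, h1⟩ := key (a + 1) m (by omega) (by omega) hm (by omega)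
    obtain ⟨q, hq, h2⟩ := key (a + 1 + 2) (4 * m + 1) (by omega) (by omega) hm1 (by omega)
    exact not_both_per (a := a) (d := 2) (by norm_num) hm hm1 hp hq h1 h2
  · obtain ⟨p, hp, h1⟩ := key (a + 1) m (by omega) (by omega) hm (by omega)
    obtain ⟨q, hq, h2⟩ := key (a + 1 + 4) (16 * m + 5) (by omega) (by omega) hm2 (by omega)
    exact not_both_per (a := a) (d := 4) (by norm_num) hm hm2 hp hq h1 h2

end Pool.Agent.H30.PD
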