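import Pool.Agent.H30.PD.Defs

/-!
# JOB PD-COLS. Columns are sparse

`Col K L H ν` : there is `N ≠ 0`, `|N| ≤ 2 * 9^L`, `4^H ∣ K + N 3^ν`.

`col_gap`: let `ν ≤ ν' = ν + d` be columns with numbers `N, N'`, `d ≤ W`, `2 * 9^L * (3^W + 1) < 4^H`. Then
`4^H ∣ 3^ν (N - N' 3^d)`, `4^H` is coprime to `3^ν`, `|N - N' 3^d| < 4^H`, so `N = N' 3^d`, and `3^d ≤ |N| ≤ 2 * 9^L < 3^(2L+1)`,
so `d ≤ 2L`.

`col_count`: a window of `W + 1` consecutive numbers contains at most `2L + 1` columns (all within distance `2L` of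
the least one). Cover `[a, a+m)` by `m/(W+1) + 1` windows of length `W+1`.
-/

set_option autoImplicit false

namespace Pool.Agent.H30.PD

open Finset

theorem col_gap {K : ℤ} {L H W ν d : ℕ} (hH : 2 * 9 ^ L * (3 ^ W + 1) < 4 ^ H)
    (h1 : Col K L H ν) (h2 : Col K L H (ν + d)) (hd : d ≤ W) : d ≤ 2 * L := by
  obtain ⟨N, hN0, hN, hNd⟩ := h1
  obtain ⟨N', hN0', hN', hNd'⟩ := h2
  have hdiv : (4 : ℤ) ^ H ∣ (N - N' * 3 ^ d) * 3 ^ ν := by
    have h := dvd_sub hNd hNd'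
    have e : K + N * 3 ^ ν - (K + N' * 3 ^ (ν + d)) = (N - N' * 3 ^ d) * 3 ^ ν := by
      rw [pow_add]; ring
    rwa [e] at h
  have hcop : IsCoprime ((4 : ℤ) ^ H) (3 ^ ν) := by
    apply IsCoprime.pow
    exact ⟨1, -1, by norm_num⟩
  have hdiv2 : (4 : ℤ) ^ H ∣ N - N' * 3 ^ d := hcop.dvd_of_dvd_mul_right hdiv
  have h3 : (3 : ℤ) ^ d ≤ 3 ^ W := pow_le_pow_right₀ (by norm_num) hd
  have hpos : (0 : ℤ) < 3 ^ d := by positivity
  have h9 : (0 : ℤ) < 9 ^ L := by positivity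
  have habs : |N - N' * 3 ^ d| < 4 ^ H := by
    have hH' : (2 * 9 ^ L * (3 ^ W + 1) : ℤ) < 4 ^ H := by exact_mod_cast hH
    have e1 : |N - N' * 3 ^ d| ≤ |N| + |N'| * 3 ^ d := by
      calc |N - N' * 3 ^ d| ≤ |N| + |N' * 3 ^ d| := abs_sub _ _
        _ = |N| + |N'| * 3 ^ d := by rw [abs_mul, abs_of_pos hpos]
    have e2 : |N'| * 3 ^ d ≤ 2 * 9 ^ L * 3 ^ W := by
      apply mul_le_mul hN' h3 hpos.le
      positivity
    nlinarith
  have hzero : N - N' * 3 ^ d = 0 := Int.eq_zero_of_abs_lt_dvd hdiv2 habs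
  have hNeq : N = N' * 3 ^ d := by linarith
  have h1' : (1 : ℤ) ≤ |N'| := Int.one_le_abs hN0'
  have hle : (3 : ℤ) ^ d ≤ 2 * 9 ^ L := by
    calc (3 : ℤ) ^ d = 1 * 3 ^ d := (one_mul _).symm
      _ ≤ |N'| * 3 ^ d := mul_le_mul_of_nonneg_right h1' hpos.le
      _ = |N| := by rw [hNeq, abs_mul, abs_of_pos hpos]
      _ ≤ _ := hN
  have hlt : (3 : ℤ) ^ d < 3 ^ (2 * L + 1) := by
    calc (3 : ℤ) ^ d ≤ 2 * 9 ^ L := hle
      _ < 3 * 9 ^ L := by linarith
      _ = 3 ^ (2 * L + 1) := by rw [pow_succ, pow_mul]; norm_num; ring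
  have hlt2 : d < 2 * L + 1 := (pow_lt_pow_iff_right₀ (by norm_num : (1 : ℤ) < 3)).mp hlt
  omega

theorem col_count {K : ℤ} {L H W : ℕ} (hH : 2 * 9 ^ L * (3 ^ W + 1) < 4 ^ H) (a m : ℕ)
    (S : Finset ℕ) (hS : ∀ ν ∈ S, Col K L H ν ∧ a ≤ ν ∧ ν < a + m) :
    S.card ≤ (m / (W + 1) + 1) * (2 * L + 1) := by
  classical
  have hmaps : ∀ ν ∈ S, (ν - a) / (W + 1) ∈ range (m / (W + 1) + 1) := by
    intro ν hν
    obtain ⟨_, h1, h2⟩ := hS ν hν
    rw [mem_range]
    have : (ν - a) / (W + 1) ≤ m / (W + 1) := Nat.div_le_div_right (by omega)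
    omega
  have hfib : ∀ b ∈ range (m / (W + 1) + 1),
      (S.filter fun ν => (ν - a) / (W + 1) = b).card ≤ 2 * L + 1 := by
    intro b _
    set F := S.filter fun ν => (ν - a) / (W + 1) = b with hF
    rcases F.eq_empty_or_nonempty with h0 | hne
    · rw [h0]; simp
    · have hsub : F ⊆ Icc (F.min' hne) (F.min' hne + 2 * L) := by
        intro ν hν
        have hmin : F.min' hne ≤ ν := F.min'_le ν hν
        have hmem : F.min' hne ∈ F := F.min'_mem hne
        generalize F.min' hne = μ at hmin hmem ⊢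
        rw [hF, mem_filter] at hν hmem
        obtain ⟨c1, a1, b1⟩ := hS _ hν.1
        obtain ⟨c0, a0, b0⟩ := hS _ hmem.1
        have e1 := hν.2
        have e0 := hmem.2
        have hW : ν - μ ≤ W := by
          have k1 := Nat.div_add_mod (ν - a) (W + 1)
          have k0 := Nat.div_add_mod (μ - a) (W + 1)
          have l1 := Nat.mod_lt (ν - a) (Nat.succ_pos W)
          have l0 := Nat.mod_lt (μ - a) (Nat.succ_pos W)
          rw [e1] at k1
          rw [e0] at k0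
          simp only [Nat.succ_eq_add_one] at l1 l0
          omega
        have hg := col_gap hH c0 (d := ν - μ)
          (by rw [Nat.add_sub_cancel' hmin]; exact c1) hW
        rw [mem_Icc]
        exact ⟨hmin, by omega⟩
      calc F.card ≤ (Icc (F.min' hne) (F.min' hne + 2 * L)).card := card_le_card hsub
        _ = 2 * L + 1 := by rw [Nat.card_Icc]; omega
  have h := card_le_mul_card_image_of_maps_to hmaps (2 * L + 1) hfib
  rw [card_range] at h
  calc S.card ≤ (2 * L + 1) * (m / (W + 1) + 1) := h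
    _ = _ := mul_comm _ _

end Pool.Agent.H30.PD
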