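import Pool.Agent.H30.PD.Defs

/-!
# JOB PD-COS. The cosine factor, and elementary properties of `kk ξ t n = Int.bmod (4^t ξ) (3^n)`

Write `K = kk ξ (t+1) n`, `4^(t+1) ξ = K + M 3^n`, `x = K/3^n`, `|x| < 1/2`. Then `4^t ξ/3^n = (x + M)/4`. With
`M = 4Q + ρ`, `ρ ∈ {0,1,2,3}`, `|cos(π(x+M)/4)| = |cos(π(x+ρ)/4)|` (`Real.cos_add_int_mul_pi`, absolute value of
`(-1)^Q`). `ρ = 0`: `cos(π|x|/4)`, and `|x| ≥ 4/1000` if not tiny. `ρ = 1`: angle in `(π/8, 3π/8)`. `ρ = 2`: angle in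
`(3π/8, 5π/8)`. `ρ = 3`: angle in `(5π/8, 7π/8)`. In the last three cases `|cos| ≤ cos(π/8)` (antitone on `[0,π]`).
If `4 ∤ K` then `M 3^n ≡ -K` mod 4 so `ρ ≠ 0`.
* `kk_lt`: `3^n` is odd (`Int.bmod` bounds: `Int.bmod_lt`, `Int.le_bmod`). `kk_modeq`: `Int.bmod_emod`-type lemma.
* `kk_eq`: uniqueness of the least absolute residue.
* `kk_not_dvd`: `3 ∣ 3^n ∣ 4^t ξ - K`.
* `kk_cross`: `4^h (4^s ξ) ≡ K = 4^h K₁` mod `3^n`, cancel `4^h`; then `kk_eq` as `|K₁| ≤ |K|`.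
* `kk_mono`: `4^s ξ ≡ K₁` modulo `3^n`, hence modulo `3^(n-k)`.
-/

set_option autoImplicit false

namespace Pool.Agent.H30.PD

open Finset

theorem Cos_kk_odd (n : ℕ) : (3 ^ n) % 2 = 1 := by
  rw [Nat.pow_mod]; simp

theorem kk_lt (ξ : ℤ) (t n : ℕ) : 2 * |kk ξ t n| < 3 ^ n := by
  have h0 : 0 < 3 ^ n := pow_pos (by norm_num) n
  have h1 := Int.bmod_lt (x := 4 ^ t * ξ) h0
  have h2 := Int.le_bmod (x := 4 ^ t * ξ) h0
  have h3 := Cos_kk_odd n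
  have h5 : ((3 : ℤ) ^ n) = ((3 ^ n : ℕ) : ℤ) := by push_cast; rfl
  unfold kk
  rw [h5]
  rcases abs_cases (Int.bmod (4 ^ t * ξ) (3 ^ n)) with ⟨h, _⟩ | ⟨h, _⟩ <;> rw [h] <;> omega

theorem kk_modeq (ξ : ℤ) (t n : ℕ) : (3 : ℤ) ^ n ∣ 4 ^ t * ξ - kk ξ t n := by
  unfold kk
  have h5 : ((3 : ℤ) ^ n) = ((3 ^ n : ℕ) : ℤ) := by push_cast; rfl
  rw [h5]
  exact Int.dvd_self_sub_bmod

theorem kk_eq {ξ K : ℤ} {t n : ℕ} (h : (3 : ℤ) ^ n ∣ 4 ^ t * ξ - K) (hK : 2 * |K| < 3 ^ n) :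
    kk ξ t n = K := by
  have h1 := kk_lt ξ t n
  have h2 := kk_modeq ξ t n
  have h3 : (3 : ℤ) ^ n ∣ kk ξ t n - K := by
    have := dvd_sub h h2
    rwa [show 4 ^ t * ξ - K - (4 ^ t * ξ - kk ξ t n) = kk ξ t n - K by ring] at this
  have h4 : |kk ξ t n - K| < (3 : ℤ) ^ n := by
    have := abs_sub (kk ξ t n) K
    linarith
  have := Int.eq_zero_of_abs_lt_dvd h3 h4
  linarith

theorem kk_not_dvd {ξ : ℤ} (hξ : ¬ (3 : ℤ) ∣ ξ) (t : ℕ) {n : ℕ} (hn : 1 ≤ n) :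
    ¬ (3 : ℤ) ∣ kk ξ t n := by
  intro h
  have h1 : (3 : ℤ) ∣ 4 ^ t * ξ - kk ξ t n :=
    (dvd_pow_self 3 (by omega)).trans (kk_modeq ξ t n)
  have h2 : (3 : ℤ) ∣ 4 ^ t * ξ := by
    have := dvd_add h1 h
    simpa using this
  have hp : Prime (3 : ℤ) := Int.prime_three
  rcases hp.dvd_or_dvd h2 with h3 | h3
  · have := hp.dvd_of_dvd_pow h3
    norm_num at this
  · exact hξ h3

theorem kk_ne_zero {ξ : ℤ} (hξ : ¬ (3 : ℤ) ∣ ξ) (t : ℕ) {n : ℕ} (hn : 1 ≤ n) : kk ξ t n ≠ 0 := by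
  intro h
  apply kk_not_dvd hξ t hn
  rw [h]
  exact dvd_zero _

/-- crossing `h` blocks -/
theorem kk_cross {ξ K : ℤ} {s h n : ℕ} (hK : kk ξ (s + h) n = 4 ^ h * K) : kk ξ s n = K := by
  have h1 := kk_modeq ξ (s + h) n
  have h2 := kk_lt ξ (s + h) n
  rw [hK] at h1 h2
  apply kk_eq
  · have h3 : (4 : ℤ) ^ (s + h) * ξ - 4 ^ h * K = 4 ^ h * (4 ^ s * ξ - K) := by
      rw [pow_add]; ring
    rw [h3] at h1
    have hc : IsCoprime ((3 : ℤ) ^ n) (4 ^ h) := by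
      apply IsCoprime.pow
      rw [Int.isCoprime_iff_gcd_eq_one]; rfl
    exact hc.dvd_of_dvd_mul_left h1
  · rw [abs_mul, abs_of_pos (pow_pos (by norm_num : (0:ℤ) < 4) h)] at h2
    have h4 : (1 : ℤ) ≤ 4 ^ h := one_le_pow₀ (by norm_num)
    nlinarith [abs_nonneg K]

/-- crossing `h` blocks and lowering the level -/
theorem kk_cross' {ξ K : ℤ} {s h n : ℕ} (k : ℕ) (hK : kk ξ (s + h) n = 4 ^ h * K)
    (hlt : 2 * |K| < 3 ^ (n - k)) : kk ξ s (n - k) = K := by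
  have h1 := kk_cross hK
  apply kk_eq _ hlt
  have h2 := kk_modeq ξ s n
  rw [h1] at h2
  exact (pow_dvd_pow 3 (Nat.sub_le n k)).trans h2

/-- a point at distance `≥ δ` from the integers -/
theorem Cos_le_of_dist {y δ : ℝ} (hδ : 0 ≤ δ) (h : ∀ k : ℤ, δ ≤ |y - k|) :
    |Real.cos (Real.pi * y)| ≤ Real.cos (Real.pi * δ) := by
  have h1 := h (round y)
  have h2 := abs_sub_round y
  have h3 : Real.pi * y = Real.pi * (y - round y) + (round y : ℤ) * Real.pi := by ring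
  have hpi := Real.pi_pos
  have h4 : |Real.cos (Real.pi * y)| = |Real.cos (Real.pi * (y - round y))| := by
    rw [h3, Real.cos_add_int_mul_pi, abs_mul, abs_zpow, abs_neg, abs_one, one_zpow, one_mul]
  have h5 : Real.cos (Real.pi * (y - round y)) = Real.cos (Real.pi * |y - round y|) := by
    rw [← Real.cos_abs, abs_mul, abs_of_pos hpi]
  have h6 : 0 ≤ Real.cos (Real.pi * |y - round y|) := by
    apply Real.cos_nonneg_of_mem_Icc
    constructor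
    · have := abs_nonneg (y - round y)
      nlinarith
    · nlinarith
  rw [h4, h5, abs_of_nonneg h6]
  apply Real.cos_le_cos_of_nonneg_of_le_pi
  · positivity
  · nlinarith
  · exact mul_le_mul_of_nonneg_left h1 hpi.le

theorem Cos_of_dist_int {ξ : ℤ} {t n : ℕ} {δ : ℝ} (hδ : 0 ≤ δ)
    (h : ∀ k : ℤ, 4 * δ * 3 ^ n ≤ |((4 : ℤ) ^ (t + 1) * ξ - 4 * k * 3 ^ n : ℤ)|) :
    |Real.cos (Real.pi * ((4 : ℝ) ^ t * ξ) / 3 ^ n)| ≤ Real.cos (Real.pi * δ) := by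
  rw [mul_div_assoc]
  refine Cos_le_of_dist hδ fun k => ?_
  have h1 := h k
  have h3 : (0 : ℝ) < 3 ^ n := by positivity
  have h4 : (4 : ℝ) ^ t * ξ / 3 ^ n - k = (((4 : ℤ) ^ (t + 1) * ξ - 4 * k * 3 ^ n : ℤ) : ℝ) /
      (4 * 3 ^ n) := by
    push_cast
    field_simp
    ring
  rw [h4, abs_div, abs_of_pos (by positivity : (0 : ℝ) < 4 * 3 ^ n), le_div_iff₀ (by positivity)]
  rw [Int.cast_abs] at h1
  linarith

theorem Cos_dist_aux (ξ : ℤ) (t n : ℕ) (k : ℤ) :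
    (4 : ℤ) ^ (t + 1) * ξ - 4 * k * 3 ^ n = kk ξ (t + 1) n ∨
      (3 : ℤ) ^ n ≤ 2 * |(4 : ℤ) ^ (t + 1) * ξ - 4 * k * 3 ^ n| := by
  obtain ⟨M, hM⟩ := kk_modeq ξ (t + 1) n
  have h1 := kk_lt ξ (t + 1) n
  by_cases hk : M = 4 * k
  · left
    rw [hk] at hM
    linarith
  · right
    have h2 : (4 : ℤ) ^ (t + 1) * ξ - 4 * k * 3 ^ n = kk ξ (t + 1) n + 3 ^ n * (M - 4 * k) := by
      linarith
    rw [h2]
    have h3 : (1 : ℤ) ≤ |M - 4 * k| := Int.one_le_abs (sub_ne_zero.2 hk)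
    have h4 : (0 : ℤ) < 3 ^ n := by positivity
    have h5 : |(3 : ℤ) ^ n * (M - 4 * k)| ≤ |kk ξ (t + 1) n + 3 ^ n * (M - 4 * k)| +
        |kk ξ (t + 1) n| := by
      have := abs_sub (kk ξ (t + 1) n + 3 ^ n * (M - 4 * k)) (kk ξ (t + 1) n)
      rwa [add_sub_cancel_left] at this
    rw [abs_mul, abs_of_pos h4] at h5
    nlinarith

theorem cos_of_not_tiny {ξ : ℤ} {t n : ℕ} (h : ¬ Tiny ξ (t + 1) n) :
    |Real.cos (Real.pi * ((4 : ℝ) ^ t * ξ) / 3 ^ n)| ≤ Real.cos (Real.pi / 1000) := by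
  have h0 : Real.pi / 1000 = Real.pi * (1 / 1000) := by ring
  rw [h0]
  refine Cos_of_dist_int (by norm_num) fun k => ?_
  unfold Tiny at h
  push Not at h
  rcases Cos_dist_aux ξ t n k with h1 | h1
  · rw [h1, Int.cast_abs]
    linarith
  · have h2 : ((3 ^ n : ℤ) : ℝ) ≤ ((2 * |(4 : ℤ) ^ (t + 1) * ξ - 4 * k * 3 ^ n| : ℤ) : ℝ) := by
      exact_mod_cast h1
    rw [Int.cast_mul, Int.cast_pow] at h2
    have h3 : (0 : ℝ) < 3 ^ n := by positivity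
    push_cast at h2 ⊢
    linarith

theorem cos_of_not_four {ξ : ℤ} {t n : ℕ} (h : ¬ (4 : ℤ) ∣ kk ξ (t + 1) n) :
    |Real.cos (Real.pi * ((4 : ℝ) ^ t * ξ) / 3 ^ n)| ≤ Real.cos (Real.pi / 8) := by
  have h0 : Real.pi / 8 = Real.pi * (1 / 8) := by ring
  rw [h0]
  refine Cos_of_dist_int (by norm_num) fun k => ?_
  rcases Cos_dist_aux ξ t n k with h1 | h1
  · exfalso
    apply h
    rw [← h1, pow_succ]
    exact ⟨4 ^ t * ξ - k * 3 ^ n, by ring⟩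
  · have h2 : ((3 ^ n : ℤ) : ℝ) ≤ ((2 * |(4 : ℤ) ^ (t + 1) * ξ - 4 * k * 3 ^ n| : ℤ) : ℝ) := by
      exact_mod_cast h1
    rw [Int.cast_mul, Int.cast_pow] at h2
    have h3 : (0 : ℝ) < 3 ^ n := by positivity
    push_cast at h2 ⊢
    linarith

/-- `cos(π/8) = √(2+√2)/2 < 0.924` -/
theorem gam_lt_one : gam < 1 := by
  unfold gam
  apply max_lt
  · have h1 : Real.cos (Real.pi / 1000) < 1 := by
      have hpi := Real.pi_pos
      have := Real.cos_lt_cos_of_nonneg_of_le_pi (x := 0) (y := Real.pi / 1000) le_rfl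
        (by linarith) (by positivity)
      rwa [Real.cos_zero] at this
    linarith
  · rw [Real.cos_pi_div_eight]
    have h1 : √2 < 3 / 2 := by
      rw [Real.sqrt_lt' (by norm_num)]; norm_num
    have h2 : √(2 + √2) < 19 / 10 := by
      rw [Real.sqrt_lt' (by norm_num)]; linarith
    linarith

theorem gam_pos : 0 < gam := by
  unfold gam
  apply lt_max_of_lt_right
  have := Real.neg_one_le_cos (Real.pi / 8)
  linarith

end Pool.Agent.H30.PD
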