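import Pool.Agent.H30.PD.Main1

/-!
# JOB PD-COUNT. Positive density

`dens_nonper`: let `y` be non periodic, `3 ∤ y`, `x ≥ C |y|`, `z = x/(|y| (1+Λ))` (large; `|y| ≥ 1`). For an integer `l` with `2^l ≥ z` let `k(l)` be the least
`k` with `2^l ≤ z 3^k`; then `2^l/3^(k(l)) > z/3` if `k(l) ≥ 1`, and `k(l) = (l log 2 - log z)/log 3 + θ`, `0 ≤ θ ≤ 1`, so
`2 k(l) - l = α l - β + 2θ` with `α = 2 log 2/log 3 - 1 ∈ (0.26, 0.27)`, `β = 2 log z/log 3`. Let `la = ⌈β/α⌉` and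
`l = la + i`, `0 ≤ i ≤ √la`: `0 ≤ 2k(l) - l ≤ 0.27 (√la + 1) + 2 ≤ 2 √l` for large `z`. `main1` gives for each such `l` a set `s_l` of at least
`c 2^l/(3^(k(l)) √l) ≥ c z/(3 √(2 la))` integers `m` with `T^[l] m = y` and
`|m| ≤ 2^l (|y| + Λ)/3^(k(l)) ≤ z (|y| + Λ) ≤ z |y| (1 + Λ) = x`. The sets are disjoint: `T^[l] m = y = T^[l'] m`, `l < l'`, gives `T^[l'-l] y = y`. Number of
`l`: `≥ √la` (`⌊√la⌋ + 1`). Total `≥ √la * c z/(3 √(2 la)) ≥ c z/5 = c x/(5 |y| (1+Λ))`. The set `{n : |n| ≤ x, ∃ k, T^[k] n = y}` is finite and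
contains the union.
`dens`: for general `y` apply `dens_nonper` to `m` from `nonper_child` (`|m| ≤ 22 |y|`, `m ≠ 0`): preimages of `m` are preimages of `y`.
-/

set_option autoImplicit false

namespace Pool.Agent.H30.PD

open Finset

/-- the set counted is finite -/
theorem count_finite (x : ℝ) (y : ℤ) :
    {n : ℤ | |(n : ℝ)| ≤ x ∧ ∃ k : ℕ, T^[k] n = y}.Finite := by
  refine (Set.finite_Icc (-⌈x⌉) ⌈x⌉).subset ?_
  rintro n ⟨hn, -⟩
  have h1 := abs_le.1 hn
  have h2 : x ≤ ⌈x⌉ := Int.le_ceil x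
  constructor
  · have : (-(⌈x⌉ : ℤ) : ℝ) ≤ n := by linarith
    exact_mod_cast this
  · have : (n : ℝ) ≤ (⌈x⌉ : ℤ) := by linarith
    exact_mod_cast this

/-- the choice of `k` for given `l` -/
theorem count_choice {z : ℝ} (hz : 0 < z) {l : ℕ} (hl : Real.log z ≤ l * Real.log 2) :
    ∃ k : ℕ, (2 : ℝ) ^ l / 3 ^ k ≤ z ∧ z / 3 ≤ (2 : ℝ) ^ l / 3 ^ k ∧
      (l * Real.log 2 - Real.log z) / Real.log 3 ≤ k ∧
      (k : ℝ) ≤ (l * Real.log 2 - Real.log z) / Real.log 3 + 1 := by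
  have h3 : 0 < Real.log 3 := Real.log_pos (by norm_num)
  set κ : ℝ := (l * Real.log 2 - Real.log z) / Real.log 3 with hκ
  have hκ0 : 0 ≤ κ := div_nonneg (by linarith) h3.le
  have hκ3 : κ * Real.log 3 = l * Real.log 2 - Real.log z := by
    rw [hκ, div_mul_cancel₀ _ h3.ne']
  refine ⟨⌈κ⌉₊, ?_, ?_, Nat.le_ceil κ, (Nat.ceil_lt_add_one hκ0).le⟩
  · have h1 : κ ≤ (⌈κ⌉₊ : ℝ) := Nat.le_ceil κ
    rw [← Real.log_le_log_iff (by positivity) hz, Real.log_div (by positivity) (by positivity),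
      Real.log_pow, Real.log_pow]
    have h2 := mul_le_mul_of_nonneg_right h1 h3.le
    linarith
  · have h1 : (⌈κ⌉₊ : ℝ) < κ + 1 := Nat.ceil_lt_add_one hκ0
    rw [← Real.log_le_log_iff (by positivity) (by positivity),
      Real.log_div (by positivity) (by positivity), Real.log_div (by positivity) (by positivity),
      Real.log_pow, Real.log_pow]
    have h2 := mul_le_mul_of_nonneg_right h1.le h3.le
    linarith

theorem dens_nonper : ∃ c C : ℝ, 0 < c ∧ 0 < C ∧ ∀ y : ℤ, ¬ (3 : ℤ) ∣ y →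
    (∀ p ≥ 1, T^[p] y ≠ y) → ∀ x : ℝ, C * |(y : ℝ)| ≤ x →
      c * x / |(y : ℝ)| ≤ (Nat.card {n : ℤ | |(n : ℝ)| ≤ x ∧ ∃ k : ℕ, T^[k] n = y} : ℝ) := by
  obtain ⟨c, Λ, l1, hc, hΛ, H⟩ := main1
  set L : ℝ := max l1 9 with hL
  have hL1 : (l1 : ℝ) ≤ L := le_max_left _ _
  have hL9 : (9 : ℝ) ≤ L := le_max_right _ _
  refine ⟨c / (5 * (1 + Λ)), (1 + Λ) * Real.exp L, by positivity, by positivity, ?_⟩
  intro y hy hper x hx
  have hy0 : y ≠ 0 := by rintro rfl; exact hy (dvd_zero _)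
  have hy1 : (1 : ℝ) ≤ |(y : ℝ)| := by
    have : (1 : ℤ) ≤ |y| := Int.one_le_abs hy0
    exact_mod_cast this
  have hypos : (0 : ℝ) < |(y : ℝ)| := by linarith
  set z : ℝ := x / (|(y : ℝ)| * (1 + Λ)) with hzdef
  have hΛ1 : 0 < 1 + Λ := by linarith
  have hzx : z * (|(y : ℝ)| * (1 + Λ)) = x := div_mul_cancel₀ _ (by positivity)
  have hz : Real.exp L ≤ z := by
    rw [hzdef, le_div_iff₀ (by positivity)]
    linarith
  have hzpos : 0 < z := lt_of_lt_of_le (Real.exp_pos _) hz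
  set t : ℝ := Real.log z with ht
  have htL : L ≤ t := by
    rw [ht, Real.le_log_iff_exp_le hzpos]; exact hz
  set a : ℝ := Real.log 2 with ha
  set b : ℝ := Real.log 3 with hb
  have ha0 : 0 < a := Real.log_pos (by norm_num)
  have hab : a < b := Real.log_lt_log (by norm_num) (by norm_num)
  have ha1 : a < 1 := by have := Real.log_two_lt_d9; linarith
  have hb2 : b < 2 * a := by
    have h4 : Real.log 4 = 2 * a := by
      rw [show (4 : ℝ) = 2 ^ 2 by norm_num, Real.log_pow]; norm_num; exact ha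
    rw [← h4]; exact Real.log_lt_log (by norm_num) (by norm_num)
  have hb0 : 0 < b := by linarith
  set la : ℕ := ⌈2 * t / (2 * a - b)⌉₊ with hla
  have hα : 0 < 2 * a - b := by linarith
  have ht0 : 0 < t := by linarith
  have hla1 : 2 * t ≤ la * (2 * a - b) := by
    rw [← div_le_iff₀ hα]; exact Nat.le_ceil _
  have hla2 : la * (2 * a - b) ≤ 2 * t + (2 * a - b) := by
    have h1 : (la : ℝ) < 2 * t / (2 * a - b) + 1 := Nat.ceil_lt_add_one (by positivity)
    have h2 : la * (2 * a - b) ≤ (2 * t / (2 * a - b) + 1) * (2 * a - b) :=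
      mul_le_mul_of_nonneg_right h1.le hα.le
    have h3 : (2 * t / (2 * a - b) + 1) * (2 * a - b) = 2 * t + (2 * a - b) := by
      field_simp
    linarith
  have hlaL : L ≤ la := by
    have h1 : (0 : ℝ) ≤ la * (1 - (2 * a - b)) := mul_nonneg (Nat.cast_nonneg _) (by linarith)
    linarith
  have hla9 : (9 : ℝ) ≤ la := by linarith
  have hsq3 : (3 : ℝ) ≤ Real.sqrt la := by
    rw [show (3 : ℝ) = Real.sqrt 9 by rw [show (9 : ℝ) = 3 ^ 2 by norm_num]; rw [Real.sqrt_sq (by norm_num)]]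
    exact Real.sqrt_le_sqrt hla9
  -- for each i a finset
  have key : ∀ i : ℕ, ∃ s : Finset ℤ, (i ∈ range (Nat.sqrt la + 1) →
      c * (z / 3) / Real.sqrt (2 * la) ≤ (s.card : ℝ) ∧
      ∀ m ∈ s, T^[la + i] m = y ∧ |(m : ℝ)| ≤ x) := by
    intro i
    by_cases hi : i ∈ range (Nat.sqrt la + 1)
    swap
    · exact ⟨∅, fun h => absurd h hi⟩
    have hi1 : (i : ℝ) ≤ Real.sqrt la := by
      have h1 : i ≤ Nat.sqrt la := by have := mem_range.1 hi; omega
      have h2 : (i : ℝ) ≤ (Nat.sqrt la : ℝ) := by exact_mod_cast h1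
      exact h2.trans Real.nat_sqrt_le_real_sqrt
    have hi0 : (0 : ℝ) ≤ i := Nat.cast_nonneg _
    have hlc : ((la + i : ℕ) : ℝ) = la + i := by push_cast; ring
    have hlog : Real.log z ≤ ((la + i : ℕ) : ℝ) * Real.log 2 := by
      rw [hlc]; show t ≤ (la + i) * a
      have h1 : (0 : ℝ) ≤ la * b := mul_nonneg (Nat.cast_nonneg _) hb0.le
      have h2 : (0 : ℝ) ≤ i * a := mul_nonneg hi0 ha0.le
      linarith
    obtain ⟨k, hk1, hk2, hk3, hk4⟩ := count_choice hzpos hlog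
    have e1 : 2 * ((((la + i : ℕ) : ℝ) * Real.log 2 - Real.log z) / Real.log 3) - ((la + i : ℕ) : ℝ) =
        ((la + i) * (2 * a - b) - 2 * t) / b := by
      rw [hlc]
      show 2 * (((la + i : ℝ) * a - t) / b) - (la + i) = _
      field_simp
      ring
    have e2 : 0 ≤ ((la + i) * (2 * a - b) - 2 * t) / b := by
      apply div_nonneg _ hb0.le
      have h2 : (0 : ℝ) ≤ i * (2 * a - b) := mul_nonneg hi0 hα.le
      linarith
    have e3 : ((la + i) * (2 * a - b) - 2 * t) / b ≤ 1 + i := by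
      rw [div_le_iff₀ hb0]
      have h2 : (0 : ℝ) ≤ i * (b - a) := mul_nonneg hi0 (by linarith)
      linarith
    have hsql : Real.sqrt la ≤ Real.sqrt ((la + i : ℕ) : ℝ) := by
      apply Real.sqrt_le_sqrt; rw [hlc]; linarith
    have hcone : |2 * (k : ℝ) - ((la + i : ℕ) : ℝ)| ≤ 2 * Real.sqrt ((la + i : ℕ) : ℝ) := by
      rw [abs_of_nonneg (by linarith)]
      linarith
    have hl1 : la + i ≥ l1 := by
      have : (l1 : ℝ) ≤ la := by linarith
      have : l1 ≤ la := by exact_mod_cast this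
      omega
    obtain ⟨s, hs1, hs2⟩ := H y hy (la + i) hl1 k hcone
    refine ⟨s, fun _ => ⟨?_, ?_⟩⟩
    · refine le_trans ?_ hs1
      have h1 : Real.sqrt ((la + i : ℕ) : ℝ) ≤ Real.sqrt (2 * la) := by
        apply Real.sqrt_le_sqrt
        rw [hlc]
        have : Real.sqrt la ≤ la := by
          have h := Real.mul_self_sqrt (show (0 : ℝ) ≤ la by positivity)
          have h' : Real.sqrt la * 1 ≤ Real.sqrt la * Real.sqrt la :=
            mul_le_mul_of_nonneg_left (by linarith) (Real.sqrt_nonneg _)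
          linarith
        linarith
      have h2 : 0 < Real.sqrt ((la + i : ℕ) : ℝ) := by linarith
      have h3 : c * 2 ^ (la + i) / (3 ^ k * Real.sqrt ((la + i : ℕ) : ℝ)) =
          c * (2 ^ (la + i) / 3 ^ k) / Real.sqrt ((la + i : ℕ) : ℝ) := by
        field_simp
      rw [h3]
      exact div_le_div₀ (by positivity) (mul_le_mul_of_nonneg_left hk2 hc.le) h2 h1
    · intro m hm
      obtain ⟨g1, g2⟩ := hs2 m hm
      refine ⟨g1, ?_⟩
      have g3 : |(m : ℝ)| ≤ 2 ^ (la + i) / 3 ^ k * (|(y : ℝ)| + Λ) := by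
        rw [div_mul_eq_mul_div, le_div_iff₀ (by positivity)]
        linarith
      have g4 : 2 ^ (la + i) / 3 ^ k * (|(y : ℝ)| + Λ) ≤ z * (|(y : ℝ)| + Λ) :=
        mul_le_mul_of_nonneg_right hk1 (by positivity)
      have g5 : z * (|(y : ℝ)| + Λ) ≤ z * (|(y : ℝ)| * (1 + Λ)) := by
        apply mul_le_mul_of_nonneg_left _ hzpos.le
        have g6 : 0 ≤ (|(y : ℝ)| - 1) * Λ := mul_nonneg (by linarith) hΛ
        linarith
      linarith
  choose s hs using key
  have hdisj : ∀ i ∈ range (Nat.sqrt la + 1), ∀ j ∈ range (Nat.sqrt la + 1), i ≠ j →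
      Disjoint (s i) (s j) := by
    have aux : ∀ i ∈ range (Nat.sqrt la + 1), ∀ j ∈ range (Nat.sqrt la + 1), i < j →
        Disjoint (s i) (s j) := by
      intro i hi j hj hij
      rw [Finset.disjoint_left]
      intro m hm hm'
      have h1 := ((hs i hi).2 m hm).1
      have h2 := ((hs j hj).2 m hm').1
      apply hper (j - i) (by omega)
      have h3 : la + j = (j - i) + (la + i) := by omega
      rw [h3, Function.iterate_add_apply, h1] at h2
      exact h2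
    intro i hi j hj hij
    rcases lt_or_gt_of_ne hij with h | h
    · exact aux i hi j hj h
    · exact (aux j hj i hi h).symm
  set U : Finset ℤ := (range (Nat.sqrt la + 1)).biUnion s with hU
  have hUcard : (U.card : ℝ) = ∑ i ∈ range (Nat.sqrt la + 1), ((s i).card : ℝ) := by
    rw [hU, card_biUnion hdisj]; push_cast; rfl
  have hUlow : c * z / 5 ≤ (U.card : ℝ) := by
    rw [hUcard]
    have h1 : ∑ i ∈ range (Nat.sqrt la + 1), c * (z / 3) / Real.sqrt (2 * la) ≤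
        ∑ i ∈ range (Nat.sqrt la + 1), ((s i).card : ℝ) :=
      sum_le_sum fun i hi => (hs i hi).1
    refine le_trans ?_ h1
    rw [sum_const, card_range, nsmul_eq_mul]
    have h2 : Real.sqrt la ≤ ((Nat.sqrt la + 1 : ℕ) : ℝ) := by
      push_cast
      exact Real.real_sqrt_le_nat_sqrt_succ
    have h3 : Real.sqrt (2 * la) = Real.sqrt 2 * Real.sqrt la := Real.sqrt_mul (by norm_num) _
    have h4 : Real.sqrt 2 ≤ 3 / 2 := by
      rw [Real.sqrt_le_left (by norm_num)]; norm_num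
    have h5 : 0 < Real.sqrt 2 := by positivity
    have h6 : 0 < Real.sqrt la := by linarith
    rw [h3]
    have h7 : c * z / 5 ≤ Real.sqrt la * (c * (z / 3) / (Real.sqrt 2 * Real.sqrt la)) := by
      have : Real.sqrt la * (c * (z / 3) / (Real.sqrt 2 * Real.sqrt la)) = c * z / (3 * Real.sqrt 2) := by
        field_simp
      rw [this]
      apply div_le_div_of_nonneg_left (by positivity) (by positivity)
      linarith
    refine h7.trans (mul_le_mul_of_nonneg_right h2 (by positivity))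
  have hfin := count_finite x y
  have hsub : (U : Set ℤ) ⊆ {n : ℤ | |(n : ℝ)| ≤ x ∧ ∃ k : ℕ, T^[k] n = y} := by
    intro m hm
    rw [mem_coe, hU, mem_biUnion] at hm
    obtain ⟨i, hi, hm⟩ := hm
    have := (hs i hi).2 m hm
    exact ⟨this.2, la + i, this.1⟩
  have hcard : (U.card : ℝ) ≤ (Nat.card {n : ℤ | |(n : ℝ)| ≤ x ∧ ∃ k : ℕ, T^[k] n = y} : ℝ) := by
    have h1 : U.card ≤ Nat.card {n : ℤ | |(n : ℝ)| ≤ x ∧ ∃ k : ℕ, T^[k] n = y} := by
      have h2 := Nat.card_mono hfin hsub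
      rwa [Nat.card_coe_set_eq, Set.ncard_coe_finset] at h2
    exact_mod_cast h1
  refine le_trans ?_ hcard
  refine le_trans (le_of_eq ?_) hUlow
  rw [hzdef]
  field_simp

theorem dens : ∃ c C : ℝ, 0 < c ∧ 0 < C ∧ ∀ y : ℤ, ¬ (3 : ℤ) ∣ y → ∀ x : ℝ, C * |(y : ℝ)| ≤ x →
    c * x / |(y : ℝ)| ≤ (Nat.card {n : ℤ | |(n : ℝ)| ≤ x ∧ ∃ k : ℕ, T^[k] n = y} : ℝ) := by
  obtain ⟨c, C, hc, hC, H⟩ := dens_nonper
  refine ⟨c / 22, 22 * C, by positivity, by positivity, ?_⟩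
  intro y hy x hx
  obtain ⟨a, m, h1, h2, h3, h4⟩ := nonper_child hy
  have hm0 : m ≠ 0 := by rintro rfl; exact h2 (dvd_zero _)
  have hy0 : y ≠ 0 := by rintro rfl; exact hy (dvd_zero _)
  have hm1 : (0 : ℝ) < |(m : ℝ)| := by
    rw [abs_pos]; exact_mod_cast hm0
  have hy1 : (0 : ℝ) < |(y : ℝ)| := by
    rw [abs_pos]; exact_mod_cast hy0
  have h3' : |(m : ℝ)| ≤ 22 * |(y : ℝ)| := by exact_mod_cast h3
  have hxm : C * |(m : ℝ)| ≤ x := by
    have := mul_le_mul_of_nonneg_left h3' hC.le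
    linarith
  have hx0 : 0 ≤ x := le_trans (by positivity) hxm
  have h5 := H m h2 h4 x hxm
  have h6 : c / 22 * x / |(y : ℝ)| ≤ c * x / |(m : ℝ)| := by
    rw [div_le_div_iff₀ hy1 hm1]
    have : c * x * |(m : ℝ)| ≤ c * x * (22 * |(y : ℝ)|) :=
      mul_le_mul_of_nonneg_left h3' (by positivity)
    linarith
  have h7 : Nat.card {n : ℤ | |(n : ℝ)| ≤ x ∧ ∃ k : ℕ, T^[k] n = m} ≤
      Nat.card {n : ℤ | |(n : ℝ)| ≤ x ∧ ∃ k : ℕ, T^[k] n = y} := by
    apply Nat.card_mono (count_finite x y)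
    rintro n ⟨g1, k, g2⟩
    refine ⟨g1, a + k, ?_⟩
    rw [Function.iterate_add_apply, g2, h1]
  have h8 : (Nat.card {n : ℤ | |(n : ℝ)| ≤ x ∧ ∃ k : ℕ, T^[k] n = m} : ℝ) ≤
      Nat.card {n : ℤ | |(n : ℝ)| ≤ x ∧ ∃ k : ℕ, T^[k] n = y} := by exact_mod_cast h7
  linarith

end Pool.Agent.H30.PD
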