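import Pool.Agent.H30.Defs

/-!
# Uniform positive density of 3x+1 preimages: definitions

Words of length `l` (backward paths of the 3x+1 map) are coded by pairs `p = (k, c)`: `k` is the number of odd steps
and `c` the constant, so that `T^l(m) = y` with `k` odd steps iff `3^k m = 2^l y - c` for such a pair.

Whole paper proof: team-store file `MP_ff4775_positive_density.md`.
-/

set_option autoImplicit false

namespace Pool.Agent.H30.PD

open Finset

/-- The words of length `l`. -/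
def D : ℕ → Finset (ℕ × ℕ)
  | 0 => {(0, 0)}
  | l + 1 => (D l).image (fun p => (p.1, 2 * p.2)) ∪
      (D l).image (fun p => (p.1 + 1, 2 * p.2 + 3 ^ p.1))

/-- Composition of words: first `p`, then `q` of length `b`. -/
def comp (b : ℕ) (p q : ℕ × ℕ) : ℕ × ℕ := (p.1 + q.1, 2 ^ b * p.2 + 3 ^ p.1 * q.2)

/-- The binomial distribution. -/
noncomputable def bin (n k : ℕ) : ℝ := (n.choose k : ℝ) / 2 ^ n

/-- The majorant of the exponential sums. -/
noncomputable def w (ξ : ℤ) : ℕ → ℕ → ℝ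
  | 0, n => if n = 0 then 1 else 0
  | t + 1, n => 1 / 4 * w ξ t n +
      1 / 2 * |Real.cos (Real.pi * ((4 : ℝ) ^ t * ξ) / 3 ^ n)| * w ξ t (n - 1) +
      1 / 4 * w ξ t (n - 2)

/-- The representative of `4^t ξ` modulo `3^n` of least absolute value. -/
def kk (ξ : ℤ) (t n : ℕ) : ℤ := Int.bmod (4 ^ t * ξ) (3 ^ n)

/-- The position `(t, n)` is tiny. -/
def Tiny (ξ : ℤ) (t n : ℕ) : Prop := 1000 * |(kk ξ t n : ℝ)| < 4 * 3 ^ n

/-- The gain of one stage. -/
noncomputable def gam : ℝ :=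
  max (1 / 2 + Real.cos (Real.pi / 1000) / 2) (1 / 2 + Real.cos (Real.pi / 8) / 2 + 8 / 1000)

/-- Columns above which a tall position can be reached. -/
def Col (K : ℤ) (L H ν : ℕ) : Prop :=
  ∃ N : ℤ, N ≠ 0 ∧ |N| ≤ 2 * 9 ^ L ∧ (4 : ℤ) ^ H ∣ K + N * 3 ^ ν

/-- Elapsed time before stage `i`. -/
def Ls (H : ℕ → ℕ) : ℕ → ℕ
  | 0 => 0
  | i + 1 => Ls H i + H i + 1

/-- Difference of the fine and the coarse counting function (as a function of `u = 2^L m`). -/
noncomputable def gg (L q r : ℕ) (u : ℤ) : ℝ :=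
  (3 ^ q * (((D L).filter fun p => p.1 = q ∧ (3 : ℤ) ^ q ∣ u - p.2).card : ℝ) -
    3 ^ r * (((D L).filter fun p => p.1 = q ∧ (3 : ℤ) ^ r ∣ u - p.2).card : ℝ)) / 2 ^ L

/-- The same for words whose prefix of length `a` lies in `S`. -/
noncomputable def ggS (a b q r : ℕ) (S : Finset (ℕ × ℕ)) (u : ℤ) : ℝ :=
  (3 ^ q * (((S ×ˢ D b).filter fun x => x.1.1 + x.2.1 = q ∧
      (3 : ℤ) ^ q ∣ u - (comp b x.1 x.2).2).card : ℝ) -
    3 ^ r * (((S ×ˢ D b).filter fun x => x.1.1 + x.2.1 = q ∧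
      (3 : ℤ) ^ r ∣ u - (comp b x.1 x.2).2).card : ℝ)) / 2 ^ (a + b)

/-- Normalised number of words of length `j + L` with `k` heads, prefix in `S`, and constant congruent to
`2^(j+L) y` modulo `3^r`. For `S = D j` and `r = k` this counts the preimages of `y`. -/
noncomputable def Z (S : Finset (ℕ × ℕ)) (j L k r : ℕ) (y : ℤ) : ℝ :=
  3 ^ r / 2 ^ (j + L) * (((S ×ˢ D L).filter fun x => x.1.1 + x.2.1 = k ∧
    (3 : ℤ) ^ r ∣ 2 ^ (j + L) * y - (comp L x.1 x.2).2).card : ℝ)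

/-- `k` is in the cone at time `l`: `|2k - l| ≤ l/500`. -/
def Cone (l k : ℕ) : Prop := 500 * |2 * (k : ℤ) - l| ≤ l

instance (l k : ℕ) : Decidable (Cone l k) := by unfold Cone; infer_instance

/-- cut time -/
def cut (l : ℕ) : ℕ := (81 * l + 99) / 100

/-- next scale -/
def nxt (l : ℕ) : ℕ := 101 * l / 100

open Classical in
/-- Good words of length `j`. -/
noncomputable def SG (Λ : ℝ) (j : ℕ) : Finset (ℕ × ℕ) :=
  (D j).filter fun p => Cone j p.1 ∧ (p.2 : ℝ) ≤ (Λ - 1 / j) * 2 ^ j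

/-- The mass at scale `l` (zero outside the cone). -/
noncomputable def AA (Λ : ℝ) (y : ℤ) (l k : ℕ) : ℝ :=
  if Cone l k then Z (SG Λ (cut l)) (cut l) (l - cut l) k k y else 0

end Pool.Agent.H30.PD
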