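import Pool.Agent.H30.PD.Bin

/-!
# JOB PD-WBASIC. Elementary properties of the majorant `w`

Proofs.
* `w_nonneg`, `w_le_one`, `w_eq_zero` (`2t < n`): induction on `t` (for `w_eq_zero`: `2(t+1) < n` gives
  `2t < n - 2` etc.).
* `w_cross`: induction on `h` for all `n`; the step from `h` to `h+1`: `w ξ (s+h+1) n ≤ 1/4 w ξ (s+h) n + 1/2 w ξ (s+h) (n-1) + 1/4 w ξ (s+h) (n-2)`
  (`|cos| ≤ 1`), and `bin (2h+2) k = 1/4 bin (2h) k + 1/2 bin (2h) (k-1) + 1/4 bin (2h) (k-2)`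
  (Pascal twice); `(n-1)-k = n-(k+1)`. Alternatively prove the stronger equality-type statement with the kernel
  `w1 (t+1) n = 1/4 .. + 1/2 .. + 1/4 ..`.
* `w_block`: from the definition, with `|cos| ≤ c`.
* `w_short` : `w_cross` with `s = 0`, `h = t`; `w ξ 0 (n-k) = 0` if `k < n`; so `w ξ t n ≤ ∑_{k ≥ n} bin (2t) k`, and
  `2k - 2t ≥ 2n - 2t ≥ 0.4 n` as `2t ≤ 1.6 n`, `bin_tail` with `x = 0.4 n`: `x²/(4t) ≥ 0.16 n²/(3.2 n) = n/20`
  (`t = 0` trivial).
-/

set_option autoImplicit false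

namespace Pool.Agent.H30.PD

open Finset

theorem w_succ (ξ : ℤ) (t n : ℕ) : w ξ (t + 1) n = 1 / 4 * w ξ t n +
      1 / 2 * |Real.cos (Real.pi * ((4 : ℝ) ^ t * ξ) / 3 ^ n)| * w ξ t (n - 1) +
      1 / 4 * w ξ t (n - 2) := rfl

theorem w_zero (ξ : ℤ) (n : ℕ) : w ξ 0 n = if n = 0 then 1 else 0 := rfl

theorem w_nonneg (ξ : ℤ) (t n : ℕ) : 0 ≤ w ξ t n := by
  induction t generalizing n with
  | zero => rw [w_zero]; split_ifs <;> norm_num
  | succ t ih =>
    rw [w_succ]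
    have h1 := ih n
    have h2 := ih (n - 1)
    have h3 := ih (n - 2)
    positivity

theorem w_le_one (ξ : ℤ) (t n : ℕ) : w ξ t n ≤ 1 := by
  induction t generalizing n with
  | zero => rw [w_zero]; split_ifs <;> norm_num
  | succ t ih =>
    rw [w_succ]
    have h1 := ih n
    have h2 : |Real.cos (Real.pi * ((4 : ℝ) ^ t * ξ) / 3 ^ n)| * w ξ t (n - 1) ≤ 1 * 1 :=
      mul_le_mul (Real.abs_cos_le_one _) (ih (n - 1)) (w_nonneg _ _ _) (by norm_num)
    have h3 := ih (n - 2)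
    linarith

theorem w_eq_zero (ξ : ℤ) {t n : ℕ} (h : 2 * t < n) : w ξ t n = 0 := by
  induction t generalizing n with
  | zero => rw [w_zero, if_neg (by omega)]
  | succ t ih =>
    rw [w_succ, ih (n := n) (by omega), ih (n := n - 1) (by omega), ih (n := n - 2) (by omega)]
    ring

theorem w_block (ξ : ℤ) (t n : ℕ) {c B : ℝ} (hc : 0 ≤ c) (hB : 0 ≤ B)
    (hcos : |Real.cos (Real.pi * ((4 : ℝ) ^ t * ξ) / 3 ^ n)| ≤ c)
    (hw : ∀ n', n - 2 ≤ n' → n' ≤ n → w ξ t n' ≤ B) : w ξ (t + 1) n ≤ (1 / 2 + c / 2) * B := by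
  rw [w_succ]
  have h1 := hw n (by omega) le_rfl
  have h2 := hw (n - 1) (by omega) (by omega)
  have h3 := hw (n - 2) le_rfl (by omega)
  have h4 : |Real.cos (Real.pi * ((4 : ℝ) ^ t * ξ) / 3 ^ n)| * w ξ t (n - 1) ≤ c * B :=
    mul_le_mul hcos h2 (w_nonneg _ _ _) hc
  nlinarith

/-- One Pascal step. -/
theorem bin_pascal (m : ℕ) (f : ℕ → ℝ) :
    ∑ k ∈ range (m + 2), bin (m + 1) k * f k =
      1 / 2 * ∑ k ∈ range (m + 1), bin m k * f k +
        1 / 2 * ∑ k ∈ range (m + 1), bin m k * f (k + 1) := by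
  have h0 : bin (m + 1) 0 = 1 / 2 * bin m 0 := by
    unfold bin
    rw [pow_succ]
    field_simp
    simp
  have h1 : ∀ k, bin (m + 1) (k + 1) = 1 / 2 * bin m k + 1 / 2 * bin m (k + 1) := by
    intro k
    unfold bin
    rw [pow_succ, Nat.choose_succ_succ]
    push_cast
    field_simp
  have h2 : ∑ k ∈ range (m + 2), bin m k * f k = ∑ k ∈ range (m + 1), bin m k * f k := by
    rw [Finset.sum_range_succ, bin_eq_zero (by omega : m < m + 1)]
    ring
  rw [Finset.sum_range_succ'] at h2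
  rw [Finset.sum_range_succ', h0, Finset.sum_congr rfl (fun k _ => by rw [h1 k])]
  rw [← h2, mul_add, Finset.mul_sum, Finset.mul_sum]
  have : ∀ k ∈ range (m + 1), (1 / 2 * bin m k + 1 / 2 * bin m (k + 1)) * f (k + 1) =
      1 / 2 * (bin m (k + 1) * f (k + 1)) + 1 / 2 * (bin m k * f (k + 1)) := by
    intro k _; ring
  rw [Finset.sum_congr rfl this, Finset.sum_add_distrib]
  ring

theorem w_cross (ξ : ℤ) (s h n : ℕ) :
    w ξ (s + h) n ≤ ∑ k ∈ range (2 * h + 1), bin (2 * h) k * w ξ s (n - k) := by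
  induction h generalizing n with
  | zero => simp [bin]
  | succ h ih =>
    have e : 2 * (h + 1) + 1 = (2 * h + 1) + 2 := by ring
    have e' : 2 * (h + 1) = (2 * h + 1) + 1 := by ring
    rw [e, e', bin_pascal (2 * h + 1) (fun k => w ξ s (n - k)),
      show 2 * h + 1 + 1 = 2 * h + 2 from rfl, bin_pascal (2 * h) (fun k => w ξ s (n - k)),
      bin_pascal (2 * h) (fun k => w ξ s (n - (k + 1)))]
    rw [← add_assoc, w_succ]
    have h1 := ih n
    have h2 := ih (n - 1)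
    have h3 := ih (n - 2)
    have h4 : |Real.cos (Real.pi * ((4 : ℝ) ^ (s + h) * ξ) / 3 ^ n)| * w ξ (s + h) (n - 1) ≤
        1 * w ξ (s + h) (n - 1) :=
      mul_le_mul_of_nonneg_right (Real.abs_cos_le_one _) (w_nonneg _ _ _)
    have e2 : ∀ k, n - 1 - k = n - (k + 1) := fun k => by omega
    have e3 : ∀ k, n - 2 - k = n - (k + 1 + 1) := fun k => by omega
    simp only [e2] at h2
    simp only [e3] at h3
    linarith

theorem w_short (ξ : ℤ) {t n : ℕ} (hn : 1 ≤ n) (h : 5 * (2 * t) ≤ 8 * n) :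
    w ξ t n ≤ 2 * Real.exp (-(n : ℝ) / 20) := by
  classical
  rcases Nat.eq_zero_or_pos t with ht | ht
  · subst ht
    rw [w_zero, if_neg (by omega)]
    positivity
  have h1 := w_cross ξ 0 t n
  rw [zero_add] at h1
  have hn' : (1 : ℝ) ≤ n := by exact_mod_cast hn
  have ht' : (1 : ℝ) ≤ t := by exact_mod_cast ht
  have h' : (5 : ℝ) * (2 * t) ≤ 8 * n := by exact_mod_cast h
  have h2 := bin_tail (n := 2 * t) (by omega) (x := 2 / 5 * n) (by positivity)
  refine h1.trans ?_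
  refine le_trans ?_ (h2.trans ?_)
  · rw [Finset.sum_filter]
    refine Finset.sum_le_sum fun k hk => ?_
    rw [w_zero]
    by_cases hkn : n - k = 0
    · have hk' : (n : ℝ) ≤ k := by exact_mod_cast (show n ≤ k by omega)
      rw [if_pos hkn, if_pos]
      · simp
      · push_cast
        refine le_trans ?_ (le_abs_self _)
        linarith
    · rw [if_neg hkn, mul_zero]
      split_ifs
      · exact bin_nonneg _ _
      · exact le_rfl
  · refine mul_le_mul_of_nonneg_left (Real.exp_le_exp.mpr ?_) (by norm_num)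
    push_cast
    rw [div_le_div_iff₀ (by positivity) (by norm_num)]
    nlinarith [mul_nonneg (by linarith : (0:ℝ) ≤ n) (by linarith : (0:ℝ) ≤ 8 * n - 5 * (2 * t))]

end Pool.Agent.H30.PD
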