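import Pool.Agent.H30.PD.Words
import Pool.Agent.H30.PD.WBasic

/-!
# JOB PD-EXPSUM. The majorant bounds the exponential sums

Let `S l q n = ∑_{p ∈ D l, p.1 = q} ee (ξ p.2/3^n)`. By `D_prepend` (a word of `D (l+1)` is a word of `D l` or
`(k+1, 2^l + 3c)`): `S (l+1) 0 n = S l 0 n` and, for `q ≥ 1`, `S (l+1) q n = S l q n + ee(2^l ξ/3^n) S l (q-1) (n-1)`
(`ee(ξ 3c/3^n) = ee(ξ c/3^(n-1))`; for `n = 0` all terms `ee(integer)` are `1`). Twice, with `l = 2t`, `u = 4^t ξ/3^n`: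
`S (2t+2) q n = S (2t) q n + (ee u + ee (2u)) S (2t) (q-1) (n-1) + ee(2u) ee(4^t ξ/3^(n-1)) S (2t) (q-2) (n-2)` (terms
with `q - 1 < 0`, `q - 2 < 0` absent), `‖ee u + ee (2u)‖ = 2 |cos(π u)|`. Induction on `t` with `n ≤ q` (then `n - 1 ≤ q - 1`,
`n - 2 ≤ q - 2`); `t = 0`: `D 0 = {(0,0)}`.
-/

set_option autoImplicit false

namespace Pool.Agent.H30.PD

open Finset

/-- `e^{2πix}` -/
noncomputable def ee (x : ℝ) : ℂ := Complex.exp (2 * Real.pi * x * Complex.I)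

theorem ee_add (x y : ℝ) : ee (x + y) = ee x * ee y := by
  unfold ee
  rw [← Complex.exp_add]
  congr 1
  push_cast
  ring

theorem ee_int (k : ℤ) : ee k = 1 := by
  unfold ee
  rw [Complex.exp_eq_one_iff]
  refine ⟨k, ?_⟩
  push_cast
  ring

theorem norm_ee (x : ℝ) : ‖ee x‖ = 1 := by
  unfold ee
  have h : (2 * Real.pi * x * Complex.I : ℂ) = ((2 * Real.pi * x : ℝ) : ℂ) * Complex.I := by
    push_cast; ring
  rw [h, Complex.norm_exp_ofReal_mul_I]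

theorem norm_ee_add_ee_two (u : ℝ) : ‖ee u + ee (2 * u)‖ = 2 * |Real.cos (Real.pi * u)| := by
  have h1 : ee u + ee (2 * u) = ee (3 / 2 * u) * (2 * (Real.cos (Real.pi * u) : ℂ)) := by
    have h2 : (2 * (Real.cos (Real.pi * u) : ℂ)) = ee (-(1 / 2) * u) + ee (1 / 2 * u) := by
      unfold ee
      rw [Complex.ofReal_cos, Complex.cos]
      have e1 : (2 * Real.pi * ((-(1 / 2) * u : ℝ) : ℂ) * Complex.I : ℂ) =
          -((Real.pi * u : ℝ) : ℂ) * Complex.I := by push_cast; ring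
      have e2 : (2 * Real.pi * ((1 / 2 * u : ℝ) : ℂ) * Complex.I : ℂ) =
          ((Real.pi * u : ℝ) : ℂ) * Complex.I := by push_cast; ring
      rw [e1, e2]
      ring
    rw [h2, mul_add, ← ee_add, ← ee_add]
    congr 1
    · congr 1; ring
    · congr 1; ring
  rw [h1, norm_mul, norm_ee, one_mul, norm_mul, Complex.norm_real]
  norm_num

/-- The exponential sum over the words of length `l` with `q` heads. -/
noncomputable def expSum (ξ : ℤ) (l q n : ℕ) : ℂ :=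
  ∑ p ∈ D l, if p.1 = q then ee (ξ * (p.2 : ℝ) / 3 ^ n) else 0

theorem expSum_eq (ξ : ℤ) (l q n : ℕ) :
    ∑ p ∈ (D l).filter (fun p => p.1 = q), ee (ξ * (p.2 : ℝ) / 3 ^ n) = expSum ξ l q n := by
  unfold expSum
  rw [Finset.sum_filter]

theorem expSum_zero_heads (ξ : ℤ) (l n : ℕ) : expSum ξ (l + 1) 0 n = expSum ξ l 0 n := by
  unfold expSum
  rw [D_prepend]
  have : ∑ p ∈ D l, (if (p.1 + 1, 2 ^ l + 3 * p.2).1 = 0 then
      ee (ξ * (((p.1 + 1, 2 ^ l + 3 * p.2).2 : ℕ) : ℝ) / 3 ^ n) else 0) = 0 := by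
    apply Finset.sum_eq_zero
    intro p _
    rw [if_neg (by simp)]
  rw [this, add_zero]

theorem expSum_phase (ξ : ℤ) (l c n : ℕ) :
    ee (ξ * ((2 ^ l + 3 * c : ℕ) : ℝ) / 3 ^ n) =
      ee (2 ^ l * ξ / 3 ^ n) * ee (ξ * (c : ℝ) / 3 ^ (n - 1)) := by
  rcases Nat.eq_zero_or_pos n with rfl | hn
  · have e1 : (ξ * ((2 ^ l + 3 * c : ℕ) : ℝ) / 3 ^ 0 : ℝ) = ((ξ * (2 ^ l + 3 * c) : ℤ) : ℝ) := by
      push_cast; ring
    have e2 : (2 ^ l * ξ / 3 ^ 0 : ℝ) = ((2 ^ l * ξ : ℤ) : ℝ) := by push_cast; ring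
    have e3 : (ξ * (c : ℝ) / 3 ^ (0 - 1) : ℝ) = ((ξ * c : ℤ) : ℝ) := by push_cast; simp
    rw [e1, e2, e3, ee_int, ee_int, ee_int, one_mul]
  · rw [← ee_add]
    congr 1
    obtain ⟨m, rfl⟩ : ∃ m, n = m + 1 := ⟨n - 1, by omega⟩
    rw [Nat.add_sub_cancel, pow_succ]
    push_cast
    field_simp

theorem expSum_succ (ξ : ℤ) (l q n : ℕ) :
    expSum ξ (l + 1) (q + 1) n = expSum ξ l (q + 1) n +
      ee (2 ^ l * ξ / 3 ^ n) * expSum ξ l q (n - 1) := by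
  unfold expSum
  rw [D_prepend, Finset.mul_sum]
  congr 1
  apply Finset.sum_congr rfl
  intro p _
  show (if p.1 + 1 = q + 1 then ee (ξ * ((2 ^ l + 3 * p.2 : ℕ) : ℝ) / 3 ^ n) else 0) = _
  by_cases h : p.1 = q
  · rw [if_pos (by omega), if_pos h, expSum_phase]
  · rw [if_neg (by omega), if_neg h, mul_zero]

/-- two letters at once, no head -/
theorem expSum_two_zero (ξ : ℤ) (l n : ℕ) : expSum ξ (l + 2) 0 n = expSum ξ l 0 n := by
  rw [show l + 2 = (l + 1) + 1 by ring, expSum_zero_heads, expSum_zero_heads]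

/-- two letters at once, one head -/
theorem expSum_two_one (ξ : ℤ) (l n : ℕ) :
    expSum ξ (l + 2) 1 n = expSum ξ l 1 n +
      (ee (2 ^ l * ξ / 3 ^ n) + ee (2 * (2 ^ l * ξ / 3 ^ n))) * expSum ξ l 0 (n - 1) := by
  have h1 := expSum_succ ξ (l + 1) 0 n
  have h2 := expSum_succ ξ l 0 n
  rw [expSum_zero_heads] at h1
  simp only [zero_add] at h1 h2
  rw [show l + 2 = (l + 1) + 1 by ring, h1, h2]
  have e : (2 ^ (l + 1) * ξ / 3 ^ n : ℝ) = 2 * (2 ^ l * ξ / 3 ^ n) := by rw [pow_succ]; ring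
  rw [e]
  ring

/-- two letters at once, at least two heads -/
theorem expSum_two (ξ : ℤ) (l q n : ℕ) :
    expSum ξ (l + 2) (q + 2) n = expSum ξ l (q + 2) n +
      (ee (2 ^ l * ξ / 3 ^ n) + ee (2 * (2 ^ l * ξ / 3 ^ n))) * expSum ξ l (q + 1) (n - 1) +
      ee (2 * (2 ^ l * ξ / 3 ^ n)) * ee (2 ^ l * ξ / 3 ^ (n - 1)) * expSum ξ l q (n - 2) := by
  rw [show l + 2 = (l + 1) + 1 by ring, show q + 2 = (q + 1) + 1 by ring, expSum_succ,
    expSum_succ, expSum_succ]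
  have e : (2 ^ (l + 1) * ξ / 3 ^ n : ℝ) = 2 * (2 ^ l * ξ / 3 ^ n) := by rw [pow_succ]; ring
  have e2 : n - 1 - 1 = n - 2 := by omega
  rw [e, e2]
  ring

theorem expSum_bound (ξ : ℤ) (t : ℕ) : ∀ q n : ℕ, n ≤ q →
    ‖expSum ξ (2 * t) q n‖ ≤ 4 ^ t * w ξ t n := by
  induction t with
  | zero =>
    intro q n h
    unfold expSum
    simp only [D, Finset.sum_singleton, w, pow_zero, one_mul]
    by_cases hq : 0 = q
    · subst hq
      have hn : n = 0 := by omega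
      subst hn
      rw [if_pos rfl, if_pos rfl, norm_ee]
    · rw [if_neg hq, norm_zero]
      split_ifs <;> norm_num
  | succ t ih =>
    intro q n h
    have e4 : (4 : ℝ) ^ t = 2 ^ (2 * t) := by rw [pow_mul]; norm_num
    have hcos : ‖ee (2 ^ (2 * t) * ξ / 3 ^ n) + ee (2 * (2 ^ (2 * t) * ξ / 3 ^ n))‖ =
        2 * |Real.cos (Real.pi * ((4 : ℝ) ^ t * ξ) / 3 ^ n)| := by
      rw [norm_ee_add_ee_two, e4]
      congr 3
      ring
    rw [show 2 * (t + 1) = 2 * t + 2 by ring]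
    have hw : w ξ (t + 1) n = 1 / 4 * w ξ t n +
      1 / 2 * |Real.cos (Real.pi * ((4 : ℝ) ^ t * ξ) / 3 ^ n)| * w ξ t (n - 1) +
      1 / 4 * w ξ t (n - 2) := rfl
    rw [hw, pow_succ]
    set C := |Real.cos (Real.pi * ((4 : ℝ) ^ t * ξ) / 3 ^ n)| with hC
    have hC0 : 0 ≤ C := abs_nonneg _
    have w0 := w_nonneg ξ t n
    have w1 := w_nonneg ξ t (n - 1)
    have w2 := w_nonneg ξ t (n - 2)
    have h4 : (0 : ℝ) < 4 ^ t := by positivity
    have hgoal : 4 ^ t * 4 * (1 / 4 * w ξ t n + 1 / 2 * C * w ξ t (n - 1) + 1 / 4 * w ξ t (n - 2)) =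
        4 ^ t * w ξ t n + 2 * C * (4 ^ t * w ξ t (n - 1)) + 4 ^ t * w ξ t (n - 2) := by ring
    rw [hgoal]
    rcases q with _ | _ | q
    · rw [expSum_two_zero]
      have := ih 0 n h
      have h5 : 0 ≤ 2 * C * (4 ^ t * w ξ t (n - 1)) := by positivity
      have h6 : 0 ≤ 4 ^ t * w ξ t (n - 2) := by positivity
      linarith
    · rw [zero_add, expSum_two_one]
      have a1 := ih 1 n (by omega)
      have a2 := ih 0 (n - 1) (by omega)
      have h6 : 0 ≤ 4 ^ t * w ξ t (n - 2) := by positivity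
      have h7 := norm_add_le (expSum ξ (2 * t) 1 n)
        ((ee (2 ^ (2 * t) * ξ / 3 ^ n) + ee (2 * (2 ^ (2 * t) * ξ / 3 ^ n))) *
          expSum ξ (2 * t) 0 (n - 1))
      rw [norm_mul, hcos] at h7
      have h8 : 2 * C * ‖expSum ξ (2 * t) 0 (n - 1)‖ ≤ 2 * C * (4 ^ t * w ξ t (n - 1)) :=
        mul_le_mul_of_nonneg_left a2 (by positivity)
      linarith
    · rw [show q + 1 + 1 = q + 2 by ring, expSum_two]
      have a1 := ih (q + 2) n (by omega)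
      have a2 := ih (q + 1) (n - 1) (by omega)
      have a3 := ih q (n - 2) (by omega)
      have h7 := norm_add₃_le (a := expSum ξ (2 * t) (q + 2) n)
        (b := (ee (2 ^ (2 * t) * ξ / 3 ^ n) + ee (2 * (2 ^ (2 * t) * ξ / 3 ^ n))) *
          expSum ξ (2 * t) (q + 1) (n - 1))
        (c := ee (2 * (2 ^ (2 * t) * ξ / 3 ^ n)) * ee (2 ^ (2 * t) * ξ / 3 ^ (n - 1)) *
          expSum ξ (2 * t) q (n - 2))
      rw [norm_mul, hcos, norm_mul, norm_mul, norm_ee, norm_ee, one_mul, one_mul] at h7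
      have h8 : 2 * C * ‖expSum ξ (2 * t) (q + 1) (n - 1)‖ ≤ 2 * C * (4 ^ t * w ξ t (n - 1)) :=
        mul_le_mul_of_nonneg_left a2 (by positivity)
      linarith

theorem exp_sum (ξ : ℤ) (t q n : ℕ) (h : n ≤ q) :
    ‖∑ p ∈ (D (2 * t)).filter (fun p => p.1 = q), ee (ξ * (p.2 : ℝ) / 3 ^ n)‖ ≤
      4 ^ t * w ξ t n := by
  rw [expSum_eq]
  exact expSum_bound ξ t q n h

end Pool.Agent.H30.PD
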