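import Pool.Agent.H30.PD.Long

/-!
# JOB PD-FD. Fourier decay

Proof. Let `gam < 1`. Choose `e1 > 0` and `n1` with `gam * (n/(n - 2h - 2))^A ≤ 1` for `n ≥ n1`, `h ≤ e1 n`; `n0` from
`long_cross` for `e1`; `N = max n0 n1 …`; `C ≥ 1`, `C ≥ N^A`, and `2 exp(-n/20) n^A ≤ C` for all `n`.
Strong induction on `n`, inner strong induction on `t`: `w ξ t n ≤ C/n^A` for `n ≥ 1`.
* `n < N`: `w ≤ 1 ≤ C/n^A`.
* `t = 0`: `w = 0`.
* not tiny at `(t, n)`: `stage_white` with `B = C/(n-2)^A` (levels `< n`: outer hypothesis; level `n` at time `t - 1`: inner one).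
* tiny: `exists_height` gives `h`, `K₁`. If `t ≤ h`: `2t ≤ 2h`, `5 (2h) ≤ 8 n` (`height_le`), `w_short`.
  If `t > h` and `h ≤ e1 n`: `stage_tiny` with `s = t - h - 1`, `B = C/(n-2h-2)^A`. If `t > h` and `h > e1 n`: `long_cross` with
  `s = t - h`.
-/

set_option autoImplicit false

namespace Pool.Agent.H30.PD

open Finset

/-- `n^A exp(-n/20)` is bounded. -/
private lemma pow_mul_exp_le (A n : ℕ) :
    2 * Real.exp (-(n : ℝ) / 20) * (n : ℝ) ^ A ≤ 2 * 20 ^ A * (A.factorial : ℝ) := by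
  have h1 := Real.pow_div_factorial_le_exp ((n : ℝ) / 20) (by positivity) A
  have hf : (0 : ℝ) < A.factorial := by exact_mod_cast A.factorial_pos
  rw [div_le_iff₀ hf, div_pow, div_le_iff₀ (by positivity)] at h1
  have h2 : Real.exp (-(n : ℝ) / 20) * Real.exp ((n : ℝ) / 20) = 1 := by
    rw [← Real.exp_add]; simp; ring
  have h3 : 0 < Real.exp (-(n : ℝ) / 20) := Real.exp_pos _
  calc 2 * Real.exp (-(n : ℝ) / 20) * (n : ℝ) ^ A
      ≤ 2 * Real.exp (-(n : ℝ) / 20) *
        (Real.exp ((n : ℝ) / 20) * (A.factorial : ℝ) * 20 ^ A) := by gcongr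
    _ = 2 * 20 ^ A * (A.factorial : ℝ) *
        (Real.exp (-(n : ℝ) / 20) * Real.exp ((n : ℝ) / 20)) := by ring
    _ = 2 * 20 ^ A * (A.factorial : ℝ) := by rw [h2, mul_one]

/-- The gain of one stage beats the loss of level. -/
private lemma gain {A n m : ℕ} {e1 C : ℝ} (hC : 0 ≤ C) (he : 0 ≤ 1 - 3 * e1)
    (hg : gam ≤ (1 - 3 * e1) ^ A) (hm : 1 ≤ m) (hn : 1 ≤ n) (h : (1 - 3 * e1) * n ≤ m) :
    gam * (C / (m : ℝ) ^ A) ≤ C / (n : ℝ) ^ A := by
  have hm' : (0 : ℝ) < m := by exact_mod_cast hm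
  have hn' : (0 : ℝ) < n := by exact_mod_cast hn
  have h1 : gam * (n : ℝ) ^ A ≤ (m : ℝ) ^ A :=
    calc gam * (n : ℝ) ^ A ≤ (1 - 3 * e1) ^ A * (n : ℝ) ^ A := by gcongr
      _ = ((1 - 3 * e1) * n) ^ A := by rw [mul_pow]
      _ ≤ (m : ℝ) ^ A := by gcongr
  rw [← mul_div_assoc, div_le_div_iff₀ (by positivity) (by positivity)]
  calc gam * C * (n : ℝ) ^ A = C * (gam * (n : ℝ) ^ A) := by ring
    _ ≤ C * (m : ℝ) ^ A := by gcongr

theorem fourier_decay (A : ℕ) : ∃ C : ℝ, 0 < C ∧ ∀ ξ : ℤ, ¬ (3 : ℤ) ∣ ξ → ∀ t n : ℕ, 1 ≤ n →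
    w ξ t n ≤ C / (n : ℝ) ^ A := by
  have hg1 := gam_lt_one
  have hg0 := gam_pos
  obtain ⟨e1, he1⟩ : ∃ e1 : ℝ, e1 = (1 - gam) / (3 * ((A : ℝ) + 1)) := ⟨_, rfl⟩
  have hA : (0 : ℝ) < (A : ℝ) + 1 := by positivity
  have he0 : 0 < e1 := by rw [he1]; apply div_pos <;> linarith
  have he3 : 3 * e1 * ((A : ℝ) + 1) = 1 - gam := by rw [he1]; field_simp
  have he31 : 3 * e1 < 1 := by
    have : 3 * e1 * 1 ≤ 3 * e1 * ((A : ℝ) + 1) := by
      apply mul_le_mul_of_nonneg_left _ (by positivity)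
      linarith [Nat.cast_nonneg (α := ℝ) A]
    linarith
  have hgA : gam ≤ (1 - 3 * e1) ^ A := by
    have h1 := one_add_mul_le_pow (a := -(3 * e1)) (by linarith) A
    have h2 : 1 + -(3 * e1) = 1 - 3 * e1 := by ring
    rw [h2] at h1
    nlinarith
  obtain ⟨n0, hn0⟩ := long_cross A he0
  obtain ⟨n1, hn1⟩ := exists_nat_ge (2 / e1)
  obtain ⟨N, hN⟩ : ∃ N : ℕ, N = max n0 (max n1 1) := ⟨_, rfl⟩
  have hNn0 : n0 ≤ N := by rw [hN]; exact le_max_left _ _
  have hNn1 : n1 ≤ N := by rw [hN]; exact le_trans (le_max_left _ _) (le_max_right _ _)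
  obtain ⟨C, hC⟩ : ∃ C : ℝ, C = 1 + (N : ℝ) ^ A + 2 * 20 ^ A * (A.factorial : ℝ) := ⟨_, rfl⟩
  have hp1 : (0 : ℝ) ≤ (N : ℝ) ^ A := by positivity
  have hp2 : (0 : ℝ) ≤ 2 * 20 ^ A * (A.factorial : ℝ) := by positivity
  have hC1 : 1 ≤ C := by linarith
  have hC0 : 0 < C := by linarith
  refine ⟨C, hC0, fun ξ hξ => ?_⟩
  have key : ∀ n : ℕ, 1 ≤ n → ∀ t, w ξ t n ≤ C / (n : ℝ) ^ A := by
    intro n
    induction n using Nat.strong_induction_on with
    | _ n ihn =>
    intro hn t
    have hn' : (0 : ℝ) < n := by exact_mod_cast hn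
    induction t using Nat.strong_induction_on with
    | _ t iht =>
    by_cases hnN : n < N
    · refine (w_le_one ξ t n).trans ?_
      rw [le_div_iff₀ (by positivity), one_mul]
      have : (n : ℝ) ^ A ≤ (N : ℝ) ^ A := by
        have : (n : ℝ) ≤ N := by exact_mod_cast hnN.le
        gcongr
      linarith
    have hnN' : N ≤ n := not_lt.1 hnN
    have hne : 2 ≤ e1 * n := by
      have h1 : 2 / e1 ≤ n := hn1.trans (by exact_mod_cast hNn1.trans hnN')
      rw [div_le_iff₀ he0] at h1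
      linarith
    rcases t with _ | t
    · have : w ξ 0 n = 0 := by
        have : n ≠ 0 := by omega
        simp [w, this]
      rw [this]; positivity
    by_cases hT : Tiny ξ (t + 1) n
    · obtain ⟨h, K₁, hK, h4⟩ := exists_height hξ (t + 1) hn
      have hK0 : K₁ ≠ 0 := by
        rintro rfl
        exact h4 (dvd_zero 4)
      by_cases hth : t + 1 ≤ h
      · have h5 := height_le hK hK0
        refine (w_short ξ hn (by omega)).trans ?_
        rw [le_div_iff₀ (by positivity)]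
        refine (pow_mul_exp_le A n).trans ?_
        linarith
      by_cases hhe : (h : ℝ) ≤ e1 * n
      · obtain ⟨s, rfl⟩ : ∃ s, t = s + h := ⟨t - h, by omega⟩
        have hst : s + h + 1 = s + 1 + h := by ring
        rw [hst] at hT hK ⊢
        have hlt : 2 * h + 2 < n := by
          have : (2 * h + 2 : ℝ) < n := by nlinarith
          exact_mod_cast this
        obtain ⟨m, hm⟩ : ∃ m, m = n - 2 * h - 2 := ⟨_, rfl⟩
        have hm1 : 1 ≤ m := by omega
        have hmn : (m : ℝ) = n - 2 * h - 2 := by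
          have : m + 2 * h + 2 = n := by omega
          have h7 : ((m + 2 * h + 2 : ℕ) : ℝ) = n := by exact_mod_cast this
          push_cast at h7
          linarith
        have hB : 0 ≤ C / (m : ℝ) ^ A := by positivity
        have hmono : ∀ n', m ≤ n' → C / (n' : ℝ) ^ A ≤ C / (m : ℝ) ^ A := by
          intro n' hn'
          have h6 : (m : ℝ) ≤ n' := by exact_mod_cast hn'
          have h8 : (0 : ℝ) < m := by exact_mod_cast hm1
          gcongr
        refine (stage_tiny hlt hT hK h4 hB ?_ ?_).trans ?_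
        · intro n' h1 h2
          rw [← hm] at h1
          refine le_trans ?_ (hmono n' h1)
          rcases Nat.lt_or_ge n' n with h3 | h3
          · exact ihn n' h3 (by omega) s
          · have : n' = n := by omega
            subst this
            exact iht s (by omega)
        · intro n' h1 h2
          rw [← hm] at h1
          exact (ihn n' h2 (by omega) _).trans (hmono n' h1)
        · apply gain hC0.le (by linarith) hgA hm1 hn
          rw [hmn]; nlinarith
      · obtain ⟨s, hs⟩ : ∃ s, t + 1 = s + h := ⟨t + 1 - h, by omega⟩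
        rw [hs] at hT hK ⊢
        exact hn0 n (hNn0.trans hnN') C hC1 ξ hξ s h K₁ hT hK h4 (not_le.1 hhe)
          (fun n' h1 h2 t' => ihn n' h1 h2 t')
    · have h3n : 3 ≤ n := by
        have : (2 : ℝ) < n := by nlinarith
        exact_mod_cast this
      obtain ⟨m, hm⟩ : ∃ m, m = n - 2 := ⟨_, rfl⟩
      have hm1 : 1 ≤ m := by omega
      have hmn : (m : ℝ) = n - 2 := by
        have : m + 2 = n := by omega
        have h7 : ((m + 2 : ℕ) : ℝ) = n := by exact_mod_cast this
        push_cast at h7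
        linarith
      have hB : 0 ≤ C / (m : ℝ) ^ A := by positivity
      refine (stage_white hT hB ?_).trans ?_
      · intro n' h1 h2
        rw [← hm] at h1
        have h6 : C / (n' : ℝ) ^ A ≤ C / (m : ℝ) ^ A := by
          have h6 : (m : ℝ) ≤ n' := by exact_mod_cast h1
          have h8 : (0 : ℝ) < m := by exact_mod_cast hm1
          gcongr
        refine le_trans ?_ h6
        rcases Nat.lt_or_ge n' n with h3 | h3
        · exact ihn n' h3 (by omega) t
        · have : n' = n := by omega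
          subst this
          exact iht t (by omega)
      · apply gain hC0.le (by linarith) hgA hm1 hn
        rw [hmn]; nlinarith
  intro t n hn
  exact key n hn t

end Pool.Agent.H30.PD
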