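import Pool.Agent.H30.PD.Count

/-!
# Consequences of the uniform positive density

Divergent trajectories and the trajectory of `1`.
-/

set_option autoImplicit false

namespace Pool.Agent.H30.PD

open Finset Filter

private theorem fin_set (x : ℝ) (P : ℤ → Prop) : {n : ℤ | |(n : ℝ)| ≤ x ∧ P n}.Finite := by
  refine (Set.finite_Icc (-⌈x⌉) ⌈x⌉).subset ?_
  rintro n ⟨hn, -⟩
  have h := abs_le.1 hn
  have h2 : x ≤ (⌈x⌉ : ℝ) := Int.le_ceil x
  constructor
  · have : -((⌈x⌉ : ℤ) : ℝ) ≤ (n : ℝ) := by linarith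
    exact_mod_cast this
  · have : (n : ℝ) ≤ ((⌈x⌉ : ℤ) : ℝ) := by linarith
    exact_mod_cast this

theorem card_mono' (x : ℝ) {P Q : ℤ → Prop} (h : ∀ n, P n → Q n) :
    (Nat.card {n : ℤ | |(n : ℝ)| ≤ x ∧ P n} : ℝ) ≤
      (Nat.card {n : ℤ | |(n : ℝ)| ≤ x ∧ Q n} : ℝ) := by
  have hf := fin_set x Q
  have hs : {n : ℤ | |(n : ℝ)| ≤ x ∧ P n} ⊆ {n : ℤ | |(n : ℝ)| ≤ x ∧ Q n} :=
    fun n hn => ⟨hn.1, h n hn.2⟩
  exact_mod_cast Nat.card_mono hf hs

/-- A divergent trajectory contains a term not divisible by `3`. -/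
theorem div_term {n₀ : ℤ} (h₀ : Tendsto (fun k : ℕ => |T^[k] n₀|) atTop atTop) :
    ∃ k : ℕ, ¬ (3 : ℤ) ∣ T^[k] n₀ := by
  obtain ⟨k, hk⟩ : ∃ k : ℕ, T^[k] n₀ % 2 ≠ 0 := by
    by_contra hcon
    push Not at hcon
    have hle : ∀ k : ℕ, |T^[k] n₀| ≤ |n₀| := by
      intro k
      induction k with
      | zero => simp
      | succ k ih =>
        rw [Function.iterate_succ_apply']
        have h1 := hcon k
        have h2 : T (T^[k] n₀) = T^[k] n₀ / 2 := by
          unfold T; rw [if_pos]; exact h1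
        rw [h2]
        refine le_trans ?_ ih
        set z := T^[k] n₀
        have : |z / 2| ≤ |z| := by
          rw [abs_le]
          constructor
          · rcases abs_cases z with h | h <;> omega
          · rcases abs_cases z with h | h <;> omega
        exact this
    obtain ⟨k, hk⟩ := (h₀.eventually_gt_atTop |n₀|).exists
    exact absurd (hle k) (not_le.2 hk)
  refine ⟨k + 1, ?_⟩
  rw [Function.iterate_succ_apply']
  set m := T^[k] n₀ with hm
  have ha1 : T m = (3 * m + 1) / 2 := by unfold T; rw [if_neg hk]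
  rw [ha1]
  omega

theorem div_density (n₀ : ℤ) (h₀ : Tendsto (fun k : ℕ => |T^[k] n₀|) atTop atTop) :
    ∃ c : ℝ, 0 < c ∧ ∀ᶠ x : ℝ in atTop,
      c * x ≤ (Nat.card {n : ℤ | |(n : ℝ)| ≤ x ∧
        Tendsto (fun k : ℕ => |T^[k] n|) atTop atTop} : ℝ) := by
  obtain ⟨c, C, hc, hC, h⟩ := dens
  obtain ⟨k, hk⟩ := div_term h₀
  set a := T^[k] n₀ with ha
  have ha0 : a ≠ 0 := by
    intro h0
    rw [h0] at hk
    exact hk (dvd_zero _)
  have ha1 : 0 < |(a : ℝ)| := abs_pos.2 (by exact_mod_cast ha0)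
  refine ⟨c / |(a : ℝ)|, div_pos hc ha1, ?_⟩
  filter_upwards [eventually_ge_atTop (C * |(a : ℝ)|)] with x hx
  have h1 := h a hk x hx
  have h2 : c / |(a : ℝ)| * x = c * x / |(a : ℝ)| := by ring
  rw [h2]
  refine h1.trans (card_mono' x ?_)
  rintro n ⟨i, hi⟩
  have h3 : Tendsto (fun l : ℕ => |T^[l] a|) atTop atTop := by
    have h4 : (fun l : ℕ => |T^[l] a|) = fun l : ℕ => |T^[l + k] n₀| := by
      funext l
      rw [ha, ← Function.iterate_add_apply]
    rw [h4]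
    exact (tendsto_add_atTop_iff_nat (f := fun l : ℕ => |T^[l] n₀|) k).2 h₀
  have h5 : (fun l : ℕ => |T^[l] a|) = fun l : ℕ => |T^[l + i] n| := by
    funext l
    rw [← hi, ← Function.iterate_add_apply]
  rw [h5] at h3
  exact (tendsto_add_atTop_iff_nat (f := fun l : ℕ => |T^[l] n|) i).1 h3

private theorem T_pos_iff (n : ℤ) : 0 < T n ↔ 0 < n := by
  unfold T
  split_ifs with h <;> omega

private theorem iter_pos_iff (n : ℤ) (k : ℕ) : 0 < T^[k] n ↔ 0 < n := by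
  induction k with
  | zero => simp
  | succ k ih => rw [Function.iterate_succ_apply', T_pos_iff, ih]

/-- A positive proportion of the positive integers has a given positive `a` in its trajectory. -/
theorem pos_density : ∃ c C : ℝ, 0 < c ∧ 0 < C ∧ ∀ a : ℕ, ¬ 3 ∣ a → ∀ x : ℝ, C * a ≤ x →
      c * x / a ≤ (Nat.card {n : ℕ | 1 ≤ n ∧ (n : ℝ) ≤ x ∧ ∃ k : ℕ, T^[k] (n : ℤ) = a} : ℝ) := by
  obtain ⟨c, C, hc, hC, h⟩ := dens
  refine ⟨c, C, hc, hC, fun a ha x hx => ?_⟩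
  have ha' : ¬ (3 : ℤ) ∣ (a : ℤ) := by
    intro h'; exact ha (by exact_mod_cast h')
  have ha0 : 0 < a := by
    rcases Nat.eq_zero_or_pos a with h0 | h0
    · exact absurd (h0 ▸ dvd_zero 3) ha
    · exact h0
  have habs : |((a : ℤ) : ℝ)| = a := by
    rw [Int.cast_natCast]; exact abs_of_nonneg (Nat.cast_nonneg a)
  have h1 := h a ha' x (by rw [habs]; exact hx)
  rw [habs] at h1
  refine h1.trans (le_of_eq ?_)
  congr 1
  symm
  refine Nat.card_congr ?_
  refine ⟨fun n => ⟨(n.1 : ℤ), ?_⟩, fun n => ⟨n.1.toNat, ?_⟩, ?_, ?_⟩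
  · obtain ⟨h2, h3, h4⟩ := n.2
    refine ⟨?_, h4⟩
    rw [Int.cast_natCast, abs_of_nonneg (Nat.cast_nonneg _)]
    exact h3
  · obtain ⟨h2, k, hk⟩ := n.2
    have hpos : 0 < n.1 := by
      rw [← iter_pos_iff n.1 k, hk]
      exact_mod_cast ha0
    have htn : (n.1.toNat : ℤ) = n.1 := Int.toNat_of_nonneg hpos.le
    refine ⟨by omega, ?_, k, ?_⟩
    · have h3 : ((n.1.toNat : ℕ) : ℝ) = (n.1 : ℝ) := by
        rw [← Int.cast_natCast, htn]
      rw [h3]
      exact (le_abs_self _).trans h2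
    · rw [htn]; exact hk
  · intro n
    apply Subtype.ext
    simp
  · intro n
    obtain ⟨h2, k, hk⟩ := n.2
    have hpos : 0 < n.1 := by
      rw [← iter_pos_iff n.1 k, hk]
      exact_mod_cast ha0
    apply Subtype.ext
    simpa using hpos.le

/-- The preimages of `a` have the sign of `a`, and are divergent if `a` is. -/
theorem dens_full : ∃ c C : ℝ, 0 < c ∧ 0 < C ∧ ∀ a : ℤ, ¬ (3 : ℤ) ∣ a → ∀ x : ℝ,
    C * |(a : ℝ)| ≤ x → c * x / |(a : ℝ)| ≤
      (Nat.card {n : ℤ | |(n : ℝ)| ≤ x ∧ (∃ k : ℕ, T^[k] n = a) ∧ (0 < n ↔ 0 < a) ∧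
        (Tendsto (fun j : ℕ => |T^[j] a|) atTop atTop →
          Tendsto (fun j : ℕ => |T^[j] n|) atTop atTop)} : ℝ) := by
  obtain ⟨c, C, hc, hC, h⟩ := dens
  refine ⟨c, C, hc, hC, fun a ha x hx => (h a ha x hx).trans (card_mono' x ?_)⟩
  rintro n ⟨k, hk⟩
  refine ⟨⟨k, hk⟩, ?_, fun hd => ?_⟩
  · rw [← iter_pos_iff n k, hk]
  · have h5 : (fun l : ℕ => |T^[l] a|) = fun l : ℕ => |T^[l + k] n| := by
      funext l
      rw [← hk, ← Function.iterate_add_apply]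
    rw [h5] at hd
    exact (tendsto_add_atTop_iff_nat (f := fun l : ℕ => |T^[l] n|) k).1 hd

end Pool.Agent.H30.PD
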