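import Pool.Agent.H30.PD.StepB

/-!
# JOB PD-ITERA. Accumulated error

`scl l0 0 = l0`, `scl l0 (i+1) = nxt (scl l0 i)`.

`iter_err` : Let `l_i = scl l0 i` and `σ_i = ∑_{i' < i} (Λ+2)/l_{i'}^3`. For all `i` there is `E ≥ 0` with `cv (AA Λ y l0) (l_i - l0) k - E k ≤ AA Λ y l_i k`,
`∑ E ≤ σ_i`, and `E k ≤ 12 σ_i/√l_i`. Induction: `i = 0`: `E = 0` (`bin 0 0 = 1`). Step: `E' = cv E (l_{i+1} - l_i) + err` with `err` from `st2`
(`cv (cv f M) M' = cv f (M + M')` by `bin_add`, `cv` is monotone and additive); `∑ cv E M ≤ ∑ E` (`sum_bin_le`); `cv E M k ≤ (∑ E)/√M`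
(`bin_le`), `M = l_{i+1} - l_i ≥ l_i/112` (`nxt_spec`), so `1/√M ≤ 11/√l_i`; `err k ≤ ∑ err ≤ (Λ+2)/l_i^4 ≤ ((Λ+2)/l_i^3)/√l_i`. So
`E' k ≤ 11 σ_{i+1}/√l_i ≤ 12 σ_{i+1}/√l_{i+1}`.
`σ_i ≤ 200 (Λ+2)/l0^3`: `l_{i+1} ≥ (1 + 1/112) l_i`, geometric series with ratio `(112/113)^3` (`1/(1-(112/113)^3) ≤ 39`).
So `E k ≤ 2400 (Λ+2)/(l0^3 √l_i)`.
-/

set_option autoImplicit false

namespace Pool.Agent.H30.PD

open Finset

/-- the scales -/
def scl (l0 : ℕ) : ℕ → ℕ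
  | 0 => l0
  | i + 1 => nxt (scl l0 i)

theorem cv_cv (f : ℕ → ℝ) (M M' k : ℕ) : cv (cv f M) M' k = cv f (M + M') k := by
  unfold cv
  simp only [Finset.sum_mul]
  rw [Finset.sum_comm' (t' := range (k + 1)) (s' := fun j => Finset.Ico j (k + 1))]
  · refine Finset.sum_congr rfl fun j hj => ?_
    rw [Finset.mem_range] at hj
    rw [Finset.sum_Ico_eq_sum_range, bin_add, Finset.mul_sum,
      show k + 1 - j = k - j + 1 by omega]
    refine Finset.sum_congr rfl fun i hi => ?_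
    rw [Finset.mem_range] at hi
    rw [show j + i - j = i by omega, show k - (j + i) = k - j - i by omega, mul_assoc]
  · intro x y
    simp only [Finset.mem_range, Finset.mem_Ico]
    omega

theorem cv_mono {f g : ℕ → ℝ} (h : ∀ k, f k ≤ g k) (M k : ℕ) : cv f M k ≤ cv g M k := by
  unfold cv
  exact Finset.sum_le_sum fun i _ => mul_le_mul_of_nonneg_right (h i) (bin_nonneg _ _)

theorem cv_le_sqrt {f : ℕ → ℝ} (h : ∀ k, 0 ≤ f k) {M : ℕ} (hM : 1 ≤ M) {σ : ℝ}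
    (hσ : ∀ m, ∑ k ∈ range m, f k ≤ σ) (k : ℕ) : cv f M k ≤ σ / Real.sqrt M := by
  unfold cv
  calc ∑ k' ∈ range (k + 1), f k' * bin M (k - k')
      ≤ ∑ k' ∈ range (k + 1), f k' * (1 / Real.sqrt M) :=
        Finset.sum_le_sum fun i _ => mul_le_mul_of_nonneg_left (bin_le hM _) (h i)
    _ = (∑ k' ∈ range (k + 1), f k') * (1 / Real.sqrt M) := by rw [Finset.sum_mul]
    _ ≤ σ * (1 / Real.sqrt M) :=
        mul_le_mul_of_nonneg_right (hσ _) (by positivity)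
    _ = σ / Real.sqrt M := by ring

theorem sum_cv_le {f : ℕ → ℝ} (h : ∀ k, 0 ≤ f k) (M : ℕ) {σ : ℝ}
    (hσ : ∀ m, ∑ k ∈ range m, f k ≤ σ) (m : ℕ) : ∑ k ∈ range m, cv f M k ≤ σ := by
  unfold cv
  rw [Finset.sum_comm' (t' := range m) (s' := fun j => Finset.Ico j m)]
  · refine le_trans (Finset.sum_le_sum fun j hj => ?_) (hσ m)
    rw [← Finset.mul_sum, Finset.sum_Ico_eq_sum_range]
    have h1 : ∑ i ∈ range (m - j), bin M (j + i - j) ≤ 1 := by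
      refine le_trans (le_of_eq ?_) (sum_bin_le M (m - j))
      refine Finset.sum_congr rfl fun i _ => ?_
      rw [show j + i - j = i by omega]
    calc f j * ∑ i ∈ range (m - j), bin M (j + i - j) ≤ f j * 1 :=
          mul_le_mul_of_nonneg_left h1 (h j)
      _ = f j := mul_one _
  · intro x y
    simp only [Finset.mem_range, Finset.mem_Ico]
    omega

theorem scl_le (l0 i : ℕ) (h : 5000 ≤ l0) : l0 ≤ scl l0 i ∧ scl l0 i ≤ scl l0 (i + 1) ∧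
    100 * scl l0 (i + 1) ≤ 101 * scl l0 i ∧ l0 + i ≤ scl l0 i := by
  have key : l0 + i ≤ scl l0 i := by
    induction i with
    | zero => exact le_refl _
    | succ i ih =>
      have h5 : 5000 ≤ scl l0 i := by omega
      have h6 := nxt_spec h5
      have h7 : scl l0 (i + 1) = nxt (scl l0 i) := rfl
      rw [h7]
      omega
  have h5 : 5000 ≤ scl l0 i := by omega
  have h6 := nxt_spec h5
  have h7 : scl l0 (i + 1) = nxt (scl l0 i) := rfl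
  rw [h7]
  refine ⟨by omega, h6.1, h6.2.1, key⟩

/-- the invariant -/
def IterA_P (Λ : ℝ) (y : ℤ) (l0 i : ℕ) (σ : ℝ) : Prop :=
  ∃ E : ℕ → ℝ, (∀ k, 0 ≤ E k) ∧
    (∀ k, cv (AA Λ y l0) (scl l0 i - l0) k - E k ≤ AA Λ y (scl l0 i) k) ∧
    (∀ m, ∑ k ∈ range m, E k ≤ σ) ∧ ∀ k, E k ≤ 12 * σ / Real.sqrt (scl l0 i)

theorem IterA_cv_zero (f : ℕ → ℝ) (k : ℕ) : cv f 0 k = f k := by
  unfold cv
  rw [Finset.sum_eq_single k]
  · simp [bin]
  · intro b hb hbk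
    rw [Finset.mem_range] at hb
    rw [bin_eq_zero (show 0 < k - b by omega), mul_zero]
  · intro hk
    exact absurd (Finset.mem_range.mpr (Nat.lt_succ_self k)) hk

theorem IterA_cv_add (f g : ℕ → ℝ) (M k : ℕ) : cv (fun k => f k + g k) M k =
    cv f M k + cv g M k := by
  unfold cv
  rw [← Finset.sum_add_distrib]
  exact Finset.sum_congr rfl fun i _ => by ring

theorem IterA_cv_nonneg {f : ℕ → ℝ} (h : ∀ k, 0 ≤ f k) (M k : ℕ) : 0 ≤ cv f M k := by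
  unfold cv
  exact Finset.sum_nonneg fun i _ => mul_nonneg (h i) (bin_nonneg _ _)

theorem IterA_step {Λ : ℝ} (hΛ : 0 ≤ Λ) {y : ℤ} {l0 i : ℕ} (h : 5000 ≤ l0) {σ : ℝ}
    (hσ : 0 ≤ σ) (hP : IterA_P Λ y l0 i σ)
    (hst : ∃ err : ℕ → ℝ, (∀ k, 0 ≤ err k) ∧
      (∀ k, cv (AA Λ y (scl l0 i)) (nxt (scl l0 i) - scl l0 i) k - err k ≤
        AA Λ y (nxt (scl l0 i)) k) ∧
      ∀ m, ∑ k ∈ range m, err k ≤ (Λ + 2) / (scl l0 i : ℝ) ^ 4) :
    IterA_P Λ y l0 (i + 1) (σ + (Λ + 2) / (scl l0 i : ℝ) ^ 3) := by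
  obtain ⟨E, hE0, hE1, hE2, hE3⟩ := hP
  obtain ⟨err, he0, he1, he2⟩ := hst
  have hs := scl_le l0 i h
  have h5 : 5000 ≤ scl l0 i := by omega
  have h6 := nxt_spec h5
  have h7 : scl l0 (i + 1) = nxt (scl l0 i) := rfl
  rw [← h7] at he1 h6
  set l := scl l0 i with hl
  set l' := scl l0 (i + 1) with hl'
  have hM : 1 ≤ l' - l := by omega
  have hlR : (5000 : ℝ) ≤ (l : ℝ) := by exact_mod_cast h5
  have hlpos : (0 : ℝ) < (l : ℝ) := by linarith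
  have h43 : (Λ + 2) / (l : ℝ) ^ 4 ≤ (Λ + 2) / (l : ℝ) ^ 3 :=
    div_le_div_of_nonneg_left (by linarith) (by positivity)
      (pow_le_pow_right₀ (by linarith) (by norm_num))
  have hl'pos : (0 : ℝ) < (l' : ℝ) := by
    have : 0 < l' := by omega
    exact_mod_cast this
  have hsq' : 0 < Real.sqrt (l' : ℝ) := Real.sqrt_pos.mpr hl'pos
  have herr : ∀ k, err k ≤ (Λ + 2) / (l : ℝ) ^ 4 := by
    intro k
    refine le_trans ?_ (he2 (k + 1))
    exact Finset.single_le_sum (fun i _ => he0 i) (Finset.mem_range.mpr (Nat.lt_succ_self k))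
  refine ⟨fun k => cv E (l' - l) k + err k, ?_, ?_, ?_, ?_⟩
  · intro k
    exact add_nonneg (IterA_cv_nonneg hE0 _ _) (he0 k)
  · intro k
    have h1 : cv (AA Λ y l0) (l' - l0) k = cv (cv (AA Λ y l0) (l - l0)) (l' - l) k := by
      rw [cv_cv, show l - l0 + (l' - l) = l' - l0 by omega]
    have h2 : cv (cv (AA Λ y l0) (l - l0)) (l' - l) k ≤
        cv (fun k => AA Λ y l k + E k) (l' - l) k :=
      cv_mono (fun k => by have := hE1 k; linarith) _ _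
    rw [IterA_cv_add] at h2
    have h3 := he1 k
    rw [h1]
    linarith
  · intro m
    rw [Finset.sum_add_distrib]
    have h1 := sum_cv_le hE0 (l' - l) hE2 m
    have h2 := he2 m
    linarith
  · intro k
    have h1 := cv_le_sqrt hE0 hM hE2 k
    have h2 := herr k
    have hMR : (0 : ℝ) < ((l' - l : ℕ) : ℝ) := by exact_mod_cast hM
    have hsqM : 0 < Real.sqrt ((l' - l : ℕ) : ℝ) := Real.sqrt_pos.mpr hMR
    have h3 : Real.sqrt (l' : ℝ) ≤ 12 * Real.sqrt ((l' - l : ℕ) : ℝ) := by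
      rw [Real.sqrt_le_left (by positivity), mul_pow, Real.sq_sqrt hMR.le]
      have : l' ≤ 144 * (l' - l) := by omega
      have h : (l' : ℝ) ≤ 144 * ((l' - l : ℕ) : ℝ) := by exact_mod_cast this
      linarith
    have h4 : σ / Real.sqrt ((l' - l : ℕ) : ℝ) ≤ 12 * σ / Real.sqrt (l' : ℝ) := by
      rw [div_le_div_iff₀ hsqM hsq']
      have := mul_le_mul_of_nonneg_left h3 hσ
      linarith
    have h5' : Real.sqrt (l' : ℝ) ≤ 12 * (l : ℝ) := by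
      rw [Real.sqrt_le_left (by positivity)]
      have : l' ≤ 2 * l := by omega
      have h : (l' : ℝ) ≤ 2 * (l : ℝ) := by exact_mod_cast this
      nlinarith
    have h6' : (Λ + 2) / (l : ℝ) ^ 4 ≤ 12 * ((Λ + 2) / (l : ℝ) ^ 3) / Real.sqrt (l' : ℝ) := by
      rw [le_div_iff₀ hsq']
      have e1 : (Λ + 2) / (l : ℝ) ^ 4 * (12 * (l : ℝ)) = 12 * ((Λ + 2) / (l : ℝ) ^ 3) := by
        field_simp
      rw [← e1]
      exact mul_le_mul_of_nonneg_left h5' (by positivity)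
    have h8 : 12 * (σ + (Λ + 2) / (l : ℝ) ^ 3) / Real.sqrt (l' : ℝ) =
        12 * σ / Real.sqrt (l' : ℝ) + 12 * ((Λ + 2) / (l : ℝ) ^ 3) / Real.sqrt (l' : ℝ) := by
      rw [← add_div]; ring
    rw [h8]
    linarith

/-- partial sums -/
noncomputable def IterA_s (Λ : ℝ) (l0 : ℕ) : ℕ → ℝ
  | 0 => 0
  | i + 1 => IterA_s Λ l0 i + (Λ + 2) / (scl l0 i : ℝ) ^ 3

theorem IterA_s_nonneg {Λ : ℝ} (hΛ : 0 ≤ Λ) (l0 i : ℕ) : 0 ≤ IterA_s Λ l0 i := by
  induction i with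
  | zero => exact le_refl _
  | succ i ih =>
    show 0 ≤ IterA_s Λ l0 i + (Λ + 2) / (scl l0 i : ℝ) ^ 3
    positivity

theorem IterA_s_le {Λ : ℝ} (hΛ : 0 ≤ Λ) {l0 : ℕ} (h : 5000 ≤ l0) (i : ℕ) :
    IterA_s Λ l0 i ≤ 200 * (Λ + 2) / (l0 : ℝ) ^ 3 - 200 * (Λ + 2) / (scl l0 i : ℝ) ^ 3 := by
  induction i with
  | zero =>
    show (0 : ℝ) ≤ 200 * (Λ + 2) / (l0 : ℝ) ^ 3 - 200 * (Λ + 2) / (l0 : ℝ) ^ 3
    linarith
  | succ i ih =>
    have hs := scl_le l0 i h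
    have h5 : 5000 ≤ scl l0 i := by omega
    have h6 := nxt_spec h5
    have h7 : scl l0 (i + 1) = nxt (scl l0 i) := rfl
    rw [← h7] at h6
    show IterA_s Λ l0 i + (Λ + 2) / (scl l0 i : ℝ) ^ 3 ≤ _
    set l := scl l0 i with hl
    set l' := scl l0 (i + 1) with hl'
    have hlR : (5000 : ℝ) ≤ (l : ℝ) := by exact_mod_cast h5
    have hlpos : (0 : ℝ) < (l : ℝ) := by linarith
    have hl'pos : (0 : ℝ) < (l' : ℝ) := by
      have : 0 < l' := by omega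
      exact_mod_cast this
    have h8 : (1009 : ℝ) * l ≤ 1000 * l' := by exact_mod_cast h6.2.2.1
    have h9 : (1009 / 1000 : ℝ) * l ≤ l' := by linarith
    have h10 : ((1009 / 1000 : ℝ) * l) ^ 3 ≤ (l' : ℝ) ^ 3 :=
      pow_le_pow_left₀ (by positivity) h9 3
    have h11 : 200 * (Λ + 2) / (l' : ℝ) ^ 3 ≤ 199 * (Λ + 2) / (l : ℝ) ^ 3 := by
      rw [div_le_div_iff₀ (by positivity) (by positivity)]
      have h12 : 200 * (l : ℝ) ^ 3 ≤ 199 * (l' : ℝ) ^ 3 := by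
        have e : ((1009 / 1000 : ℝ) * l) ^ 3 = (1009 / 1000) ^ 3 * (l : ℝ) ^ 3 := by ring
        rw [e] at h10
        have hp : 0 < (l : ℝ) ^ 3 := by positivity
        norm_num at h10
        nlinarith
      have hL : 0 ≤ Λ + 2 := by linarith
      have := mul_le_mul_of_nonneg_left h12 hL
      nlinarith
    have h13 : 199 * (Λ + 2) / (l : ℝ) ^ 3 + (Λ + 2) / (l : ℝ) ^ 3 =
        200 * (Λ + 2) / (l : ℝ) ^ 3 := by
      rw [← add_div]; ring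
    linarith

theorem iter_err : ∃ L0 : ℕ, ∀ l0 ≥ L0, ∀ Λ : ℝ, 0 ≤ Λ → ∀ (y : ℤ) (i k : ℕ),
    cv (AA Λ y l0) (scl l0 i - l0) k - 2400 * (Λ + 2) / ((l0 : ℝ) ^ 3 * Real.sqrt (scl l0 i)) ≤
      AA Λ y (scl l0 i) k := by
  obtain ⟨l00, hst⟩ := st2
  refine ⟨max l00 5000, fun l0 hl0 Λ hΛ y i k => ?_⟩
  have h1 : l00 ≤ l0 := le_trans (le_max_left _ _) hl0
  have h2 : 5000 ≤ l0 := le_trans (le_max_right _ _) hl0
  have hP : ∀ i, IterA_P Λ y l0 i (IterA_s Λ l0 i) := by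
    intro i
    induction i with
    | zero =>
      refine ⟨fun _ => 0, fun _ => le_refl _, fun k => ?_, fun m => ?_, fun k => ?_⟩
      · show cv (AA Λ y l0) (l0 - l0) k - 0 ≤ AA Λ y l0 k
        rw [Nat.sub_self, IterA_cv_zero, sub_zero]
      · simp [IterA_s]
      · simp [IterA_s]
    | succ i ih =>
      have hs := scl_le l0 i h2
      exact IterA_step hΛ h2 (IterA_s_nonneg hΛ l0 i) ih
        (hst (scl l0 i) (le_trans h1 hs.1) Λ hΛ y)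
  obtain ⟨E, _, hE1, _, hE3⟩ := hP i
  have hs := scl_le l0 i h2
  have hs0 : 0 < scl l0 i := by omega
  have hspos : (0 : ℝ) < (scl l0 i : ℝ) := by exact_mod_cast hs0
  have hsq : 0 < Real.sqrt (scl l0 i : ℝ) := Real.sqrt_pos.mpr hspos
  have h3 : IterA_s Λ l0 i ≤ 200 * (Λ + 2) / (l0 : ℝ) ^ 3 := by
    have h4 := IterA_s_le hΛ h2 i
    have h5 : 0 ≤ 200 * (Λ + 2) / (scl l0 i : ℝ) ^ 3 := by positivity
    linarith
  have h6 : 12 * IterA_s Λ l0 i / Real.sqrt (scl l0 i) ≤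
      2400 * (Λ + 2) / ((l0 : ℝ) ^ 3 * Real.sqrt (scl l0 i)) := by
    have e : 2400 * (Λ + 2) / ((l0 : ℝ) ^ 3 * Real.sqrt (scl l0 i)) =
        12 * (200 * (Λ + 2) / (l0 : ℝ) ^ 3) / Real.sqrt (scl l0 i) := by
      rw [← div_div]; ring
    rw [e]
    gcongr
  have h7 := hE1 k
  have h8 := hE3 k
  linarith

end Pool.Agent.H30.PD
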