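import Pool.Agent.H30.PD.IterA
import Pool.Agent.H30.PD.BinLow

/-!
# JOB PD-ITERB. Conclusion of the iteration

`Z_le_cnt`: `comp_inj` (injective map `(p, q) ↦ comp (l'' - cut l) p q` into `D l''`) and `total_const`.

`iter` : `Λ = 2 l0 + 2`. Given `l ≥ l1` take `i` with `l_i ≤ l ≤ l_{i+1}` (`scl_le`; `l_i = scl l0 i`), so `100 l ≤ 101 l_i`. By `st1` (from `l_i` to `l`)
`Z (SG Λ (cut l_i)) … k k y ≥ cv (AA Λ y l_i) (l - l_i) k - (Λ+2)/l_i^6` (`|2k - l| ≤ 3√l` implies `Cone l k` for large `l`). By `iter_err`, `cv_mono`, `cv_cv` and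
`∑ bin ≤ 1`: `cv (AA Λ y l_i) (l - l_i) k ≥ cv (AA Λ y l0) (l - l0) k - 2400 (Λ+2)/(l0^3 √l_i)`. The first term is
`≥ (∑_{k' ≤ l0} AA Λ y l0 k') * min_{k' ≤ l0} bin (l-l0) (k-k') ≥ (1/2) c/√l` with `c` from `bin_ge`
(`|2(k-k') - (l-l0)| ≤ 3√l + 3 l0 ≤ 4√(l-l0)` for `l ≥ l1(l0)`; `k ≥ l0` too). `2400 (2 l0 + 4)/(l0^3 √l_i) ≤ (c/8)/√l` for `l0 ≥ L0` (`l ≤ 1.01 l_i`), and
`(Λ+2)/l_i^6 ≤ (c/8)/√l` for `l ≥ l1`. Total `≥ (c/4)/√l`; then `Z_le_cnt`.
-/

set_option autoImplicit false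

namespace Pool.Agent.H30.PD

open Finset

open Classical in
/-- number of words of length `l` with `k` heads compatible with `y` and with constant `≤ Λ 2^l` -/
noncomputable def cnt (Λ : ℝ) (l k : ℕ) (y : ℤ) : ℕ :=
  ((D l).filter fun p => p.1 = k ∧ (3 : ℤ) ^ k ∣ 2 ^ l * y - p.2 ∧ (p.2 : ℝ) ≤ Λ * 2 ^ l).card

theorem Z_le_cnt : ∃ l0 : ℕ, ∀ l ≥ l0, ∀ l'' : ℕ, l ≤ l'' → 100 * l'' ≤ 101 * l → ∀ (Λ : ℝ)
    (y : ℤ) (k : ℕ), Z (SG Λ (cut l)) (cut l) (l'' - cut l) k k y ≤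
      3 ^ k / 2 ^ l'' * cnt (Λ + 1) l'' k y := by
  classical
  obtain ⟨l0, h0⟩ := total_const
  refine ⟨max l0 5000, fun l hl l'' h1 h2 Λ y k => ?_⟩
  have hl0 : l0 ≤ l := le_trans (le_max_left _ _) hl
  have hl5 : 5000 ≤ l := le_trans (le_max_right _ _) hl
  have hcut : cut l ≤ l'' := by
    have : cut l ≤ l := by unfold cut; omega
    omega
  have hadd : cut l + (l'' - cut l) = l'' := by omega
  unfold Z
  rw [hadd]
  apply mul_le_mul_of_nonneg_left _ (by positivity)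
  norm_cast
  unfold cnt
  apply Finset.card_le_card_of_injOn (fun x : (ℕ × ℕ) × (ℕ × ℕ) => comp (l'' - cut l) x.1 x.2)
  · intro x hx
    rw [Finset.mem_coe, Finset.mem_filter, Finset.mem_product] at hx
    rw [Finset.mem_coe, Finset.mem_filter]
    obtain ⟨⟨hx1, hx2⟩, hx3, hx4⟩ := hx
    refine ⟨?_, hx3, ?_, ?_⟩
    · have := comp_mem (SG_subset Λ (cut l) hx1) hx2
      rwa [hadd] at this
    · exact_mod_cast hx4
    · exact h0 l hl0 l'' h1 h2 Λ x.1 hx1 x.2 hx2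
  · intro x hx x' hx' h
    rw [Finset.mem_coe, Finset.mem_filter, Finset.mem_product] at hx hx'
    have := comp_inj (SG_subset Λ (cut l) hx.1.1) hx.1.2 (SG_subset Λ (cut l) hx'.1.1) hx'.1.2 h
    exact Prod.ext this.1 this.2

theorem IterB_scale {l0 l : ℕ} (h0 : 5000 ≤ l0) (hl : l0 ≤ l) :
    ∃ i : ℕ, scl l0 i ≤ l ∧ l ≤ scl l0 (i + 1) := by
  have hex : ∃ i, l < scl l0 i := ⟨l + 1, by have := (scl_le l0 (l + 1) h0).2.2.2; omega⟩
  have h1 := Nat.find_spec hex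
  have h2 : Nat.find hex ≠ 0 := by
    intro h
    rw [h] at h1
    simp only [scl] at h1
    omega
  obtain ⟨i, hi⟩ := Nat.exists_eq_succ_of_ne_zero h2
  refine ⟨i, ?_, ?_⟩
  · have := Nat.find_min hex (m := i) (by omega)
    omega
  · rw [hi] at h1
    exact le_of_lt h1

theorem IterB_sum_bin (M k : ℕ) : ∑ k' ∈ range (k + 1), bin M (k - k') ≤ 1 := by
  have h := Finset.sum_range_reflect (fun j => bin M j) (k + 1)
  have h2 : ∑ k' ∈ range (k + 1), bin M (k - k') = ∑ j ∈ range (k + 1), bin M j := by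
    rw [← h]
    apply Finset.sum_congr rfl
    intro j _
    congr 1
  rw [h2]
  exact sum_bin_le M (k + 1)

theorem IterB_cv_sub (f : ℕ → ℝ) (ε : ℝ) (hε : 0 ≤ ε) (M k : ℕ) :
    cv f M k - ε ≤ cv (fun k' => f k' - ε) M k := by
  unfold cv
  have h1 : ∑ k' ∈ range (k + 1), (f k' - ε) * bin M (k - k') =
      ∑ k' ∈ range (k + 1), f k' * bin M (k - k') -
        ε * ∑ k' ∈ range (k + 1), bin M (k - k') := by
    rw [Finset.mul_sum, ← Finset.sum_sub_distrib]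
    apply Finset.sum_congr rfl
    intro j _
    ring
  rw [h1]
  have h2 := mul_le_mul_of_nonneg_left (IterB_sum_bin M k) hε
  linarith

theorem IterB_main (Λ : ℝ) (y : ℤ) (l0 l k : ℕ) (b : ℝ) (hk : l0 ≤ k) (hb : 0 ≤ b)
    (hS : 1 / 2 ≤ ∑ k ∈ range (l0 + 1), AA Λ y l0 k)
    (hbin : ∀ k' ≤ l0, b ≤ bin (l - l0) (k - k')) : b / 2 ≤ cv (AA Λ y l0) (l - l0) k := by
  unfold cv
  calc b / 2 ≤ (∑ k ∈ range (l0 + 1), AA Λ y l0 k) * b := by nlinarith
    _ = ∑ k' ∈ range (l0 + 1), AA Λ y l0 k' * b := by rw [Finset.sum_mul]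
    _ ≤ ∑ k' ∈ range (l0 + 1), AA Λ y l0 k' * bin (l - l0) (k - k') := by
        apply Finset.sum_le_sum
        intro k' hk'
        rw [Finset.mem_range] at hk'
        exact mul_le_mul_of_nonneg_left (hbin k' (by omega)) (AA_nonneg _ _ _ _)
    _ ≤ ∑ k' ∈ range (k + 1), AA Λ y l0 k' * bin (l - l0) (k - k') := by
        apply Finset.sum_le_sum_of_subset_of_nonneg
        · intro j hj
          rw [Finset.mem_range] at hj ⊢
          omega
        · intro j _ _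
          exact mul_nonneg (AA_nonneg _ _ _ _) (bin_nonneg _ _)

theorem iter : ∃ (L0 : ℕ) (c : ℝ), 0 < c ∧ ∀ l0 ≥ L0, ∃ l1 : ℕ, ∀ y : ℤ,
    1 / 2 ≤ ∑ k ∈ range (l0 + 1), AA (2 * l0 + 2) y l0 k →
      ∀ l ≥ l1, ∀ k : ℕ, |2 * (k : ℝ) - l| ≤ 3 * Real.sqrt l →
        c * 2 ^ l / (3 ^ k * Real.sqrt l) ≤ cnt (2 * l0 + 3) l k y := by
  obtain ⟨c0, hc0, n0, hbin⟩ := bin_ge
  obtain ⟨ls, hst⟩ := st1
  obtain ⟨lz, hz⟩ := Z_le_cnt
  obtain ⟨Li, hi⟩ := iter_err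
  refine ⟨max (max Li 5000) (max (max ls lz) ⌈115200 / c0⌉₊), c0 / 4, by positivity,
    fun l0 hl0 => ?_⟩
  have hLi : Li ≤ l0 := le_trans (le_trans (le_max_left _ _) (le_max_left _ _)) hl0
  have h5000 : 5000 ≤ l0 := le_trans (le_trans (le_max_right _ _) (le_max_left _ _)) hl0
  have hls : ls ≤ l0 :=
    le_trans (le_trans (le_trans (le_max_left _ _) (le_max_left _ _)) (le_max_right _ _)) hl0
  have hlz : lz ≤ l0 :=
    le_trans (le_trans (le_trans (le_max_right _ _) (le_max_left _ _)) (le_max_right _ _)) hl0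
  have hlc : 115200 / c0 ≤ l0 :=
    le_trans (Nat.le_ceil _) (by exact_mod_cast
      (le_trans (le_trans (le_max_right _ _) (le_max_right _ _)) hl0 : _ ≤ l0))
  refine ⟨max (max (16 * l0 ^ 2) 2250000) (max (n0 + l0) ⌈96 / c0⌉₊), fun y hS l hl k hk => ?_⟩
  have hl16 : 16 * l0 ^ 2 ≤ l := le_trans (le_trans (le_max_left _ _) (le_max_left _ _)) hl
  have hlbig : 2250000 ≤ l := le_trans (le_trans (le_max_right _ _) (le_max_left _ _)) hl
  have hln : n0 + l0 ≤ l := le_trans (le_trans (le_max_left _ _) (le_max_right _ _)) hl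
  have hlc' : 96 / c0 ≤ l :=
    le_trans (Nat.le_ceil _) (by exact_mod_cast
      (le_trans (le_trans (le_max_right _ _) (le_max_right _ _)) hl : _ ≤ l))
  obtain ⟨i, hi1, hi2⟩ := IterB_scale h5000 (by omega : l0 ≤ l)
  obtain ⟨hs1, hs2, hs3, hs4⟩ := scl_le l0 i h5000
  set li := scl l0 i with hli
  -- real quantities
  set s := Real.sqrt l with hs
  have hss : s * s = l := Real.mul_self_sqrt (Nat.cast_nonneg l)
  have hlR : (2250000 : ℝ) ≤ l := by exact_mod_cast hlbig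
  have hs1500 : 1500 ≤ s := by
    rw [hs]
    apply Real.le_sqrt_of_sq_le
    norm_num
    exact_mod_cast hlbig
  have hl16R : 16 * (l0 : ℝ) ^ 2 ≤ l := by exact_mod_cast hl16
  have hl0R : (5000 : ℝ) ≤ l0 := by exact_mod_cast h5000
  have hs4l : 4 * (l0 : ℝ) ≤ s := by
    rw [hs]
    apply Real.le_sqrt_of_sq_le
    have : (4 * (l0 : ℝ)) ^ 2 = 16 * (l0 : ℝ) ^ 2 := by ring
    linarith
  have hspos : 0 < s := by linarith
  have hs1500' : 1500 * s ≤ l := by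
    rw [← hss]
    exact mul_le_mul_of_nonneg_right hs1500 hspos.le
  -- the cone
  have hcone : Cone l k := by
    unfold Cone
    have h1 : 500 * |2 * (k : ℝ) - l| ≤ l := by linarith
    have h2 : ((500 * |2 * (k : ℤ) - l| : ℤ) : ℝ) ≤ ((l : ℤ) : ℝ) := by
      push_cast
      exact h1
    exact_mod_cast h2
  -- first step
  have h100 : 100 * l ≤ 101 * li := by
    calc 100 * l ≤ 100 * scl l0 (i + 1) := by omega
      _ ≤ 101 * li := hs3
  have e1 := hst li (by omega) l hi1 h100 (2 * l0 + 2) (by positivity) y k hcone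
  have e2 := hz li (by omega) l hi1 h100 (2 * l0 + 2) y k
  -- the accumulated error
  have e3 := hi l0 hLi (2 * l0 + 2) (by positivity) y i
  rw [← hli] at e3
  set ε : ℝ := 2400 * ((2 * l0 + 2 : ℝ) + 2) / ((l0 : ℝ) ^ 3 * Real.sqrt li) with hε
  have hεn : 0 ≤ ε := by positivity
  have e4 : cv (AA (2 * l0 + 2) y l0) (l - l0) k - ε ≤ cv (AA (2 * l0 + 2) y li) (l - li) k := by
    have h1 := IterB_cv_sub (cv (AA (2 * l0 + 2) y l0) (li - l0)) ε hεn (l - li) k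
    have h2 := cv_mono (fun k' => e3 k') (l - li) k
    rw [cv_cv, show li - l0 + (l - li) = l - l0 by omega] at h1
    linarith
  -- the main term
  have hkl : (l : ℝ) - 3 * s ≤ 2 * k := by
    have := (abs_le.1 hk).1
    linarith
  have hk0 : l0 ≤ k := by
    have : (l0 : ℝ) ≤ k := by linarith
    exact_mod_cast this
  have hcast : ((l - l0 : ℕ) : ℝ) = (l : ℝ) - l0 := by
    rw [Nat.cast_sub (by omega)]
  have hsq : 3 * s + l0 ≤ 4 * Real.sqrt ((l - l0 : ℕ) : ℝ) := by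
    have h1 : ((3 * s + l0) / 4) ≤ Real.sqrt ((l - l0 : ℕ) : ℝ) := by
      apply Real.le_sqrt_of_sq_le
      rw [hcast]
      have h2 : s * l0 ≤ l / 4 := by
        have := mul_le_mul_of_nonneg_left hs4l hspos.le
        rw [hss] at this
        linarith
      have h3 : ((3 * s + l0) / 4) ^ 2 = (9 * (s * s) + 6 * (s * l0) + (l0 : ℝ) ^ 2) / 16 := by
        ring
      rw [h3, hss]
      linarith
    linarith
  have hle : c0 / s ≤ c0 / Real.sqrt ((l - l0 : ℕ) : ℝ) := by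
    apply div_le_div_of_nonneg_left hc0.le
    · apply Real.sqrt_pos.2
      rw [hcast]
      linarith
    · rw [hs]
      apply Real.sqrt_le_sqrt
      rw [hcast]
      linarith
  have e5 := IterB_main (2 * l0 + 2) y l0 l k (c0 / s) hk0 (by positivity) hS (by
    intro k' hk'
    refine le_trans hle (hbin (l - l0) (k - k') (by omega) ?_)
    rw [Nat.cast_sub (by omega : k' ≤ k), hcast]
    have h1 : |2 * ((k : ℝ) - k') - (l - l0)| ≤ |2 * (k : ℝ) - l| + |(l0 : ℝ) - 2 * k'| := by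
      have := abs_add_le (2 * (k : ℝ) - l) ((l0 : ℝ) - 2 * k')
      rw [show 2 * ((k : ℝ) - k') - (l - l0) = 2 * (k : ℝ) - l + ((l0 : ℝ) - 2 * k') by ring]
      exact this
    have h2 : |(l0 : ℝ) - 2 * k'| ≤ l0 := by
      rw [abs_le]
      have h3 : (k' : ℝ) ≤ l0 := by exact_mod_cast hk'
      have h4 : (0 : ℝ) ≤ k' := Nat.cast_nonneg _
      constructor <;> linarith
    rw [hcast] at hsq
    linarith)
  -- the errors
  have hliR : (l : ℝ) / 4 ≤ li := by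
    have : (100 : ℝ) * l ≤ 101 * li := by exact_mod_cast h100
    linarith
  have hli0 : (l0 : ℝ) ≤ li := by exact_mod_cast hs1
  have hsli : s / 2 ≤ Real.sqrt li := by
    apply Real.le_sqrt_of_sq_le
    have : (s / 2) ^ 2 = s * s / 4 := by ring
    rw [this, hss]
    exact hliR
  have hε2 : ε ≤ c0 / 8 / s := by
    have hp3 : 0 < (l0 : ℝ) ^ 3 := pow_pos (by linarith) 3
    have hpi : 0 < Real.sqrt li := by linarith
    rw [hε, div_le_div_iff₀ (mul_pos hp3 hpi) hspos]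
    have h1 : 115200 ≤ c0 * l0 := by
      rw [div_le_iff₀ hc0] at hlc
      linarith
    have h2 : 2400 * ((2 * l0 + 2 : ℝ) + 2) ≤ 7200 * l0 := by linarith
    have h3 : 2400 * ((2 * l0 + 2 : ℝ) + 2) * s ≤ 7200 * l0 * s :=
      mul_le_mul_of_nonneg_right h2 hspos.le
    have h4 : 7200 * l0 * s ≤ c0 / 8 * ((l0 : ℝ) ^ 3 * (s / 2)) := by
      have h5 : 115200 ≤ c0 * (l0 : ℝ) ^ 2 := by
        have h8 : c0 * l0 * 1 ≤ c0 * l0 * l0 :=
          mul_le_mul_of_nonneg_left (by linarith) (by positivity)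
        have h9 : c0 * (l0 : ℝ) ^ 2 = c0 * l0 * l0 := by ring
        linarith
      have h6 : 115200 * ((l0 : ℝ) * s) ≤ c0 * (l0 : ℝ) ^ 2 * ((l0 : ℝ) * s) :=
        mul_le_mul_of_nonneg_right h5 (by positivity)
      have h10 : c0 / 8 * ((l0 : ℝ) ^ 3 * (s / 2)) = c0 * (l0 : ℝ) ^ 2 * ((l0 : ℝ) * s) / 16 := by
        ring
      rw [h10]
      linarith
    have h7 : c0 / 8 * ((l0 : ℝ) ^ 3 * (s / 2)) ≤ c0 / 8 * ((l0 : ℝ) ^ 3 * Real.sqrt li) := by
      apply mul_le_mul_of_nonneg_left _ (by positivity)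
      exact mul_le_mul_of_nonneg_left hsli (by positivity)
    linarith
  have hε3 : ((2 * l0 + 2 : ℝ) + 2) / (li : ℝ) ^ 6 ≤ c0 / 8 / s := by
    have hlipos : 0 < (li : ℝ) := by linarith
    have h0 : ((2 * l0 + 2 : ℝ) + 2) ≤ 3 * li := by linarith
    have h1 : 96 ≤ c0 * l := by
      rw [div_le_iff₀ hc0] at hlc'
      linarith
    rw [div_le_div_iff₀ (by positivity) hspos]
    have h2 : s ≤ li := by linarith
    have h3 : ((2 * l0 + 2 : ℝ) + 2) * s ≤ 3 * li * li :=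
      mul_le_mul h0 h2 hspos.le (by positivity)
    have h4 : 24 ≤ c0 * li := by
      have := mul_le_mul_of_nonneg_left hliR hc0.le
      linarith
    have h5 : (1 : ℝ) ≤ (li : ℝ) ^ 3 := one_le_pow₀ (by linarith)
    have h6 : 3 * (li : ℝ) * li ≤ c0 / 8 * (li : ℝ) ^ 3 := by
      have : 24 * (li : ℝ) ^ 2 ≤ c0 * li * (li : ℝ) ^ 2 :=
        mul_le_mul_of_nonneg_right h4 (by positivity)
      have h8 : c0 / 8 * (li : ℝ) ^ 3 = c0 * li * (li : ℝ) ^ 2 / 8 := by ring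
      have h9 : 3 * (li : ℝ) * li = 24 * (li : ℝ) ^ 2 / 8 := by ring
      rw [h8, h9]
      linarith
    have h7 : c0 / 8 * (li : ℝ) ^ 3 ≤ c0 / 8 * (li : ℝ) ^ 6 := by
      apply mul_le_mul_of_nonneg_left _ (by positivity)
      exact pow_le_pow_right₀ (by linarith) (by norm_num)
    linarith
  have e6 : c0 / 4 / s ≤ 3 ^ k / 2 ^ l * cnt (2 * l0 + 2 + 1) l k y := by
    have h1 : c0 / s / 2 = c0 / 4 / s + c0 / 8 / s + c0 / 8 / s := by
      field_simp
      norm_num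
    linarith
  rw [show (2 * (l0 : ℝ) + 2 + 1) = 2 * l0 + 3 by ring] at e6
  rw [div_le_iff₀ (by positivity)]
  rw [div_le_iff₀ hspos] at e6
  have h2 : (0 : ℝ) < 2 ^ l := by positivity
  have h3 := mul_le_mul_of_nonneg_right e6 h2.le
  calc c0 / 4 * 2 ^ l ≤ 3 ^ k / 2 ^ l * (cnt (2 * l0 + 3) l k y : ℝ) * s * 2 ^ l := h3
    _ = (cnt (2 * l0 + 3) l k y : ℝ) * (3 ^ k * s) := by
        field_simp

end Pool.Agent.H30.PD
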