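import Pool.Agent.H30.PD.Multi
import Pool.Agent.H30.PD.BadW

/-!
# JOB PD-LONG. Long crossings

Proof. Fix `om` with `2 exp(-om²) * (1/0.12)^A ≤ 1/5`, `x` with `x (1/0.12)^A ≤ 1/5`, `J` with `gam^J (1/0.11)^A ≤ 1/5`, and `H`, `h0`
from `bad_weight`. `10 h ≤ 8 n` (`height_le`). By `w_cross`,
`w ξ (s+h) n ≤ ∑_{k ≤ 2h} bin (2h) k * w ξ s (n-k)`. Split the `k`:
(a) `|k-h| > om √h`, `10 k ≤ 11 h`: then `n - k ≥ 0.12 n`, `w ≤ C/(0.12 n)^A` by the induction hypothesis if `k ≥ 1` (`k = 0`: then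
    `h > om √h`... put `k = 0` into (b): its weight is `4^(-h)`); total weight `≤ 2 exp(-om²)` (`bin_tail` with `2h`, `x = 2 om √h`).
(b) `10 k > 11 h` or `k = 0`: `w ≤ 1`, total weight `≤ 2 exp(-(0.2 h)²/(4h)) + 4^(-h) ≤ 3 exp(-0.01 e1 n)`.
(c) `|k-h| ≤ om √h`, `k ≥ 1` and bad (the set of `bad_weight` with `K = K₁`): `w ≤ C/(0.12 n)^A`, weight `≤ x`.
(d) `|k-h| ≤ om √h` and good: `multi` with `nb = n - k`, `K = K₁`, `B = C/(0.11 n)^A`. Hypotheses: `2|K₁| < 3^(n-k)`: tiny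
    says `1000 * 4^h |K₁| < 4 * 3^n`, and `3^k ≤ 3^(h + om √h) ≤ 4^h` for `h` large. `3^(n-k) ∣ 4^s ξ - K₁`: `kk_cross'` and
    `kk_modeq`. `nb - 2 Ls H J ≥ 0.11 n ≥ 1` for `n` large, `nb < n` since `k ≥ 1`.
Sum: `C n^-A * (1/5 + 1/5 + 1/5) + 3 exp(-0.01 e1 n) ≤ C n^-A` for `n ≥ n0` (`C ≥ 1`).
`h > e1 n` so `h` is large when `n` is.
-/

set_option autoImplicit false

namespace Pool.Agent.H30.PD

open Finset

theorem long_cross (A : ℕ) {e1 : ℝ} (he1 : 0 < e1) : ∃ n0 : ℕ, ∀ n ≥ n0, ∀ C : ℝ, 1 ≤ C →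
    ∀ ξ : ℤ, ¬ (3 : ℤ) ∣ ξ → ∀ (s h : ℕ) (K₁ : ℤ), Tiny ξ (s + h) n →
      kk ξ (s + h) n = 4 ^ h * K₁ → ¬ (4 : ℤ) ∣ K₁ → e1 * n < h →
      (∀ n' < n, 1 ≤ n' → ∀ t', w ξ t' n' ≤ C / (n' : ℝ) ^ A) →
      w ξ (s + h) n ≤ C / (n : ℝ) ^ A := by
  classical
  obtain ⟨M, hM⟩ : ∃ M : ℝ, M = (100 / 11) ^ A := ⟨_, rfl⟩
  have hM1 : 1 ≤ M := by rw [hM]; exact one_le_pow₀ (by norm_num)
  have hM0 : 0 < M := by linarith
  obtain ⟨om, hom⟩ : ∃ om : ℝ, om = 10 * M := ⟨_, rfl⟩
  have hom0 : 0 < om := by rw [hom]; positivity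
  have hexp : 2 * Real.exp (-om ^ 2) * M ≤ 1 / 5 := by
    have h1 : om ^ 2 + 1 ≤ Real.exp (om ^ 2) := Real.add_one_le_exp _
    have h2 : Real.exp (-om ^ 2) ≤ 1 / om ^ 2 := by
      rw [show -om ^ 2 = -(om ^ 2) by ring, Real.exp_neg, one_div]
      apply inv_anti₀ (by positivity)
      linarith
    calc 2 * Real.exp (-om ^ 2) * M ≤ 2 * (1 / om ^ 2) * M := by gcongr
      _ = 1 / (50 * M) := by rw [hom]; field_simp; norm_num
      _ ≤ 1 / 5 := by
        apply one_div_le_one_div_of_le (by norm_num)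
        linarith
  obtain ⟨J, hJ⟩ := exists_pow_lt_of_lt_one (show (0:ℝ) < 1 / (5 * M) by positivity) gam_lt_one
  obtain ⟨H, h0, hbad⟩ := bad_weight J (x := 1 / (5 * M)) (by positivity) hom0
  obtain ⟨L, hL⟩ : ∃ L, L = Ls H J := ⟨_, rfl⟩
  -- the threshold
  obtain ⟨N1, hN1⟩ : ∃ N : ℕ, ((h0:ℝ) + 1) / e1 ≤ N := exists_nat_ge _
  obtain ⟨N2, hN2⟩ : ∃ N : ℕ, (10 * om) ^ 2 ≤ N := exists_nat_ge _
  have hlim : Filter.Tendsto (fun n : ℕ => (n:ℝ) ^ A * (Real.exp (-(e1 / 100))) ^ n) Filter.atTop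
      (nhds 0) := by
    apply tendsto_pow_const_mul_const_pow_of_abs_lt_one
    rw [abs_of_pos (Real.exp_pos _), Real.exp_lt_one_iff]
    linarith
  obtain ⟨N4, hN4⟩ := Filter.eventually_atTop.mp (hlim.eventually_lt_const (show (0:ℝ) < 1 / 5 by norm_num))
  refine ⟨N1 + N2 + (200 * L + 100) + N4, ?_⟩
  intro n hn C hC ξ hξ s h K₁ hT hK h4 heh hind
  have hC0 : 0 < C := by linarith
  have hn1 : ((h0:ℝ) + 1) / e1 ≤ n := hN1.trans (by exact_mod_cast (by omega : N1 ≤ n))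
  have hn2 : (10 * om) ^ 2 ≤ n := hN2.trans (by exact_mod_cast (by omega : N2 ≤ n))
  have hn3 : 200 * (L:ℝ) + 100 ≤ n := by exact_mod_cast (by omega : 200 * L + 100 ≤ n)
  have hn4 : (n:ℝ) ^ A * (Real.exp (-(e1 / 100))) ^ n < 1 / 5 := hN4 n (by omega)
  have hL0 : (0:ℝ) ≤ L := Nat.cast_nonneg _
  have hnpos : (0:ℝ) < n := by linarith
  have hnA : (0:ℝ) < (n:ℝ) ^ A := by positivity
  have hh0 : (h0:ℝ) + 1 < h := by
    rw [div_le_iff₀ he1] at hn1
    linarith
  have hh0' : h0 ≤ h := by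
    have : (h0:ℝ) < h := by linarith
    exact_mod_cast this.le
  have hh1 : (1:ℝ) ≤ h := by
    have : (0:ℝ) ≤ h0 := Nat.cast_nonneg _
    linarith
  have hhpos : 1 ≤ h := by exact_mod_cast hh1
  have hK0 : K₁ ≠ 0 := by
    rintro rfl
    exact h4 (dvd_zero _)
  have hht := height_le hK hK0
  have hhn : (h:ℝ) ≤ 0.8 * n := by
    have : ((5 * (2 * h) : ℕ) : ℝ) ≤ ((8 * n : ℕ) : ℝ) := by exact_mod_cast hht
    push_cast at this
    linarith
  have hsn : om * Real.sqrt h ≤ 0.1 * n := by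
    have h1 : Real.sqrt h ≤ Real.sqrt n := Real.sqrt_le_sqrt (by linarith)
    have h2 : 10 * om ≤ Real.sqrt n := Real.le_sqrt_of_sq_le hn2
    have h3 : Real.sqrt n * Real.sqrt n = n := Real.mul_self_sqrt hnpos.le
    have h4 : 0 ≤ Real.sqrt n := Real.sqrt_nonneg _
    calc om * Real.sqrt h ≤ om * Real.sqrt n := by gcongr
      _ ≤ 0.1 * n := by nlinarith
  have hcap : (h:ℝ) + om * Real.sqrt h + 2 * Ls H J ≤ n := by
    rw [← hL]
    linarith
  have hB := hbad h hh0' K₁ n hcap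
  -- sets
  obtain ⟨Ca, hCa⟩ : ∃ Ca : ℝ, Ca = C * M / (n:ℝ) ^ A := ⟨_, rfl⟩
  have hCa0 : 0 ≤ Ca := by rw [hCa]; positivity
  have hgJ0 : 0 ≤ gam ^ J := pow_nonneg gam_pos.le _
  -- bound of `w` at low levels
  have hlow : ∀ n' : ℕ, n' < n → 0.11 * (n:ℝ) ≤ n' → ∀ t', w ξ t' n' ≤ Ca := by
    intro n' h1 h2 t'
    have h3 : (0:ℝ) < n' := by nlinarith
    have h4 : 1 ≤ n' := by exact_mod_cast (by exact_mod_cast h3 : 0 < n')
    refine (hind n' h1 h4 t').trans ?_
    rw [hCa, div_le_div_iff₀ (by positivity) (by positivity)]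
    have h5 : (n:ℝ) ^ A ≤ M * (n':ℝ) ^ A := by
      rw [hM, ← mul_pow]
      apply pow_le_pow_left₀ hnpos.le
      linarith
    calc C * (n:ℝ) ^ A ≤ C * (M * (n':ℝ) ^ A) := by gcongr
      _ = C * M * (n':ℝ) ^ A := by ring
  have key : ∀ k ∈ range (2 * h + 1), bin (2 * h) k * w ξ s (n - k) ≤
      (if 0.2 * (h:ℝ) ≤ |2 * (k:ℝ) - ((2 * h : ℕ) : ℝ)| then bin (2 * h) k else 0) +
      Ca * (if 2 * om * Real.sqrt h ≤ |2 * (k:ℝ) - ((2 * h : ℕ) : ℝ)| then bin (2 * h) k else 0) +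
      Ca * (if (|(k : ℝ) - h| ≤ om * Real.sqrt h ∧
        ∃ i < J, ∃ k' ≤ 2 * Ls H i, Col K₁ (Ls H i) (H i) (n - k - k')) then bin (2 * h) k else 0) +
      gam ^ J * Ca * bin (2 * h) k := by
    intro k hk
    have hb := bin_nonneg (2 * h) k
    have hw0 := w_nonneg ξ s (n - k)
    have hlast : 0 ≤ gam ^ J * Ca * bin (2 * h) k := by positivity
    have i2 : 0 ≤ Ca * (if 2 * om * Real.sqrt h ≤ |2 * (k:ℝ) - ((2 * h : ℕ) : ℝ)| then bin (2 * h) k else 0) := by
      apply mul_nonneg hCa0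
      split_ifs
      · exact hb
      · exact le_rfl
    have i3 : 0 ≤ Ca * (if (|(k : ℝ) - h| ≤ om * Real.sqrt h ∧
        ∃ i < J, ∃ k' ≤ 2 * Ls H i, Col K₁ (Ls H i) (H i) (n - k - k')) then bin (2 * h) k else 0) := by
      apply mul_nonneg hCa0
      split_ifs
      · exact hb
      · exact le_rfl
    by_cases cb : 0.2 * (h:ℝ) ≤ |2 * (k:ℝ) - ((2 * h : ℕ) : ℝ)|
    · rw [if_pos cb]
      have h1 : bin (2 * h) k * w ξ s (n - k) ≤ bin (2 * h) k * 1 := by
        gcongr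
        exact w_le_one _ _ _
      linarith
    · rw [if_neg cb]
      push Not at cb
      rw [abs_lt] at cb
      push_cast at cb
      -- size of `k`
      have k1 : (k:ℝ) < 1.1 * h := by linarith [cb.2]
      have k2 : 0.9 * (h:ℝ) < k := by linarith [cb.1]
      have k3 : 1 ≤ k := by
        have : (0:ℝ) < k := by linarith
        exact_mod_cast (by exact_mod_cast this : 0 < k)
      have k4 : (k:ℝ) ≤ 0.88 * n := by linarith
      have k5 : k ≤ n := by
        have : (k:ℝ) ≤ n := by linarith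
        exact_mod_cast this
      have k6 : ((n - k : ℕ) : ℝ) = n - k := by push_cast [Nat.cast_sub k5]; ring
      have k7 : n - k < n := by
        have : 0 < n := by exact_mod_cast hnpos
        omega
      have hwCa : w ξ s (n - k) ≤ Ca := by
        apply hlow _ k7
        rw [k6]; linarith
      have hgen : bin (2 * h) k * w ξ s (n - k) ≤ Ca * bin (2 * h) k := by
        rw [mul_comm Ca]
        gcongr
      by_cases ca : 2 * om * Real.sqrt h ≤ |2 * (k:ℝ) - ((2 * h : ℕ) : ℝ)|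
      · rw [if_pos ca]
        linarith
      · rw [if_neg ca] at i2 ⊢
        push Not at ca
        have ca' : |(k:ℝ) - h| ≤ om * Real.sqrt h := by
          rw [abs_lt] at ca
          push_cast at ca
          rw [abs_le]
          constructor <;> linarith [ca.1, ca.2]
        by_cases cc : ∃ i < J, ∃ k' ≤ 2 * Ls H i, Col K₁ (Ls H i) (H i) (n - k - k')
        · rw [if_pos ⟨ca', cc⟩]
          linarith
        · rw [if_neg (fun hcon => cc hcon.2)]
          -- the good case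
          have hKs : 2 * |K₁| < 3 ^ (n - k) := by
            -- `3^k ≤ 4^h`
            have p1 : (3:ℝ) ^ k ≤ 4 ^ h := by
              have q1 : 10 * k ≤ 11 * h := by
                have : (10:ℝ) * k ≤ 11 * h := by linarith
                exact_mod_cast this
              have q2 : ((3:ℝ) ^ k) ^ 10 ≤ (4 ^ h) ^ 10 := by
                rw [← pow_mul, ← pow_mul]
                calc (3:ℝ) ^ (k * 10) ≤ 3 ^ (11 * h) := by
                      apply pow_le_pow_right₀ (by norm_num); omega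
                  _ = (3 ^ 11) ^ h := by rw [pow_mul]
                  _ ≤ (4 ^ 10) ^ h := by
                      apply pow_le_pow_left₀ (by norm_num); norm_num
                  _ = 4 ^ (h * 10) := by rw [← pow_mul]; ring_nf
              exact le_of_pow_le_pow_left₀ (by norm_num) (by positivity) q2
            have p2 : 1000 * ((4:ℝ) ^ h * |(K₁:ℝ)|) < 4 * 3 ^ n := by
              have := hT
              unfold Tiny at this
              rw [hK] at this
              push_cast at this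
              rw [abs_mul, abs_of_pos (by positivity : (0:ℝ) < 4 ^ h)] at this
              exact this
            have p3 : (3:ℝ) ^ n = 3 ^ k * 3 ^ (n - k) := by
              rw [← pow_add]; congr 1; omega
            have p4 : 2 * |(K₁:ℝ)| < 3 ^ (n - k) := by
              by_contra hcon
              push Not at hcon
              have hk0 : (0:ℝ) < 3 ^ k := by positivity
              have q3 : (3:ℝ) ^ k * 3 ^ (n - k) ≤ 4 ^ h * (2 * |(K₁:ℝ)|) := by
                apply mul_le_mul p1 hcon (by positivity) (by positivity)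
              rw [← p3] at q3
              have q4 : (0:ℝ) < 3 ^ n := by positivity
              linarith
            have : ((2 * |K₁| : ℤ) : ℝ) < ((3 ^ (n - k) : ℤ) : ℝ) := by
              push_cast
              exact p4
            exact_mod_cast this
          have hkk := kk_cross' k hK hKs
          have hmod := kk_modeq ξ s (n - k)
          rw [hkk] at hmod
          have hnk : 0.12 * (n:ℝ) ≤ ((n - k : ℕ) : ℝ) := by rw [k6]; linarith
          have hbig : 2 * Ls H J < n - k := by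
            rw [← hL]
            have : 2 * (L:ℝ) < ((n - k : ℕ) : ℝ) := by linarith
            exact_mod_cast this
          have hm := multi hξ H J s (n - k) h4 hKs hmod
            (by
              intro i hi k' hk' hcol
              exact cc ⟨i, hi, k', hk', hcol⟩)
            hbig hCa0
            (by
              intro t' n' h1 h2
              apply hlow n' (by omega)
              rw [← hL] at h1 hbig
              have h3 : ((n - k : ℕ) : ℝ) ≤ n' + 2 * L := by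
                have : n - k ≤ n' + 2 * L := by omega
                exact_mod_cast this
              linarith)
          have : bin (2 * h) k * w ξ s (n - k) ≤ bin (2 * h) k * (gam ^ J * Ca) := by gcongr
          linarith
  have hsum := (w_cross ξ s h n).trans (Finset.sum_le_sum key)
  rw [Finset.sum_add_distrib, Finset.sum_add_distrib, Finset.sum_add_distrib, ← Finset.mul_sum,
    ← Finset.mul_sum, ← Finset.mul_sum, ← Finset.sum_filter, ← Finset.sum_filter,
    ← Finset.sum_filter] at hsum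
  have h2h : 1 ≤ 2 * h := by omega
  have t1 := bin_tail h2h (x := 0.2 * (h:ℝ)) (by positivity)
  have t2 := bin_tail h2h (x := 2 * om * Real.sqrt h) (by positivity)
  have t4 := sum_bin (2 * h)
  rw [t4] at hsum
  -- the tail terms
  have u1 : 2 * Real.exp (-((0.2 * (h:ℝ)) ^ 2) / (2 * ((2 * h : ℕ) : ℝ))) ≤ 2 / 5 * (C / (n:ℝ) ^ A) := by
    have e1' : -((0.2 * (h:ℝ)) ^ 2) / (2 * ((2 * h : ℕ) : ℝ)) = -(h / 100) := by
      push_cast
      field_simp
      ring
    rw [e1']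
    have h1 : Real.exp (-((h:ℝ) / 100)) ≤ (Real.exp (-(e1 / 100))) ^ n := by
      rw [← Real.exp_nat_mul]
      apply Real.exp_le_exp.mpr
      linarith
    have h2 : (Real.exp (-(e1 / 100))) ^ n ≤ 1 / 5 * (C / (n:ℝ) ^ A) := by
      rw [← mul_div_assoc, le_div_iff₀ hnA]
      nlinarith
    linarith
  have u2 : 2 * Real.exp (-((2 * om * Real.sqrt h) ^ 2) / (2 * ((2 * h : ℕ) : ℝ))) =
      2 * Real.exp (-om ^ 2) := by
    congr 2
    push_cast
    rw [mul_pow, Real.sq_sqrt (by positivity)]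
    field_simp
  rw [u2] at t2
  have v1 : Ca = M * (C / (n:ℝ) ^ A) := by rw [hCa]; ring
  obtain ⟨Q, hQ⟩ : ∃ Q : ℝ, Q = C / (n:ℝ) ^ A := ⟨_, rfl⟩
  rw [← hQ] at v1 u1 ⊢
  have hQ0 : 0 ≤ Q := by rw [hQ]; positivity
  have w2 : Ca * ∑ k ∈ (range (2 * h + 1)).filter
      (fun k : ℕ => 2 * om * Real.sqrt h ≤ |2 * (k:ℝ) - ((2 * h : ℕ) : ℝ)|), bin (2 * h) k ≤ 1 / 5 * Q := by
    calc _ ≤ Ca * (2 * Real.exp (-om ^ 2)) := by gcongr
      _ = (2 * Real.exp (-om ^ 2) * M) * Q := by rw [v1]; ring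
      _ ≤ 1 / 5 * Q := by gcongr
  have w3 : Ca * ∑ k ∈ (range (2 * h + 1)).filter (fun k : ℕ => |(k : ℝ) - h| ≤ om * Real.sqrt h ∧
        ∃ i < J, ∃ k' ≤ 2 * Ls H i, Col K₁ (Ls H i) (H i) (n - k - k')), bin (2 * h) k ≤ 1 / 5 * Q := by
    calc _ ≤ Ca * (1 / (5 * M)) := by gcongr
      _ = 1 / 5 * Q := by rw [v1]; field_simp
  have w4 : gam ^ J * Ca * 1 ≤ 1 / 5 * Q := by
    calc gam ^ J * Ca * 1 ≤ 1 / (5 * M) * Ca * 1 := by gcongr
      _ = 1 / 5 * Q := by rw [v1]; field_simp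
  linarith

end Pool.Agent.H30.PD
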