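import Pool.Agent.H30.PD.IterB
import Pool.Agent.H30.PD.Base
import Pool.Agent.H30.PD.ChildA
import Pool.Agent.H30.PD.ChildB

/-!
# JOB PD-MAIN. Many nodes for every `y`

Fix `l0 ≥ L0` (for both `iter` and `base`), `r` from `base`, `l1`, `c` from `iter`, `Λ0 = 2 l0 + 3`. Let `3 ∤ y`; by `child` (with `M = l0`) there are
`1 ≤ a ≤ 2 * 3^l0` and `m0` with `3 m0 + 1 = 2^a y`, `3^l0 ∣ m0 - r`. For `l' ≥ l1 + 2 * 3^l0 + …` large and `|2k' - l'| ≤ 2√l'` put `l = l' - a`,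
`k = k' - 1`; `|2k - l| ≤ 2√l' + a + 2 ≤ 3√l`. `iter` for `m0`: `cnt Λ0 l k m0 ≥ c 2^l/(3^k √l)`. Each word `p` counted gives
`m = (2^l m0 - p.2)/3^k` with `T^[l] m = m0` (`T_node`), so `T^[l'] m = y` (`T_child`, `Function.iterate_add_apply`); different `p` give different
`m`. `|3^k m| ≤ 2^l |m0| + Λ0 2^l`, `3 |m0| ≤ 2^a |y| + 1`, so `|3^(k') m| ≤ 2^l (2^a |y| + 1 + 3 Λ0) ≤ 2^(l') (|y| + 1 + 3 Λ0)`.
`2^l/3^k = 3 * 2^(-a) * 2^(l')/3^(k')`, `√l ≤ √l'`. So the constant is `c * 3 * 2^(-2 * 3^l0)` and `Λ = 3 Λ0 + 1`.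
-/

set_option autoImplicit false

namespace Pool.Agent.H30.PD

open Finset

theorem Main1_window {A a k' l' : ℕ} (_ha1 : 1 ≤ a) (ha : a ≤ A) (hl : 4 * (A + 2) ^ 2 ≤ l')
    (h : |2 * (k' : ℝ) - l'| ≤ 2 * Real.sqrt l') :
    1 ≤ k' ∧ |2 * ((k' - 1 : ℕ) : ℝ) - ((l' - a : ℕ) : ℝ)| ≤ 3 * Real.sqrt ((l' - a : ℕ) : ℝ) := by
  have hA : (0 : ℝ) ≤ A := Nat.cast_nonneg A
  have hl' : 4 * ((A : ℝ) + 2) ^ 2 ≤ l' := by exact_mod_cast hl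
  have haA : (a : ℝ) ≤ A := by exact_mod_cast ha
  have ha0 : (0 : ℝ) ≤ a := Nat.cast_nonneg a
  have hal : a ≤ l' := by nlinarith
  set s := Real.sqrt l' with hs
  have hs0 : 0 ≤ s := Real.sqrt_nonneg _
  have hss : s ^ 2 = l' := Real.sq_sqrt (Nat.cast_nonneg _)
  have hs2 : 2 * ((A : ℝ) + 2) ≤ s := by
    rw [hs]
    apply Real.le_sqrt_of_sq_le
    nlinarith
  have hk : 1 ≤ k' := by
    by_contra hc
    have hk0 : k' = 0 := by omega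
    subst hk0
    have h1 := (abs_le.1 h).1
    simp only [Nat.cast_zero, mul_zero, zero_sub, neg_le_neg_iff] at h1
    nlinarith
  refine ⟨hk, ?_⟩
  rw [Nat.cast_sub hk, Nat.cast_sub hal]
  have h3 : 2 * s + (A + 2) ≤ 3 * Real.sqrt ((l' : ℝ) - a) := by
    have h4 : (2 * s + (A + 2)) / 3 ≤ Real.sqrt ((l' : ℝ) - a) := by
      apply Real.le_sqrt_of_sq_le
      rw [← hss]
      nlinarith
    linarith
  have h5 := abs_le.1 h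
  push_cast
  rw [abs_le]
  constructor <;> linarith [h5.1, h5.2]

theorem main1 : ∃ (c Λ : ℝ) (l1 : ℕ), 0 < c ∧ 0 ≤ Λ ∧ ∀ y : ℤ, ¬ (3 : ℤ) ∣ y → ∀ l ≥ l1, ∀ k : ℕ,
    |2 * (k : ℝ) - l| ≤ 2 * Real.sqrt l → ∃ s : Finset ℤ,
      c * 2 ^ l / (3 ^ k * Real.sqrt l) ≤ (s.card : ℝ) ∧
      ∀ m ∈ s, T^[l] m = y ∧ (3 : ℝ) ^ k * |(m : ℝ)| ≤ 2 ^ l * (|(y : ℝ)| + Λ) := by
  classical
  obtain ⟨Li, ci, hci, hiter⟩ := iter
  obtain ⟨Lb, hbase⟩ := base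
  set l0 : ℕ := max Li Lb with hl0
  obtain ⟨l1, hiter1⟩ := hiter l0 (le_max_left _ _)
  obtain ⟨r, hr⟩ := hbase l0 (le_max_right _ _)
  set A : ℕ := 2 * 3 ^ l0 with hA
  have hΛ0 : (0 : ℝ) ≤ 2 * (l0 : ℝ) + 3 := by positivity
  refine ⟨3 * ci / 2 ^ A, 3 * (2 * (l0 : ℝ) + 3) + 1, max (l1 + A) (4 * (A + 2) ^ 2), by positivity,
    by positivity, ?_⟩
  intro y hy l' hl' k' hk'
  obtain ⟨a, m0, ha1, haA, hm0, hdvd⟩ := child l0 r y hy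
  have hl'1 : l1 + A ≤ l' := (le_max_left _ _).trans hl'
  have hl'2 : 4 * (A + 2) ^ 2 ≤ l' := (le_max_right _ _).trans hl'
  obtain ⟨hk1, hwin⟩ := Main1_window ha1 haA hl'2 hk'
  obtain ⟨k, rfl⟩ : ∃ k, k' = k + 1 := ⟨k' - 1, by omega⟩
  obtain ⟨l, rfl⟩ : ∃ l, l' = a + l := ⟨l' - a, by omega⟩
  rw [Nat.add_sub_cancel, Nat.add_sub_cancel_left] at hwin
  have hcnt := hiter1 m0 (hr m0 hdvd) l (by omega) k hwin
  set F := (D l).filter fun p => p.1 = k ∧ (3 : ℤ) ^ k ∣ 2 ^ l * m0 - p.2 ∧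
    (p.2 : ℝ) ≤ (2 * (l0 : ℝ) + 3) * 2 ^ l with hF
  have hFc : cnt (2 * l0 + 3) l k m0 = F.card := by
    unfold cnt
    rw [hF]
  have hp3 : (0 : ℤ) < 3 ^ k := by positivity
  have hinj : Set.InjOn (fun p : ℕ × ℕ => (2 ^ l * m0 - (p.2 : ℤ)) / 3 ^ k) F := by
    intro p hp q hq hpq
    rw [hF, mem_coe, mem_filter] at hp hq
    obtain ⟨_, hp1, hp2, _⟩ := hp
    obtain ⟨_, hq1, hq2, _⟩ := hq
    simp only at hpq
    have e := (Int.ediv_mul_cancel hp2).symm.trans ((congrArg (· * (3 : ℤ) ^ k) hpq).trans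
      (Int.ediv_mul_cancel hq2))
    have e2 : (p.2 : ℤ) = q.2 := by linarith
    exact Prod.ext (hp1.trans hq1.symm) (by exact_mod_cast e2)
  refine ⟨F.image fun p => (2 ^ l * m0 - (p.2 : ℤ)) / 3 ^ k, ?_, ?_⟩
  · rw [Finset.card_image_of_injOn hinj, ← hFc]
    refine le_trans ?_ hcnt
    rcases Nat.eq_zero_or_pos l with hl00 | hlpos
    · exfalso
      have : 4 * (A + 2) ^ 2 ≤ a := by omega
      nlinarith
    have hlR : (0 : ℝ) < l := by exact_mod_cast hlpos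
    have hsl : 0 < Real.sqrt l := Real.sqrt_pos.2 hlR
    have hsl' : Real.sqrt l ≤ Real.sqrt ((a + l : ℕ) : ℝ) := by
      apply Real.sqrt_le_sqrt
      push_cast
      linarith [(Nat.cast_nonneg a : (0 : ℝ) ≤ a)]
    have h2 : (2 : ℝ) ^ a ≤ 2 ^ A := pow_le_pow_right₀ (by norm_num) haA
    calc 3 * ci / 2 ^ A * 2 ^ (a + l) / (3 ^ (k + 1) * Real.sqrt ((a + l : ℕ) : ℝ))
        = ci * 2 ^ l * (2 ^ a / 2 ^ A) / (3 ^ k * Real.sqrt ((a + l : ℕ) : ℝ)) := by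
          rw [pow_add, pow_succ]
          field_simp
      _ ≤ ci * 2 ^ l * 1 / (3 ^ k * Real.sqrt l) := by
          apply div_le_div₀ (by positivity) _ (by positivity) _
          · apply mul_le_mul_of_nonneg_left _ (by positivity)
            rw [div_le_one (by positivity)]
            exact h2
          · exact mul_le_mul_of_nonneg_left hsl' (by positivity)
      _ = ci * 2 ^ l / (3 ^ k * Real.sqrt l) := by rw [mul_one]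
  · intro m hm
    obtain ⟨p, hp, rfl⟩ := Finset.mem_image.1 hm
    rw [hF, mem_filter] at hp
    obtain ⟨hpD, hp1, hp2, hp3'⟩ := hp
    set m := (2 ^ l * m0 - (p.2 : ℤ)) / 3 ^ k with hmdef
    have e1 : (3 : ℤ) ^ k * m = 2 ^ l * m0 - p.2 := Int.mul_ediv_cancel' hp2
    have e2 : T^[l] m = m0 := T_node hpD (by rw [hp1]; exact e1)
    refine ⟨?_, ?_⟩
    · rw [Function.iterate_add_apply, e2]
      exact T_child ha1 hm0
    · have e1R : (3 : ℝ) ^ k * (m : ℝ) = 2 ^ l * (m0 : ℝ) - p.2 := by exact_mod_cast e1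
      have hm0R : 3 * (m0 : ℝ) + 1 = 2 ^ a * (y : ℝ) := by exact_mod_cast hm0
      have b1 : 3 * |(m0 : ℝ)| ≤ 2 ^ a * |(y : ℝ)| + 1 := by
        have : 3 * (m0 : ℝ) = 2 ^ a * (y : ℝ) - 1 := by linarith
        calc 3 * |(m0 : ℝ)| = |3 * (m0 : ℝ)| := by rw [abs_mul]; norm_num
          _ = |2 ^ a * (y : ℝ) - 1| := by rw [this]
          _ ≤ |2 ^ a * (y : ℝ)| + |(1 : ℝ)| := abs_sub _ _
          _ = 2 ^ a * |(y : ℝ)| + 1 := by rw [abs_mul, abs_one, abs_of_pos (by positivity : (0 : ℝ) < 2 ^ a)]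
      have b2 : 3 ^ k * |(m : ℝ)| ≤ 2 ^ l * |(m0 : ℝ)| + (2 * (l0 : ℝ) + 3) * 2 ^ l := by
        calc 3 ^ k * |(m : ℝ)| = |3 ^ k * (m : ℝ)| := by
              rw [abs_mul, abs_of_pos (by positivity : (0 : ℝ) < 3 ^ k)]
          _ = |2 ^ l * (m0 : ℝ) - p.2| := by rw [e1R]
          _ ≤ |2 ^ l * (m0 : ℝ)| + |(p.2 : ℝ)| := abs_sub _ _
          _ = 2 ^ l * |(m0 : ℝ)| + p.2 := by
              rw [abs_mul, abs_of_pos (by positivity : (0 : ℝ) < 2 ^ l),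
                abs_of_nonneg (Nat.cast_nonneg p.2 : (0 : ℝ) ≤ (p.2 : ℝ))]
          _ ≤ _ := by linarith
      have h2a : (1 : ℝ) ≤ 2 ^ a := one_le_pow₀ (by norm_num)
      have h2l : (0 : ℝ) < 2 ^ l := by positivity
      have h6 : 2 ^ l * (3 * |(m0 : ℝ)|) ≤ 2 ^ l * (2 ^ a * |(y : ℝ)| + 1) :=
        mul_le_mul_of_nonneg_left b1 h2l.le
      have h7 : 1 * (3 * (2 * (l0 : ℝ) + 3) + 1) ≤ 2 ^ a * (3 * (2 * (l0 : ℝ) + 3) + 1) :=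
        mul_le_mul_of_nonneg_right h2a (by positivity)
      have h8 := mul_le_mul_of_nonneg_left h7 h2l.le
      calc (3 : ℝ) ^ (k + 1) * |(m : ℝ)| = 3 * (3 ^ k * |(m : ℝ)|) := by rw [pow_succ]; ring
        _ ≤ 3 * (2 ^ l * |(m0 : ℝ)| + (2 * (l0 : ℝ) + 3) * 2 ^ l) := by linarith
        _ = 2 ^ l * (3 * |(m0 : ℝ)|) + 3 * (2 * (l0 : ℝ) + 3) * 2 ^ l := by ring
        _ ≤ 2 ^ l * (2 ^ a * |(y : ℝ)| + 1) + 3 * (2 * (l0 : ℝ) + 3) * 2 ^ l := by linarith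
        _ = 2 ^ l * (2 ^ a * |(y : ℝ)|) + 2 ^ l * (1 * (3 * (2 * (l0 : ℝ) + 3) + 1)) := by ring
        _ ≤ 2 ^ l * (2 ^ a * |(y : ℝ)|) + 2 ^ l * (2 ^ a * (3 * (2 * (l0 : ℝ) + 3) + 1)) := by linarith
        _ = 2 ^ (a + l) * (|(y : ℝ)| + (3 * (2 * (l0 : ℝ) + 3) + 1)) := by rw [pow_add]; ring

end Pool.Agent.H30.PD
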