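import Pool.Agent.H30.PD.MixB
import Pool.Agent.H30.PD.FD

/-!
# Mixing

Proof. Given `B`, take `A = 2B + 3` and `C` from `fourier_decay`. Let `a = ⌈8q/5⌉` or that plus one, so that `L - a = 2t` is even
(`10 L ≥ 17 q` gives `L ≥ a`); `3^q ≤ 2^a` as `3^5 ≤ 2^8`. `lam = q^(B+2)`, good words `S = {p ∈ D a : p.2 ≤ lam 2^a, 25 p.1 ≤ 22 q}`,
`n0 = q/25` (so `25 (p.1 + n0) ≤ 23 q ≤ 25 r`). `V = C/n0^A` (`w ≤ C/n^A` and `n ≥ n0`). `mean_good` for `S`, `mean_ggS_le` for the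
complement: its size is at most `a/(4 lam) 2^a` (`card_large_c`) plus the number of words with `25 p.1 > 22 q`: then
`2 p.1 - a ≥ q/10` and `bin_tail` (`card_filter_fst`) gives `≤ 2 exp(-q/400) 2^a`.
-/

set_option autoImplicit false

namespace Pool.Agent.H30.PD

open Finset

lemma mix_cut {q L : ℕ} (hq : 18 ≤ q) (hL : 17 * q ≤ 10 * L) :
    ∃ a t : ℕ, a + 2 * t = L ∧ 8 * q ≤ 5 * a ∧ 5 * a ≤ 8 * q + 9 := by
  have h1 : (8 * q + 4) / 5 + 1 ≤ L := by omega
  rcases Nat.even_or_odd (L - (8 * q + 4) / 5) with ⟨t, ht⟩ | ⟨t, ht⟩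
  · exact ⟨(8 * q + 4) / 5, t, by omega, by omega, by omega⟩
  · exact ⟨(8 * q + 4) / 5 + 1, t, by omega, by omega, by omega⟩

lemma mix_pow {q a : ℕ} (h : 8 * q ≤ 5 * a) : 3 ^ q ≤ 2 ^ a := by
  by_contra hcon
  push Not at hcon
  have h1 : (2 ^ a) ^ 5 < (3 ^ q) ^ 5 := Nat.pow_lt_pow_left hcon (by norm_num)
  have h2 : (3 ^ q) ^ 5 ≤ (2 ^ a) ^ 5 := by
    calc (3 ^ q) ^ 5 = (3 ^ 5) ^ q := by rw [← pow_mul, ← pow_mul, mul_comm]
      _ ≤ (2 ^ 8) ^ q := Nat.pow_le_pow_left (by norm_num) q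
      _ = 2 ^ (8 * q) := by rw [← pow_mul]
      _ ≤ 2 ^ (5 * a) := Nat.pow_le_pow_right (by norm_num) h
      _ = (2 ^ a) ^ 5 := by rw [← pow_mul, mul_comm]
  omega

open Classical in
/-- the number of words with many heads -/
lemma mix_heads {q a : ℕ} (hq : 30 ≤ q) (ha : 5 * a ≤ 8 * q + 9) (ha' : 8 * q ≤ 5 * a) :
    (((D a).filter fun p => 22 * q < 25 * p.1).card : ℝ) ≤ 2 * Real.exp (-(q : ℝ) / 400) * 2 ^ a := by
  have h1 : ((D a).filter fun p => 22 * q < 25 * p.1).card =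
      ∑ k ∈ (range (a + 1)).filter (fun k => 22 * q < 25 * k), a.choose k := by
    have hm : ∀ p ∈ (D a).filter (fun p => 22 * q < 25 * p.1),
        p.1 ∈ (range (a + 1)).filter (fun k => 22 * q < 25 * k) := by
      intro p hp
      rw [mem_filter] at hp
      rw [mem_filter, mem_range]
      exact ⟨by have := D_le hp.1; omega, hp.2⟩
    rw [card_eq_sum_card_fiberwise hm]
    refine sum_congr rfl fun k hk => ?_
    rw [mem_filter] at hk
    rw [← card_filter_fst, filter_filter]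
    congr 1
    refine filter_congr fun p _ => ?_
    constructor
    · rintro ⟨_, h⟩
      exact h
    · intro h
      exact ⟨by rw [h]; exact hk.2, h⟩
  have h2 : (((D a).filter fun p => 22 * q < 25 * p.1).card : ℝ) =
      (∑ k ∈ (range (a + 1)).filter (fun k => 22 * q < 25 * k), bin a k) * 2 ^ a := by
    rw [h1, sum_mul]
    push_cast
    refine sum_congr rfl fun k _ => ?_
    unfold bin
    field_simp
  rw [h2]
  refine mul_le_mul_of_nonneg_right ?_ (by positivity)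
  have hqR : (30 : ℝ) ≤ q := by exact_mod_cast hq
  have haR : 5 * (a : ℝ) ≤ 8 * q + 9 := by exact_mod_cast ha
  have haR' : 8 * (q : ℝ) ≤ 5 * a := by exact_mod_cast ha'
  have h3 : ∑ k ∈ (range (a + 1)).filter (fun k => 22 * q < 25 * k), bin a k ≤
      ∑ k ∈ (range (a + 1)).filter (fun k : ℕ => (q : ℝ) / 10 ≤ |2 * (k : ℝ) - a|), bin a k := by
    refine sum_le_sum_of_subset_of_nonneg ?_ fun k _ _ => bin_nonneg a k
    intro k hk
    rw [mem_filter] at hk ⊢
    refine ⟨hk.1, ?_⟩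
    have hkR : 22 * (q : ℝ) < 25 * k := by exact_mod_cast hk.2
    refine le_trans ?_ (le_abs_self _)
    linarith
  refine h3.trans ((bin_tail (n := a) (by omega) (x := (q : ℝ) / 10) (by positivity)).trans ?_)
  refine mul_le_mul_of_nonneg_left ?_ (by norm_num)
  rw [Real.exp_le_exp]
  have ha0 : (0 : ℝ) < a := by linarith
  have ha2 : (a : ℝ) ≤ 2 * q := by linarith
  rw [div_le_div_iff₀ (by positivity) (by norm_num)]
  nlinarith

theorem mix (B : ℕ) : ∃ q0 : ℕ, ∀ q r L : ℕ, q0 ≤ q → r ≤ q → 23 * q ≤ 25 * r → 17 * q ≤ 10 * L →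
    (∑ u ∈ range (3 ^ q), |gg L q r u|) / 3 ^ q ≤ 1 / (q : ℝ) ^ B := by
  classical
  obtain ⟨C, hC0, hC⟩ := fourier_decay (2 * B + 3)
  -- the exponential term
  have hexp : ∃ q1 : ℕ, ∀ q : ℕ, q1 ≤ q → 4 * Real.exp (-(q : ℝ) / 400) ≤ 1 / 4 * (1 / (q : ℝ) ^ B) := by
    have h1 : Filter.Tendsto (fun x : ℝ => x ^ B * Real.exp (-x)) Filter.atTop (nhds 0) :=
      Real.tendsto_pow_mul_exp_neg_atTop_nhds_zero B
    have h2 : Filter.Tendsto (fun q : ℕ => (q : ℝ) / 400) Filter.atTop Filter.atTop :=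
      tendsto_natCast_atTop_atTop.atTop_div_const (by norm_num)
    have h3 := h1.comp h2
    have h4 : ∀ᶠ q : ℕ in Filter.atTop, ((q : ℝ) / 400) ^ B * Real.exp (-((q : ℝ) / 400)) <
        1 / 16 * (1 / 400 ^ B) := by
      have := h3.eventually_lt_const (show (0 : ℝ) < 1 / 16 * (1 / 400 ^ B) by positivity)
      exact this
    obtain ⟨q1, hq1⟩ := Filter.eventually_atTop.mp h4
    refine ⟨max q1 1, fun q hq => ?_⟩
    have h5 := hq1 q ((le_max_left _ _).trans hq)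
    have hq0 : (0 : ℝ) < q := by
      have : 1 ≤ q := (le_max_right _ _).trans hq
      exact_mod_cast this
    have h6 : -(q : ℝ) / 400 = -((q : ℝ) / 400) := by ring
    rw [h6]
    rw [div_pow] at h5
    have h7 : (q : ℝ) ^ B * Real.exp (-((q : ℝ) / 400)) ≤ 1 / 16 := by
      have h8 : (0 : ℝ) < 400 ^ B := by positivity
      have h9 : (q : ℝ) ^ B / 400 ^ B * Real.exp (-((q : ℝ) / 400)) * 400 ^ B <
          1 / 16 * (1 / 400 ^ B) * 400 ^ B := mul_lt_mul_of_pos_right h5 h8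
      have h10 : (q : ℝ) ^ B / 400 ^ B * Real.exp (-((q : ℝ) / 400)) * 400 ^ B =
          (q : ℝ) ^ B * Real.exp (-((q : ℝ) / 400)) := by field_simp
      have h11 : (1 : ℝ) / 16 * (1 / 400 ^ B) * 400 ^ B = 1 / 16 := by field_simp
      rw [h10, h11] at h9
      exact h9.le
    have hqB : (0 : ℝ) < (q : ℝ) ^ B := by positivity
    rw [← div_eq_mul_one_div, le_div_iff₀ hqB]
    linarith
  obtain ⟨q1, hq1⟩ := hexp
  obtain ⟨q2, hq2⟩ := exists_nat_ge (12 * C * 50 ^ (2 * B + 3))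
  refine ⟨max (max q1 q2) 30, fun q r L hq hr h23 h17 => ?_⟩
  have hqq1 : q1 ≤ q := (le_max_left _ _).trans ((le_max_left _ _).trans hq)
  have hqq2 : q2 ≤ q := (le_max_right _ _).trans ((le_max_left _ _).trans hq)
  have hq30 : 30 ≤ q := (le_max_right _ _).trans hq
  obtain ⟨a, t, hat, ha1, ha2⟩ := mix_cut (by omega : 18 ≤ q) h17
  have h3 : 3 ^ q ≤ 2 ^ a := mix_pow ha1
  have hqR : (30 : ℝ) ≤ q := by exact_mod_cast hq30
  have hq0 : (0 : ℝ) < q := by linarith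
  have haR : 5 * (a : ℝ) ≤ 8 * q + 9 := by exact_mod_cast ha2
  have ha2q : (a : ℝ) + 1 ≤ 2 * q := by linarith
  set lam : ℝ := (q : ℝ) ^ (B + 2) with hlam
  have hlam0 : 0 < lam := by positivity
  have hlam1 : 1 ≤ lam := one_le_pow₀ (by linarith)
  set n0 : ℕ := q / 25 with hn0
  have hn1 : 1 ≤ n0 := by omega
  have hn50 : q ≤ 50 * n0 := by omega
  set S : Finset (ℕ × ℕ) := (D a).filter fun p => (p.2 : ℝ) ≤ lam * 2 ^ a ∧ 25 * p.1 ≤ 22 * q with hS
  set V : ℝ := C / (n0 : ℝ) ^ (2 * B + 3) with hV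
  have hn0R : (1 : ℝ) ≤ n0 := by exact_mod_cast hn1
  have hV0 : 0 ≤ V := by positivity
  -- good words
  have hgood := mean_good (a := a) (t := t) (q := q) (r := r) (n0 := n0) (lam := lam) (V := V)
    hlam0.le hV0 hr h3 S (filter_subset _ _)
    (fun p hp => (mem_filter.mp hp).2.1)
    (fun p hp => by have := (mem_filter.mp hp).2.2; omega)
    (fun ξ hξ n hn hn1' => by
      refine (hC ξ hξ t n hn1').trans ?_
      refine div_le_div_of_nonneg_left hC0.le (by positivity) ?_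
      exact pow_le_pow_left₀ (by positivity) (by exact_mod_cast hn) _)
  -- bad words
  have hbad := mean_ggS_le (a := a) (b := 2 * t) (q := q) (r := r) hr (D a \ S)
  have hbadcard : ((D a \ S).card : ℝ) ≤ (a / (4 * lam) + 2 * Real.exp (-(q : ℝ) / 400)) * 2 ^ a := by
    have hsub : D a \ S ⊆ ((D a).filter fun p => lam * 2 ^ a < (p.2 : ℝ)) ∪
        ((D a).filter fun p => 22 * q < 25 * p.1) := by
      intro p hp
      rw [mem_sdiff, hS, mem_filter] at hp
      rw [mem_union, mem_filter, mem_filter]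
      by_cases h : lam * 2 ^ a < (p.2 : ℝ)
      · exact Or.inl ⟨hp.1, h⟩
      · right
        refine ⟨hp.1, ?_⟩
        by_contra hcon
        exact hp.2 ⟨hp.1, not_lt.mp h, not_lt.mp hcon⟩
    have h5 : ((D a \ S).card : ℝ) ≤ (((D a).filter fun p => lam * 2 ^ a < (p.2 : ℝ)).card : ℝ) +
        (((D a).filter fun p => 22 * q < 25 * p.1).card : ℝ) := by
      exact_mod_cast (card_le_card hsub).trans (card_union_le _ _)
    have h6 := card_large_c a lam hlam0
    have h7 := mix_heads hq30 ha2 ha1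
    rw [add_mul]
    linarith
  have hbad2 : 2 * ((D a \ S).card : ℝ) / 2 ^ a ≤ 1 / 4 * (1 / (q : ℝ) ^ B) + 1 / 4 * (1 / (q : ℝ) ^ B) := by
    have h2a : (0 : ℝ) < 2 ^ a := by positivity
    have h8 : 2 * ((D a \ S).card : ℝ) / 2 ^ a ≤ 2 * (a / (4 * lam) + 2 * Real.exp (-(q : ℝ) / 400)) := by
      rw [div_le_iff₀ h2a]
      nlinarith
    have h9 : 2 * ((a : ℝ) / (4 * lam)) ≤ 1 / 4 * (1 / (q : ℝ) ^ B) := by
      have h10 : 2 * ((a : ℝ) / (4 * lam)) = (a / (2 * (q : ℝ) ^ 2)) * (1 / (q : ℝ) ^ B) := by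
        rw [hlam, pow_add]
        field_simp
        ring
      rw [h10]
      refine mul_le_mul_of_nonneg_right ?_ (by positivity)
      rw [div_le_iff₀ (by positivity)]
      nlinarith
    have h11 := hq1 q hqq1
    linarith
  have hgood2 : Real.sqrt ((a + 1) * (lam + 1)) * V ≤ 1 / 4 * (1 / (q : ℝ) ^ B) := by
    have h12 : Real.sqrt ((a + 1) * (lam + 1)) ≤ 3 * (q : ℝ) ^ (B + 2) := by
      rw [Real.sqrt_le_left (by positivity)]
      have h13 : ((a : ℝ) + 1) * (lam + 1) ≤ 2 * q * (2 * lam) :=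
        mul_le_mul ha2q (by linarith) (by positivity) (by positivity)
      refine h13.trans ?_
      have h14 : (q : ℝ) ≤ lam := by
        rw [hlam]
        calc (q : ℝ) = (q : ℝ) ^ 1 := (pow_one _).symm
          _ ≤ (q : ℝ) ^ (B + 2) := pow_le_pow_right₀ (by linarith) (by omega)
      rw [← hlam]
      nlinarith
    have h15 : V ≤ C * 50 ^ (2 * B + 3) / (q : ℝ) ^ (2 * B + 3) := by
      rw [hV, div_le_div_iff₀ (by positivity) (by positivity)]
      have h16 : (q : ℝ) ^ (2 * B + 3) ≤ (50 * (n0 : ℝ)) ^ (2 * B + 3) :=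
        pow_le_pow_left₀ hq0.le (by exact_mod_cast hn50) _
      rw [mul_pow] at h16
      have := mul_le_mul_of_nonneg_left h16 hC0.le
      linarith
    have h17' : 12 * C * 50 ^ (2 * B + 3) ≤ q := hq2.trans (by exact_mod_cast hqq2)
    calc Real.sqrt ((a + 1) * (lam + 1)) * V ≤
        (3 * (q : ℝ) ^ (B + 2)) * (C * 50 ^ (2 * B + 3) / (q : ℝ) ^ (2 * B + 3)) :=
          mul_le_mul h12 h15 hV0 (by positivity)
      _ = (12 * C * 50 ^ (2 * B + 3)) / 4 * ((q : ℝ) ^ (B + 2) / (q : ℝ) ^ (2 * B + 3)) := by ring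
      _ ≤ q / 4 * ((q : ℝ) ^ (B + 2) / (q : ℝ) ^ (2 * B + 3)) := by
          refine mul_le_mul_of_nonneg_right (by linarith) (by positivity)
      _ = 1 / 4 * (1 / (q : ℝ) ^ B) := by
          have h18 : (q : ℝ) ^ (2 * B + 3) = (q : ℝ) ^ (B + 2) * (q : ℝ) * (q : ℝ) ^ B := by ring
          rw [h18]
          field_simp
  -- combine
  have hsum : (∑ u ∈ range (3 ^ q), |gg L q r u|) / 3 ^ q ≤
      (∑ u ∈ range (3 ^ q), |ggS a (2 * t) q r S u|) / 3 ^ q +
      (∑ u ∈ range (3 ^ q), |ggS a (2 * t) q r (D a \ S) u|) / 3 ^ q := by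
    rw [← add_div, ← sum_add_distrib]
    refine div_le_div_of_nonneg_right (sum_le_sum fun u _ => ?_) (by positivity)
    have h19 : gg L q r (u : ℤ) = ggS a (2 * t) q r S u + ggS a (2 * t) q r (D a \ S) u := by
      rw [← hat, gg_eq_ggS, ← ggS_union _ _ _ _ _ _ disjoint_sdiff]
      congr 1
      rw [union_sdiff_of_subset (filter_subset _ _)]
    rw [h19]
    exact abs_add_le _ _
  have hpos : (0 : ℝ) ≤ 1 / (q : ℝ) ^ B := by positivity
  linarith

end Pool.Agent.H30.PD
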