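import Pool.Agent.H30.PD.MixA

/-!
# JOB PD-MIXB. `L²` bound for good words

Proof. Let `ξ < 3^q`, `3^(q-r) ∤ ξ`; write `ξ = 3^v ξ₁`, `v < q - r`, `3 ∤ ξ₁` (`ξ ≠ 0`). For `x = (p, p')`, `p.1 + p'.1 = q`,
`(comp (2t) p p').2 = 4^t p.2 + 3^(p.1) p'.2`, so
`ee(-ξ c/3^q) = ee(-ξ 4^t p.2/3^q) * ee((-ξ₁) p'.2/3^(q-v-p.1))`, where `n0 < q - v - p.1 ≤ q - p.1` since `p.1 + n0 ≤ r < q - v`.
For given `p` the sum over `p' ∈ D (2t)`, `p'.1 = q - p.1` is at most `4^t w (-ξ₁) t (q-v-p.1) ≤ 4^t V` (`exp_sum`) and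
depends only on `i = p.1`. So `‖∑_u ggS ee‖ ≤ 3^q/2^(a+2t) * ∑_{i ≤ a} ‖X_i(ξ)‖ 4^t V`, `X_i(ξ) = ∑_{p ∈ S, p.1 = i} ee(-ξ 4^t p.2/3^q)`.
Cauchy-Schwarz over `i ∈ range (a+1)`, `parseval_pts` with `c_p = 4^t p.2` (`3^q ∣ 4^t(c - c')` iff `3^q ∣ c - c'`): the number of pairs
`(p, p')` in `S` with `p.1 = p'.1 = i` and `3^q ∣ p.2 - p'.2` is at most `|S_i| * (lam 2^a/3^q + 1)` (for given `p` the numbers `p'.2`
are distinct elements of one residue class mod `3^q` in `[0, lam 2^a]`), `∑ |S_i| ≤ |D a| = 2^a`. With `parseval_fun`: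
`mean ggS² ≤ 4^(-a) V² (a+1) 3^q 2^a (lam 2^a/3^q + 1) = V² (a+1) (lam + 3^q/2^a) ≤ V² (a+1)(lam+1)`. Finally
`mean |ggS| ≤ sqrt (mean ggS²)`.
-/

set_option autoImplicit false

namespace Pool.Agent.H30.PD

open Finset

/-- the partial exponential sum over the good words with `i` heads -/
noncomputable def mixB_X (S : Finset (ℕ × ℕ)) (t q i ξ : ℕ) : ℂ :=
  ∑ p ∈ S.filter (fun p => p.1 = i), ee (-((ξ : ℝ) * ((4 ^ t * (p.2 : ℤ) : ℤ) : ℝ) / (3 ^ q : ℕ)))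

/-- the bound for the Fourier coefficient at a frequency `ξ` -/
theorem mixB_inner {a t q r n0 : ℕ} {V : ℝ} (hr : r ≤ q) (S : Finset (ℕ × ℕ)) (hS : S ⊆ D a)
    (hk : ∀ p ∈ S, p.1 + n0 ≤ r)
    (hV : ∀ ξ : ℤ, ¬ (3 : ℤ) ∣ ξ → ∀ n, n0 ≤ n → 1 ≤ n → w ξ t n ≤ V) (ξ : ℕ)
    (hξ : ¬ 3 ^ (q - r) ∣ ξ) :
    ‖∑ x ∈ (S ×ˢ D (2 * t)).filter (fun x => x.1.1 + x.2.1 = q),
        ee (-((ξ : ℝ) * (comp (2 * t) x.1 x.2).2 / 3 ^ q))‖ ≤
      ∑ i ∈ range (a + 1), ‖mixB_X S t q i ξ‖ * (4 ^ t * V) := by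
  have hξ0 : ξ ≠ 0 := by
    rintro rfl
    exact hξ (dvd_zero _)
  obtain ⟨v, ξ₁, hξ1, hξe⟩ := Nat.exists_eq_pow_mul_and_not_dvd hξ0 3 (by norm_num)
  have hv : v < q - r := by
    by_contra hcon
    push Not at hcon
    exact hξ (hξe ▸ Dvd.dvd.mul_right (pow_dvd_pow 3 hcon) ξ₁)
  have hξ1' : ¬ (3 : ℤ) ∣ -(ξ₁ : ℤ) := by
    rw [dvd_neg]
    exact_mod_cast hξ1
  set W : ℕ → ℂ := fun i => ∑ p' ∈ (D (2 * t)).filter (fun p' => p'.1 = q - i),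
    ee (-((ξ : ℝ) * 3 ^ i * (p'.2 : ℝ) / 3 ^ q)) with hW
  have h1 : ∑ x ∈ (S ×ˢ D (2 * t)).filter (fun x => x.1.1 + x.2.1 = q),
        ee (-((ξ : ℝ) * (comp (2 * t) x.1 x.2).2 / 3 ^ q)) =
      ∑ p ∈ S, ee (-((ξ : ℝ) * ((4 ^ t * (p.2 : ℤ) : ℤ) : ℝ) / (3 ^ q : ℕ))) * W p.1 := by
    rw [sum_filter, sum_product]
    refine sum_congr rfl fun p hp => ?_
    rw [hW, mul_sum, sum_filter]
    refine sum_congr rfl fun p' _ => ?_
    have hpq : p.1 ≤ q := by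
      have := hk p hp
      omega
    have hiff : p.1 + p'.1 = q ↔ p'.1 = q - p.1 := by omega
    by_cases hc : p.1 + p'.1 = q
    · rw [if_pos hc, if_pos (hiff.1 hc), ← ee_add]
      congr 1
      simp only [comp]
      push_cast
      rw [pow_mul]
      norm_num
      ring
    · rw [if_neg hc, if_neg (fun h => hc (hiff.2 h))]
  have hmaps : ∀ p ∈ S, p.1 ∈ range (a + 1) := fun p hp =>
    mem_range.2 (Nat.lt_succ_of_le (D_le (hS hp)))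
  have h2 : ∑ p ∈ S, ee (-((ξ : ℝ) * ((4 ^ t * (p.2 : ℤ) : ℤ) : ℝ) / (3 ^ q : ℕ))) * W p.1 =
      ∑ i ∈ range (a + 1), mixB_X S t q i ξ * W i := by
    rw [← sum_fiberwise_of_maps_to hmaps]
    refine sum_congr rfl fun i _ => ?_
    rw [mixB_X, sum_mul]
    refine sum_congr rfl fun p hp => ?_
    rw [(mem_filter.1 hp).2]
  rw [h1, h2]
  refine (norm_sum_le _ _).trans (sum_le_sum fun i _ => ?_)
  rw [norm_mul]
  by_cases hne : (S.filter (fun p => p.1 = i)).Nonempty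
  · obtain ⟨p, hp⟩ := hne
    obtain ⟨hpS, hpi⟩ := mem_filter.1 hp
    have hki := hk p hpS
    rw [hpi] at hki
    refine mul_le_mul_of_nonneg_left ?_ (norm_nonneg _)
    have hn1 : 1 ≤ q - v - i := by omega
    have hn0 : n0 ≤ q - v - i := by omega
    have hE := exp_sum (-(ξ₁ : ℤ)) t (q - i) (q - v - i) (by omega)
    have hVn := hV (-(ξ₁ : ℤ)) hξ1' (q - v - i) hn0 hn1
    have h3 : W i = ∑ p ∈ (D (2 * t)).filter (fun p => p.1 = q - i),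
        ee (((-(ξ₁ : ℤ) : ℤ) : ℝ) * (p.2 : ℝ) / 3 ^ (q - v - i)) := by
      rw [hW]
      refine sum_congr rfl fun p' _ => ?_
      congr 1
      have hq : (3 : ℝ) ^ q = 3 ^ (q - v - i) * 3 ^ v * 3 ^ i := by
        rw [← pow_add, ← pow_add]
        congr 1
        omega
      rw [hq, hξe]
      push_cast
      have e1 : (3 : ℝ) ^ (q - v - i) ≠ 0 := by positivity
      have e2 : (3 : ℝ) ^ v ≠ 0 := by positivity
      have e3 : (3 : ℝ) ^ i ≠ 0 := by positivity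
      field_simp
    rw [h3]
    refine hE.trans ?_
    exact mul_le_mul_of_nonneg_left hVn (by positivity)
  · rw [not_nonempty_iff_eq_empty] at hne
    rw [mixB_X, hne, sum_empty, norm_zero, zero_mul, zero_mul]

/-- few good words have constants in a given residue class -/
theorem mixB_class {a q i : ℕ} {lam : ℝ} (hlam : 0 ≤ lam) (S : Finset (ℕ × ℕ))
    (hc : ∀ p ∈ S, (p.2 : ℝ) ≤ lam * 2 ^ a) (t : ℕ) (p : ℕ × ℕ) :
    (((S.filter (fun p => p.1 = i)).filter (fun p' =>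
      ((3 ^ q : ℕ) : ℤ) ∣ 4 ^ t * (p.2 : ℤ) - 4 ^ t * (p'.2 : ℤ))).card : ℝ) ≤
      lam * 2 ^ a / 3 ^ q + 1 := by
  set A := (S.filter (fun p => p.1 = i)).filter (fun p' =>
      ((3 ^ q : ℕ) : ℤ) ∣ 4 ^ t * (p.2 : ℤ) - 4 ^ t * (p'.2 : ℤ)) with hA
  set m := ⌊lam * 2 ^ a / 3 ^ q⌋₊ with hm
  have h3 : (0 : ℝ) < 3 ^ q := by positivity
  have hmod : ∀ p' ∈ A, p'.2 % 3 ^ q = p.2 % 3 ^ q := by
    intro p' hp'
    have h1 := (mem_filter.1 hp').2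
    rw [← mul_sub] at h1
    have hcop : IsCoprime ((3 ^ q : ℕ) : ℤ) (4 ^ t : ℤ) := by
      push_cast
      exact IsCoprime.pow (by norm_num)
    have h2 := hcop.dvd_of_dvd_mul_left h1
    exact (Nat.modEq_iff_dvd.2 h2)
  have hcard : A.card ≤ (range (m + 1)).card := by
    refine card_le_card_of_injOn (fun p' => p'.2 / 3 ^ q) ?_ ?_
    · intro p' hp'
      have hp'S : p' ∈ S := (mem_filter.1 (mem_filter.1 hp').1).1
      rw [coe_range, Set.mem_Iio, Nat.lt_succ_iff, hm]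
      refine Nat.le_floor ?_
      refine (Nat.cast_div_le).trans ?_
      push_cast
      exact div_le_div_of_nonneg_right (hc p' hp'S) h3.le
    · intro p1 hp1 p2 hp2 heq
      have e1 := hmod p1 hp1
      have e2 := hmod p2 hp2
      have f1 := (mem_filter.1 (mem_filter.1 hp1).1).2
      have f2 := (mem_filter.1 (mem_filter.1 hp2).1).2
      simp only at heq
      refine Prod.ext (f1.trans f2.symm) ?_
      rw [← Nat.div_add_mod p1.2 (3 ^ q), ← Nat.div_add_mod p2.2 (3 ^ q), heq, e1, e2]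
  rw [card_range] at hcard
  calc (A.card : ℝ) ≤ ((m + 1 : ℕ) : ℝ) := by exact_mod_cast hcard
    _ = (m : ℝ) + 1 := by push_cast; ring
    _ ≤ lam * 2 ^ a / 3 ^ q + 1 := by
        have := Nat.floor_le (show 0 ≤ lam * 2 ^ a / 3 ^ q by positivity)
        linarith

/-- Parseval for the partial sums -/
theorem mixB_pars {a q i : ℕ} {lam : ℝ} (hlam : 0 ≤ lam) (S : Finset (ℕ × ℕ))
    (hc : ∀ p ∈ S, (p.2 : ℝ) ≤ lam * 2 ^ a) (t : ℕ) :
    ∑ ξ ∈ range (3 ^ q), ‖mixB_X S t q i ξ‖ ^ 2 ≤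
      3 ^ q * (((S.filter (fun p => p.1 = i)).card : ℝ) * (lam * 2 ^ a / 3 ^ q + 1)) := by
  simp only [mixB_X]
  rw [parseval_pts (N := 3 ^ q) (by positivity) (S.filter (fun p => p.1 = i))
    (fun p => 4 ^ t * (p.2 : ℤ))]
  push_cast
  refine mul_le_mul_of_nonneg_left ?_ (by positivity)
  set A := S.filter (fun p => p.1 = i) with hA
  have h1 : ((A ×ˢ A).filter fun x => (3 : ℤ) ^ q ∣ 4 ^ t * (x.1.2 : ℤ) - 4 ^ t * (x.2.2 : ℤ)).card =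
      ∑ p ∈ A, (A.filter fun p' => ((3 ^ q : ℕ) : ℤ) ∣
        4 ^ t * (p.2 : ℤ) - 4 ^ t * (p'.2 : ℤ)).card := by
    rw [card_filter, sum_product]
    refine sum_congr rfl fun p _ => ?_
    rw [card_filter]
    push_cast
    rfl
  rw [h1]
  push_cast
  have h2 : ∀ p ∈ A, ((A.filter fun p' => (3 : ℤ) ^ q ∣
        4 ^ t * (p.2 : ℤ) - 4 ^ t * (p'.2 : ℤ)).card : ℝ) ≤ lam * 2 ^ a / 3 ^ q + 1 := by
    intro p _
    have := mixB_class (i := i) (q := q) hlam S hc t p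
    push_cast at this
    exact this
  refine (sum_le_sum h2).trans ?_
  rw [sum_const, nsmul_eq_mul]

theorem mean_good {a t q r n0 : ℕ} {lam V : ℝ} (hlam : 0 ≤ lam) (hV0 : 0 ≤ V) (hr : r ≤ q)
    (h3 : 3 ^ q ≤ 2 ^ a) (S : Finset (ℕ × ℕ)) (hS : S ⊆ D a)
    (hc : ∀ p ∈ S, (p.2 : ℝ) ≤ lam * 2 ^ a) (hk : ∀ p ∈ S, p.1 + n0 ≤ r)
    (hV : ∀ ξ : ℤ, ¬ (3 : ℤ) ∣ ξ → ∀ n, n0 ≤ n → 1 ≤ n → w ξ t n ≤ V) :
    (∑ u ∈ range (3 ^ q), |ggS a (2 * t) q r S u|) / 3 ^ q ≤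
      Real.sqrt ((a + 1) * (lam + 1)) * V := by
  have h3q : (0 : ℝ) < 3 ^ q := by positivity
  have h2a : (0 : ℝ) < 2 ^ a := by positivity
  have h4t : (0 : ℝ) < 4 ^ t := by positivity
  set g : ℤ → ℝ := fun u => ggS a (2 * t) q r S u with hg
  set F : ℕ → ℝ := fun ξ => ‖∑ u ∈ range (3 ^ q), (g u : ℂ) *
    ee (-((ξ : ℝ) * u / (3 ^ q : ℕ)))‖ with hF
  set c0 : ℝ := 3 ^ q / 2 ^ a * V with hc0
  have hc00 : 0 ≤ c0 := by positivity
  have hFle : ∀ ξ : ℕ, F ξ ≤ c0 * ∑ i ∈ range (a + 1), ‖mixB_X S t q i ξ‖ := by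
    intro ξ
    have hsum0 : 0 ≤ ∑ i ∈ range (a + 1), ‖mixB_X S t q i ξ‖ := sum_nonneg fun _ _ => norm_nonneg _
    have hfour := fourier_ggS (a := a) (b := 2 * t) hr S ξ
    have hFe : F ξ = ‖if 3 ^ (q - r) ∣ ξ then (0 : ℂ) else
        3 ^ q / 2 ^ (a + 2 * t) * ∑ x ∈ (S ×ˢ D (2 * t)).filter (fun x => x.1.1 + x.2.1 = q),
          ee (-((ξ : ℝ) * (comp (2 * t) x.1 x.2).2 / 3 ^ q))‖ := by
      rw [← hfour, hF]
      simp only [hg]
      push_cast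
      rfl
    rw [hFe]
    by_cases hdv : 3 ^ (q - r) ∣ ξ
    · rw [if_pos hdv, norm_zero]
      exact mul_nonneg hc00 hsum0
    · rw [if_neg hdv, norm_mul]
      have h1 := mixB_inner hr S hS hk hV ξ hdv
      have h2 : ‖(3 ^ q / 2 ^ (a + 2 * t) : ℂ)‖ = 3 ^ q / (2 ^ a * 4 ^ t) := by
        rw [norm_div, norm_pow, norm_pow, pow_add, pow_mul]
        norm_num
      rw [h2]
      refine (mul_le_mul_of_nonneg_left h1 (by positivity)).trans (le_of_eq ?_)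
      rw [← sum_mul, hc0]
      field_simp
  have hFsq : ∀ ξ : ℕ, F ξ ^ 2 ≤ c0 ^ 2 * ((a + 1) * ∑ i ∈ range (a + 1),
      ‖mixB_X S t q i ξ‖ ^ 2) := by
    intro ξ
    have h1 := hFle ξ
    have h0 : 0 ≤ F ξ := norm_nonneg _
    have h2 : F ξ ^ 2 ≤ (c0 * ∑ i ∈ range (a + 1), ‖mixB_X S t q i ξ‖) ^ 2 :=
      pow_le_pow_left₀ h0 h1 2
    refine h2.trans ?_
    rw [mul_pow]
    refine mul_le_mul_of_nonneg_left ?_ (by positivity)
    have h3 := sq_sum_le_card_mul_sum_sq (s := range (a + 1)) (f := fun i => ‖mixB_X S t q i ξ‖)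
    rw [card_range] at h3
    push_cast at h3
    exact h3
  have hmaps : ∀ p ∈ S, p.1 ∈ range (a + 1) := fun p hp =>
    mem_range.2 (Nat.lt_succ_of_le (D_le (hS hp)))
  have hcardS : ∑ i ∈ range (a + 1), ((S.filter (fun p => p.1 = i)).card : ℝ) ≤ 2 ^ a := by
    have h1 := card_eq_sum_card_fiberwise hmaps
    have h2 : S.card ≤ 2 ^ a := (card_le_card hS).trans (card_D a).le
    rw [h1] at h2
    exact_mod_cast h2
  have hsumF : ∑ ξ ∈ range (3 ^ q), F ξ ^ 2 ≤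
      c0 ^ 2 * ((a + 1) * (3 ^ q * (2 ^ a * (lam * 2 ^ a / 3 ^ q + 1)))) := by
    refine (sum_le_sum fun ξ _ => hFsq ξ).trans ?_
    rw [← mul_sum, ← mul_sum, sum_comm]
    refine mul_le_mul_of_nonneg_left (mul_le_mul_of_nonneg_left ?_ (by positivity)) (by positivity)
    refine (sum_le_sum fun i _ => mixB_pars (q := q) (i := i) hlam S hc t).trans ?_
    rw [← mul_sum, ← sum_mul]
    refine mul_le_mul_of_nonneg_left ?_ h3q.le
    exact mul_le_mul_of_nonneg_right hcardS (by positivity)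
  have hpf := parseval_fun (N := 3 ^ q) (by positivity) g
  have hg2 : ∑ u ∈ range (3 ^ q), g u ^ 2 ≤ 3 ^ q * (V ^ 2 * ((a + 1) * (lam + 1))) := by
    rw [hpf]
    have h1 : (1 / ((3 ^ q : ℕ) : ℝ)) * ∑ ξ ∈ range (3 ^ q), F ξ ^ 2 ≤
        (1 / ((3 ^ q : ℕ) : ℝ)) *
          (c0 ^ 2 * ((a + 1) * (3 ^ q * (2 ^ a * (lam * 2 ^ a / 3 ^ q + 1))))) :=
      mul_le_mul_of_nonneg_left hsumF (by positivity)
    refine h1.trans ?_
    have h2 : (1 / ((3 ^ q : ℕ) : ℝ)) *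
          (c0 ^ 2 * ((a + 1) * (3 ^ q * (2 ^ a * (lam * 2 ^ a / 3 ^ q + 1))))) =
        3 ^ q * (V ^ 2 * ((a + 1) * (lam + 3 ^ q / 2 ^ a))) := by
      rw [hc0]
      push_cast
      field_simp
    rw [h2]
    have h3 : (3 : ℝ) ^ q / 2 ^ a ≤ 1 := by
      rw [div_le_one h2a]
      exact_mod_cast h3
    refine mul_le_mul_of_nonneg_left (mul_le_mul_of_nonneg_left
      (mul_le_mul_of_nonneg_left (by linarith) (by positivity)) (by positivity)) h3q.le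
  have hcs : (∑ u ∈ range (3 ^ q), |g u|) ^ 2 ≤ 3 ^ q * ∑ u ∈ range (3 ^ q), g u ^ 2 := by
    have h3 := sq_sum_le_card_mul_sum_sq (s := range (3 ^ q)) (f := fun u : ℕ => |g u|)
    rw [card_range] at h3
    push_cast at h3
    simpa only [sq_abs] using h3
  have hfin : ((∑ u ∈ range (3 ^ q), |g u|) / 3 ^ q) ^ 2 ≤ (Real.sqrt ((a + 1) * (lam + 1)) * V) ^ 2 := by
    rw [mul_pow, Real.sq_sqrt (by positivity), div_pow, div_le_iff₀ (by positivity)]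
    refine hcs.trans ((mul_le_mul_of_nonneg_left hg2 h3q.le).trans (le_of_eq ?_))
    ring
  have hL0 : 0 ≤ (∑ u ∈ range (3 ^ q), |g u|) / 3 ^ q :=
    div_nonneg (sum_nonneg fun _ _ => abs_nonneg _) h3q.le
  exact (pow_le_pow_iff_left₀ hL0 (by positivity) (by norm_num)).1 hfin

end Pool.Agent.H30.PD
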