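import Pool.Agent.H30.PD.Stage

/-!
# JOB PD-MULTI. Several stages

Setting: `4^s ξ ≡ K` mod `3^nb`, `4 ∤ K`, `2|K| < 3^nb`; `Ls H i` is the elapsed time (in blocks) before stage `i`.
No column is hit (`hgood`). CLAIM (induction on `J - i`, downward from `i = J`): for all `i ≤ J`, `e ≤ Ls H i`, `k' ≤ 2e`,
`e ≤ s`: `w ξ (s-e) (nb-k') ≤ gam^(J-i) * B`. For `i = J` this is `hB`.
Step from `i+1` to `i` (`i < J`), at the position `(s-e, ν)`, `ν = nb - k'`, `nb > 2 Ls H J ≥ 2 (Ls H i + H i + 1)`, so `ν > 2 H i + 2`: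
* not tiny: if `s - e = 0` then `w ξ 0 ν = 0` (`ν ≥ 1`). Otherwise `stage_white` and the claim for `i+1` (elapsed `e + 1 ≤ Ls H (i+1)`,
  heads `≤ k' + 2 ≤ 2(e+1)`).
* tiny: let `kk ξ (s-e) ν = 4^h K₁`, `4 ∤ K₁` (`exists_height`). Then `h ≤ H i`: otherwise `4^e * kk ≡ 4^s ξ ≡ K` mod `3^ν`, so
  `4^e * kk = K + N 3^ν` with `N ≠ 0` (else `4 ∣ K`), `|N| ≤ (4^e |kk| + |K|)/3^ν ≤ 4^e + 3^(k')/2·...≤ 2 * 9^(Ls H i)`
  (`|kk| < 3^ν/2`, `|K| < 3^nb/2 = 3^(ν+k')/2`, `k' ≤ 2e`, `e ≤ Ls H i`) and `4^(H i) ∣ 4^h ∣ 4^e kk`: a column at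
  `ν = nb - k'`, contradiction. If `s - e ≤ h` then `2(s-e) ≤ 2 H i < ν` and `w = 0` (`w_eq_zero`). Otherwise `stage_tiny` with
  `s := s - e - h - 1`: the positions used have elapsed time `≤ e + h + 1 ≤ Ls H i + H i + 1 = Ls H (i+1)` and heads
  `≤ k' + 2h + 2 ≤ 2(e+h+1)`; the positions at elapsed `e + h` (second hypothesis of `stage_tiny`) have heads `≤ k' + 2h + 2`;
  NOTE: there we need the claim for `i+1` with `k'' ≤ 2(e+h)`: `stage_tiny` uses its hypothesis `hw'` only for `n' = n - k`,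
  `k ≤ 2h`; to keep things simple the claim is proved for all `k' ≤ 2 * Ls H i` and `e ≤ Ls H i` (instead of `k' ≤ 2e`), with
  the same proof (`|K|/3^ν < 3^(k')/2 ≤ 9^(Ls H i)/2`); then heads `≤ k' + 2h + 2 ≤ 2 Ls H (i+1)`.
-/

set_option autoImplicit false

namespace Pool.Agent.H30.PD

open Finset

theorem multi_gam_nonneg : 0 ≤ gam := by
  unfold gam
  have h := Real.neg_one_le_cos (Real.pi / 1000)
  exact le_trans (by linarith) (le_max_left _ _)

theorem multi_Ls_mono (H : ℕ → ℕ) {i j : ℕ} (h : i ≤ j) : Ls H i ≤ Ls H j := by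
  induction j, h using Nat.le_induction with
  | base => exact le_rfl
  | succ j _ ih => simp only [Ls]; omega

theorem multi_col {ξ : ℤ} {s e ν k' L Hi h : ℕ} {K K₁ : ℤ} (he : e ≤ L) (hes : e ≤ s)
    (hk : k' ≤ 2 * L) (h4 : ¬ (4 : ℤ) ∣ K) (hK : 2 * |K| < 3 ^ (ν + k'))
    (hc : (3 : ℤ) ^ (ν + k') ∣ 4 ^ s * ξ - K) (hkk : kk ξ (s - e) ν = 4 ^ h * K₁)
    (hh : Hi < h) : Col K L Hi ν := by
  set κ := kk ξ (s - e) ν with hκ
  have hmod : (3 : ℤ) ^ ν ∣ 4 ^ (s - e) * ξ - κ := by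
    have h1 : κ = Int.bmod (4 ^ (s - e) * ξ) (3 ^ ν) := rfl
    have h2 : ((3 ^ ν : ℕ) : ℤ) ∣ (4 ^ (s - e) * ξ) - Int.bmod (4 ^ (s - e) * ξ) (3 ^ ν) := by
      exact Int.dvd_self_sub_bmod
    rw [← h1] at h2
    exact_mod_cast h2
  have hlt : 2 * |κ| ≤ 3 ^ ν := by
    have h1 : κ = Int.bmod (4 ^ (s - e) * ξ) (3 ^ ν) := rfl
    have hpos : 0 < 3 ^ ν := by positivity
    have h2 := Int.bmod_lt (x := 4 ^ (s - e) * ξ) hpos
    have h3 := Int.le_bmod (x := 4 ^ (s - e) * ξ) hpos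
    rw [← h1] at h2 h3
    push_cast at h2 h3
    rw [show (2 : ℤ) * |κ| = |2 * κ| by rw [abs_mul]; norm_num, abs_le]
    have hodd : Odd ((3 : ℤ) ^ ν) := Odd.pow (by decide)
    obtain ⟨m, hm⟩ := hodd
    rw [hm] at h2 h3 ⊢
    constructor <;> omega
  have hdvd : (3 : ℤ) ^ ν ∣ 4 ^ e * κ - K := by
    have h1 : (3 : ℤ) ^ ν ∣ 4 ^ s * ξ - K := dvd_trans (pow_dvd_pow 3 (by omega)) hc
    have h2 : (3 : ℤ) ^ ν ∣ 4 ^ e * (4 ^ (s - e) * ξ - κ) := Dvd.dvd.mul_left hmod _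
    have h3 : (4 : ℤ) ^ e * 4 ^ (s - e) = 4 ^ s := by rw [← pow_add]; congr 1; omega
    have h4 : 4 ^ e * κ - K = (4 ^ s * ξ - K) - 4 ^ e * (4 ^ (s - e) * ξ - κ) := by
      rw [← h3]; ring
    rw [h4]; exact dvd_sub h1 h2
  obtain ⟨N, hN⟩ := hdvd
  have hfour : (4 : ℤ) ^ h ∣ 4 ^ e * κ := by
    rw [hkk]; exact Dvd.dvd.mul_left (Dvd.intro _ rfl) _
  have hKN : K + N * 3 ^ ν = 4 ^ e * κ := by linarith
  refine ⟨N, ?_, ?_, ?_⟩
  · rintro rfl
    apply h4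
    have : K = 4 ^ e * κ := by linarith
    rw [this]
    exact dvd_trans (dvd_pow_self 4 (by omega)) hfour
  · have hpos : (0 : ℤ) < 3 ^ ν := by positivity
    have e1 : |N| * 3 ^ ν = |4 ^ e * κ - K| := by
      rw [hN, abs_mul, abs_of_pos hpos]; ring
    have e2 : |4 ^ e * κ - K| ≤ 4 ^ e * |κ| + |K| := by
      calc |4 ^ e * κ - K| ≤ |4 ^ e * κ| + |K| := abs_sub _ _
        _ = _ := by rw [abs_mul, abs_of_pos (by positivity : (0 : ℤ) < 4 ^ e)]
    have e3 : (4 : ℤ) ^ e * (2 * |κ|) ≤ 4 ^ e * 3 ^ ν := by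
      exact mul_le_mul_of_nonneg_left hlt (by positivity)
    have e4 : 2 * |K| ≤ 3 ^ ν * 3 ^ k' := by rw [← pow_add]; exact hK.le
    have e5 : (4 : ℤ) ^ e ≤ 9 ^ L := by
      calc (4 : ℤ) ^ e ≤ 4 ^ L := pow_le_pow_right₀ (by norm_num) he
        _ ≤ 9 ^ L := pow_le_pow_left₀ (by norm_num) (by norm_num) _
    have e6 : (3 : ℤ) ^ k' ≤ 9 ^ L := by
      calc (3 : ℤ) ^ k' ≤ 3 ^ (2 * L) := pow_le_pow_right₀ (by norm_num) hk
        _ = 9 ^ L := by rw [pow_mul]; norm_num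
    have e7 : 2 * |N| * 3 ^ ν ≤ (4 ^ e + 3 ^ k') * 3 ^ ν := by nlinarith
    have e8 : 2 * |N| ≤ 4 ^ e + 3 ^ k' := le_of_mul_le_mul_right e7 hpos
    have e9 : (0 : ℤ) < 9 ^ L := by positivity
    linarith
  · rw [hKN]
    exact dvd_trans (pow_dvd_pow 4 hh.le) hfour

theorem multi {ξ : ℤ} (hξ : ¬ (3 : ℤ) ∣ ξ) (H : ℕ → ℕ) (J s nb : ℕ) {K : ℤ}
    (h4 : ¬ (4 : ℤ) ∣ K) (hK : 2 * |K| < 3 ^ nb) (hc : (3 : ℤ) ^ nb ∣ 4 ^ s * ξ - K)
    (hgood : ∀ i < J, ∀ k' ≤ 2 * Ls H i, ¬ Col K (Ls H i) (H i) (nb - k'))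
    (hbig : 2 * Ls H J < nb) {B : ℝ} (hB0 : 0 ≤ B)
    (hB : ∀ t' n', nb - 2 * Ls H J ≤ n' → n' ≤ nb → w ξ t' n' ≤ B) :
    w ξ s nb ≤ gam ^ J * B := by
  have claim : ∀ d ≤ J, ∀ e ≤ Ls H (J - d), ∀ k' ≤ 2 * Ls H (J - d), e ≤ s →
      w ξ (s - e) (nb - k') ≤ gam ^ d * B := by
    intro d
    induction d with
    | zero =>
      intro _ e _ k' hk' _
      rw [pow_zero, one_mul]
      apply hB
      · simp only [Nat.sub_zero] at hk'; omega
      · omega
    | succ d ih =>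
      intro hd e he k' hk' hes
      have ih' := ih (by omega)
      set i := J - (d + 1) with hi
      have hi1 : J - d = i + 1 := by omega
      rw [hi1] at ih'
      have hL : Ls H (i + 1) = Ls H i + H i + 1 := rfl
      have hLJ : Ls H (i + 1) ≤ Ls H J := multi_Ls_mono H (by omega)
      have hB' : 0 ≤ gam ^ d * B := mul_nonneg (pow_nonneg multi_gam_nonneg _) hB0
      have hBs : gam ^ (d + 1) * B = gam * (gam ^ d * B) := by rw [pow_succ]; ring
      have hBs0 : 0 ≤ gam ^ (d + 1) * B := mul_nonneg (pow_nonneg multi_gam_nonneg _) hB0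
      obtain ⟨ν, hν⟩ : ∃ ν, nb = ν + k' := ⟨nb - k', by omega⟩
      have hνe : nb - k' = ν := by omega
      rw [hνe]
      have hνbig : 2 * H i + 2 < ν := by omega
      by_cases hT : Tiny ξ (s - e) ν
      · obtain ⟨h, K₁, hkk, hK1⟩ := exists_height hξ (s - e) (n := ν) (by omega)
        have hh : h ≤ H i := by
          by_contra hcon
          push Not at hcon
          have hcol := multi_col (ξ := ξ) (s := s) (e := e) (ν := ν) (k' := k') (L := Ls H i)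
            (Hi := H i) (h := h) (K := K) (K₁ := K₁) he hes hk' h4 (hν ▸ hK) (hν ▸ hc) hkk hcon
          exact hgood i (by omega) k' hk' (hνe.symm ▸ hcol)
        by_cases hse : s - e ≤ h
        · rw [w_eq_zero ξ (by omega)]; exact hBs0
        · push Not at hse
          obtain ⟨s2, hs2⟩ : ∃ s2, s - e = s2 + 1 + h := ⟨s - e - h - 1, by omega⟩
          rw [hs2] at hT hkk ⊢
          rw [hBs]
          apply stage_tiny (by omega) hT hkk hK1 hB'
          · intro n' h1 h2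
            have := ih' (e + h + 1) (by omega) (nb - n') (by omega) (by omega)
            rwa [show s - (e + h + 1) = s2 by omega, show nb - (nb - n') = n' by omega] at this
          · intro n' h1 h2
            have := ih' (e + h) (by omega) (nb - n') (by omega) (by omega)
            rwa [show s - (e + h) = s2 + 1 by omega, show nb - (nb - n') = n' by omega] at this
      · by_cases hse : s - e = 0
        · rw [hse, w_eq_zero ξ (by omega)]; exact hBs0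
        · obtain ⟨t, ht⟩ : ∃ t, s - e = t + 1 := ⟨s - e - 1, by omega⟩
          rw [ht] at hT ⊢
          rw [hBs]
          apply stage_white hT hB'
          intro n' h1 h2
          have := ih' (e + 1) (by omega) (nb - n') (by omega) (by omega)
          rwa [show s - (e + 1) = t by omega, show nb - (nb - n') = n' by omega] at this
  have := claim J le_rfl 0 (Nat.zero_le _) 0 (Nat.zero_le _) (Nat.zero_le _)
  simpa using this

end Pool.Agent.H30.PD
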