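import Pool.Agent.H30.PD.Words

/-!
# JOB PD-PARAMSA. Linear inequalities between the parameters

`cut l = ⌈0.81 l⌉`, `nxt l = ⌊1.01 l⌋`, `Cone l k : 500 |2k - l| ≤ l`, i.e. `0.499 l ≤ k ≤ 0.501 l`. Everything is linear
arithmetic (`omega`) for `l ≥ 5000` (checked numerically for all `l` in 5000..7000 and random large `l`), except
`three_pow_le`: `3^5 ≤ 2^8` gives `(3^k)^5 ≤ 2^(8k) ≤ (2^j)^5`.
-/

set_option autoImplicit false

namespace Pool.Agent.H30.PD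

open Finset

theorem ParamsA_cone {l k : ℕ} : Cone l k ↔ 1000 * k ≤ 501 * l ∧ 499 * l ≤ 1000 * k := by
  unfold Cone
  constructor
  · intro h
    have h1 := le_abs_self (2 * (k : ℤ) - l)
    have h2 := neg_abs_le (2 * (k : ℤ) - l)
    constructor
    · omega
    · omega
  · rintro ⟨h1, h2⟩
    rcases abs_cases (2 * (k : ℤ) - l) with ⟨h3, _⟩ | ⟨h3, _⟩
    · rw [h3]; omega
    · rw [h3]; omega

theorem three_pow_le {k j : ℕ} (h : 8 * k ≤ 5 * j) : 3 ^ k ≤ 2 ^ j := by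
  have h1 : (3 ^ k) ^ 5 ≤ (2 ^ j) ^ 5 := by
    calc (3 ^ k) ^ 5 = (3 ^ 5) ^ k := by rw [← pow_mul, ← pow_mul, Nat.mul_comm]
      _ ≤ (2 ^ 8) ^ k := Nat.pow_le_pow_left (by norm_num) k
      _ = 2 ^ (8 * k) := by rw [← pow_mul]
      _ ≤ 2 ^ (5 * j) := Nat.pow_le_pow_right (by norm_num) h
      _ = (2 ^ j) ^ 5 := by rw [← pow_mul, Nat.mul_comm]
  exact (Nat.pow_le_pow_iff_left (by norm_num)).1 h1

/-- the conditions for the comparison at time `l'' ∈ [l, 1.01 l]`, with `k0 = 499 l / 1000` -/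
theorem params {l l'' k i : ℕ} (hl : 5000 ≤ l) (h1 : l ≤ l'') (h2 : 100 * l'' ≤ 101 * l)
    (hk : Cone l'' k) (hi : Cone (cut l) i) :
    8 * k ≤ 5 * cut l ∧ 499 * l / 1000 ≤ k ∧ i ≤ 499 * l / 1000 ∧ cut l ≤ l ∧
      23 * (k - i) ≤ 25 * (499 * l / 1000 - i) ∧ 17 * (k - i) ≤ 10 * (l'' - cut l) ∧
      l ≤ 11 * (k - i) := by
  rw [ParamsA_cone] at hk hi
  obtain ⟨hk1, hk2⟩ := hk
  obtain ⟨hi1, hi2⟩ := hi
  unfold cut at *
  refine ⟨by omega, by omega, by omega, by omega, by omega, by omega, by omega⟩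

theorem nxt_spec {l : ℕ} (hl : 5000 ≤ l) : l ≤ nxt l ∧ 100 * nxt l ≤ 101 * l ∧
    1009 * l ≤ 1000 * nxt l ∧ cut l ≤ cut (nxt l) ∧ cut (nxt l) ≤ nxt l ∧
    l ≤ 130 * (cut (nxt l) - cut l) ∧ 100 * (cut (nxt l) - cut l) ≤ 2 * cut l ∧
    l ≤ 112 * (nxt l - l) := by
  unfold nxt cut
  refine ⟨by omega, by omega, by omega, by omega, by omega, by omega, by omega, by omega⟩

theorem cone_add {l a k i : ℕ} (h1 : Cone l k) (h2 : Cone a i) : Cone (l + a) (k + i) := by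
  rw [ParamsA_cone] at *
  omega

theorem SG_subset (Λ : ℝ) (j : ℕ) : SG Λ j ⊆ D j := Finset.filter_subset _ _

theorem mem_SG {Λ : ℝ} {j : ℕ} {p : ℕ × ℕ} (h : p ∈ SG Λ j) :
    Cone j p.1 ∧ (p.2 : ℝ) ≤ Λ * 2 ^ j := by
  have h1 := (Finset.mem_filter.1 h).2
  refine ⟨h1.1, h1.2.trans ?_⟩
  have h2 : (0 : ℝ) ≤ 1 / j := by positivity
  have h3 : (0 : ℝ) < 2 ^ j := by positivity
  nlinarith

end Pool.Agent.H30.PD
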