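import Pool.Agent.H30.PD.ParamsA

/-!
# JOB PD-PARAMSB. Composition of good words; size of the constants

`SG_comp`: Let `j = cut l`, `j' = cut (nxt l) = j + a`, `a ≤ 0.02 j` (`nxt_spec`). Cone: `cone_add`. Constant of
`comp a p q`: `2^a p.2 + 3^(p.1) q.2 ≤ 2^(j+a) (Λ - 1/j) + 3^(p.1) 3^a` (`q.2 ≤ 3^a` from `c_mul_le`, `q.1 ≤ a`), and
`3^(p.1 + a) ≤ (1/j - 1/j') 2^(j+a)` for large `l` (`a ≥ 1`, `1/j - 1/j' = a/(j j')`; by `three_pow_le` with `p.1 ≤ 0.501 j`,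
`3^(p.1+a) ≤ 2^(0.8016 j + 1.6 a + 2)`, and `j + a - 0.8016 j - 1.6 a - 2 ≥ 0.18 j ≥ 2 log_2 (2 j)`).
`total_const`: words `comp L p q`, `p ∈ SG Λ j`, `q ∈ D L`, `L = l'' - j ≤ 0.25 j + 2`: constant
`2^L p.2 + 3^(p.1) q.2 ≤ 2^L Λ 2^j + 3^(p.1) q.2`, and `q.2 * 2^(q.1) ≤ 2^L 3^(q.1)` gives `q.2 ≤ 3^L`, i.e.
`3^(p.1) q.2 ≤ 3^(p.1 + L) ≤ 2^(j + L)`: `8 (p.1 + L) ≤ 5 (j + L)` iff `8 p.1 + 3 L ≤ 5 j`; `8 * 0.501 j + 3 (0.25 j + 2) = 4.758 j + 6 ≤ 5 j`.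
-/

set_option autoImplicit false

namespace Pool.Agent.H30.PD

open Finset

theorem ParamsB_c_le {a : ℕ} {q : ℕ × ℕ} (h : q ∈ D a) : q.2 ≤ 3 ^ a := by
  have h1 := c_mul_le h
  have h2 := D_le h
  obtain ⟨b, hb⟩ := Nat.exists_eq_add_of_le h2
  have h3 : q.2 * 2 ^ q.1 ≤ 3 ^ a * 2 ^ q.1 := by
    calc q.2 * 2 ^ q.1 ≤ 2 ^ a * 3 ^ q.1 := h1
      _ = 2 ^ b * (2 ^ q.1 * 3 ^ q.1) := by rw [hb, pow_add]; ring
      _ ≤ 3 ^ b * (2 ^ q.1 * 3 ^ q.1) :=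
          Nat.mul_le_mul_right _ (Nat.pow_le_pow_left (by norm_num) b)
      _ = 3 ^ a * 2 ^ q.1 := by rw [hb, pow_add]; ring
  exact Nat.le_of_mul_le_mul_right h3 (by positivity)

theorem ParamsB_pow_ge (s : ℕ) (hs : 16 ≤ s) : 72 * s ^ 2 ≤ 2 ^ s := by
  induction s, hs using Nat.le_induction with
  | base => norm_num
  | succ n hn ih =>
    have h1 : 2 * n + 1 ≤ n ^ 2 := by nlinarith
    calc 72 * (n + 1) ^ 2 = 72 * n ^ 2 + 72 * (2 * n + 1) := by ring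
      _ ≤ 72 * n ^ 2 + 72 * n ^ 2 := by omega
      _ ≤ 2 ^ n + 2 ^ n := by omega
      _ = 2 ^ (n + 1) := by ring

theorem ParamsB_cone {j k : ℕ} (h : Cone j k) : 1000 * k ≤ 501 * j := by
  unfold Cone at h
  have h1 := le_abs_self (2 * (k : ℤ) - j)
  omega

open Classical in
theorem ParamsB_mem {Λ : ℝ} {j : ℕ} {p : ℕ × ℕ} :
    p ∈ SG Λ j ↔ p ∈ D j ∧ Cone j p.1 ∧ (p.2 : ℝ) ≤ (Λ - 1 / j) * 2 ^ j := by
  unfold SG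
  rw [Finset.mem_filter]

theorem SG_comp : ∃ l0 : ℕ, ∀ l ≥ l0, ∀ (Λ : ℝ), ∀ p ∈ SG Λ (cut l),
    ∀ q ∈ D (cut (nxt l) - cut l), Cone (cut (nxt l) - cut l) q.1 →
      comp (cut (nxt l) - cut l) p q ∈ SG Λ (cut (nxt l)) := by
  refine ⟨5000, fun l hl Λ p hp q hq hc => ?_⟩
  obtain ⟨-, -, -, h4, -, h6, h7, -⟩ := nxt_spec hl
  obtain ⟨a, ha⟩ := Nat.exists_eq_add_of_le h4
  have hj : 81 * l ≤ 100 * cut l := by unfold cut; omega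
  set j := cut l with hjdef
  have hsub : cut (nxt l) - j = a := by omega
  rw [hsub] at hq hc h6 h7 ⊢
  rw [ha]
  rw [ParamsB_mem] at hp ⊢
  obtain ⟨hpD, hpC, hpc⟩ := hp
  refine ⟨comp_mem hpD hq, cone_add hpC hc, ?_⟩
  have hk : 1000 * p.1 ≤ 501 * j := ParamsB_cone hpC
  obtain ⟨m, hm⟩ : ∃ m, m = (8 * (p.1 + a) + 4) / 5 := ⟨_, rfl⟩
  have hm1 : 8 * (p.1 + a) ≤ 5 * m := by omega
  obtain ⟨s, hs⟩ : ∃ s, s = j + a - m := ⟨_, rfl⟩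
  have hs1 : j + a = m + s := by omega
  have hs2 : 9 * j ≤ 50 * s := by omega
  have hs3 : 16 ≤ s := by omega
  have h3 : 3 ^ (p.1 + a) ≤ 2 ^ m := three_pow_le hm1
  have hq3 := ParamsB_c_le hq
  have hjj : j * (j + a) ≤ 2 ^ s := by
    have h8 : j ≤ 6 * s := by omega
    have h9 : j + a ≤ 12 * s := by omega
    calc j * (j + a) ≤ (6 * s) * (12 * s) := Nat.mul_le_mul h8 h9
      _ = 72 * s ^ 2 := by ring
      _ ≤ 2 ^ s := ParamsB_pow_ge s hs3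
  have hnat : 3 ^ p.1 * q.2 * (j * (j + a)) ≤ 2 ^ (j + a) := by
    calc 3 ^ p.1 * q.2 * (j * (j + a)) ≤ 3 ^ p.1 * 3 ^ a * 2 ^ s :=
          Nat.mul_le_mul (Nat.mul_le_mul_left _ hq3) hjj
      _ = 3 ^ (p.1 + a) * 2 ^ s := by rw [pow_add]
      _ ≤ 2 ^ m * 2 ^ s := Nat.mul_le_mul_right _ h3
      _ = 2 ^ (j + a) := by rw [hs1, pow_add]
  have hreal : (3 : ℝ) ^ p.1 * q.2 * (j * (j + a)) ≤ 2 ^ (j + a) := by exact_mod_cast hnat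
  have hjpos : (0 : ℝ) < j := by
    have : 0 < j := by omega
    exact_mod_cast this
  have hapos : (1 : ℝ) ≤ a := by
    have : 1 ≤ a := by omega
    exact_mod_cast this
  have hjapos : (0 : ℝ) < (j : ℝ) + a := by linarith
  have hprod : (0 : ℝ) < (j : ℝ) * (j + a) := mul_pos hjpos hjapos
  have hP : (0 : ℝ) < 2 ^ (j + a) := by positivity
  have h10 : (3 : ℝ) ^ p.1 * q.2 ≤ (1 / j - 1 / (j + a)) * 2 ^ (j + a) := by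
    have h11 : (1 : ℝ) / j - 1 / (j + a) = a / (j * (j + a)) := by
      field_simp
      ring
    rw [h11, div_mul_eq_mul_div, le_div_iff₀ hprod]
    calc (3 : ℝ) ^ p.1 * q.2 * (j * (j + a)) ≤ 2 ^ (j + a) := hreal
      _ = 1 * 2 ^ (j + a) := by ring
      _ ≤ a * 2 ^ (j + a) := mul_le_mul_of_nonneg_right hapos hP.le
  have h12 : (2 : ℝ) ^ a * p.2 ≤ (Λ - 1 / j) * 2 ^ (j + a) := by
    calc (2 : ℝ) ^ a * p.2 ≤ 2 ^ a * ((Λ - 1 / j) * 2 ^ j) :=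
          mul_le_mul_of_nonneg_left hpc (by positivity)
      _ = (Λ - 1 / j) * 2 ^ (j + a) := by rw [pow_add]; ring
  have h13 : ((comp a p q).2 : ℝ) = 2 ^ a * p.2 + 3 ^ p.1 * q.2 := by
    simp only [comp]
    push_cast
    ring
  rw [h13]
  push_cast
  calc (2 : ℝ) ^ a * p.2 + 3 ^ p.1 * q.2
      ≤ (Λ - 1 / j) * 2 ^ (j + a) + (1 / j - 1 / (j + a)) * 2 ^ (j + a) := add_le_add h12 h10
    _ = (Λ - 1 / (j + a)) * 2 ^ (j + a) := by ring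

theorem total_const : ∃ l0 : ℕ, ∀ l ≥ l0, ∀ l'' : ℕ, l ≤ l'' → 100 * l'' ≤ 101 * l → ∀ (Λ : ℝ),
    ∀ p ∈ SG Λ (cut l), ∀ q ∈ D (l'' - cut l),
      ((comp (l'' - cut l) p q).2 : ℝ) ≤ (Λ + 1) * 2 ^ l'' := by
  refine ⟨5000, fun l hl l'' h1 h2 Λ p hp q hq => ?_⟩
  have hj : 81 * l ≤ 100 * cut l := by unfold cut; omega
  have hj2 : cut l ≤ l := by unfold cut; omega
  set j := cut l with hjdef
  obtain ⟨L, hL⟩ := Nat.exists_eq_add_of_le (hj2.trans h1)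
  have hsub : l'' - j = L := by omega
  rw [hsub] at hq ⊢
  obtain ⟨hpC, hpc⟩ := mem_SG hp
  have hk : 1000 * p.1 ≤ 501 * j := ParamsB_cone hpC
  have h3 : 3 ^ (p.1 + L) ≤ 2 ^ (j + L) := three_pow_le (by omega)
  have hq3 := ParamsB_c_le hq
  have hnat : 3 ^ p.1 * q.2 ≤ 2 ^ (j + L) := by
    calc 3 ^ p.1 * q.2 ≤ 3 ^ p.1 * 3 ^ L := Nat.mul_le_mul_left _ hq3
      _ = 3 ^ (p.1 + L) := by rw [pow_add]
      _ ≤ 2 ^ (j + L) := h3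
  have hreal : (3 : ℝ) ^ p.1 * q.2 ≤ 2 ^ (j + L) := by exact_mod_cast hnat
  have h12 : (2 : ℝ) ^ L * p.2 ≤ Λ * 2 ^ (j + L) := by
    calc (2 : ℝ) ^ L * p.2 ≤ 2 ^ L * (Λ * 2 ^ j) :=
          mul_le_mul_of_nonneg_left hpc (by positivity)
      _ = Λ * 2 ^ (j + L) := by rw [pow_add]; ring
  have h13 : ((comp L p q).2 : ℝ) = 2 ^ L * p.2 + 3 ^ p.1 * q.2 := by
    simp only [comp]
    push_cast
    ring
  rw [h13, hL]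
  calc (2 : ℝ) ^ L * p.2 + 3 ^ p.1 * q.2
      ≤ Λ * 2 ^ (j + L) + 2 ^ (j + L) := add_le_add h12 hreal
    _ = (Λ + 1) * 2 ^ (j + L) := by ring

end Pool.Agent.H30.PD
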