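import Pool.Agent.H30.PD.ExpSum

/-!
# JOB PD-PARS. Orthogonality and Parseval on `ℤ/N`

* `orth`: geometric sum; `ee(d/N) = 1` iff `N ∣ d`.
* `parseval_pts`: expand the square, exchange sums, `orth`.
* `parseval_fun`: the same with weights.
* `sum_mul_unit`: `u ↦ a u` permutes the residues mod `N` if `a` is coprime to `N`, `g` periodic.
-/

set_option autoImplicit false

namespace Pool.Agent.H30.PD

open Finset

lemma parseval_ee_pow (x : ℝ) (n : ℕ) : ee x ^ n = ee (n * x) := by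
  unfold ee
  rw [← Complex.exp_nat_mul]
  congr 1
  push_cast
  ring

lemma parseval_ee_eq_one {N : ℕ} (hN : 0 < N) (d : ℤ) : ee ((d : ℝ) / N) = 1 ↔ (N : ℤ) ∣ d := by
  have hN' : (N : ℂ) ≠ 0 := by exact_mod_cast hN.ne'
  unfold ee
  rw [Complex.exp_eq_one_iff]
  constructor
  · rintro ⟨n, hn⟩
    refine ⟨n, ?_⟩
    have h1 : (2 * (Real.pi : ℂ) * Complex.I) ≠ 0 := Complex.two_pi_I_ne_zero
    have h2 : (d : ℂ) / N * (2 * Real.pi * Complex.I) = n * (2 * Real.pi * Complex.I) := by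
      rw [← hn]; push_cast; ring
    have h3 := mul_right_cancel₀ h1 h2
    rw [div_eq_iff hN'] at h3
    have h4 : (d : ℂ) = ((N * n : ℤ) : ℂ) := by rw [h3]; push_cast; ring
    exact_mod_cast h4
  · rintro ⟨n, rfl⟩
    refine ⟨n, ?_⟩
    push_cast
    field_simp

theorem orth {N : ℕ} (hN : 0 < N) (d : ℤ) :
    ∑ ξ ∈ range N, ee ((ξ : ℝ) * d / N) = if (N : ℤ) ∣ d then (N : ℂ) else 0 := by
  have h1 : ∀ ξ ∈ range N, ee ((ξ : ℝ) * d / N) = ee ((d : ℝ) / N) ^ ξ := by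
    intro ξ _
    rw [parseval_ee_pow, mul_div_assoc]
  rw [Finset.sum_congr rfl h1]
  by_cases h : (N : ℤ) ∣ d
  · rw [if_pos h, (parseval_ee_eq_one hN d).mpr h]
    simp
  · rw [if_neg h]
    have h2 : ee ((d : ℝ) / N) ≠ 1 := fun h3 => h ((parseval_ee_eq_one hN d).mp h3)
    rw [geom_sum_eq h2, parseval_ee_pow]
    have h3 : (N : ℝ) * ((d : ℝ) / N) = ((d : ℤ) : ℝ) := by
      have : (N : ℝ) ≠ 0 := by exact_mod_cast hN.ne'
      field_simp
    rw [h3, ee_int]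
    simp

lemma parseval_conj (x : ℝ) : (starRingEnd ℂ) (ee x) = ee (-x) := by
  unfold ee
  rw [← Complex.exp_conj]
  congr 1
  simp only [map_mul, Complex.conj_I, Complex.conj_ofReal, map_ofNat]
  push_cast
  ring

/-- weighted Parseval -/
lemma parseval_gen {N : ℕ} (hN : 0 < N) {ι : Type*} (s : Finset ι) (a : ι → ℝ) (c : ι → ℤ) :
    ∑ ξ ∈ range N, ‖∑ i ∈ s, (a i : ℂ) * ee (-((ξ : ℝ) * c i / N))‖ ^ 2 =
      N * ∑ i ∈ s, ∑ j ∈ s, if (N : ℤ) ∣ c i - c j then a i * a j else 0 := by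
  have hN' : (N : ℝ) ≠ 0 := by exact_mod_cast hN.ne'
  have h0 : ((∑ ξ ∈ range N, ‖∑ i ∈ s, (a i : ℂ) * ee (-((ξ : ℝ) * c i / N))‖ ^ 2 : ℝ) : ℂ) =
      ((N * ∑ i ∈ s, ∑ j ∈ s, if (N : ℤ) ∣ c i - c j then a i * a j else 0 : ℝ) : ℂ) := by
    push_cast
    have h1 : ∀ ξ ∈ range N, ((‖∑ i ∈ s, (a i : ℂ) * ee (-((ξ : ℝ) * c i / N))‖ : ℝ) : ℂ) ^ 2 =
        ∑ i ∈ s, ∑ j ∈ s, ((a i : ℂ) * a j) * ee ((ξ : ℝ) * ((c i - c j : ℤ) : ℝ) / N) := by
      intro ξ _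
      rw [← Complex.mul_conj', mul_comm, map_sum, Finset.sum_mul_sum]
      apply Finset.sum_congr rfl
      intro i _
      apply Finset.sum_congr rfl
      intro j _
      rw [map_mul, Complex.conj_ofReal, parseval_conj]
      have e1 : (ξ : ℝ) * ((c i - c j : ℤ) : ℝ) / N = -(-((ξ : ℝ) * c i / N)) + -((ξ : ℝ) * c j / N) := by
        push_cast
        ring
      rw [e1, ee_add]
      ring
    rw [Finset.sum_congr rfl h1, Finset.sum_comm, Finset.mul_sum]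
    apply Finset.sum_congr rfl
    intro i _
    rw [Finset.sum_comm, Finset.mul_sum]
    apply Finset.sum_congr rfl
    intro j _
    rw [← Finset.mul_sum, orth hN]
    split_ifs with h
    · push_cast; ring
    · simp
  exact_mod_cast h0

theorem parseval_pts {N : ℕ} (hN : 0 < N) {ι : Type*} [DecidableEq ι] (s : Finset ι) (c : ι → ℤ) :
    ∑ ξ ∈ range N, ‖∑ i ∈ s, ee (-((ξ : ℝ) * c i / N))‖ ^ 2 =
      N * (((s ×ˢ s).filter fun x => (N : ℤ) ∣ c x.1 - c x.2).card : ℝ) := by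
  have h := parseval_gen hN s (fun _ => 1) c
  simp only [Complex.ofReal_one, one_mul] at h
  rw [h, Finset.card_filter, Finset.sum_product]
  push_cast
  rfl

theorem parseval_fun {N : ℕ} (hN : 0 < N) (g : ℤ → ℝ) :
    ∑ u ∈ range N, g u ^ 2 =
      (1 / N) * ∑ ξ ∈ range N, ‖∑ u ∈ range N, (g u : ℂ) * ee (-((ξ : ℝ) * u / N))‖ ^ 2 := by
  have hN' : (N : ℝ) ≠ 0 := by exact_mod_cast hN.ne'
  have h := parseval_gen hN (range N) (fun u : ℕ => g u) (fun u : ℕ => (u : ℤ))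
  simp only [Int.cast_natCast] at h
  rw [h, ← mul_assoc, one_div, inv_mul_cancel₀ hN', one_mul]
  apply Finset.sum_congr rfl
  intro i hi
  rw [Finset.sum_eq_single_of_mem i hi]
  · simp [sq]
  · intro j hj hij
    rw [if_neg]
    intro hd
    apply hij
    rw [Finset.mem_range] at hi hj
    have h1 : ((j : ℤ) - i) = 0 := by
      have h2 : (N : ℤ) ∣ (j : ℤ) - i := by
        have := (dvd_neg (a := (N : ℤ))).mpr hd
        rwa [neg_sub] at this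
      apply Int.eq_zero_of_abs_lt_dvd h2
      rw [abs_lt]
      constructor <;> omega
    omega

lemma parseval_mod {N : ℕ} (g : ℤ → ℝ) (hg : ∀ u, g (u + N) = g u) (u : ℤ) :
    g u = g (u % N) := by
  have hp : Function.Periodic g (N : ℤ) := hg
  have h1 := (hp.int_mul (u / N)) (u % N)
  rw [← h1]
  congr 1
  rw [Int.cast_id, mul_comm]
  exact (Int.emod_add_mul_ediv u N).symm

theorem sum_mul_unit {N : ℕ} (hN : 0 < N) (g : ℤ → ℝ) (hg : ∀ u, g (u + N) = g u) {a : ℤ}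
    (ha : IsCoprime a (N : ℤ)) : ∑ u ∈ range N, g (a * u) = ∑ u ∈ range N, g u := by
  obtain ⟨b, c, hbc⟩ := ha
  have hN0 : (N : ℤ) ≠ 0 := by exact_mod_cast hN.ne'
  have hNpos : (0 : ℤ) < N := by exact_mod_cast hN
  have hba : ∀ u : ℤ, (b * ((a * u) % N)) % N = u % N := by
    intro u
    rw [Int.mul_emod, Int.emod_emod_of_dvd _ (dvd_refl _), ← Int.mul_emod]
    have : b * (a * u) = u - N * (c * u) := by
      have : b * a * u = (1 - c * N) * u := by rw [← hbc]; ring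
      linarith
    rw [this, Int.sub_mul_emod_self_left]
  have hab : ∀ u : ℤ, (a * ((b * u) % N)) % N = u % N := by
    intro u
    rw [Int.mul_emod, Int.emod_emod_of_dvd _ (dvd_refl _), ← Int.mul_emod]
    have : a * (b * u) = u - N * (c * u) := by
      have : b * a * u = (1 - c * N) * u := by rw [← hbc]; ring
      linarith
    rw [this, Int.sub_mul_emod_self_left]
  have hnn : ∀ x : ℤ, (((x % N).toNat : ℕ) : ℤ) = x % N := fun x =>
    Int.toNat_of_nonneg (Int.emod_nonneg _ hN0)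
  have hlt : ∀ x : ℤ, (x % N).toNat < N := by
    intro x
    have h1 := Int.emod_lt_of_pos x hNpos
    have h2 := hnn x
    omega
  apply Finset.sum_nbij' (fun u : ℕ => ((a * (u : ℤ)) % N).toNat) (fun u : ℕ => ((b * (u : ℤ)) % N).toNat)
  · intro u _
    exact Finset.mem_range.mpr (hlt _)
  · intro u _
    exact Finset.mem_range.mpr (hlt _)
  · intro u hu
    rw [Finset.mem_range] at hu
    have h1 : (((b * ((((a * (u : ℤ)) % N).toNat : ℕ) : ℤ)) % N).toNat : ℤ) = u := by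
      rw [hnn, hnn, hba]
      exact Int.emod_eq_of_lt (by positivity) (by exact_mod_cast hu)
    exact_mod_cast h1
  · intro u hu
    rw [Finset.mem_range] at hu
    have h1 : (((a * ((((b * (u : ℤ)) % N).toNat : ℕ) : ℤ)) % N).toNat : ℤ) = u := by
      rw [hnn, hnn, hab]
      exact Int.emod_eq_of_lt (by positivity) (by exact_mod_cast hu)
    exact_mod_cast h1
  · intro u _
    show g (a * u) = g ((((a * (u : ℤ)) % N).toNat : ℕ) : ℤ)
    rw [hnn]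
    exact parseval_mod g hg _

/-- sum of a nonnegative periodic function over a set of distinct integers in an interval -/
theorem sum_interval_le {N : ℕ} (hN : 0 < N) (g : ℤ → ℝ) (hg : ∀ u, g (u + N) = g u)
    (hg0 : ∀ u, 0 ≤ g u) (s : Finset ℤ) {x y : ℝ} (hxy : x ≤ y)
    (hs : ∀ m ∈ s, x ≤ (m : ℝ) ∧ (m : ℝ) ≤ y) :
    ∑ m ∈ s, g m ≤ ((y - x + 1) / N + 1) * ∑ u ∈ range N, g u := by
  have hN0 : (N : ℤ) ≠ 0 := by exact_mod_cast hN.ne'
  have hNpos : (0 : ℤ) < N := by exact_mod_cast hN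
  have hNR : (0 : ℝ) < N := by exact_mod_cast hN
  have hnn : ∀ x : ℤ, (((x % N).toNat : ℕ) : ℤ) = x % N := fun x =>
    Int.toNat_of_nonneg (Int.emod_nonneg _ hN0)
  have hmaps : ∀ m ∈ s, (m % (N : ℤ)).toNat ∈ range N := by
    intro m _
    rw [Finset.mem_range]
    have h1 := Int.emod_lt_of_pos m hNpos
    have h2 := hnn m
    omega
  rw [← Finset.sum_fiberwise_of_maps_to hmaps, Finset.mul_sum]
  apply Finset.sum_le_sum
  intro u hu
  rw [Finset.mem_range] at hu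
  have h1 : ∀ m ∈ s.filter (fun m => (m % (N : ℤ)).toNat = u), g m = g u := by
    intro m hm
    rw [Finset.mem_filter] at hm
    rw [parseval_mod g hg m, ← hnn m, hm.2]
  rw [Finset.sum_congr rfl h1, Finset.sum_const, nsmul_eq_mul]
  apply mul_le_mul_of_nonneg_right _ (hg0 u)
  have h2 : s.filter (fun m => (m % (N : ℤ)).toNat = u) ⊆
      (Finset.Ico ⌈x⌉ (⌊y⌋ + 1)).filter (fun m => m ≡ (u : ℤ) [ZMOD (N : ℤ)]) := by
    intro m hm
    rw [Finset.mem_filter] at hm ⊢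
    obtain ⟨hm1, hm2⟩ := hm
    obtain ⟨ha, hb⟩ := hs m hm1
    refine ⟨?_, ?_⟩
    · rw [Finset.mem_Ico]
      refine ⟨Int.ceil_le.mpr ha, ?_⟩
      have := Int.le_floor.mpr hb
      omega
    · have h3 := hnn m
      rw [hm2] at h3
      unfold Int.ModEq
      rw [← h3]
      exact (Int.emod_eq_of_lt (by positivity) (by exact_mod_cast hu)).symm
  have h3 := Finset.card_le_card h2
  have h4 := Int.Ico_filter_modEq_card ⌈x⌉ (⌊y⌋ + 1) hNpos (u : ℤ)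
  have h5 : (((Finset.Ico ⌈x⌉ (⌊y⌋ + 1)).filter (fun m => m ≡ (u : ℤ) [ZMOD (N : ℤ)])).card : ℝ) ≤
      (y - x + 1) / N + 1 := by
    have h6 : ((((Finset.Ico ⌈x⌉ (⌊y⌋ + 1)).filter
        (fun m => m ≡ (u : ℤ) [ZMOD (N : ℤ)])).card : ℤ) : ℝ) ≤ (y - x + 1) / N + 1 := by
      rw [h4]
      push_cast
      apply max_le
      · have f1 : (((⌈(((⌊y⌋ + 1 : ℤ) : ℚ) - ((u : ℤ) : ℚ)) / ((N : ℤ) : ℚ)⌉ : ℤ) : ℚ)) <
            (((⌊y⌋ + 1 : ℤ) : ℚ) - ((u : ℤ) : ℚ)) / ((N : ℤ) : ℚ) + 1 := Int.ceil_lt_add_one _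
        have f2 : (((⌈x⌉ : ℤ) : ℚ) - ((u : ℤ) : ℚ)) / ((N : ℤ) : ℚ) ≤
            (⌈(((⌈x⌉ : ℤ) : ℚ) - ((u : ℤ) : ℚ)) / ((N : ℤ) : ℚ)⌉ : ℚ) := Int.le_ceil _
        have f1' : (((⌈(((⌊y⌋ + 1 : ℤ) : ℚ) - ((u : ℤ) : ℚ)) / ((N : ℤ) : ℚ)⌉ : ℤ) : ℝ)) <
            (((⌊y⌋ + 1 : ℤ) : ℝ) - ((u : ℤ) : ℝ)) / ((N : ℤ) : ℝ) + 1 := by exact_mod_cast f1
        have f2' : (((⌈x⌉ : ℤ) : ℝ) - ((u : ℤ) : ℝ)) / ((N : ℤ) : ℝ) ≤
            (⌈(((⌈x⌉ : ℤ) : ℚ) - ((u : ℤ) : ℚ)) / ((N : ℤ) : ℚ)⌉ : ℝ) := by exact_mod_cast f2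
        have f3 : (⌊y⌋ : ℝ) ≤ y := Int.floor_le y
        have f4 : x ≤ (⌈x⌉ : ℝ) := Int.le_ceil x
        have f5 : (((⌊y⌋ + 1 : ℤ) : ℝ) - ((u : ℤ) : ℝ)) / ((N : ℤ) : ℝ) + 1 -
            (((⌈x⌉ : ℤ) : ℝ) - ((u : ℤ) : ℝ)) / ((N : ℤ) : ℝ) ≤ (y - x + 1) / N + 1 := by
          have e1 : (((⌊y⌋ + 1 : ℤ) : ℝ) - ((u : ℤ) : ℝ)) / ((N : ℤ) : ℝ) + 1 -
            (((⌈x⌉ : ℤ) : ℝ) - ((u : ℤ) : ℝ)) / ((N : ℤ) : ℝ) =
              ((⌊y⌋ : ℝ) + 1 - (⌈x⌉ : ℝ)) / N + 1 := by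
            push_cast
            ring
          rw [e1]
          have e2 := div_le_div_of_nonneg_right
            (show (⌊y⌋ : ℝ) + 1 - (⌈x⌉ : ℝ) ≤ y - x + 1 by linarith) hNR.le
          linarith
        push_cast at f1' f2' f5 ⊢
        linarith
      · have : 0 ≤ (y - x + 1) / (N : ℝ) := div_nonneg (by linarith) hNR.le
        linarith
    exact_mod_cast h6
  exact le_trans (by exact_mod_cast h3) h5

end Pool.Agent.H30.PD
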