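import Pool.Agent.H30.PD.Cos
import Pool.Agent.H30.PD.WBasic

/-!
# JOB PD-STAGE. One stage: cross the height, then one block with a gain

`stage_white` (not tiny): `w_block` with `c = cos(π/1000)`; `1/2 + c/2 ≤ gam`.

`stage_tiny`: `kk ξ (s+h) n = 4^h K₁`, `4 ∤ K₁`, tiny. By `w_cross`,
`w ξ (s+h) n ≤ ∑_k bin (2h) k * w ξ s (n-k)`. Here `s = s' + 1 ≥ 1`.
* If `2|K₁| < 3^(n-k)` then `kk ξ s (n-k) = K₁` (`kk_cross'`), so by `cos_of_not_four` and `w_block`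
  `w ξ s (n-k) ≤ (1/2 + cos(π/8)/2) B` (levels `n-k-2 ≤ n' ≤ n-k` at time `s'`; note `n - 2h - 2 ≤ n'`).
* The other `k` satisfy `3^n ≤ 3^k 3^(n-k) ≤ 3^k * 2|K₁|` (`k ≤ n`, and for `k > n` also `3^n ≤ 3^k * 2|K₁|` as `K₁ ≠ 0`); `k ≥ 1` as
  `2|K₁| ≤ 2|kk| < 3^n`; they contribute at most `B * ∑_k bin (2h) k * 3^k * 2|K₁|/3^n = B * 4^h * 2|K₁|/3^n =
  B * 2|kk|/3^n ≤ B * 8/1000` (`sum_bin_three`: `2^(2h) = 4^h`; tiny). For these `k` use the hypothesis `hB'`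
  at time `s`, level `n - k < n`, when `1 ≤ n - k`; if `k ≥ n` the level is `0` and use `hB0 : 1 ≤ ...`?? -- not needed:
  we assume `2h + 2 < n`, so `n - k ≥ 1` always (`k ≤ 2h`).
Together `w ξ (s+h) n ≤ gam * B`.

`stage` is the combination: `h = 0` if not tiny; if tiny, `h` is the largest number with `4^h ∣ kk ξ t n` (exists since `kk ≠ 0`).
-/

set_option autoImplicit false

namespace Pool.Agent.H30.PD

open Finset

theorem stage_white {ξ : ℤ} {t n : ℕ} (hT : ¬ Tiny ξ (t + 1) n) {B : ℝ} (hB : 0 ≤ B)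
    (hw : ∀ n', n - 2 ≤ n' → n' ≤ n → w ξ t n' ≤ B) : w ξ (t + 1) n ≤ gam * B := by
  have hc : (0 : ℝ) ≤ Real.cos (Real.pi / 1000) := by
    apply Real.cos_nonneg_of_mem_Icc
    constructor <;> linarith [Real.pi_pos]
  have h1 := w_block ξ t n hc hB (cos_of_not_tiny hT) hw
  refine h1.trans (mul_le_mul_of_nonneg_right ?_ hB)
  exact le_max_left _ _

theorem stage_tiny {ξ K₁ : ℤ} {s h n : ℕ} (hn : 2 * h + 2 < n) (hT : Tiny ξ (s + 1 + h) n)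
    (hK : kk ξ (s + 1 + h) n = 4 ^ h * K₁) (h4 : ¬ (4 : ℤ) ∣ K₁) {B : ℝ} (hB : 0 ≤ B)
    (hw : ∀ n', n - 2 * h - 2 ≤ n' → n' ≤ n → w ξ s n' ≤ B)
    (hw' : ∀ n', n - 2 * h - 2 ≤ n' → n' < n → w ξ (s + 1) n' ≤ B) :
    w ξ (s + 1 + h) n ≤ gam * B := by
  have hc : (0 : ℝ) ≤ Real.cos (Real.pi / 8) := by
    apply Real.cos_nonneg_of_mem_Icc
    constructor <;> linarith [Real.pi_pos]
  have h3n : (0 : ℝ) < 3 ^ n := by positivity
  -- the bound for each `k`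
  have hk : ∀ k ∈ range (2 * h + 1), w ξ (s + 1) (n - k) ≤
      (1 / 2 + Real.cos (Real.pi / 8) / 2) * B + B * ((2 * |(K₁ : ℝ)| / 3 ^ n) * 3 ^ k) := by
    intro k hk
    have hk' : k ≤ 2 * h := by
      have := mem_range.1 hk
      omega
    by_cases hlt : 2 * |K₁| < 3 ^ (n - k)
    · have hkk : kk ξ (s + 1) (n - k) = K₁ := kk_cross' k hK hlt
      have h4' : ¬ (4 : ℤ) ∣ kk ξ (s + 1) (n - k) := by rw [hkk]; exact h4
      have hb := w_block ξ s (n - k) hc hB (cos_of_not_four h4')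
        (fun n' h1 h2 => hw n' (by omega) (by omega))
      have : 0 ≤ B * ((2 * |(K₁ : ℝ)| / 3 ^ n) * 3 ^ k) := by positivity
      linarith
    · push Not at hlt
      have hk1 : 1 ≤ k := by
        rcases Nat.eq_zero_or_pos k with h0 | h0
        · exfalso
          subst h0
          have h1 := kk_lt ξ (s + 1 + h) n
          rw [hK, abs_mul] at h1
          have h2 : (1 : ℤ) ≤ |(4 : ℤ) ^ h| := by
            rw [abs_of_nonneg (by positivity)]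
            exact one_le_pow₀ (by norm_num)
          have h3 : |K₁| ≤ |(4 : ℤ) ^ h| * |K₁| := le_mul_of_one_le_left (abs_nonneg _) h2
          simp only [Nat.sub_zero] at hlt
          linarith
        · exact h0
      have hb := hw' (n - k) (by omega) (by omega)
      have hlt' : (3 : ℝ) ^ (n - k) ≤ 2 * |(K₁ : ℝ)| := by
        have : ((3 ^ (n - k) : ℤ) : ℝ) ≤ ((2 * |K₁| : ℤ) : ℝ) := by exact_mod_cast hlt
        push_cast at this
        exact this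
      have h1 : (1 : ℝ) ≤ (2 * |(K₁ : ℝ)| / 3 ^ n) * 3 ^ k := by
        rw [div_mul_eq_mul_div, le_div_iff₀ h3n, one_mul]
        calc (3 : ℝ) ^ n = 3 ^ (n - k) * 3 ^ k := by
              rw [← pow_add]; congr 1; omega
          _ ≤ 2 * |(K₁ : ℝ)| * 3 ^ k := mul_le_mul_of_nonneg_right hlt' (by positivity)
      have h2 : B ≤ B * ((2 * |(K₁ : ℝ)| / 3 ^ n) * 3 ^ k) := le_mul_of_one_le_right hB h1
      have h5 : 0 ≤ (1 / 2 + Real.cos (Real.pi / 8) / 2) * B := by positivity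
      linarith
  have hbin : ∀ k, 0 ≤ bin (2 * h) k := fun k => by unfold bin; positivity
  have hsum1 : ∑ k ∈ range (2 * h + 1), bin (2 * h) k = 1 := sum_bin (2 * h)
  have hsum3 : ∑ k ∈ range (2 * h + 1), bin (2 * h) k * 3 ^ k = 2 ^ (2 * h) := sum_bin_three (2 * h)
  have hcr := w_cross ξ (s + 1) h n
  have htot : ∑ k ∈ range (2 * h + 1), bin (2 * h) k * w ξ (s + 1) (n - k) ≤
      (1 / 2 + Real.cos (Real.pi / 8) / 2) * B + B * (2 * |(K₁ : ℝ)| / 3 ^ n) * 2 ^ (2 * h) := by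
    calc ∑ k ∈ range (2 * h + 1), bin (2 * h) k * w ξ (s + 1) (n - k)
        ≤ ∑ k ∈ range (2 * h + 1), bin (2 * h) k * ((1 / 2 + Real.cos (Real.pi / 8) / 2) * B +
            B * ((2 * |(K₁ : ℝ)| / 3 ^ n) * 3 ^ k)) :=
          sum_le_sum fun k hk' => mul_le_mul_of_nonneg_left (hk k hk') (hbin k)
      _ = (1 / 2 + Real.cos (Real.pi / 8) / 2) * B * ∑ k ∈ range (2 * h + 1), bin (2 * h) k +
            B * (2 * |(K₁ : ℝ)| / 3 ^ n) * ∑ k ∈ range (2 * h + 1), bin (2 * h) k * 3 ^ k := by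
          rw [mul_sum, mul_sum, ← sum_add_distrib]
          refine sum_congr rfl fun k _ => by ring
      _ = _ := by rw [hsum1, hsum3, mul_one]
  have hfin : B * (2 * |(K₁ : ℝ)| / 3 ^ n) * 2 ^ (2 * h) ≤ 8 / 1000 * B := by
    unfold Tiny at hT
    have e1 : |(kk ξ (s + 1 + h) n : ℝ)| = 2 ^ (2 * h) * |(K₁ : ℝ)| := by
      rw [hK]
      push_cast
      rw [abs_mul, abs_of_nonneg (by positivity : (0 : ℝ) ≤ 4 ^ h), pow_mul]
      norm_num
    rw [e1] at hT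
    have e2 : B * (2 * |(K₁ : ℝ)| / 3 ^ n) * 2 ^ (2 * h) =
        B * ((2 * (2 ^ (2 * h) * |(K₁ : ℝ)|)) / 3 ^ n) := by ring
    rw [e2, mul_comm]
    refine mul_le_mul_of_nonneg_right ?_ hB
    rw [div_le_iff₀ h3n]
    linarith
  have hg : 1 / 2 + Real.cos (Real.pi / 8) / 2 + 8 / 1000 ≤ gam := le_max_right _ _
  calc w ξ (s + 1 + h) n ≤ (1 / 2 + Real.cos (Real.pi / 8) / 2) * B + 8 / 1000 * B := by linarith
    _ = (1 / 2 + Real.cos (Real.pi / 8) / 2 + 8 / 1000) * B := by ring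
    _ ≤ gam * B := mul_le_mul_of_nonneg_right hg hB

theorem stage_exists_four (m : ℕ) : ∀ K : ℤ, K.natAbs ≤ m → K ≠ 0 →
    ∃ (h : ℕ) (K₁ : ℤ), K = 4 ^ h * K₁ ∧ ¬ (4 : ℤ) ∣ K₁ := by
  induction m with
  | zero =>
    intro K hK h0
    exact absurd (Int.natAbs_eq_zero.1 (Nat.le_zero.1 hK)) h0
  | succ m ih =>
    intro K hK h0
    by_cases h4 : (4 : ℤ) ∣ K
    · obtain ⟨K', rfl⟩ := h4
      have h0' : K' ≠ 0 := by rintro rfl; simp at h0
      obtain ⟨h, K₁, e, h4'⟩ := ih K' (by omega) h0'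
      exact ⟨h + 1, K₁, by rw [e]; ring, h4'⟩
    · exact ⟨0, K, by simp, h4⟩

/-- existence of the height -/
theorem exists_height {ξ : ℤ} (hξ : ¬ (3 : ℤ) ∣ ξ) (t : ℕ) {n : ℕ} (hn : 1 ≤ n) :
    ∃ (h : ℕ) (K₁ : ℤ), kk ξ t n = 4 ^ h * K₁ ∧ ¬ (4 : ℤ) ∣ K₁ :=
  stage_exists_four _ _ le_rfl (kk_ne_zero hξ t hn)

/-- the height is at most `0.8 n`: `2^(2h) ≤ |kk| < 3^n`, and `3^5 < 2^8` -/
theorem height_le {ξ K₁ : ℤ} {t h n : ℕ} (hK : kk ξ t n = 4 ^ h * K₁) (hne : K₁ ≠ 0) :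
    5 * (2 * h) ≤ 8 * n := by
  have h1 := kk_lt ξ t n
  rw [hK, abs_mul, abs_of_nonneg (by positivity : (0 : ℤ) ≤ 4 ^ h)] at h1
  have h2 : (1 : ℤ) ≤ |K₁| := Int.one_le_abs hne
  have h3 : (4 : ℤ) ^ h < 3 ^ n := by nlinarith [pow_pos (by norm_num : (0 : ℤ) < 4) h]
  have h4 : (4 : ℕ) ^ h < 3 ^ n := by exact_mod_cast h3
  have h5 : (2 : ℕ) ^ (5 * (2 * h)) < 2 ^ (8 * n) := by
    calc (2 : ℕ) ^ (5 * (2 * h)) = (4 ^ h) ^ 5 := by
          rw [show (4 : ℕ) = 2 ^ 2 by norm_num, ← pow_mul, ← pow_mul]; congr 1; ring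
      _ < (3 ^ n) ^ 5 := Nat.pow_lt_pow_left h4 (by norm_num)
      _ = (3 ^ 5) ^ n := by rw [← pow_mul, ← pow_mul, mul_comm]
      _ ≤ (2 ^ 8) ^ n := Nat.pow_le_pow_left (by norm_num) n
      _ = 2 ^ (8 * n) := by rw [← pow_mul]
  exact ((Nat.pow_lt_pow_iff_right (by norm_num)).1 h5).le

end Pool.Agent.H30.PD
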