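import Pool.Agent.H30.PD.AdvA
import Pool.Agent.H30.PD.AdvB
import Pool.Agent.H30.PD.ParamsB
import Pool.Agent.H30.PD.Mix

/-!
# JOB PD-STEPA. Comparison of two times `l ≤ l'' ≤ 1.01 l` (same cut)

`cv f M k = ∑_{k' ≤ k} f k' bin M (k - k')`.

`st1` : Let `j = cut l`, `S = SG Λ j`, `k0 = 499 l/1000`. `A1` at `(l'', k)` with `r = k0`, `L = l'' - j` (conditions: `params`, `three_pow_le`; `mix 8` gives for
`p ∈ S`, `q = k - p.1 ≥ l/11`: mean `≤ ε = (11/l)^8`): `Z S j L k k ≥ Z S j L k k0 - (Λ+2)(j+1) ε`. `A2` with `a = l - j`, `b = l'' - l`: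
`Z S j L k k0 ≥ ∑_{k0 ≤ k' ≤ k} Z S j (l-j) k' k0 * bin (l''-l) (k-k')`. For `k'` with `Cone l k'` (so `k' ≥ k0` by `params` with `l'' = l`) `A1` at
`(l, k')` gives `Z S j (l-j) k' k0 ≥ AA Λ y l k' - (Λ+2)(j+1) ε`; the other terms are `≥ 0`. `∑ bin ≤ 1` (`sum_bin_le`, reflected). So the total error is
`≤ 2 (Λ+2) (j+1) ε ≤ (Λ+2)/l^6` for large `l`.

`sum_AA_le`: `A4` with `K` = the `k < m` in the cone (`params`, `three_pow_le`).
-/

set_option autoImplicit false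

namespace Pool.Agent.H30.PD

open Finset

/-- convolution with the binomial distribution -/
noncomputable def cv (f : ℕ → ℝ) (M k : ℕ) : ℝ := ∑ k' ∈ range (k + 1), f k' * bin M (k - k')

theorem stepA_Z_nonneg (S : Finset (ℕ × ℕ)) (j L k r : ℕ) (y : ℤ) : 0 ≤ Z S j L k r y := by
  unfold Z
  positivity

theorem AA_nonneg (Λ : ℝ) (y : ℤ) (l k : ℕ) : 0 ≤ AA Λ y l k := by
  unfold AA
  split_ifs
  · exact stepA_Z_nonneg _ _ _ _ _ _
  · exact le_refl 0

theorem AA_eq_zero (Λ : ℝ) (y : ℤ) {l k : ℕ} (h : l < k) : AA Λ y l k = 0 := by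
  unfold AA
  rw [if_neg]
  unfold Cone
  intro h1
  have h2 := le_abs_self (2 * (k : ℤ) - l)
  omega

theorem stepA_cone_half {l : ℕ} (hl : 5000 ≤ l) : Cone (cut l) (cut l / 2) := by
  have h : 500 ≤ cut l := by
    unfold cut
    omega
  unfold Cone
  have h2 : |2 * ((cut l / 2 : ℕ) : ℤ) - (cut l : ℤ)| ≤ 1 := by
    rw [abs_le]
    constructor <;> omega
  omega

theorem stepA_sum_bin_reflect (M k : ℕ) : ∑ k' ∈ range (k + 1), bin M (k - k') ≤ 1 := by
  refine le_trans (le_of_eq ?_) (sum_bin_le M (k + 1))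
  rw [← Finset.sum_range_reflect (fun i => bin M i) (k + 1)]
  refine Finset.sum_congr rfl (fun i hi => ?_)
  congr 1

/-- comparison at one time -/
theorem stepA_cmp {l0 : ℕ} (hmix : ∀ q r L : ℕ, l0 ≤ q → r ≤ q → 23 * q ≤ 25 * r →
      17 * q ≤ 10 * L → (∑ u ∈ range (3 ^ q), |gg L q r u|) / 3 ^ q ≤ 1 / (q : ℝ) ^ 8)
    {l l'' k : ℕ} (hl : 5000 ≤ l) (hl0 : 11 * l0 ≤ l) (h1 : l ≤ l'') (h2 : 100 * l'' ≤ 101 * l)
    {Λ : ℝ} (hΛ : 0 ≤ Λ) (y : ℤ) (hk : Cone l'' k) :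
    |Z (SG Λ (cut l)) (cut l) (l'' - cut l) k k y -
      Z (SG Λ (cut l)) (cut l) (l'' - cut l) k (499 * l / 1000) y| ≤
      (Λ + 2) * (cut l + 1) * (11 / (l : ℝ)) ^ 8 := by
  have hlpos : (0 : ℝ) < l := by
    have : 0 < l := by omega
    exact_mod_cast this
  have hcone : Cone (cut l) (cut l / 2) := stepA_cone_half (by omega)
  obtain ⟨a1, a2, a3, a4, a5, a6, a7⟩ := params hl h1 h2 hk hcone
  refine A1 hΛ (by positivity) (SG Λ (cut l)) (SG_subset _ _) (fun p hp => (mem_SG hp).2)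
    (three_pow_le a1) a2 (fun p hp => ?_) y (fun p hp => ?_)
  · exact (params hl h1 h2 hk (mem_SG hp).1).2.2.1
  · obtain ⟨b1, b2, b3, b4, b5, b6, b7⟩ := params hl h1 h2 hk (mem_SG hp).1
    refine (hmix _ _ _ (by omega) (by omega) b5 b6).trans ?_
    have hq : (0 : ℝ) < ((k - p.1 : ℕ) : ℝ) := by
      have : 0 < k - p.1 := by omega
      exact_mod_cast this
    have hq2 : (l : ℝ) ≤ 11 * ((k - p.1 : ℕ) : ℝ) := by exact_mod_cast b7
    rw [← one_div_pow]
    refine pow_le_pow_left₀ (by positivity) ?_ 8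
    rw [div_le_div_iff₀ hq hlpos]
    linarith

theorem st1 : ∃ l0 : ℕ, ∀ l ≥ l0, ∀ l'' : ℕ, l ≤ l'' → 100 * l'' ≤ 101 * l → ∀ Λ : ℝ, 0 ≤ Λ →
    ∀ (y : ℤ) (k : ℕ), Cone l'' k →
      cv (AA Λ y l) (l'' - l) k - (Λ + 2) / (l : ℝ) ^ 6 ≤
        Z (SG Λ (cut l)) (cut l) (l'' - cut l) k k y := by
  obtain ⟨q0, hq0⟩ := mix 8
  refine ⟨11 * q0 + 5000 + 4 * 11 ^ 8, fun l hl l'' h1 h2 Λ hΛ y k hk => ?_⟩
  have hl5 : 5000 ≤ l := by omega
  have hl11 : 11 * q0 ≤ l := by omega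
  have hlbig : 4 * 11 ^ 8 ≤ l := by omega
  have hmix := hq0
  have hlpos : (0 : ℝ) < l := by
    have : 0 < l := by omega
    exact_mod_cast this
  have hcl : cut l ≤ l := by
    unfold cut
    omega
  set E : ℝ := (Λ + 2) * (cut l + 1) * (11 / (l : ℝ)) ^ 8 with hE
  have hE0 : 0 ≤ E := by positivity
  have hEs : 2 * E ≤ (Λ + 2) / (l : ℝ) ^ 6 := by
    have e1 : (cut l : ℝ) + 1 ≤ 2 * l := by
      have : cut l + 1 ≤ 2 * l := by omega
      exact_mod_cast this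
    have e2 : (4 * 11 ^ 8 : ℝ) ≤ l := by exact_mod_cast hlbig
    rw [hE, div_pow, le_div_iff₀ (by positivity)]
    have e3 : 2 * ((Λ + 2) * (cut l + 1) * (11 ^ 8 / (l : ℝ) ^ 8)) * (l : ℝ) ^ 6 =
        (Λ + 2) * (2 * (cut l + 1) * 11 ^ 8 / (l : ℝ) ^ 2) := by
      field_simp
    rw [e3]
    have e4 : 2 * ((cut l : ℝ) + 1) * 11 ^ 8 / (l : ℝ) ^ 2 ≤ 1 := by
      rw [div_le_one (by positivity)]
      nlinarith
    nlinarith
  have c1 := stepA_cmp (fun q r L h3 h4 h5 h6 => hmix q r L h3 h4 h5 h6) hl5 hl11 h1 h2 hΛ y hk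
  rw [← hE] at c1
  have c2 := (abs_le.1 c1).1
  have c3 := A2 (SG Λ (cut l)) (cut l) (l - cut l) (l'' - l) k (499 * l / 1000) y
  have hLL : l - cut l + (l'' - l) = l'' - cut l := by omega
  rw [hLL] at c3
  have c4 : cv (AA Λ y l) (l'' - l) k ≤
      (∑ k' ∈ (range (k + 1)).filter (fun k' => 499 * l / 1000 ≤ k'),
        Z (SG Λ (cut l)) (cut l) (l - cut l) k' (499 * l / 1000) y * bin (l'' - l) (k - k')) +
      E := by
    have d1 : cv (AA Λ y l) (l'' - l) k =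
        ∑ k' ∈ (range (k + 1)).filter (fun k' => 499 * l / 1000 ≤ k'),
          AA Λ y l k' * bin (l'' - l) (k - k') := by
      unfold cv
      rw [Finset.sum_filter]
      refine Finset.sum_congr rfl (fun k' _ => ?_)
      split_ifs with h
      · rfl
      · have : AA Λ y l k' = 0 := by
          unfold AA
          rw [if_neg]
          intro hc
          have hcone : Cone (cut l) (cut l / 2) := stepA_cone_half hl5
          exact h (params hl5 (le_refl l) (by omega) hc hcone).2.1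
        rw [this, zero_mul]
    have d2 : ∀ k' ∈ (range (k + 1)).filter (fun k' => 499 * l / 1000 ≤ k'),
        AA Λ y l k' * bin (l'' - l) (k - k') ≤
        Z (SG Λ (cut l)) (cut l) (l - cut l) k' (499 * l / 1000) y * bin (l'' - l) (k - k') +
          E * bin (l'' - l) (k - k') := by
      intro k' _
      rw [← add_mul]
      refine mul_le_mul_of_nonneg_right ?_ (bin_nonneg _ _)
      by_cases hc : Cone l k'
      · have d3 := stepA_cmp (fun q r L h3 h4 h5 h6 => hmix q r L h3 h4 h5 h6) hl5 hl11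
          (le_refl l) (by omega) hΛ y hc
        rw [← hE] at d3
        have d4 := (abs_le.1 d3).2
        unfold AA
        rw [if_pos hc]
        linarith
      · have : AA Λ y l k' = 0 := by
          unfold AA
          rw [if_neg hc]
        rw [this]
        exact add_nonneg (stepA_Z_nonneg _ _ _ _ _ _) hE0
    rw [d1]
    refine (Finset.sum_le_sum d2).trans ?_
    rw [Finset.sum_add_distrib, ← Finset.mul_sum]
    have d5 : ∑ k' ∈ (range (k + 1)).filter (fun k' => 499 * l / 1000 ≤ k'),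
        bin (l'' - l) (k - k') ≤ 1 :=
      (Finset.sum_le_sum_of_subset_of_nonneg (Finset.filter_subset _ _)
        (fun i _ _ => bin_nonneg _ _)).trans (stepA_sum_bin_reflect _ _)
    nlinarith
  linarith

theorem sum_AA_le : ∃ l0 : ℕ, ∀ l ≥ l0, ∀ Λ : ℝ, 0 ≤ Λ → ∀ (y : ℤ) (m : ℕ),
    ∑ k ∈ range m, AA Λ y l k ≤ (Λ + 2) * (l + 1) := by
  refine ⟨5000, fun l hl Λ hΛ y m => ?_⟩
  have hcl : cut l ≤ l := by
    unfold cut
    omega
  have hcone : Cone (cut l) (cut l / 2) := stepA_cone_half (by omega)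
  have h1 : ∑ k ∈ range m, AA Λ y l k =
      ∑ k ∈ (range m).filter (fun k => Cone l k),
        Z (SG Λ (cut l)) (cut l) (l - cut l) k k y := by
    rw [Finset.sum_filter]
    rfl
  rw [h1]
  refine (A4 hΛ (SG Λ (cut l)) (SG_subset _ _) (fun p hp => (mem_SG hp).2) y _
    (fun k hk => ⟨?_, fun p hp => ?_⟩)).trans ?_
  · exact three_pow_le
      (params hl (le_refl l) (by omega) (Finset.mem_filter.1 hk).2 hcone).1
  · obtain ⟨b1, b2, b3, -⟩ :=
      params hl (le_refl l) (by omega) (Finset.mem_filter.1 hk).2 (mem_SG hp).1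
    exact b3.trans b2
  · have : (cut l : ℝ) ≤ l := by exact_mod_cast hcl
    nlinarith

end Pool.Agent.H30.PD
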