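import Pool.Agent.H30.PD.StepA

/-!
# JOB PD-STEPB. One step of the iteration

`st2` : For `k ≤ nxt l` in `Cone (nxt l)`: `st1` with `l'' = nxt l`, and `A3` with `j = cut l`, `S = SG Λ (cut l)`, `S' = SG Λ (cut (nxt l))`,
`a = cut (nxt l) - cut l`, `b = nxt l - cut (nxt l)`, `Bd = {q ∈ D a : ¬ Cone a q.1}` (`SG_comp`): `err k = (Λ+2)/l^6 + ls k`.
`|Bd|/2^a ≤ 2 exp(-a/500000)` (`bin_tail` with `x = a/500`, `card_filter_fst`), `a ≥ l/130` (`nxt_spec`). For `k ≤ nxt l` outside the cone put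
`err k = cv (AA Λ y l) (nxt l - l) k` (there `AA Λ y (nxt l) k = 0`); the sum of these is at most
`∑_{k'} AA Λ y l k' * ∑_{i : ¬ Cone (nxt l - l) i} bin (nxt l - l) i ≤ (Λ+2)(l+1) 2 exp(-(nxt l - l)/500000)` (`cone_add`, `sum_AA_le`). For `k > nxt l`
put `err k = 0`: `cv (AA Λ y l) (nxt l - l) k = 0` since `AA Λ y l k' ≠ 0` only for `k' ≤ l` and `bin M i = 0` for `i > M`.
Total: `(1.01 l + 1)(Λ+2)/l^6 + exponentially small * (Λ+2) ≤ (Λ+2)/l^4`.
-/

set_option autoImplicit false

namespace Pool.Agent.H30.PD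

open Finset

theorem stepB_notCone {n k : ℕ} (h : ¬ Cone n k) : (n : ℝ) / 500 ≤ |2 * (k : ℝ) - n| := by
  unfold Cone at h
  push Not at h
  have h1 : ((n : ℤ) : ℝ) < ((500 * |2 * (k : ℤ) - n| : ℤ) : ℝ) := by exact_mod_cast h
  push_cast at h1
  linarith

/-- the binomial mass outside the cone -/
theorem stepB_tail {n : ℕ} (hn : 1 ≤ n) (m : ℕ) :
    ∑ k ∈ (range m).filter (fun k => ¬ Cone n k), bin n k ≤
      2 * Real.exp (-(n : ℝ) / 500000) := by
  classical
  have hn0 : (0 : ℝ) < n := by exact_mod_cast hn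
  have h1 : ∑ k ∈ (range m).filter (fun k => ¬ Cone n k), bin n k =
      ∑ k ∈ ((range m).filter (fun k => ¬ Cone n k)).filter (fun k => k < n + 1), bin n k := by
    symm
    refine Finset.sum_filter_of_ne fun k _ hk => ?_
    by_contra hcon
    exact hk (bin_eq_zero (by omega))
  rw [h1]
  have h2 : ∑ k ∈ ((range m).filter (fun k => ¬ Cone n k)).filter (fun k => k < n + 1), bin n k ≤
      ∑ k ∈ (range (n + 1)).filter (fun k : ℕ => (n : ℝ) / 500 ≤ |2 * (k : ℝ) - n|), bin n k := by
    refine sum_le_sum_of_subset_of_nonneg ?_ fun k _ _ => bin_nonneg n k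
    intro k hk
    rw [mem_filter, mem_filter] at hk
    rw [mem_filter, mem_range]
    exact ⟨hk.2, stepB_notCone hk.1.2⟩
  refine h2.trans ((bin_tail hn (x := (n : ℝ) / 500) (by positivity)).trans (le_of_eq ?_))
  congr 2
  field_simp
  norm_num

/-- the number of words outside the cone -/
theorem stepB_card {a : ℕ} (ha : 1 ≤ a) :
    (((D a).filter fun p => ¬ Cone a p.1).card : ℝ) / 2 ^ a ≤
      2 * Real.exp (-(a : ℝ) / 500000) := by
  have h1 : ((D a).filter fun p => ¬ Cone a p.1).card =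
      ∑ k ∈ (range (a + 1)).filter (fun k => ¬ Cone a k), a.choose k := by
    have hm : ∀ p ∈ (D a).filter (fun p => ¬ Cone a p.1),
        p.1 ∈ (range (a + 1)).filter (fun k => ¬ Cone a k) := by
      intro p hp
      rw [mem_filter] at hp
      rw [mem_filter, mem_range]
      exact ⟨by have := D_le hp.1; omega, hp.2⟩
    rw [card_eq_sum_card_fiberwise hm]
    refine sum_congr rfl fun k hk => ?_
    rw [mem_filter] at hk
    rw [← card_filter_fst, filter_filter]
    congr 1
    refine filter_congr fun p _ => ?_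
    constructor
    · rintro ⟨_, h⟩
      exact h
    · intro h
      exact ⟨by rw [h]; exact hk.2, h⟩
  have h2 : (((D a).filter fun p => ¬ Cone a p.1).card : ℝ) / 2 ^ a =
      ∑ k ∈ (range (a + 1)).filter (fun k => ¬ Cone a k), bin a k := by
    rw [h1]
    push_cast
    rw [sum_div]
    rfl
  rw [h2]
  exact stepB_tail ha _

/-- an exponentially small quantity -/
theorem stepB_exp : ∃ l0 : ℕ, ∀ l ≥ l0, 16 * (l : ℝ) ^ 5 * Real.exp (-(l : ℝ) / 65000000) ≤ 1 := by
  have h1 : Filter.Tendsto (fun x : ℝ => x ^ 5 * Real.exp (-x)) Filter.atTop (nhds 0) :=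
    Real.tendsto_pow_mul_exp_neg_atTop_nhds_zero 5
  have h2 : Filter.Tendsto (fun q : ℕ => (q : ℝ) / 65000000) Filter.atTop Filter.atTop :=
    tendsto_natCast_atTop_atTop.atTop_div_const (by norm_num)
  have h3 := h1.comp h2
  have h4 : ∀ᶠ q : ℕ in Filter.atTop, ((q : ℝ) / 65000000) ^ 5 *
      Real.exp (-((q : ℝ) / 65000000)) < 1 / 16 * (1 / 65000000 ^ 5) := by
    have := h3.eventually_lt_const (show (0 : ℝ) < 1 / 16 * (1 / 65000000 ^ 5) by positivity)
    exact this
  obtain ⟨q1, hq1⟩ := Filter.eventually_atTop.mp h4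
  refine ⟨q1, fun q hq => ?_⟩
  have h5 := hq1 q hq
  have h6 : -(q : ℝ) / 65000000 = -((q : ℝ) / 65000000) := by ring
  rw [h6]
  have h7 : 16 * (q : ℝ) ^ 5 * Real.exp (-((q : ℝ) / 65000000)) =
      (((q : ℝ) / 65000000) ^ 5 * Real.exp (-((q : ℝ) / 65000000))) * (16 * 65000000 ^ 5) := by
    rw [div_pow]
    field_simp
  rw [h7]
  calc (((q : ℝ) / 65000000) ^ 5 * Real.exp (-((q : ℝ) / 65000000))) * (16 * 65000000 ^ 5) ≤
      (1 / 16 * (1 / 65000000 ^ 5)) * (16 * 65000000 ^ 5) :=
        mul_le_mul_of_nonneg_right h5.le (by positivity)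
    _ = 1 := by norm_num

/-- the mass which leaves the cone -/
theorem stepB_leave (Λ : ℝ) (y : ℤ) (l M m : ℕ) (hM : 1 ≤ M) :
    ∑ k ∈ (range m).filter (fun k => ¬ Cone (l + M) k), cv (AA Λ y l) M k ≤
      (∑ k ∈ range m, AA Λ y l k) * (2 * Real.exp (-(M : ℝ) / 500000)) := by
  classical
  set b : ℕ → ℝ := fun i => if Cone M i then 0 else bin M i with hb
  have hb0 : ∀ i, 0 ≤ b i := by
    intro i
    simp only [hb]
    split_ifs
    · exact le_rfl
    · exact bin_nonneg M i
  have h1 : ∑ k ∈ (range m).filter (fun k => ¬ Cone (l + M) k), cv (AA Λ y l) M k ≤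
      ∑ k ∈ range m, ∑ k' ∈ range (k + 1), AA Λ y l k' * b (k - k') := by
    have h2 : ∑ k ∈ (range m).filter (fun k => ¬ Cone (l + M) k), cv (AA Λ y l) M k ≤
        ∑ k ∈ (range m).filter (fun k => ¬ Cone (l + M) k),
          ∑ k' ∈ range (k + 1), AA Λ y l k' * b (k - k') := by
      refine sum_le_sum fun k hk => sum_le_sum fun k' hk' => ?_
      rw [mem_filter] at hk
      rw [mem_range] at hk'
      by_cases hc : Cone l k'
      · have hc2 : ¬ Cone M (k - k') := by
          intro hc3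
          apply hk.2
          have := cone_add hc hc3
          rwa [show k' + (k - k') = k by omega] at this
        simp only [hb, if_neg hc2]
        exact le_rfl
      · have : AA Λ y l k' = 0 := by
          unfold AA
          rw [if_neg hc]
        rw [this]; simp
    refine h2.trans (sum_le_sum_of_subset_of_nonneg (filter_subset _ _) fun k _ _ => ?_)
    exact sum_nonneg fun k' _ => mul_nonneg (AA_nonneg _ _ _ _) (hb0 _)
  refine h1.trans ?_
  rw [sum_range_diag_flip m (fun i j => AA Λ y l i * b j), sum_mul]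
  refine sum_le_sum fun k _ => ?_
  rw [← mul_sum]
  refine mul_le_mul_of_nonneg_left ?_ (AA_nonneg _ _ _ _)
  refine le_trans (le_of_eq ?_) (stepB_tail hM (m - k))
  rw [sum_filter]
  refine sum_congr rfl fun i _ => ?_
  simp only [hb]
  split_ifs <;> rfl

theorem st2 : ∃ l0 : ℕ, ∀ l ≥ l0, ∀ Λ : ℝ, 0 ≤ Λ → ∀ y : ℤ, ∃ err : ℕ → ℝ, (∀ k, 0 ≤ err k) ∧
    (∀ k, cv (AA Λ y l) (nxt l - l) k - err k ≤ AA Λ y (nxt l) k) ∧
      ∀ m, ∑ k ∈ range m, err k ≤ (Λ + 2) / (l : ℝ) ^ 4 := by
  classical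
  obtain ⟨l1, hl1⟩ := st1
  obtain ⟨l2, hl2⟩ := SG_comp
  obtain ⟨l3, hl3⟩ := sum_AA_le
  obtain ⟨l4, hl4⟩ := stepB_exp
  refine ⟨max (max (max l1 l2) (max l3 l4)) 5000, fun l hl Λ hΛ y => ?_⟩
  have hll1 : l1 ≤ l := ((le_max_left _ _).trans ((le_max_left _ _).trans (le_max_left _ _))).trans hl
  have hll2 : l2 ≤ l := ((le_max_right _ _).trans ((le_max_left _ _).trans (le_max_left _ _))).trans hl
  have hll3 : l3 ≤ l := ((le_max_left _ _).trans ((le_max_right _ _).trans (le_max_left _ _))).trans hl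
  have hll4 : l4 ≤ l := ((le_max_right _ _).trans ((le_max_right _ _).trans (le_max_left _ _))).trans hl
  have hl5 : 5000 ≤ l := (le_max_right _ _).trans hl
  obtain ⟨n1, n2, n3, n4, n5, n6, n7, n8⟩ := nxt_spec hl5
  set l' := nxt l with hl'
  set j := cut l with hj
  set j' := cut l' with hj'
  set a := j' - j with ha
  set b := l' - j' with hb
  set M := l' - l with hM
  have hja : j + a = j' := by omega
  have hab : a + b = l' - j := by omega
  have ha1 : 1 ≤ a := by omega
  have hM1 : 1 ≤ M := by omega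
  have hlM : l + M = l' := by omega
  have hjl : j ≤ l := by
    have : (81 * l + 99) / 100 ≤ l := by omega
    exact this
  obtain ⟨ls, ls0, ls1, ls2⟩ := A3 (j := j) (a := a) (b := b) hΛ (SG Λ j) (SG Λ j')
    ((D a).filter fun p => ¬ Cone a p.1) (SG_subset Λ j) (fun p hp => (mem_SG hp).2)
    (filter_subset _ _) (by rw [hja]; exact SG_subset Λ j')
    (by
      intro p hp q hq hqB
      have hc : Cone a q.1 := by
        by_contra hcon
        exact hqB (mem_filter.2 ⟨hq, hcon⟩)
      exact hl2 l hll2 Λ p hp q hq hc) y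
  have hl0 : (0 : ℝ) < l := by
    have : 0 < l := by omega
    exact_mod_cast this
  have hl6 : (5000 : ℝ) ≤ l := by exact_mod_cast hl5
  have hcv0 : ∀ k, 0 ≤ cv (AA Λ y l) M k := fun k =>
    sum_nonneg fun k' _ => mul_nonneg (AA_nonneg _ _ _ _) (bin_nonneg _ _)
  have hE0 : 0 ≤ (Λ + 2) / (l : ℝ) ^ 6 := by positivity
  refine ⟨fun k => if Cone l' k then (Λ + 2) / (l : ℝ) ^ 6 + ls k else cv (AA Λ y l) M k,
    ?_, ?_, ?_⟩
  · intro k
    simp only
    split_ifs
    · exact add_nonneg hE0 (ls0 k)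
    · exact hcv0 k
  · intro k
    simp only
    split_ifs with hc
    · have h1 := hl1 l hll1 l' n1 n2 Λ hΛ y k hc
      have hAA : AA Λ y l' k = Z (SG Λ j') j' b k k y := by
        unfold AA
        rw [if_pos hc]
      have hpar : ∀ i, Cone j i → 8 * k ≤ 5 * j ∧ i ≤ k := by
        intro i hi
        obtain ⟨p1, p2, p3, -⟩ := params hl5 n1 n2 hc hi
        exact ⟨p1, p3.trans p2⟩
      have hCj : Cone j (j / 2) := by
        rw [ParamsA_cone]
        have : 4000 ≤ j := by
          have : 4000 ≤ (81 * l + 99) / 100 := by omega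
          exact this
        omega
      have h2 := ls1 k (three_pow_le (hpar _ hCj).1) (fun p hp => (hpar p.1 (mem_SG hp).1).2)
      rw [hja, hab] at h2
      rw [hAA]
      linarith
    · have := AA_nonneg Λ y l' k
      linarith
  · intro m
    have hsplit : ∑ k ∈ range m, (if Cone l' k then (Λ + 2) / (l : ℝ) ^ 6 + ls k
        else cv (AA Λ y l) M k) =
        ∑ k ∈ (range m).filter (fun k => Cone l' k), ((Λ + 2) / (l : ℝ) ^ 6 + ls k) +
        ∑ k ∈ (range m).filter (fun k => ¬ Cone l' k), cv (AA Λ y l) M k := by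
      rw [sum_ite]
    rw [hsplit, sum_add_distrib]
    have e1 : ∑ k ∈ (range m).filter (fun k => Cone l' k), (Λ + 2) / (l : ℝ) ^ 6 ≤
        2 * l * ((Λ + 2) / (l : ℝ) ^ 6) := by
      rw [sum_const, nsmul_eq_mul]
      refine mul_le_mul_of_nonneg_right ?_ hE0
      have hcard : ((range m).filter (fun k => Cone l' k)).card ≤ 2 * l := by
        have : (range m).filter (fun k => Cone l' k) ⊆ range (2 * l) := by
          intro k hk
          rw [mem_filter, ParamsA_cone] at hk
          rw [mem_range]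
          omega
        exact (card_le_card this).trans (by rw [card_range])
      exact_mod_cast hcard
    have e2 : ∑ k ∈ (range m).filter (fun k => Cone l' k), ls k ≤
        (Λ + 2) * (2 * l) * (2 * Real.exp (-(l : ℝ) / 65000000)) := by
      refine (sum_le_sum_of_subset_of_nonneg (filter_subset _ _) fun k _ _ => ls0 k).trans ?_
      refine (ls2 m).trans ?_
      have h1 := stepB_card ha1
      have h2 : Real.exp (-(a : ℝ) / 500000) ≤ Real.exp (-(l : ℝ) / 65000000) := by
        rw [Real.exp_le_exp]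
        have : (l : ℝ) ≤ 130 * a := by exact_mod_cast n6
        linarith
      have h3 : (j : ℝ) + 1 ≤ 2 * l := by
        have : (j : ℝ) ≤ l := by exact_mod_cast hjl
        linarith
      gcongr
      linarith
    have e3 : ∑ k ∈ (range m).filter (fun k => ¬ Cone l' k), cv (AA Λ y l) M k ≤
        (Λ + 2) * (2 * l) * (2 * Real.exp (-(l : ℝ) / 65000000)) := by
      have h0 := stepB_leave Λ y l M m hM1
      rw [hlM] at h0
      refine h0.trans ?_
      have h1 := hl3 l hll3 Λ hΛ y m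
      have h2 : Real.exp (-(M : ℝ) / 500000) ≤ Real.exp (-(l : ℝ) / 65000000) := by
        rw [Real.exp_le_exp]
        have : (l : ℝ) ≤ 112 * M := by exact_mod_cast n8
        linarith
      have h3 : (l : ℝ) + 1 ≤ 2 * l := by linarith
      have h4 : ∑ k ∈ range m, AA Λ y l k ≤ (Λ + 2) * (2 * l) := by
        refine h1.trans ?_
        gcongr
      gcongr
    have hexp := hl4 l hll4
    have hΛ2 : 0 < Λ + 2 := by linarith
    -- numerics
    have f1 : 2 * l * ((Λ + 2) / (l : ℝ) ^ 6) ≤ (Λ + 2) / (l : ℝ) ^ 4 * (1 / 2) := by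
      rw [show 2 * l * ((Λ + 2) / (l : ℝ) ^ 6) = (Λ + 2) / (l : ℝ) ^ 4 * (2 / l) by
        field_simp]
      refine mul_le_mul_of_nonneg_left ?_ (by positivity)
      rw [div_le_div_iff₀ hl0 (by norm_num)]
      linarith
    have f2 : (Λ + 2) * (2 * l) * (2 * Real.exp (-(l : ℝ) / 65000000)) ≤
        (Λ + 2) / (l : ℝ) ^ 4 * (1 / 4) := by
      rw [show (Λ + 2) * (2 * l) * (2 * Real.exp (-(l : ℝ) / 65000000)) =
        (Λ + 2) / (l : ℝ) ^ 4 * (1 / 4) * (16 * (l : ℝ) ^ 5 * Real.exp (-(l : ℝ) / 65000000)) by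
        field_simp; ring]
      refine mul_le_of_le_one_right (by positivity) hexp
    linarith

end Pool.Agent.H30.PD
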