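import Pool.Agent.H30.PD.Defs

/-!
# JOB PD-WORDS. Elementary properties of the words

Proofs.
* `mem_D_succ`: unfold `D`, `mem_union`, `mem_image`.
* `D_le`: induction. `c_mul_le`: induction; head: `(2c + 3^k) 2^(k+1) = 4 c 2^k + 2 * 6^k ≤ 4 * 2^l 3^k + 2 * 2^l 3^k`
  as `k ≤ l`.
* `card_D`: the two images are disjoint (second component even/odd; `3^k` is odd), and both maps are injective on
  `D l` (for the second: equal second components `2c + 3^k = 2c' + 3^k'` with `k + 1 = k' + 1`).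
* `sum_D_succ`: sum over the disjoint union of the two injective images.
* `sum_D_add`: induction on `b`; `a + (b+1) = (a+b)+1`, use `sum_D_succ` for `D (a+b+1)` and for `D (b+1)`;
  `comp (b+1) p (k, 2c) = (k', 2 c')` and `comp (b+1) p (k+1, 2c + 3^k) = (k'+1, 2c' + 3^k')` with
  `(k',c') = comp b p (k,c)`.
* `D_prepend`: `sum_D_add` with `a = 1`, `b = l` (`1 + l = l + 1`), `D 1 = {(0,0),(1,1)}`.
* `card_filter_fst`: induction on `l` with `sum_D_succ` for the indicator function (Pascal).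
* `comp_mem`: `comp b p q ∈ D (a + b)`; induction on `b`, or from `sum_D_add`. `comp_injOn`: from
  `sum_D_add` with `f = 1` and cardinalities, or directly by induction on `b`.
* `sum_three_pow`: `∑ 3^k = 4^l` (induction). `sum_c`: `∑ (2c) + ∑ (2c + 3^k) = 4 ∑ c + 4^l`.
* `card_large_c`: Markov.
-/

set_option autoImplicit false

namespace Pool.Agent.H30.PD

open Finset

theorem mem_D_succ (l : ℕ) (p : ℕ × ℕ) : p ∈ D (l + 1) ↔
    ∃ q ∈ D l, p = (q.1, 2 * q.2) ∨ p = (q.1 + 1, 2 * q.2 + 3 ^ q.1) := by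
  simp only [D, Finset.mem_union, Finset.mem_image]
  constructor
  · rintro (⟨q, hq, h⟩ | ⟨q, hq, h⟩)
    · exact ⟨q, hq, Or.inl h.symm⟩
    · exact ⟨q, hq, Or.inr h.symm⟩
  · rintro ⟨q, hq, h | h⟩
    · exact Or.inl ⟨q, hq, h.symm⟩
    · exact Or.inr ⟨q, hq, h.symm⟩

theorem Words_parity (a b k : ℕ) : 2 * a ≠ 2 * b + 3 ^ k := by
  intro h
  have h1 : Odd (3 ^ k) := Odd.pow (by decide)
  obtain ⟨m, hm⟩ := h1
  omega

theorem D_le {l : ℕ} {p : ℕ × ℕ} (h : p ∈ D l) : p.1 ≤ l := by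
  induction l generalizing p with
  | zero => simp only [D, Finset.mem_singleton] at h; subst h; simp
  | succ l ih =>
    obtain ⟨q, hq, h1 | h1⟩ := (mem_D_succ l p).1 h
    · have := ih hq; subst h1; simp only; omega
    · have := ih hq; subst h1; simp only; omega

theorem c_mul_le {l : ℕ} {p : ℕ × ℕ} (h : p ∈ D l) : p.2 * 2 ^ p.1 ≤ 2 ^ l * 3 ^ p.1 := by
  induction l generalizing p with
  | zero => simp only [D, Finset.mem_singleton] at h; subst h; simp
  | succ l ih =>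
    obtain ⟨q, hq, h1 | h1⟩ := (mem_D_succ l p).1 h
    · have h2 := ih hq
      subst h1
      simp only
      calc 2 * q.2 * 2 ^ q.1 = 2 * (q.2 * 2 ^ q.1) := by ring
        _ ≤ 2 * (2 ^ l * 3 ^ q.1) := Nat.mul_le_mul_left 2 h2
        _ = 2 ^ (l + 1) * 3 ^ q.1 := by ring
    · have h2 := ih hq
      have h3 : q.1 ≤ l := D_le hq
      have h4 : 2 ^ q.1 ≤ 2 ^ l := Nat.pow_le_pow_right (by norm_num) h3
      subst h1
      simp only
      calc (2 * q.2 + 3 ^ q.1) * 2 ^ (q.1 + 1)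
          = 4 * (q.2 * 2 ^ q.1) + 2 * (2 ^ q.1 * 3 ^ q.1) := by ring
        _ ≤ 4 * (2 ^ l * 3 ^ q.1) + 2 * (2 ^ l * 3 ^ q.1) :=
          Nat.add_le_add (Nat.mul_le_mul_left 4 h2)
            (Nat.mul_le_mul_left 2 (Nat.mul_le_mul_right _ h4))
        _ = 2 ^ (l + 1) * 3 ^ (q.1 + 1) := by ring

theorem Words_inj0 {p q : ℕ × ℕ} (h : (p.1, 2 * p.2) = (q.1, 2 * q.2)) : p = q := by
  have h1 := congrArg Prod.fst h
  have h2 := congrArg Prod.snd h
  simp only at h1 h2
  exact Prod.ext h1 (by omega)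

theorem Words_inj1 {p q : ℕ × ℕ}
    (h : (p.1 + 1, 2 * p.2 + 3 ^ p.1) = (q.1 + 1, 2 * q.2 + 3 ^ q.1)) : p = q := by
  have h1 := congrArg Prod.fst h
  have h2 := congrArg Prod.snd h
  simp only at h1 h2
  have h3 : p.1 = q.1 := by omega
  rw [h3] at h2
  exact Prod.ext h3 (by omega)

theorem sum_D_succ {E : Type*} [AddCommMonoid E] (l : ℕ) (f : ℕ × ℕ → E) :
    ∑ p ∈ D (l + 1), f p = ∑ p ∈ D l, f (p.1, 2 * p.2) +
      ∑ p ∈ D l, f (p.1 + 1, 2 * p.2 + 3 ^ p.1) := by
  have hdis : Disjoint ((D l).image (fun p => (p.1, 2 * p.2)))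
      ((D l).image (fun p => (p.1 + 1, 2 * p.2 + 3 ^ p.1))) := by
    rw [Finset.disjoint_left]
    intro x hx hx'
    obtain ⟨p, _, hp⟩ := Finset.mem_image.1 hx
    obtain ⟨q, _, hq⟩ := Finset.mem_image.1 hx'
    have h1 := congrArg Prod.snd (hp.trans hq.symm)
    simp only at h1
    exact Words_parity _ _ _ h1
  rw [D, Finset.sum_union hdis, Finset.sum_image, Finset.sum_image]
  · intro p _ q _ h
    exact Words_inj1 h
  · intro p _ q _ h
    exact Words_inj0 h

theorem card_D (l : ℕ) : (D l).card = 2 ^ l := by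
  induction l with
  | zero => simp [D]
  | succ l ih =>
    have h := sum_D_succ l (fun _ => (1 : ℕ))
    simp only [Finset.sum_const, smul_eq_mul, mul_one] at h
    rw [h, ih]
    ring

theorem Words_comp0 (b : ℕ) (p q : ℕ × ℕ) :
    comp (b + 1) p (q.1, 2 * q.2) = ((comp b p q).1, 2 * (comp b p q).2) := by
  simp only [comp, Prod.mk.injEq, true_and]
  ring

theorem Words_comp1 (b : ℕ) (p q : ℕ × ℕ) :
    comp (b + 1) p (q.1 + 1, 2 * q.2 + 3 ^ q.1) =
      ((comp b p q).1 + 1, 2 * (comp b p q).2 + 3 ^ (comp b p q).1) := by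
  simp only [comp, Prod.mk.injEq]
  constructor
  · ring
  · ring

theorem Words_comp_zero (p : ℕ × ℕ) : comp 0 p (0, 0) = p := by
  simp [comp]

theorem sum_D_add {E : Type*} [AddCommMonoid E] (a b : ℕ) (f : ℕ × ℕ → E) :
    ∑ p ∈ D (a + b), f p = ∑ p ∈ D a, ∑ q ∈ D b, f (comp b p q) := by
  induction b generalizing f with
  | zero =>
    simp only [Nat.add_zero]
    refine Finset.sum_congr rfl fun p _ => ?_
    simp only [D, Finset.sum_singleton, Words_comp_zero]
  | succ b ih =>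
    rw [← Nat.add_assoc, sum_D_succ, ih, ih, ← Finset.sum_add_distrib]
    refine Finset.sum_congr rfl fun p _ => ?_
    rw [sum_D_succ]
    simp only [Words_comp0, Words_comp1]

theorem D_prepend {E : Type*} [AddCommMonoid E] (l : ℕ) (f : ℕ × ℕ → E) :
    ∑ p ∈ D (l + 1), f p = ∑ p ∈ D l, f p + ∑ p ∈ D l, f (p.1 + 1, 2 ^ l + 3 * p.2) := by
  have h1 : D 1 = {(0, 0), (1, 1)} := by decide
  rw [Nat.add_comm l 1, sum_D_add, h1, Finset.sum_pair (by decide)]
  congr 1
  · refine Finset.sum_congr rfl fun p _ => ?_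
    simp [comp]
  · refine Finset.sum_congr rfl fun p _ => ?_
    simp [comp, Nat.add_comm]

theorem comp_mem {a b : ℕ} {p q : ℕ × ℕ} (hp : p ∈ D a) (hq : q ∈ D b) :
    comp b p q ∈ D (a + b) := by
  induction b generalizing q with
  | zero =>
    simp only [D, Finset.mem_singleton] at hq
    subst hq
    rw [Words_comp_zero]
    exact hp
  | succ b ih =>
    rw [← Nat.add_assoc, mem_D_succ]
    obtain ⟨r, hr, h | h⟩ := (mem_D_succ b q).1 hq
    · exact ⟨comp b p r, ih hr, Or.inl (by rw [h, Words_comp0])⟩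
    · exact ⟨comp b p r, ih hr, Or.inr (by rw [h, Words_comp1])⟩

theorem comp_inj {a b : ℕ} {p q p' q' : ℕ × ℕ} (hp : p ∈ D a) (hq : q ∈ D b) (hp' : p' ∈ D a)
    (hq' : q' ∈ D b) (h : comp b p q = comp b p' q') : p = p' ∧ q = q' := by
  induction b generalizing q q' with
  | zero =>
    simp only [D, Finset.mem_singleton] at hq hq'
    subst hq; subst hq'
    rw [Words_comp_zero, Words_comp_zero] at h
    exact ⟨h, rfl⟩
  | succ b ih =>
    obtain ⟨r, hr, h1 | h1⟩ := (mem_D_succ b q).1 hq <;>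
    obtain ⟨r', hr', h1' | h1'⟩ := (mem_D_succ b q').1 hq'
    · rw [h1, h1', Words_comp0, Words_comp0] at h
      obtain ⟨h2, h3⟩ := ih hr hr' (Words_inj0 h)
      exact ⟨h2, by rw [h1, h1', h3]⟩
    · exfalso
      rw [h1, h1', Words_comp0, Words_comp1] at h
      exact Words_parity _ _ _ (congrArg Prod.snd h)
    · exfalso
      rw [h1, h1', Words_comp1, Words_comp0] at h
      exact Words_parity _ _ _ (congrArg Prod.snd h).symm
    · rw [h1, h1', Words_comp1, Words_comp1] at h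
      obtain ⟨h2, h3⟩ := ih hr hr' (Words_inj1 h)
      exact ⟨h2, by rw [h1, h1', h3]⟩

theorem exists_comp {a b : ℕ} {x : ℕ × ℕ} (hx : x ∈ D (a + b)) :
    ∃ p ∈ D a, ∃ q ∈ D b, x = comp b p q := by
  induction b generalizing x with
  | zero =>
    exact ⟨x, hx, (0, 0), by simp [D], (Words_comp_zero x).symm⟩
  | succ b ih =>
    rw [← Nat.add_assoc, mem_D_succ] at hx
    obtain ⟨r, hr, h | h⟩ := hx
    · obtain ⟨p, hp, q, hq, h1⟩ := ih hr
      exact ⟨p, hp, (q.1, 2 * q.2), (mem_D_succ b _).2 ⟨q, hq, Or.inl rfl⟩,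
        by rw [Words_comp0, ← h1, h]⟩
    · obtain ⟨p, hp, q, hq, h1⟩ := ih hr
      exact ⟨p, hp, (q.1 + 1, 2 * q.2 + 3 ^ q.1), (mem_D_succ b _).2 ⟨q, hq, Or.inr rfl⟩,
        by rw [Words_comp1, ← h1, h]⟩

theorem comp_assoc (b c : ℕ) (p q r : ℕ × ℕ) :
    comp (b + c) p (comp c q r) = comp c (comp b p q) r := by
  simp only [comp, Prod.mk.injEq]
  constructor
  · ring
  · ring

theorem card_filter_fst (l k : ℕ) : ((D l).filter fun p => p.1 = k).card = l.choose k := by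
  induction l generalizing k with
  | zero =>
    rcases Nat.eq_zero_or_pos k with rfl | h
    · simp [D, Finset.filter_singleton]
    · have h1 : ¬ (0 = k) := by omega
      simp [D, Finset.filter_singleton, h1, Nat.choose_eq_zero_of_lt h]
  | succ l ih =>
    rw [Finset.card_filter, sum_D_succ]
    simp only
    rw [← Finset.card_filter, ← Finset.card_filter, ih]
    rcases k with _ | k
    · simp
    · have h1 : ((D l).filter fun p => p.1 + 1 = k + 1) = (D l).filter fun p => p.1 = k := by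
        refine Finset.filter_congr fun p _ => ?_
        omega
      rw [h1, ih, Nat.choose_succ_succ]
      simp [Nat.add_comm]

theorem sum_three_pow (l : ℕ) : ∑ p ∈ D l, 3 ^ p.1 = 4 ^ l := by
  induction l with
  | zero => simp [D]
  | succ l ih =>
    rw [sum_D_succ]
    simp only
    have h : ∑ p ∈ D l, 3 ^ (p.1 + 1) = 3 * ∑ p ∈ D l, 3 ^ p.1 := by
      rw [Finset.mul_sum]
      exact Finset.sum_congr rfl fun p _ => by ring
    rw [h, ih]
    ring

theorem sum_c (l : ℕ) : 4 * ∑ p ∈ D l, p.2 = l * 4 ^ l := by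
  induction l with
  | zero => simp [D]
  | succ l ih =>
    rw [sum_D_succ]
    simp only
    rw [Finset.sum_add_distrib, sum_three_pow, ← Finset.mul_sum]
    calc 4 * (2 * ∑ p ∈ D l, p.2 + (2 * ∑ p ∈ D l, p.2 + 4 ^ l))
        = 4 * (4 * ∑ p ∈ D l, p.2) + 4 * 4 ^ l := by ring
      _ = 4 * (l * 4 ^ l) + 4 * 4 ^ l := by rw [ih]
      _ = (l + 1) * 4 ^ (l + 1) := by ring

open Classical in
theorem card_large_c (l : ℕ) (lam : ℝ) (hlam : 0 < lam) :
    (((D l).filter fun p => lam * 2 ^ l < (p.2 : ℝ)).card : ℝ) ≤ l / (4 * lam) * 2 ^ l := by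
  set F := (D l).filter fun p => lam * 2 ^ l < (p.2 : ℝ) with hF
  have h1 : (F.card : ℝ) * (lam * 2 ^ l) ≤ ∑ p ∈ D l, (p.2 : ℝ) := by
    calc (F.card : ℝ) * (lam * 2 ^ l) = ∑ p ∈ F, lam * 2 ^ l := by
          rw [Finset.sum_const, nsmul_eq_mul]
      _ ≤ ∑ p ∈ F, (p.2 : ℝ) := Finset.sum_le_sum fun p hp => (Finset.mem_filter.1 hp).2.le
      _ ≤ ∑ p ∈ D l, (p.2 : ℝ) :=
          Finset.sum_le_sum_of_subset_of_nonneg (Finset.filter_subset _ _)
            fun _ _ _ => Nat.cast_nonneg _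
  have h2 : 4 * ∑ p ∈ D l, (p.2 : ℝ) = l * 4 ^ l := by
    have := sum_c l
    exact_mod_cast this
  have h3 : (0 : ℝ) < 2 ^ l := by positivity
  have h4 : (4 : ℝ) ^ l = 2 ^ l * 2 ^ l := by
    rw [← mul_pow]; norm_num
  have h5 : (F.card : ℝ) * (4 * lam) ≤ l * 2 ^ l := by
    have h6 : (F.card : ℝ) * (4 * lam) * 2 ^ l ≤ l * 2 ^ l * 2 ^ l := by
      calc (F.card : ℝ) * (4 * lam) * 2 ^ l = 4 * ((F.card : ℝ) * (lam * 2 ^ l)) := by ring
        _ ≤ 4 * ∑ p ∈ D l, (p.2 : ℝ) := by linarith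
        _ = l * 2 ^ l * 2 ^ l := by rw [h2, h4]; ring
    exact le_of_mul_le_mul_right h6 h3
  rw [div_mul_eq_mul_div, le_div_iff₀ (by positivity)]
  exact h5

end Pool.Agent.H30.PD
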